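import Pool.Agent.P.MP_20768c_nt.Defs

namespace Pool.Agent.P.MP_20768c_nt

open Classical in
/-- The coefficient of `γ^j` (`γ` the class of `1 + q`, `q = p ^ wd p`) in the Mazur, Tate element
`θ_n(ψ) = ∑_{a mod q p^n} ψ(a) [a / (q p^n)] σ_a` of the `n`-th layer of the cyclotomic
`ℤ_p`-extension. -/
noncomputable def theta {p : ℕ} [Fact p.Prime] (S : ℚ → ℂ_[p])
    (ψ : DirichletCharacter ℂ_[p] (p ^ wd p)) (n j : ℕ) : ℂ_[p] :=
  ∑ a ∈ Finset.range (p ^ (n + wd p)),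
    if IsLog p n a j then ψ (a : ZMod (p ^ wd p)) * S ((a : ℚ) / (p : ℚ) ^ (n + wd p)) else 0

end Pool.Agent.P.MP_20768c_nt
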