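import Pool.Agent.P.MP_20768c_nt.Defs

open Complex UpperHalfPlane Filter Topology CongruenceSubgroup ModularForm Asymptotics
open scoped MatrixGroups

namespace Pool.Agent.P.MP_20768c_nt

variable {M : ℕ} [NeZero M]

open ConjAct Pointwise Matrix.SpecialLinearGroup in
lemma an1_arith (Γ : Subgroup (GL (Fin 2) ℝ)) [Γ.IsArithmetic] (g : SL(2, ℤ)) :
    (toConjAct (g : GL (Fin 2) ℝ)⁻¹ • Γ).IsArithmetic := by
  simpa [(show Rat.castHom ℝ = algebraMap ℚ ℝ by rfl), map_inv, map_mapGL]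
    using! Subgroup.IsArithmetic.conj Γ (mapGL ℚ g)⁻¹

lemma an1_prim {Γ : Subgroup (GL (Fin 2) ℝ)} [Γ.IsArithmetic] (g : CuspForm Γ 2) :
    ∃ E : ℂ → ℂ, (∀ z : ℍ, HasDerivAt E (g z) z) ∧
      Tendsto (fun z : ℍ => E z) atImInfty (𝓝 0) := by
  have hh : 0 < Γ.strictWidthInfty := Γ.strictWidthInfty_pos_iff.mpr Fact.out
  have hΓ : Γ.strictWidthInfty ∈ Γ.strictPeriods := Γ.strictWidthInfty_mem_strictPeriods
  generalize Γ.strictWidthInfty = h at hh hΓ
  have hd : DifferentiableOn ℂ (cuspFunction h g) (Metric.ball 0 1) := fun q hq =>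
    (ModularFormClass.differentiableAt_cuspFunction g hh hΓ
      (mem_ball_zero_iff.mp hq)).differentiableWithinAt
  have h0 : cuspFunction h g 0 = 0 := CuspFormClass.cuspFunction_apply_zero g hh hΓ
  have hds : DifferentiableOn ℂ (dslope (cuspFunction h g) 0) (Metric.ball 0 1) :=
    (Complex.differentiableOn_dslope (Metric.ball_mem_nhds _ one_pos)).2 hd
  obtain ⟨Φ, hΦ0, hΦ⟩ := hds.isExactOn_ball.with_val_at 0 0
  have hc : (h : ℂ) ≠ 0 := by exact_mod_cast hh.ne'
  have hpi : (2 * Real.pi * Complex.I : ℂ) ≠ 0 := two_pi_I_ne_zero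
  refine ⟨fun z => h / (2 * Real.pi * Complex.I) * Φ (Function.Periodic.qParam h z), fun z => ?_, ?_⟩
  · have hq : ‖Function.Periodic.qParam h z‖ < 1 := Function.Periodic.norm_qParam_lt_one hh z.im_pos
    have h1 : HasDerivAt (Function.Periodic.qParam h)
        (Function.Periodic.qParam h z * (2 * Real.pi * Complex.I / h)) z := by
      have := (((hasDerivAt_id (z : ℂ)).const_mul (2 * Real.pi * Complex.I)).div_const (h : ℂ)).cexp
      simpa [Function.Periodic.qParam] using! this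
    have h2 := ((hΦ _ (mem_ball_zero_iff.mpr hq)).comp (z : ℂ) h1).const_mul
      (h / (2 * Real.pi * Complex.I))
    have h3 := sub_smul_dslope (cuspFunction h g) 0 (Function.Periodic.qParam h z)
    rw [h0, sub_zero, sub_zero, SlashInvariantFormClass.eq_cuspFunction g z hΓ hh.ne',
      smul_eq_mul] at h3
    refine h2.congr_deriv ?_
    rw [← h3]
    field_simp
  · have h1 : ContinuousAt Φ 0 := (hΦ 0 (Metric.mem_ball_self one_pos)).continuousAt
    have h2 := (h1.tendsto.comp (qParam_tendsto_atImInfty hh)).const_mul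
      ((h : ℂ) / (2 * Real.pi * Complex.I))
    rw [hΦ0, mul_zero] at h2
    exact h2

/-- exponential decay at every cusp -/
lemma slash_decay (f : CuspForm (Gamma1 M) 2) (σ : SL(2, ℤ)) :
    ∃ c > 0, (⇑f ∣[(2 : ℤ)] σ) =O[atImInfty] fun τ : ℍ => Real.exp (-c * τ.im) := by
  have := an1_arith (Gamma1 M) σ
  exact CuspFormClass.exp_decay_atImInfty' (CuspForm.translate f σ)

/-- the primitive of `f ∣ σ` that vanishes at infinity -/
lemma slash_prim (f : CuspForm (Gamma1 M) 2) (σ : SL(2, ℤ)) :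
    ∃ E : ℂ → ℂ, (∀ z : ℍ, HasDerivAt E ((⇑f ∣[(2 : ℤ)] σ) z) z) ∧
      Tendsto (fun z : ℍ => E z) atImInfty (𝓝 0) := by
  have := an1_arith (Gamma1 M) σ
  exact an1_prim (CuspForm.translate f σ)

end Pool.Agent.P.MP_20768c_nt
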