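import Pool.Agent.P.MP_20768c_nt.An1

open Complex UpperHalfPlane Filter Topology CongruenceSubgroup ModularForm Asymptotics
open scoped MatrixGroups

namespace Pool.Agent.P.MP_20768c_nt

variable {M : ℕ} [NeZero M]

/-- `E` is the Eichler integral of `g` -/
def IsEich (g : ℍ → ℂ) (E : ℂ → ℂ) : Prop :=
  (∀ z : ℍ, HasDerivAt E (g z) z) ∧ Tendsto (fun z : ℍ => E z) atImInfty (𝓝 0)

/-- two primitives differ by a constant -/
lemma prim_const {E1 E2 : ℂ → ℂ} {g : ℍ → ℂ} (h1 : ∀ z : ℍ, HasDerivAt E1 (g z) z)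
    (h2 : ∀ z : ℍ, HasDerivAt E2 (g z) z) : ∃ κ : ℂ, ∀ z : ℍ, E1 z = κ + E2 z := by
  have ho : IsOpen {z : ℂ | 0 < z.im} := isOpen_lt continuous_const Complex.continuous_im
  have hp : IsPreconnected {z : ℂ | 0 < z.im} := (convex_halfSpace_im_gt 0).isPreconnected
  obtain ⟨κ, hκ⟩ := ho.exists_eq_add_of_deriv_eq (f := E1) (g := E2) hp
    (fun z hz => (h1 ⟨z, hz⟩).differentiableAt.differentiableWithinAt)
    (fun z hz => (h2 ⟨z, hz⟩).differentiableAt.differentiableWithinAt)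
    (fun z hz => (h1 ⟨z, hz⟩).deriv.trans (h2 ⟨z, hz⟩).deriv.symm)
  exact ⟨κ, fun z => by rw [add_comm]; exact hκ z.im_pos⟩

/-- chain rule: `E ∘ σ` is a primitive of `g ∣ σ` -/
lemma prim_comp {E : ℂ → ℂ} {g : ℍ → ℂ} (h : ∀ z : ℍ, HasDerivAt E (g z) z) (σ : SL(2, ℤ))
    (z : ℍ) : HasDerivAt (fun w : ℂ => E ((σ • ofComplex w : ℍ) : ℂ)) ((g ∣[(2 : ℤ)] σ) z) z := by
  have hdet : (σ : GL (Fin 2) ℝ).val.det = 1 :=
    (Matrix.SpecialLinearGroup.map (Int.castRingHom ℝ) σ).det_coe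
  have h1 := (hasStrictDerivAt_smul (g := (σ : GL (Fin 2) ℝ)) (hdet ▸ one_pos) z).hasDerivAt
  have h2 : HasDerivAt E (g (σ • z)) ((fun w : ℂ =>
      (((σ : GL (Fin 2) ℝ) • ofComplex w : ℍ) : ℂ)) z) := by
    simpa only [ofComplex_apply, ModularGroup.sl_moeb] using h (σ • z)
  have h3 := h2.comp (z : ℂ) h1
  have e : denom σ z ^ (-(2 : ℤ)) = ((1 : ℝ) : ℂ) / denom σ z ^ 2 := by
    rw [zpow_neg, ofReal_one, one_div, zpow_ofNat]
  rw [SL_slash_apply, e, ← hdet]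
  exact h3

/-- the value of `E` at the cusp `σ ∞` -/
lemma exists_kappa (f : CuspForm (Gamma1 M) 2) {E : ℂ → ℂ} (hE : IsEich f E) (σ : SL(2, ℤ)) :
    ∃ (κ : ℂ) (E' : ℂ → ℂ), IsEich (⇑f ∣[(2 : ℤ)] σ) E' ∧
      ∀ z : ℍ, E ((σ • z : ℍ) : ℂ) = κ + E' z := by
  obtain ⟨E', h1, h2⟩ := slash_prim f σ
  obtain ⟨κ, hκ⟩ := prim_const (prim_comp hE.1 σ) h1
  exact ⟨κ, E', ⟨h1, h2⟩, fun z => by simpa only [ofComplex_apply] using hκ z⟩

/-- every rational number is the image of infinity -/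
lemma exists_sl (r : ℚ) : ∃ σ : SL(2, ℤ), σ 1 0 ≠ 0 ∧ r = (σ 0 0 : ℚ) / (σ 1 0 : ℚ) := by
  have hc : IsCoprime r.num (r.den : ℤ) := by
    rw [Int.isCoprime_iff_gcd_eq_one]
    exact r.reduced
  obtain ⟨u, v, huv⟩ := hc
  refine ⟨⟨!![r.num, -v; (r.den : ℤ), u], ?_⟩, ?_, ?_⟩
  · rw [Matrix.det_fin_two_of]
    linear_combination huv
  · simp
  · simp [Rat.num_div_den]

/-- the vertical line at `a / c` pulled back by `σ` -/
lemma vert_eq (σ : SL(2, ℤ)) (hc : σ 1 0 ≠ 0) {y : ℝ} (hy : 0 < y) :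
    ∃ w : ℍ, w.im = 1 / ((σ 1 0 : ℝ) ^ 2 * y) ∧
      denom σ w = Complex.I / ((σ 1 0 : ℂ) * y) ∧
      σ • w = ofComplex ((((σ 0 0 : ℚ) / (σ 1 0 : ℚ) : ℚ) : ℂ) + (y : ℂ) * Complex.I) := by
  have hcR : (σ 1 0 : ℝ) ≠ 0 := by exact_mod_cast hc
  have hcC : (σ 1 0 : ℂ) ≠ 0 := by exact_mod_cast hc
  have hyC : (y : ℂ) ≠ 0 := by exact_mod_cast hy.ne'
  have hdet : (σ 0 0 : ℂ) * σ 1 1 - σ 0 1 * σ 1 0 = 1 := by
    have := σ.det_coe
    rw [Matrix.det_fin_two] at this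
    exact_mod_cast this
  have hpos : 0 < 1 / ((σ 1 0 : ℝ) ^ 2 * y) := by positivity
  let w : ℍ := ⟨((-(σ 1 1 : ℝ) / (σ 1 0 : ℝ) : ℝ) : ℂ) +
    ((1 / ((σ 1 0 : ℝ) ^ 2 * y) : ℝ) : ℂ) * Complex.I, by
      simpa only [add_im, ofReal_im, mul_im, ofReal_re, Complex.I_im, Complex.I_re, mul_one,
        mul_zero, add_zero, zero_add] using hpos⟩
  have hw : (w : ℂ) = -(σ 1 1 : ℂ) / (σ 1 0 : ℂ) + 1 / ((σ 1 0 : ℂ) ^ 2 * y) * Complex.I := by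
    simp only [w]
    push_cast
    rfl
  have hd : (σ 1 0 : ℂ) * w + σ 1 1 = Complex.I / ((σ 1 0 : ℂ) * y) := by
    rw [hw]
    field_simp
    ring
  refine ⟨w, ?_, ?_, ?_⟩
  · change (w : ℂ).im = _
    simp only [w, add_im, ofReal_im, mul_im, ofReal_re, Complex.I_im, Complex.I_re, mul_one,
      mul_zero, add_zero, zero_add]
  · rw [ModularGroup.denom_apply]
    exact hd
  · rw [ofComplex_apply_of_im_pos (by simpa using hy)]
    ext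
    rw [coe_specialLinearGroup_apply]
    simp only [eq_intCast, ofReal_intCast]
    rw [hd, hw]
    push_cast
    field_simp
    linear_combination (-(σ 1 0 : ℂ) * y) * hdet - ((σ 1 0 : ℂ) * y) * Complex.I_mul_I

end Pool.Agent.P.MP_20768c_nt
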