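import Pool.Agent.P.MP_20768c_nt.An2

open Complex UpperHalfPlane Filter Topology CongruenceSubgroup ModularForm Asymptotics
open scoped MatrixGroups

namespace Pool.Agent.P.MP_20768c_nt

variable {M : ℕ} [NeZero M]

lemma an3_im (r : ℚ) (y : ℝ) : ((r : ℂ) + (y : ℂ) * Complex.I).im = y := by simp

lemma an3_coe (r : ℚ) {y : ℝ} (hy : 0 < y) :
    ((ofComplex ((r : ℂ) + (y : ℂ) * Complex.I) : ℍ) : ℂ) = (r : ℂ) + (y : ℂ) * Complex.I := by
  rw [ofComplex_apply_of_im_pos (by rw [an3_im]; exact hy)]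

lemma an3_top (r : ℚ) :
    Tendsto (fun y : ℝ => ofComplex ((r : ℂ) + (y : ℂ) * Complex.I)) atTop atImInfty := by
  rw [atImInfty, tendsto_comap_iff]
  refine tendsto_id.congr' ?_
  filter_upwards [eventually_gt_atTop 0] with y hy
  simp only [Function.comp, id]
  rw [← coe_im, an3_coe r hy, an3_im]

lemma an3_inv {c : ℝ} (hc : c ≠ 0) :
    Tendsto (fun y : ℝ => 1 / (c ^ 2 * y)) (𝓝[>] 0) atTop := by
  have h : Tendsto (fun y : ℝ => (c ^ 2)⁻¹ * y⁻¹) (𝓝[>] 0) atTop :=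
    tendsto_inv_nhdsGT_zero.const_mul_atTop (by positivity)
  refine h.congr fun y => ?_
  rw [one_div, mul_inv]

lemma an3_w (σ : SL(2, ℤ)) (hc : σ 1 0 ≠ 0) :
    ∃ w : ℝ → ℍ, Tendsto w (𝓝[>] 0) atImInfty ∧ ∀ y : ℝ, 0 < y →
      (w y).im = 1 / ((σ 1 0 : ℝ) ^ 2 * y) ∧
      denom σ (w y) = Complex.I / ((σ 1 0 : ℂ) * y) ∧
      σ • w y = ofComplex ((((σ 0 0 : ℚ) / (σ 1 0 : ℚ) : ℚ) : ℂ) + (y : ℂ) * Complex.I) := by
  have h : ∀ y : ℝ, ∃ w : ℍ, 0 < y → (w.im = 1 / ((σ 1 0 : ℝ) ^ 2 * y) ∧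
      denom σ w = Complex.I / ((σ 1 0 : ℂ) * y) ∧
      σ • w = ofComplex ((((σ 0 0 : ℚ) / (σ 1 0 : ℚ) : ℚ) : ℂ) + (y : ℂ) * Complex.I)) := by
    intro y
    by_cases hy : 0 < y
    · obtain ⟨w, hw⟩ := vert_eq σ hc hy
      exact ⟨w, fun _ => hw⟩
    · exact ⟨UpperHalfPlane.I, fun h => absurd h hy⟩
  choose w hw using h
  refine ⟨w, ?_, hw⟩
  rw [atImInfty, tendsto_comap_iff]
  refine (an3_inv (c := (σ 1 0 : ℝ)) (by exact_mod_cast hc)).congr' ?_
  filter_upwards [self_mem_nhdsWithin] with y hy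
  exact ((hw y hy).1).symm

lemma an3_zero (f : CuspForm (Gamma1 M) 2) (r : ℚ) :
    Tendsto (fun y : ℝ => f (ofComplex ((r : ℂ) + (y : ℂ) * Complex.I))) (𝓝[>] 0) (𝓝 0) := by
  obtain ⟨σ, hc, rfl⟩ := exists_sl r
  obtain ⟨w, hw, h⟩ := an3_w σ hc
  obtain ⟨c, hc0, hO⟩ := slash_decay f σ
  have hcR : (σ 1 0 : ℝ) ≠ 0 := by exact_mod_cast hc
  have h1 := hO.comp_tendsto hw
  have h2 : (fun y : ℝ => denom σ (w y) ^ 2) =O[𝓝[>] 0] fun y : ℝ => (w y).im ^ 2 := by
    refine IsBigO.of_bound ((σ 1 0 : ℝ) ^ 2) ?_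
    filter_upwards [self_mem_nhdsWithin] with y hy
    have hy' : (0 : ℝ) < y := hy
    rw [(h y hy').1, (h y hy').2.1, norm_pow, norm_div, norm_mul, Complex.norm_I,
      Complex.norm_intCast, Complex.norm_real, Real.norm_eq_abs, Real.norm_eq_abs,
      abs_of_pos hy', abs_sq, div_pow, mul_pow, sq_abs]
    apply le_of_eq
    field_simp
  have h3 : Tendsto (fun t : ℝ => Real.exp (-c * t) * t ^ 2) atTop (𝓝 0) := by
    have h4 := (Real.tendsto_pow_mul_exp_neg_atTop_nhds_zero 2).comp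
      (tendsto_id.const_mul_atTop hc0)
    have h5 := h4.const_mul (c ^ 2)⁻¹
    rw [mul_zero] at h5
    refine h5.congr fun t => ?_
    simp only [Function.comp, id, neg_mul]
    field_simp
  have h6 : Tendsto (fun y : ℝ => (w y).im) (𝓝[>] 0) atTop := by
    have := hw
    rw [atImInfty, tendsto_comap_iff] at this
    exact this
  refine ((h1.mul h2).trans_tendsto (h3.comp h6)).congr' ?_
  filter_upwards [self_mem_nhdsWithin] with y hy
  have hy' : (0 : ℝ) < y := hy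
  simp only [Function.comp]
  rw [SL_slash_apply, (h y hy').2.2, mul_assoc]
  have hd : denom σ (w y) ≠ 0 := denom_ne_zero _ _
  have : denom σ (w y) ^ (-(2 : ℤ)) * denom σ (w y) ^ 2 = 1 := by
    rw [zpow_neg, zpow_ofNat, inv_mul_cancel₀ (pow_ne_zero 2 hd)]
  rw [this, mul_one]

omit [NeZero M] in
lemma an3_cont (f : CuspForm (Gamma1 M) 2) (r : ℚ) {y : ℝ} (hy : 0 < y) :
    ContinuousAt (fun y : ℝ => f (ofComplex ((r : ℂ) + (y : ℂ) * Complex.I))) y := by
  have h1 : DifferentiableOn ℂ (⇑f ∘ ofComplex) {z | 0 < z.im} :=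
    UpperHalfPlane.mdifferentiable_iff.1 f.holo'
  have h2 : ContinuousAt (⇑f ∘ ofComplex) ((r : ℂ) + (y : ℂ) * Complex.I) :=
    (h1.differentiableAt ((isOpen_lt continuous_const Complex.continuous_im).mem_nhds
      (by simpa using hy))).continuousAt
  exact ContinuousAt.comp (f := fun y : ℝ => (r : ℂ) + (y : ℂ) * Complex.I) h2 (by fun_prop)

lemma an3_ext {φ : ℝ → ℂ} {κ : ℂ} (h : Tendsto φ (𝓝[>] 0) (𝓝 κ)) :
    ContinuousWithinAt (fun y : ℝ => if 0 < y then φ y else κ) (Set.Ici 0) 0 := by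
  rw [← continuousWithinAt_Ioi_iff_Ici, ContinuousWithinAt, if_neg (lt_irrefl _)]
  refine h.congr' ?_
  filter_upwards [self_mem_nhdsWithin] with y hy
  rw [if_pos (show 0 < y from hy)]

theorem sym_int (f : CuspForm (Gamma1 M) 2) (r : ℚ) :
    MeasureTheory.IntegrableOn (fun y : ℝ => f (ofComplex ((r : ℂ) + (y : ℂ) * Complex.I)))
      (Set.Ioi 0) := by
  obtain ⟨c, hc, hO⟩ := slash_decay f 1
  rw [SlashAction.slash_one] at hO
  set F : ℝ → ℂ := fun y : ℝ => f (ofComplex ((r : ℂ) + (y : ℂ) * Complex.I)) with hF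
  have hG : ContinuousOn (fun y : ℝ => if 0 < y then F y else 0) (Set.Ici 0) := by
    intro y hy
    rcases eq_or_lt_of_le (show 0 ≤ y from hy) with rfl | hy'
    · exact an3_ext (an3_zero f r)
    · refine ((an3_cont f r hy').congr ?_).continuousWithinAt
      filter_upwards [lt_mem_nhds hy'] with t ht
      rw [if_pos ht]
  have hB : (fun y : ℝ => if 0 < y then F y else 0) =O[atTop] fun y : ℝ => Real.exp (-c * y) := by
    refine (hO.comp_tendsto (an3_top r)).congr' ?_ ?_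
    · filter_upwards [eventually_gt_atTop 0] with y hy
      rw [if_pos hy]; rfl
    · filter_upwards [eventually_gt_atTop 0] with y hy
      simp only [Function.comp]
      rw [← coe_im, an3_coe r hy, an3_im]
  have h1 := integrable_of_isBigO_exp_neg hc hG.norm hB.norm_left
  have h2 : MeasureTheory.IntegrableOn (fun y : ℝ => if 0 < y then F y else 0) (Set.Ioi 0) :=
    (MeasureTheory.integrable_norm_iff
      ((hG.mono Set.Ioi_subset_Ici_self).aestronglyMeasurable measurableSet_Ioi)).1 h1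
  exact h2.congr_fun (fun y hy => if_pos hy) measurableSet_Ioi

/-- the modular symbol is the value of the Eichler integral at the cusp -/
theorem sym_eq (f : CuspForm (Gamma1 M) 2) {E : ℂ → ℂ} (hE : IsEich f E) (σ : SL(2, ℤ))
    (hc : σ 1 0 ≠ 0) {κ : ℂ} (hκ : Tendsto (fun z : ℍ => E ((σ • z : ℍ) : ℂ)) atImInfty (𝓝 κ)) :
    sym f ((σ 0 0 : ℚ) / (σ 1 0 : ℚ)) = 2 * Real.pi * Complex.I * κ := by
  obtain ⟨w, hw, h⟩ := an3_w σ hc
  set r : ℚ := (σ 0 0 : ℚ) / (σ 1 0 : ℚ) with hr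
  have h0 : Tendsto (fun y : ℝ => E ((r : ℂ) + (y : ℂ) * Complex.I)) (𝓝[>] 0) (𝓝 κ) := by
    refine (hκ.comp hw).congr' ?_
    filter_upwards [self_mem_nhdsWithin] with y hy
    simp only [Function.comp]
    rw [(h y hy).2.2, an3_coe r hy]
  have hd : ∀ y ∈ Set.Ioi (0 : ℝ), HasDerivAt
      (fun y : ℝ => if 0 < y then E ((r : ℂ) + (y : ℂ) * Complex.I) else κ)
      (Complex.I * f (ofComplex ((r : ℂ) + (y : ℂ) * Complex.I))) y := by
    intro y hy
    have h1 := hE.1 (ofComplex ((r : ℂ) + (y : ℂ) * Complex.I))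
    rw [an3_coe r hy] at h1
    have h2 : HasDerivAt (fun z : ℂ => (r : ℂ) + z * Complex.I) Complex.I (y : ℂ) := by
      simpa using ((hasDerivAt_id (y : ℂ)).mul_const Complex.I).const_add (r : ℂ)
    have h3 := (HasDerivAt.comp (y : ℂ) (h₂ := E) h1 h2).comp_ofReal
    rw [mul_comm] at h3
    refine h3.congr_of_eventuallyEq ?_
    filter_upwards [lt_mem_nhds (show 0 < y from hy)] with t ht
    rw [if_pos ht]; rfl
  have ht : Tendsto (fun y : ℝ => if 0 < y then E ((r : ℂ) + (y : ℂ) * Complex.I) else κ)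
      atTop (𝓝 0) := by
    refine (hE.2.comp (an3_top r)).congr' ?_
    filter_upwards [eventually_gt_atTop 0] with y hy
    simp only [Function.comp]
    rw [if_pos hy, an3_coe r hy]
  have hI := MeasureTheory.integral_Ioi_of_hasDerivAt_of_tendsto (an3_ext h0) hd
    ((sym_int f r).const_mul Complex.I) ht
  rw [MeasureTheory.integral_const_mul, if_neg (lt_irrefl _)] at hI
  unfold sym
  have hI2 : Complex.I * Complex.I = -1 := Complex.I_mul_I
  linear_combination (-2 * (Real.pi : ℂ) * Complex.I) * hI +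
    (2 * (Real.pi : ℂ) * ∫ y in Set.Ioi (0 : ℝ),
      f (ofComplex ((r : ℂ) + (y : ℂ) * Complex.I))) * hI2

end Pool.Agent.P.MP_20768c_nt
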