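import Pool.Agent.P.MP_20768c_nt.RA

namespace Pool.Agent.P.MP_20768c_nt

/-- the value of a symbol at the cusp `x / y`, with value `0` at infinity -/
def Fv {K : Type*} [Zero K] (S : ℚ → K) (x y : ℚ) : K := if y = 0 then 0 else S (x / y)

lemma Fv_zero {K : Type*} [Zero K] (S : ℚ → K) (x : ℚ) : Fv S x 0 = 0 := by simp [Fv]

lemma Fv_of_ne {K : Type*} [Zero K] (S : ℚ → K) (x : ℚ) {y : ℚ} (hy : y ≠ 0) :
    Fv S x y = S (x / y) := by simp [Fv, hy]

lemma Fv_smul {K : Type*} [Zero K] (S : ℚ → K) (x y : ℚ) {u : ℚ} (hu : u ≠ 0) :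
    Fv S (u * x) (u * y) = Fv S x y := by
  by_cases hy : y = 0
  · simp [Fv, hy]
  · rw [Fv_of_ne S _ (mul_ne_zero hu hy), Fv_of_ne S _ hy, mul_div_mul_left _ _ hu]

/-- transformation law of a weight two modular symbol of level `M` and character `ε` -/
def TLaw {K : Type*} [Field K] (M : ℕ) (ε : DirichletCharacter K M) (S : ℚ → K) : Prop :=
  ∀ a b c d : ℤ, a * d - b * c = 1 → (M : ℤ) ∣ c → ∀ x y : ℚ, (x ≠ 0 ∨ y ≠ 0) →
    Fv S (a * x + b * y) (c * x + d * y) = Fv S a c + ε (d : ZMod M) * Fv S x y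

/-- Hecke relation at `p` with eigenvalue `A` -/
def HLaw {K : Type*} [Field K] (p M : ℕ) (ε : DirichletCharacter K M) (A : K) (S : ℚ → K) : Prop :=
  ∀ r : ℚ, A * S r = ∑ k ∈ Finset.range p, S ((r + k) / p) + ε (p : ZMod M) * S (p * r)

section
variable {K : Type*} [Field K] {M : ℕ} {ε : DirichletCharacter K M} {S : ℚ → K}

lemma TLaw.per (hT : TLaw M ε S) (r : ℚ) (z : ℤ) : S (r + z) = S r := by
  have := hT 1 z 0 1 (by simp) (by simp) r 1 (Or.inr one_ne_zero)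
  simpa [Fv] using this

lemma char_cong (ε : DirichletCharacter K M) {x y : ℤ} (h : (M : ℤ) ∣ x - y) :
    ε (x : ZMod M) = ε (y : ZMod M) := by
  congr 1
  rw [ZMod.intCast_eq_intCast_iff_dvd_sub]
  simpa using h.neg_right

lemma char_one (ε : DirichletCharacter K M) {x : ℤ} (h : (M : ℤ) ∣ x - 1) :
    ε (x : ZMod M) = 1 := by
  rw [char_cong ε h]; simp

lemma char_zero (ε : DirichletCharacter K M) {p : ℕ} (hp : p.Prime) (hM : p ∣ M) {x : ℤ}
    (h : (p : ℤ) ∣ x) : ε (x : ZMod M) = 0 := by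
  apply MulChar.map_nonunit
  rw [ZMod.coe_int_isUnit_iff_isCoprime]
  intro hc
  have h1 : (p : ℤ) ∣ (M : ℤ) := by exact_mod_cast hM
  have := hc.isUnit_of_dvd' h1 h
  rw [Int.isUnit_iff_natAbs_eq] at this
  exact hp.one_lt.ne' (by simpa using this)

end

section
variable {K : Type*} [NormedField K] {M : ℕ}

lemma char_norm_le (ε : DirichletCharacter K M) (x : ZMod M) : ‖ε x‖ ≤ 1 :=
  DirichletCharacter.norm_le_one ε x

lemma char_norm_unit (ε : DirichletCharacter K M) {x : ZMod M} (hx : IsUnit x) : ‖ε x‖ = 1 := by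
  obtain ⟨u, rfl⟩ := hx
  exact DirichletCharacter.unit_norm_eq_one ε u

end

end Pool.Agent.P.MP_20768c_nt
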