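import Pool.Agent.P.MP_20768c_nt.An3
import Pool.Agent.P.MP_20768c_nt.SD

open Complex UpperHalfPlane Filter Topology CongruenceSubgroup ModularForm Asymptotics
open scoped MatrixGroups

namespace Pool.Agent.P.MP_20768c_nt

variable {M : ℕ} [NeZero M]

/-- the same with the cusp at infinity allowed -/
theorem Fv_sym_eq (f : CuspForm (Gamma1 M) 2) {E : ℂ → ℂ} (hE : IsEich f E) (σ : SL(2, ℤ))
    {κ : ℂ} (hκ : Tendsto (fun z : ℍ => E ((σ • z : ℍ) : ℂ)) atImInfty (𝓝 κ)) :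
    Fv (sym f) (σ 0 0 : ℚ) (σ 1 0 : ℚ) = 2 * Real.pi * Complex.I * κ := by
  by_cases hc : σ 1 0 = 0
  · have h1 : Tendsto (fun z : ℍ => σ • z) atImInfty atImInfty :=
      UpperHalfPlane.tendsto_smul_atImInfty (g := (σ : GL (Fin 2) ℝ)) (by simp [hc])
    have h2 : κ = 0 := tendsto_nhds_unique hκ (hE.2.comp h1)
    simp [hc, h2, Fv_zero]
  · rw [Fv_of_ne _ _ (by exact_mod_cast hc)]
    exact sym_eq f hE σ hc hκ

lemma an4_lim (f : CuspForm (Gamma1 M) 2) {E : ℂ → ℂ} (hE : IsEich f E) (σ : SL(2, ℤ)) :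
    ∃ κ : ℂ, Tendsto (fun z : ℍ => E ((σ • z : ℍ) : ℂ)) atImInfty (𝓝 κ) := by
  obtain ⟨κ, E', hE', h⟩ := exists_kappa f hE σ
  refine ⟨κ, ?_⟩
  simp only [h]
  simpa using hE'.2.const_add κ

omit [NeZero M] in
lemma an4_col {x y : ℚ} (h : x ≠ 0 ∨ y ≠ 0) :
    ∃ (σ : SL(2, ℤ)) (u : ℚ), u ≠ 0 ∧ x = u * (σ 0 0 : ℚ) ∧ y = u * (σ 1 0 : ℚ) := by
  by_cases hy : y = 0
  · exact ⟨1, x, h.resolve_right (fun h' => h' hy), by simp, by simp [hy]⟩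
  · obtain ⟨σ, hc, e⟩ := exists_sl (x / y)
    have hc' : (σ 1 0 : ℚ) ≠ 0 := by exact_mod_cast hc
    refine ⟨σ, y / (σ 1 0 : ℚ), div_ne_zero hy hc', ?_, ?_⟩
    · rw [div_eq_div_iff hy hc'] at e
      field_simp
      linear_combination e
    · field_simp

theorem sym_T (ε : DirichletCharacter ℂ M) (f : CuspForm (Gamma1 M) 2)
    (hε : ∀ γ ∈ Gamma0 M, ⇑f ∣[(2 : ℤ)] γ = ε ((γ 1 1 : ℤ) : ZMod M) • ⇑f) :
    TLaw M ε (sym f) := by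
  obtain ⟨E, hE1, hE2⟩ := slash_prim f 1
  rw [SlashAction.slash_one] at hE1
  have hE : IsEich f E := ⟨hE1, hE2⟩
  intro a b c d hdet hM x y hxy
  let γ : SL(2, ℤ) := ⟨!![a, b; c, d], by rw [Matrix.det_fin_two_of]; exact hdet⟩
  have hγ : γ ∈ Gamma0 M := by
    rw [Gamma0_mem]
    exact (ZMod.intCast_zmod_eq_zero_iff_dvd c M).2 hM
  have hs : ⇑f ∣[(2 : ℤ)] γ = ε ((d : ℤ) : ZMod M) • ⇑f := hε γ hγ
  obtain ⟨κ, hκ⟩ := prim_const (g := ⇑f ∣[(2 : ℤ)] γ) (prim_comp hE1 γ)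
    (E2 := fun w => ε ((d : ℤ) : ZMod M) * E w) (fun z => by
      rw [hs]
      exact (hE1 z).const_mul _)
  simp only [ofComplex_apply] at hκ
  have lγ : Tendsto (fun z : ℍ => E ((γ • z : ℍ) : ℂ)) atImInfty (𝓝 κ) := by
    simp only [hκ]
    simpa using (hE2.const_mul (ε ((d : ℤ) : ZMod M))).const_add κ
  obtain ⟨σ, u, hu, rfl, rfl⟩ := an4_col hxy
  obtain ⟨κ', lσ⟩ := an4_lim f hE σ
  have lγσ : Tendsto (fun z : ℍ => E (((γ * σ) • z : ℍ) : ℂ)) atImInfty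
      (𝓝 (κ + ε ((d : ℤ) : ZMod M) * κ')) := by
    simp only [mul_smul, hκ]
    exact (lσ.const_mul _).const_add κ
  have e1 := Fv_sym_eq f hE γ lγ
  have e2 := Fv_sym_eq f hE σ lσ
  have e3 := Fv_sym_eq f hE (γ * σ) lγσ
  have m0 : (γ * σ) 0 0 = a * σ 0 0 + b * σ 1 0 := by
    simp [γ, Matrix.mul_apply, Fin.sum_univ_two]
  have m1 : (γ * σ) 1 0 = c * σ 0 0 + d * σ 1 0 := by
    simp [γ, Matrix.mul_apply, Fin.sum_univ_two]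
  have g0 : γ 0 0 = a := rfl
  have g1 : γ 1 0 = c := rfl
  rw [g0, g1] at e1
  rw [m0, m1] at e3
  push_cast at e3
  have r0 : (a : ℚ) * (u * (σ 0 0 : ℚ)) + b * (u * (σ 1 0 : ℚ))
      = u * (a * (σ 0 0 : ℚ) + b * (σ 1 0 : ℚ)) := by ring
  have r1 : (c : ℚ) * (u * (σ 0 0 : ℚ)) + d * (u * (σ 1 0 : ℚ))
      = u * (c * (σ 0 0 : ℚ) + d * (σ 1 0 : ℚ)) := by ring
  rw [r0, r1, Fv_smul _ _ _ hu, Fv_smul _ _ _ hu, e1, e2, e3]
  ring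

end Pool.Agent.P.MP_20768c_nt
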