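import Pool.Agent.P.MP_20768c_nt.An3
import Pool.Agent.P.MP_20768c_nt.SD

open Complex UpperHalfPlane Filter Topology CongruenceSubgroup ModularForm Asymptotics
open scoped MatrixGroups

namespace Pool.Agent.P.MP_20768c_nt

variable {M : ℕ} [NeZero M]

theorem sym_H {p : ℕ} (hp : p ≠ 0) (ε : DirichletCharacter ℂ M) (f : CuspForm (Gamma1 M) 2) (a : ℂ)
    (hT : ∀ z : ℍ, (p : ℂ)⁻¹ * ∑ k ∈ Finset.range p, f (ofComplex (((z : ℂ) + k) / p)) +
      ε (p : ZMod M) * p * f (ofComplex (p * (z : ℂ))) = a * f z) :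
    HLaw p M ε a (sym f) := by
  intro r
  have hp0 : (0 : ℝ) < p := by exact_mod_cast Nat.pos_of_ne_zero hp
  have hpc : (p : ℂ) ≠ 0 := by exact_mod_cast hp
  let g : ℚ → ℝ → ℂ := fun t y => f (ofComplex ((t : ℂ) + (y : ℂ) * Complex.I))
  have hint : ∀ (t : ℚ) (b : ℝ), 0 < b →
      MeasureTheory.IntegrableOn (fun y => g t (b * y)) (Set.Ioi 0) := by
    intro t b hb
    rw [MeasureTheory.integrableOn_Ioi_comp_mul_left_iff (g t) 0 hb, mul_zero]
    exact sym_int f t
  have hsub : ∀ (t : ℚ) (b : ℝ), 0 < b →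
      ∫ y in Set.Ioi (0 : ℝ), g t (b * y) = (b : ℂ)⁻¹ * ∫ y in Set.Ioi (0 : ℝ), g t y := by
    intro t b hb
    rw [MeasureTheory.integral_comp_mul_left_Ioi (g t) 0 hb, mul_zero, Complex.real_smul,
      Complex.ofReal_inv]
  have hpt : ∀ y ∈ Set.Ioi (0 : ℝ), a * g r y =
      (p : ℂ)⁻¹ * ∑ k ∈ Finset.range p, g ((r + k) / p) ((p : ℝ)⁻¹ * y) +
        ε (p : ZMod M) * p * g (p * r) (p * y) := by
    intro y hy
    have him : 0 < ((r : ℂ) + (y : ℂ) * Complex.I).im := by simpa using hy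
    have hz : ((ofComplex ((r : ℂ) + (y : ℂ) * Complex.I) : ℍ) : ℂ) =
        (r : ℂ) + (y : ℂ) * Complex.I := by
      rw [ofComplex_apply_of_im_pos him]
    have h := hT (ofComplex ((r : ℂ) + (y : ℂ) * Complex.I))
    rw [hz] at h
    have e1 : ∀ k : ℕ, ((r : ℂ) + (y : ℂ) * Complex.I + k) / p =
        (((r + k) / p : ℚ) : ℂ) + (((p : ℝ)⁻¹ * y : ℝ) : ℂ) * Complex.I := by
      intro k
      push_cast
      field_simp
      ring
    have e2 : (p : ℂ) * ((r : ℂ) + (y : ℂ) * Complex.I) =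
        ((p * r : ℚ) : ℂ) + (((p : ℝ) * y : ℝ) : ℂ) * Complex.I := by
      push_cast
      ring
    simp only [e1, e2] at h
    exact h.symm
  have hI : a * ∫ y in Set.Ioi (0 : ℝ), g r y =
      ∑ k ∈ Finset.range p, (∫ y in Set.Ioi (0 : ℝ), g ((r + k) / p) y) +
        ε (p : ZMod M) * ∫ y in Set.Ioi (0 : ℝ), g (p * r) y := by
    have i1 : ∀ k ∈ Finset.range p, MeasureTheory.Integrable
        (fun y => g ((r + k) / p) ((p : ℝ)⁻¹ * y))
        (MeasureTheory.volume.restrict (Set.Ioi 0)) := fun k _ => hint _ _ (inv_pos.2 hp0)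
    have i2 : MeasureTheory.Integrable (fun y => g (p * r) ((p : ℝ) * y))
        (MeasureTheory.volume.restrict (Set.Ioi 0)) := hint _ _ hp0
    rw [← MeasureTheory.integral_const_mul,
      MeasureTheory.setIntegral_congr_fun measurableSet_Ioi hpt,
      MeasureTheory.integral_add
        ((MeasureTheory.integrable_finsetSum _ i1).const_mul _) (i2.const_mul _),
      MeasureTheory.integral_const_mul, MeasureTheory.integral_const_mul,
      MeasureTheory.integral_finsetSum _ i1, hsub _ _ hp0, Finset.mul_sum]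
    congr 1
    · refine Finset.sum_congr rfl fun k _ => ?_
      rw [hsub _ _ (inv_pos.2 hp0)]
      push_cast
      field_simp
    · push_cast
      field_simp
  have hs : ∀ t : ℚ, sym f t = 2 * Real.pi * ∫ y in Set.Ioi (0 : ℝ), g t y := fun _ => rfl
  simp only [hs]
  rw [← Finset.mul_sum]
  linear_combination (2 * Real.pi : ℂ) * hI

section
variable {K K' : Type*} [Field K] [Field K'] {p N : ℕ} {ε : DirichletCharacter K N} {S : ℚ → K}

lemma TLaw.map (ι : K →+* K') (h : TLaw N ε S) : TLaw N (ε.ringHomComp ι) fun r => ι (S r) := by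
  have hF : ∀ x y : ℚ, Fv (fun r => ι (S r)) x y = ι (Fv S x y) := by
    intro x y
    unfold Fv
    split_ifs <;> simp
  intro a b c d hd hc x y hxy
  rw [hF, hF, hF, h a b c d hd hc x y hxy, map_add, map_mul, MulChar.ringHomComp_apply]

lemma HLaw.map (ι : K →+* K') {A : K} (h : HLaw p N ε A S) :
    HLaw p N (ε.ringHomComp ι) (ι A) fun r => ι (S r) := by
  intro r
  have := congrArg ι (h r)
  simpa [map_sum, MulChar.ringHomComp_apply] using this

lemma TLaw.symm (s : K) (h : TLaw N ε S) : TLaw N ε fun r => S r + s * S (-r) := by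
  have hF : ∀ x y : ℚ, Fv (fun r => S r + s * S (-r)) x y = Fv S x y + s * Fv S (-x) y := by
    intro x y
    unfold Fv
    split_ifs
    · simp
    · rw [neg_div]
  intro a b c d hd hc x y hxy
  have h1 := h a b c d hd hc x y hxy
  have h2 := h a (-b) (-c) d (by linarith) hc.neg_right (-x) y
    (hxy.imp_left fun hx => neg_ne_zero.2 hx)
  have e1 : ((a : ℚ) * -x + ((-b : ℤ) : ℚ) * y) = -((a : ℚ) * x + b * y) := by push_cast; ring
  have e2 : (((-c : ℤ) : ℚ) * -x + (d : ℚ) * y) = (c : ℚ) * x + d * y := by push_cast; ring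
  have e3 : Fv S (a : ℚ) ((-c : ℤ) : ℚ) = Fv S (-(a : ℚ)) (c : ℚ) := by
    rw [← Fv_smul S (a : ℚ) ((-c : ℤ) : ℚ) (u := -1) (by norm_num)]
    congr 1
    · ring
    · push_cast; ring
  rw [e1, e2, e3] at h2
  rw [hF, hF, hF, h1, h2]
  ring

lemma HLaw.symm (hp : p ≠ 0) (s : K) {A : K} (hT : TLaw N ε S) (h : HLaw p N ε A S) :
    HLaw p N ε A fun r => S r + s * S (-r) := by
  intro r
  have hpq : (p : ℚ) ≠ 0 := by exact_mod_cast hp
  let G : ℕ → K := fun j => S ((-r + j) / p)
  have hG : G p = G 0 := by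
    have := hT.per ((-r + (0 : ℕ)) / p) 1
    simp only [G]
    rw [← this]
    congr 1
    push_cast
    field_simp
    ring
  have h1 : ∑ k ∈ Finset.range p, G (k + 1) = ∑ k ∈ Finset.range p, G k := by
    have a1 := Finset.sum_range_succ G p
    have a2 := Finset.sum_range_succ' G p
    rw [a1, hG] at a2
    exact (add_right_cancel a2).symm
  have h2 : ∑ k ∈ Finset.range p, S (-((r + k) / p)) = ∑ k ∈ Finset.range p, G k := by
    rw [← h1, ← Finset.sum_range_reflect (fun k => G (k + 1)) p]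
    refine Finset.sum_congr rfl fun k hk => ?_
    have hk' := Finset.mem_range.1 hk
    have e : ((p - 1 - k + 1 : ℕ) : ℚ) = p - k := by
      have : p - 1 - k + 1 = p - k := by omega
      rw [this, Nat.cast_sub hk'.le]
    simp only [G]
    rw [e, ← hT.per (-((r + k) / p)) 1]
    congr 1
    push_cast
    field_simp
    ring
  have h3 := h r
  have h4 := h (-r)
  rw [mul_neg] at h4
  simp only
  rw [Finset.sum_add_distrib, ← Finset.mul_sum, h2]
  simp only [G]
  linear_combination h3 + s * h4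

end

end Pool.Agent.P.MP_20768c_nt
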