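import Pool.Agent.P.MP_20768c_nt.B1a

namespace Pool.Agent.P.MP_20768c_nt
open M2

lemma b1_ne {p : ℕ} (hp : p.Prime) {N : ℤ} (hN : IsCoprime N (p : ℤ)) : N ≠ 0 := by
  rintro rfl
  exact (Nat.prime_iff_prime_int.1 hp).not_isUnit (isCoprime_zero_left.1 hN)

lemma b1_cop {p : ℕ} {z w : ℤ} {x y : ℚ} (hz : IsCoprime z (p : ℤ)) (hx : RM p 1 x)
    (hy : RM p 1 y) (h : z * x - y * w = 1) : IsCoprime z w := by
  obtain ⟨k, x', hx'⟩ := hx
  obtain ⟨j, y', hy'⟩ := hy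
  have h1 : z * x' * (p : ℤ) ^ j - y' * (p : ℤ) ^ k * w = (p : ℤ) ^ (k + j) := by
    have : (z : ℚ) * x' * (p : ℚ) ^ j - y' * (p : ℚ) ^ k * w = (p : ℚ) ^ (k + j) := by
      push_cast at hx' hy'
      rw [pow_add]
      linear_combination (p : ℚ) ^ k * (p : ℚ) ^ j * h - z * (p : ℚ) ^ j * hx' +
        w * (p : ℚ) ^ k * hy'
    exact_mod_cast this
  obtain ⟨u, v, huv⟩ := hz.pow_right (n := k + j)
  exact ⟨u + v * x' * (p : ℤ) ^ j, -(v * y' * (p : ℤ) ^ k), by linear_combination huv + v * h1⟩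

lemma b1_gen0 {p : ℕ} (hp : p.Prime) {N : ℤ} (hN : IsCoprime N (p : ℤ)) (r : ℕ) {h : M2}
    (hh : h ∈ Gam p N 1) (hc : h.c ≠ 0) : ∃ (t s' t' : ℚ) (g : M2), RM p 1 t ∧ RM p N s' ∧
      RM p 1 t' ∧ Int1 (N * (p : ℤ) ^ r) g ∧ h = e t * l s' * g * e t' := by
  have hN0 := b1_ne hp hN
  have hN1 : (N : ℚ) ≠ 0 := by exact_mod_cast hN0
  obtain ⟨z, t, ht, ha, hz⟩ := RM.approx hp hc hh.2.2.1.to_one hh.1.of_sub_one (r + 1) 1
  have hz1 : IsCoprime z (p : ℤ) := by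
    obtain ⟨y, hy⟩ := hz
    exact ⟨1, -((p : ℤ) ^ r * y), by linear_combination hy⟩
  have hz0 : (z : ℚ) ≠ 0 := by exact_mod_cast b1_ne hp hz1
  obtain ⟨w, s, hs, hc', hw⟩ := RM.approx hp hz0 (RM.int p z) (hh.2.2.1.div_self hN0) r 0
  rw [sub_zero] at hw
  have hs' : RM p N ((N : ℚ) * s) := (RM.of_dvd p (dvd_refl N)).mul_r hs
  obtain ⟨h2, hh2⟩ : ∃ h2, h2 = (l ((N : ℚ) * s))⁻¹ * ((e t)⁻¹ * h) := ⟨_, rfl⟩
  have m2 : h2 ∈ Gam p N 1 := hh2 ▸ mul_mem (inv_mem (l_mem hs')) (mul_mem (inv_mem (e_mem ht)) hh)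
  have a2 : h2.a = z := by
    rw [hh2]; simp; linear_combination ha
  have c2 : h2.c = ((N * w : ℤ) : ℚ) := by
    rw [div_eq_iff hN1] at hc'
    rw [hh2]; simp; linear_combination hc' - N * s * ha
  have d2 := h2.det
  rw [a2, c2] at d2
  obtain ⟨u, v, huv⟩ := b1_cop hz1 m2.2.2.2.of_sub_one m2.2.1 d2
  have huv' : (u : ℚ) * z + v * ((N * w : ℤ) : ℚ) = 1 := by exact_mod_cast huv
  have hNz : N ∣ z - 1 := RM.dvd_of_int hN (by
    have := m2.1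
    rw [a2] at this
    exact_mod_cast this)
  have hNz' : N * (p : ℤ) ^ r ∣ z - 1 :=
    (hN.pow_right (n := r)).mul_dvd hNz ((pow_dvd_pow _ (Nat.le_succ r)).trans hz)
  have hNw : N * (p : ℤ) ^ r ∣ N * w := mul_dvd_mul_left N hw
  let g : M2 := ⟨z, (-v : ℤ), (N * w : ℤ), u, by push_cast at huv' ⊢; linear_combination huv'⟩
  have hg : Int1 (N * (p : ℤ) ^ r) g := ⟨z, -v, N * w, u, rfl, rfl, rfl, rfl, hNw, by
    have : u - 1 = -(u * (z - 1)) - v * (N * w) := by linear_combination huv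
    rw [this]
    exact (hNz'.mul_left u).neg_right.sub (hNw.mul_left v)⟩
  have m3 : g⁻¹ * h2 ∈ Gam p N 1 := mul_mem (inv_mem (hg.mem (dvd_mul_right _ _))) m2
  have a3 : (g⁻¹ * h2).a = 1 := by
    rw [mul_a, a2, c2]
    simp only [g, inv_a, inv_b]
    push_cast at huv' ⊢
    linear_combination huv'
  have c3 : (g⁻¹ * h2).c = 0 := by
    rw [mul_c, a2, c2]
    simp only [g, inv_c, inv_d]
    ring
  have d3 := (g⁻¹ * h2).det
  rw [a3, c3, one_mul, mul_zero, sub_zero] at d3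
  have e3 : g⁻¹ * h2 = e (g⁻¹ * h2).b := M2.ext a3 rfl c3 d3
  refine ⟨t, N * s, (g⁻¹ * h2).b, g, ht, hs', m3.2.1, hg, ?_⟩
  rw [← e3, hh2]
  group

/-- `Γ₁(N p^r)` and the unipotents generate -/
lemma b1_gen {p : ℕ} (hp : p.Prime) {N : ℤ} (hN : IsCoprime N (p : ℤ)) (r : ℕ) {h : M2}
    (hh : h ∈ Gam p N 1) : ∃ (s t s' t' : ℚ) (g : M2), RM p N s ∧ RM p 1 t ∧ RM p N s' ∧
      RM p 1 t' ∧ Int1 (N * (p : ℤ) ^ r) g ∧ h = l s * e t * l s' * g * e t' := by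
  by_cases hc : h.c = 0
  · have hN1 : (N : ℚ) ≠ 0 := by exact_mod_cast b1_ne hp hN
    have hl : RM p N (N : ℚ) := RM.of_dvd p (dvd_refl N)
    have ha : h.a ≠ 0 := fun h0 => by
      have := h.det
      rw [h0, hc] at this
      simp at this
    obtain ⟨t, s', t', g, h1, h2, h3, h4, h5⟩ := b1_gen0 hp hN r (mul_mem (l_mem hl) hh)
      (by simp [hc, hN1, ha])
    refine ⟨-N, t, s', t', g, hl.neg, h1, h2, h3, h4, ?_⟩
    rw [l_neg, mul_assoc, mul_assoc, mul_assoc, eq_inv_mul_iff_mul_eq, h5]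
    group
  · obtain ⟨t, s', t', g, h1, h2, h3, h4, h5⟩ := b1_gen0 hp hN r hh hc
    exact ⟨0, t, s', t', g, RM.zero p N, h1, h2, h3, h4, by rw [l_zero, one_mul, h5]⟩

theorem b1 {A : Type*} [AddCommGroup A] {p : ℕ} (hp : p.Prime) {N : ℤ}
    (hN : IsCoprime N (p : ℤ)) (r : ℕ) {m : ℕ} (hm : 0 < m) (Φ : M2 → A)
    (hU : ∀ h ∈ Gam p N 1, ∀ t, RM p 1 t → Φ (h * e t) = Φ h)
    (hL : ∀ h ∈ Gam p N 1, ∀ t, RM p N t → Φ (h * l t) = Φ h)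
    (hu : (p : ℚ) ^ m ≠ 0) (hDm : D ((p : ℚ) ^ m) hu ∈ Gam p N 1)
    (hD : ∀ h ∈ Gam p N 1, Φ (h * D ((p : ℚ) ^ m) hu) = Φ h)
    (hΔ : ∀ g, Int1 (N * (p : ℤ) ^ r) g → ∀ h ∈ Gam p N 1, Φ (g * h) = Φ g + Φ h) :
    IsHom (Gam p N 1) Φ := by
  have hN0 := b1_ne hp hN
  have hN1 : (N : ℚ) ≠ 0 := by exact_mod_cast hN0
  let S : Subgroup M2 :=
    { carrier := {s | s ∈ Gam p N 1 ∧ ∀ h ∈ Gam p N 1, Φ (h * s) = Φ h}
      one_mem' := ⟨one_mem _, fun h _ => by rw [mul_one]⟩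
      mul_mem' := fun {a b} ha hb => ⟨mul_mem ha.1 hb.1, fun h hh => by
        rw [← mul_assoc, hb.2 _ (mul_mem hh ha.1), ha.2 h hh]⟩
      inv_mem' := fun {a} ha => ⟨inv_mem ha.1, fun h hh => by
        rw [← ha.2 _ (mul_mem hh (inv_mem ha.1)), inv_mul_cancel_right]⟩ }
  have hSe : ∀ t, RM p 1 t → e t ∈ S := fun t ht => ⟨e_mem ht, fun h hh => hU h hh t ht⟩
  have hSl : ∀ t, RM p N t → l t ∈ S := fun t ht => ⟨l_mem ht, fun h hh => hL h hh t ht⟩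
  have hSD : D ((p : ℚ) ^ m) hu ∈ S := ⟨hDm, hD⟩
  have h1 : Φ 1 = 0 := by
    have := hΔ 1 ⟨1, 0, 0, 1, by simp, by simp, by simp, by simp, by simp, by simp⟩ 1 (one_mem _)
    simpa using this
  have h0 : ∀ s ∈ S, Φ s = 0 := fun s hs => by
    have := hs.2 1 (one_mem _)
    rwa [one_mul, h1] at this
  have LE : ∀ t, RM p 1 t → ∀ g ∈ Gam p N 1, Φ (e t * g) = Φ g := fun t ht g hg => by
    obtain ⟨t0, k1, k2, k3⟩ := b1_conj_e hp hm S hSe hSl hu hSD hg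
    obtain ⟨z, s, hs, rfl, -⟩ := RM.approx hp k1 k2 ht 0 0
    have e1 : e (z + t0 * s) * g = e z * (g * (g⁻¹ * e (t0 * s) * g)) := by
      rw [e_add]; group
    rw [e1, hΔ _ ⟨1, z, 0, 1, by simp, by simp, by simp, by simp, by simp, by simp⟩ _
      (mul_mem hg (k3 s hs).1), (k3 s hs).2 g hg, h0 _ (hSe _ (RM.int p z)), zero_add]
  have LL : ∀ t, RM p N t → ∀ g ∈ Gam p N 1, Φ (l t * g) = Φ g := fun t ht g hg => by
    obtain ⟨t0, k1, k2, k3⟩ := b1_conj_l hp hN0 hm S hSe hSl hu hSD hg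
    obtain ⟨z, s, hs, k4, k5⟩ := RM.approx hp k1 k2 (ht.div_self hN0) r 0
    rw [sub_zero] at k5
    rw [div_eq_iff hN1] at k4
    have hs' : RM p N ((N : ℚ) * s) := (RM.of_dvd p (dvd_refl N)).mul_r hs
    have e0 : t = N * z + t0 * (N * s) := by linear_combination k4
    have e1 : l t * g = l (N * z) * (g * (g⁻¹ * l (t0 * (N * s)) * g)) := by
      rw [e0, l_add]; group
    rw [e1, hΔ _ ⟨1, 0, N * z, 1, by simp, by simp, by simp, by simp, mul_dvd_mul_left N k5,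
      by simp⟩ _ (mul_mem hg (k3 _ hs').1), (k3 _ hs').2 g hg, h0 _ (hSl _ (RM.int_mul p N z)),
      zero_add]
  intro h hh
  obtain ⟨s, t, s', t', g, k1, k2, k3, k4, k5, rfl⟩ := b1_gen hp hN r hh
  have hg : g ∈ Gam p N 1 := k5.mem (dvd_mul_right _ _)
  have key : ∀ k ∈ Gam p N 1, Φ (l s * e t * l s' * g * e t' * k) = Φ g + Φ k := fun k hk => by
    have m1 := mul_mem (e_mem (N := N) k4) hk
    have m2 := mul_mem hg m1
    have m3 := mul_mem (l_mem (B := 1) k3) m2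
    have m4 := mul_mem (e_mem (N := N) k2) m3
    rw [mul_assoc, mul_assoc, mul_assoc, mul_assoc, LL _ k1 _ m4, LE _ k2 _ m3, LL _ k3 _ m2,
      hΔ g k5 _ m1, LE _ k4 _ hk]
  intro k hk
  have k6 := key 1 (one_mem _)
  rw [mul_one, h1, add_zero] at k6
  rw [key k hk, k6]

end Pool.Agent.P.MP_20768c_nt
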