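import Pool.Agent.P.MP_20768c_nt.RA

namespace Pool.Agent.P.MP_20768c_nt
open M2

lemma b1a_D_pow (u : ℚ) (hu : u ≠ 0) (i : ℕ) : D u hu ^ i = D (u ^ i) (pow_ne_zero i hu) := by
  induction i with
  | zero => ext <;> simp
  | succ i ih =>
    rw [pow_succ, ih]
    ext <;> simp [pow_succ, mul_comm]

lemma b1a_e_zpow (t : ℚ) (z : ℤ) : e t ^ z = e (z * t) := by
  obtain ⟨n, rfl | rfl⟩ := z.eq_nat_or_neg
  · rw [zpow_natCast, e_pow]
    simp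
  · rw [zpow_neg, zpow_natCast, e_pow, ← e_neg]
    simp

lemma b1a_main {p : ℕ} (hp : p.Prime) {N : ℤ} {m : ℕ} (hm : 0 < m) (S : Subgroup M2)
    (hSe : ∀ t, RM p 1 t → e t ∈ S) (hSl : ∀ t, RM p N t → l t ∈ S)
    (hu : (p : ℚ) ^ m ≠ 0) (hSD : D ((p : ℚ) ^ m) hu ∈ S) {g : M2} (hg : g ∈ Gam p N 1)
    (hc : g.c ≠ 0) (hd : g.d ≠ 0) :
    ∃ t0 : ℚ, t0 ≠ 0 ∧ RM p 1 t0 ∧ ∀ s, RM p 1 s → g⁻¹ * e (t0 * s) * g ∈ S := by
  obtain ⟨-, -, c1, d1⟩ := hg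
  have hdR : RM p 1 g.d := d1.of_sub_one
  have hcR : RM p 1 g.c := c1.to_one
  obtain ⟨i, hi, hq⟩ := RM.pow_one_mod hp (mul_ne_zero hc hd) (hcR.mul_r hdR) (2 * m)
  have hp0 : (p : ℚ) ≠ 0 := by exact_mod_cast hp.ne_zero
  have hp1 : (1 : ℚ) < p := by exact_mod_cast hp.one_lt
  obtain ⟨u, hudef⟩ : ∃ u : ℚ, u = ((p : ℚ) ^ m) ^ i := ⟨_, rfl⟩
  have hu0 : u ≠ 0 := hudef ▸ pow_ne_zero i hu
  have hu2 : u ^ 2 = (p : ℚ) ^ (2 * m * i) := by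
    rw [hudef, ← pow_mul, ← pow_mul]
    congr 1
    ring
  have hq' : RM p 1 ((u ^ 2 - 1) / (g.c * g.d)) := by
    rw [hu2, pow_mul]
    exact hq
  have hpos : 0 < 2 * m * i := by positivity
  have hne : u ^ 2 - 1 ≠ 0 := by
    rw [hu2]
    exact (sub_pos.2 (one_lt_pow₀ hp1 hpos.ne')).ne'
  have hD : D u hu0 ∈ S := by
    have h1 := S.pow_mem hSD i
    rw [b1a_D_pow] at h1
    subst hudef
    exact h1
  have hdet := g.det
  let T : Subgroup M2 := S.comap (MulAut.conj g⁻¹).toMonoidHom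
  have hT : ∀ x : M2, x ∈ T ↔ g⁻¹ * x * g ∈ S := fun x => by
    simp [T, Subgroup.mem_comap]
  let x1 : M2 := ⟨u, (u⁻¹ - u) * g.a / g.c, 0, u⁻¹, by simp [hu0]⟩
  let x2 : M2 := ⟨u, (u⁻¹ - u) * g.b / g.d, 0, u⁻¹, by simp [hu0]⟩
  have hb : g.b = (g.a * g.d - 1) / g.c := by
    field_simp
    linear_combination -hdet
  have h1 : x1 ∈ T := by
    rw [hT]
    have : g⁻¹ * x1 * g =
        (D u hu0)⁻¹ * e (-((u ^ 2 - 1) / (g.c * g.d) * (g.d * g.d))) := by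
      ext <;> simp [x1, hb] <;> field_simp <;> ring
    rw [this]
    exact S.mul_mem (S.inv_mem hD) (hSe _ (hq'.mul_r (hdR.mul_r hdR)).neg)
  have h2 : x2 ∈ T := by
    rw [hT]
    have : g⁻¹ * x2 * g = D u hu0 * l (-((u ^ 2 - 1) / (g.c * g.d) * (g.c * g.c))) := by
      ext <;> simp [x2, hb] <;> field_simp <;> ring
    rw [this]
    exact S.mul_mem hD (hSl _ (hq'.mul_l (hcR.mul_l c1)).neg)
  obtain ⟨t0, ht0⟩ : ∃ t0 : ℚ, t0 = -((u ^ 2 - 1) / (g.c * g.d)) := ⟨_, rfl⟩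
  have h3 : e t0 ∈ T := by
    have : e t0 = x1 * x2⁻¹ := by
      ext <;> simp [x1, x2, hb, ht0, hu0]
      field_simp
      ring
    rw [this]
    exact T.mul_mem h1 (T.inv_mem h2)
  have h4 : ∀ t, e t ∈ T → e (t / u ^ 2) ∈ T := fun t ht => by
    have : e (t / u ^ 2) = x1⁻¹ * e t * x1 := by
      ext <;> simp [x1, hu0]
      field_simp
      ring
    rw [this]
    exact T.mul_mem (T.mul_mem (T.inv_mem h1) ht) h1
  have h5 : ∀ (k : ℕ) (t : ℚ), e t ∈ T → e (t / (u ^ 2) ^ k) ∈ T := fun k t ht => by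
    induction k with
    | zero => simpa using ht
    | succ k ih =>
      rw [pow_succ, ← div_div]
      exact h4 _ ih
  refine ⟨t0, ?_, ht0 ▸ hq'.neg, ?_⟩
  · rw [ht0]
    exact neg_ne_zero.2 (div_ne_zero hne (mul_ne_zero hc hd))
  · rintro s ⟨k, z, hz⟩
    rw [← hT]
    obtain ⟨j, hj⟩ : ∃ j, 2 * m * i = j + 1 := ⟨2 * m * i - 1, by omega⟩
    have h6 : e (((z * (p : ℤ) ^ (j * k) : ℤ) : ℚ) * t0) ∈ T := by
      rw [← b1a_e_zpow]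
      exact T.zpow_mem h3 _
    have h7 := h5 k _ h6
    have h8 : ((z * (p : ℤ) ^ (j * k) : ℤ) : ℚ) * t0 / (u ^ 2) ^ k = t0 * s := by
      have hz' : (z : ℚ) = s * (p : ℚ) ^ k := by simpa using hz.symm
      rw [hu2, hj, ← pow_mul, add_mul, one_mul, pow_add]
      push_cast
      rw [hz']
      field_simp
    rwa [h8] at h7

/-- conjugation by the matrix `(0, 1; -N, 0)` -/
def b1aTh (N : ℚ) (hN : N ≠ 0) : M2 →* M2 where
  toFun g := ⟨g.d, -g.c / N, -(N * g.b), g.a, by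
    have h := g.det
    field_simp
    linear_combination h⟩
  map_one' := by ext <;> simp
  map_mul' g h := by ext <;> simp <;> field_simp <;> ring

lemma b1a_th_a (N : ℚ) (hN : N ≠ 0) (g : M2) : (b1aTh N hN g).a = g.d := rfl
lemma b1a_th_b (N : ℚ) (hN : N ≠ 0) (g : M2) : (b1aTh N hN g).b = -g.c / N := rfl
lemma b1a_th_c (N : ℚ) (hN : N ≠ 0) (g : M2) : (b1aTh N hN g).c = -(N * g.b) := rfl
lemma b1a_th_d (N : ℚ) (hN : N ≠ 0) (g : M2) : (b1aTh N hN g).d = g.a := rfl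

lemma b1_conj_e {p : ℕ} (hp : p.Prime) {N : ℤ} {m : ℕ} (hm : 0 < m) (S : Subgroup M2)
    (hSe : ∀ t, RM p 1 t → e t ∈ S) (hSl : ∀ t, RM p N t → l t ∈ S)
    (hu : (p : ℚ) ^ m ≠ 0) (hSD : D ((p : ℚ) ^ m) hu ∈ S) {g : M2} (hg : g ∈ Gam p N 1) :
    ∃ t0 : ℚ, t0 ≠ 0 ∧ RM p 1 t0 ∧ ∀ s, RM p 1 s → g⁻¹ * e (t0 * s) * g ∈ S := by
  by_cases hc : g.c = 0
  · refine ⟨1, one_ne_zero, RM.one p, fun s hs => ?_⟩
    have hdet := g.det
    have hdR : RM p 1 g.d := hg.2.2.2.of_sub_one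
    have : g⁻¹ * e (1 * s) * g = e (s * (g.d * g.d)) := by
      rw [hc] at hdet
      ext <;> simp [hc] <;> linarith
    rw [this]
    exact hSe _ (hs.mul_r (hdR.mul_r hdR))
  by_cases hd : g.d = 0
  · have hg' : g * e 1 ∈ Gam p N 1 := (Gam p N 1).mul_mem hg (e_mem (RM.one p))
    obtain ⟨t0, h0, h1, h2⟩ := b1a_main hp hm S hSe hSl hu hSD hg' (by simpa using hc)
      (by simpa [hd] using hc)
    refine ⟨t0, h0, h1, fun s hs => ?_⟩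
    have h3 := S.mul_mem (S.mul_mem (hSe 1 (RM.one p)) (h2 s hs)) (S.inv_mem (hSe 1 (RM.one p)))
    have : e 1 * ((g * e 1)⁻¹ * e (t0 * s) * (g * e 1)) * (e 1)⁻¹ = g⁻¹ * e (t0 * s) * g := by
      group
    rwa [this] at h3
  · exact b1a_main hp hm S hSe hSl hu hSD hg hc hd

lemma b1_conj_l {p : ℕ} (hp : p.Prime) {N : ℤ} (hN : N ≠ 0) {m : ℕ} (hm : 0 < m) (S : Subgroup M2)
    (hSe : ∀ t, RM p 1 t → e t ∈ S) (hSl : ∀ t, RM p N t → l t ∈ S)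
    (hu : (p : ℚ) ^ m ≠ 0) (hSD : D ((p : ℚ) ^ m) hu ∈ S) {g : M2} (hg : g ∈ Gam p N 1) :
    ∃ t0 : ℚ, t0 ≠ 0 ∧ RM p 1 t0 ∧ ∀ s, RM p N s → g⁻¹ * l (t0 * s) * g ∈ S := by
  have hN' : (N : ℚ) ≠ 0 := by exact_mod_cast hN
  have he : ∀ t, b1aTh N hN' (e t) = l (-(N * t)) := fun t => by
    ext <;> simp [b1a_th_a, b1a_th_b, b1a_th_c, b1a_th_d]
  have hl : ∀ t, b1aTh N hN' (l t) = e (-(t / N)) := fun t => by
    ext <;> simp [b1a_th_a, b1a_th_b, b1a_th_c, b1a_th_d, neg_div]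
  have hD : b1aTh N hN' (D ((p : ℚ) ^ m) hu) = (D ((p : ℚ) ^ m) hu)⁻¹ := by
    ext <;> simp [b1a_th_a, b1a_th_b, b1a_th_c, b1a_th_d]
  have hth : b1aTh N hN' (b1aTh N hN' g) = g := by
    ext <;> simp [b1a_th_a, b1a_th_b, b1a_th_c, b1a_th_d] <;> field_simp
  have hNR : RM p N (N : ℚ) := RM.of_dvd p dvd_rfl
  have hg' : b1aTh N hN' g ∈ Gam p N 1 := by
    obtain ⟨a1, b1, c1, d1⟩ := hg
    exact ⟨d1, c1.neg.div_self hN, (hNR.mul_r b1).neg, a1⟩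
  obtain ⟨t0, h0, h1, h2⟩ := b1_conj_e hp hm (S.comap (b1aTh N hN'))
    (fun t ht => by
      rw [Subgroup.mem_comap, he]
      exact hSl _ (hNR.mul_r ht).neg)
    (fun t ht => by
      rw [Subgroup.mem_comap, hl]
      exact hSe _ (ht.div_self hN).neg)
    hu (by
      rw [Subgroup.mem_comap, hD]
      exact S.inv_mem hSD) hg'
  refine ⟨t0, h0, h1, fun s hs => ?_⟩
  have h3 := h2 _ (hs.div_self hN).neg
  rw [Subgroup.mem_comap, map_mul, map_mul, map_inv, hth, he] at h3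
  have h4 : -((N : ℚ) * (t0 * -(s / N))) = t0 * s := by field_simp
  rwa [h4] at h3

end Pool.Agent.P.MP_20768c_nt
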