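import Pool.Agent.P.MP_20768c_nt.SD

namespace Pool.Agent.P.MP_20768c_nt

lemma bd_ne {a b c d : ℤ} (h : a * d - b * c = 1) :
    ((a : ℚ) ≠ 0 ∨ (c : ℚ) ≠ 0) ∧ ((b : ℚ) ≠ 0 ∨ (d : ℚ) ≠ 0) := by
  constructor <;> by_contra hn <;> simp only [not_or, not_not, Int.cast_eq_zero] at hn <;>
    simp [hn.1, hn.2] at h

lemma bd_cong {K : Type*} [Field K] {M : ℕ} {ε : DirichletCharacter K M} {S : ℚ → K}
    (hT : TLaw M ε S) {a b c d a' b' c' d' : ℤ} (h : a * d - b * c = 1)
    (h' : a' * d' - b' * c' = 1) (hc : (c : ZMod M) = c') (hd : (d : ZMod M) = d') :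
    Fv S b' d' - Fv S a' c' = Fv S b d - Fv S a c := by
  obtain ⟨u, hu⟩ := (ZMod.intCast_eq_intCast_iff_dvd_sub _ _ _).1 hc
  obtain ⟨v, hv⟩ := (ZMod.intCast_eq_intCast_iff_dvd_sub _ _ _).1 hd
  have key := hT (a' * d - b' * c) (b' * a - a' * b) (c' * d - d' * c) (d' * a - c' * b)
    (by linear_combination (a' * d' - b' * c') * h + h')
    ⟨u * d - v * c, by linear_combination d * hu - c * hv⟩
  rw [char_one ε ⟨v * a - u * b, by linear_combination h + a * hv - b * hu⟩] at key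
  have hq : (a : ℚ) * d - b * c = 1 := by exact_mod_cast h
  have k1 := key a c (bd_ne h).1
  have k2 := key b d (bd_ne h).2
  rw [show ((a' * d - b' * c : ℤ) : ℚ) * a + (b' * a - a' * b : ℤ) * c = a' by
      push_cast; linear_combination a' * hq,
    show ((c' * d - d' * c : ℤ) : ℚ) * a + (d' * a - c' * b : ℤ) * c = c' by
      push_cast; linear_combination c' * hq] at k1
  rw [show ((a' * d - b' * c : ℤ) : ℚ) * b + (b' * a - a' * b : ℤ) * d = b' by
      push_cast; linear_combination b' * hq,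
    show ((c' * d - d' * c : ℤ) : ℚ) * b + (d' * a - c' * b : ℤ) * d = d' by
      push_cast; linear_combination d' * hq] at k2
  rw [k1, k2]
  ring

/-- Manin: the values of a symbol lie in a finitely generated group -/
theorem sd_fg {K : Type*} [Field K] {M : ℕ} [NeZero M] {ε : DirichletCharacter K M} {S : ℚ → K}
    (hT : TLaw M ε S) : ∃ Λ : Submodule ℤ K, Λ.FG ∧ ∀ r, S r ∈ Λ := by
  have h1 : ∀ u : ZMod M × ZMod M, ∃ w : K, ∀ a b c d : ℤ, a * d - b * c = 1 →
      ((c : ZMod M), (d : ZMod M)) = u → Fv S b d - Fv S a c = w := by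
    intro u
    by_cases h : ∃ a b c d : ℤ, a * d - b * c = 1 ∧ ((c : ZMod M), (d : ZMod M)) = u
    · obtain ⟨a, b, c, d, h, rfl⟩ := h
      exact ⟨_, fun a' b' c' d' h' e => bd_cong hT h h' (congrArg Prod.fst e).symm
        (congrArg Prod.snd e).symm⟩
    · exact ⟨0, fun a b c d h' e => absurd ⟨a, b, c, d, h', e⟩ h⟩
  choose f hf using h1
  have h2 : ∀ (n : ℕ) (b : ℤ), IsCoprime b n → Fv S b n ∈ Submodule.span ℤ (Set.range f) := by
    intro n
    induction n using Nat.strong_induction_on with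
    | _ n ih =>
      rintro b ⟨u, v, huv⟩
      rcases n.eq_zero_or_pos with rfl | hn
      · rw [Nat.cast_zero, Fv_zero]; exact zero_mem _
      have hn' : (0 : ℤ) < n := by exact_mod_cast hn
      obtain ⟨c, hc⟩ := Int.eq_ofNat_of_zero_le (Int.emod_nonneg (-u) hn'.ne')
      have h3 := Int.emod_lt_of_pos (-u) hn'
      have h4 := Int.mul_ediv_add_emod (-u) n
      rw [hc] at h3 h4
      have h5 : (v - b * (-u / n)) * n - b * c = 1 := by linear_combination huv - b * h4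
      have h6 := hf _ _ _ _ _ h5 rfl
      simp only [Int.cast_natCast] at h6
      rw [eq_add_of_sub_eq h6]
      exact add_mem (Submodule.subset_span ⟨_, rfl⟩)
        (ih c (by exact_mod_cast h3) _ ⟨n, -b, by linear_combination h5⟩)
  refine ⟨_, Submodule.fg_span (Set.finite_range f), fun r => ?_⟩
  have := h2 r.den r.num (Int.isCoprime_iff_gcd_eq_one.2 r.reduced)
  rwa [Fv_of_ne S _ (Nat.cast_ne_zero.2 r.den_nz), Rat.num_div_den] at this

theorem fg_bdd {K : Type*} [NormedField K] [IsUltrametricDist K] {Λ : Submodule ℤ K}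
    (h : Λ.FG) : ∃ B : ℝ, ∀ x ∈ Λ, ‖x‖ ≤ B := by
  obtain ⟨s, rfl⟩ := h
  refine ⟨∑ y ∈ s, ‖y‖, fun x hx => ?_⟩
  have h0 : 0 ≤ ∑ y ∈ s, ‖y‖ := Finset.sum_nonneg fun _ _ => norm_nonneg _
  induction hx using Submodule.span_induction with
  | mem y hy => exact Finset.single_le_sum (fun y _ => norm_nonneg y) hy
  | zero => rwa [norm_zero]
  | add x y _ _ hx hy => exact (IsUltrametricDist.norm_add_le_max x y).trans (max_le hx hy)
  | smul n x _ hx => exact (IsUltrametricDist.norm_zsmul_le x n).trans hx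

theorem fg_max {K : Type*} [NormedField K] [IsUltrametricDist K] {Λ : Submodule ℤ K}
    (h : Λ.FG) {T : Set K} (hT : ∀ x ∈ T, x ∈ Λ) (hne : T.Nonempty) :
    ∃ x ∈ T, ∀ y ∈ T, ‖y‖ ≤ ‖x‖ := by
  have : IsNoetherian ℤ Λ := isNoetherian_of_fg_of_noetherian Λ h
  let P : K → Submodule ℤ Λ := fun t =>
    { carrier := {x | ‖(x : K)‖ ≤ ‖t‖}
      zero_mem' := by simp
      add_mem' := fun {x y} hx hy => (IsUltrametricDist.norm_add_le_max (x : K) y).trans
        (max_le hx hy)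
      smul_mem' := fun n x hx => (IsUltrametricDist.norm_zsmul_le (x : K) n).trans hx }
  obtain ⟨_, ⟨x, hx, rfl⟩, hm⟩ := set_has_maximal_iff_noetherian.2 this (P '' T) (hne.image P)
  refine ⟨x, hx, fun y hy => le_of_not_gt fun hlt => hm _ ⟨y, hy, rfl⟩ ?_⟩
  refine lt_of_le_of_ne (fun z (hz : ‖(z : K)‖ ≤ ‖x‖) => hz.trans hlt.le) fun e => hlt.not_ge ?_
  have h1 : (⟨y, hT y hy⟩ : Λ) ∈ P y := le_refl ‖y‖
  rw [← e] at h1
  exact h1

theorem sd_bdd {K : Type*} [NormedField K] [IsUltrametricDist K] {M : ℕ} [NeZero M]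
    {ε : DirichletCharacter K M} {S : ℚ → K} (hT : TLaw M ε S) : ∃ B : ℝ, ∀ r, ‖S r‖ ≤ B := by
  obtain ⟨Λ, h1, h2⟩ := sd_fg hT
  obtain ⟨B, hB⟩ := fg_bdd h1
  exact ⟨B, fun r => hB _ (h2 r)⟩

end Pool.Agent.P.MP_20768c_nt
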