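import Pool.Agent.P.MP_20768c_nt.C3a

namespace Pool.Agent.P.MP_20768c_nt
open M2

/-- one period -/
lemma c3_step {A : Type*} [AddCommGroup A] {p k : ℕ} (hp : p.Prime) {m : ℤ} {χ : M2 → A}
    (h : IsHom (Gam p m m) χ) (hk : ∀ g ∈ Gam p m m, p ^ k • χ g = 0) {g : M2}
    (hg : g ∈ Gam p m m) (ha : g.a ≠ 0) (j : ℤ) (hv : (p : ℚ) ^ j ≠ 0)
    (hj : RM p 1 ((1 - (p : ℚ) ^ j) / g.a)) : χ (dl ((p : ℚ) ^ j) hv g) = χ g := by
  have hp0 : p ≠ 0 := hp.ne_zero
  have hs : RM p m ((1 - (p : ℚ) ^ j) / g.a * g.c) := hj.mul_l hg.2.2.1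
  have hd := dl_mem hp0 j hv hg
  have hl : l ((1 - (p : ℚ) ^ j) / g.a * g.c) ∈ Gam p m m := l_mem hs
  obtain ⟨x, hx⟩ : ∃ x, x = g⁻¹ * (l ((1 - (p : ℚ) ^ j) / g.a * g.c) * dl ((p : ℚ) ^ j) hv g) :=
    ⟨_, rfl⟩
  have hxm : x ∈ Gam p m m := by
    rw [hx]
    exact Subgroup.mul_mem _ (Subgroup.inv_mem _ hg) (Subgroup.mul_mem _ hl hd)
  have hdet := g.det
  have xa : x.a = 1 := by
    rw [hx]
    simp only [mul_a, mul_c, inv_a, inv_b, l_a, l_b, l_c, l_d, dl_a, dl_c]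
    field_simp
    linear_combination hdet
  have xc : x.c = 0 := by
    rw [hx]
    simp only [mul_a, mul_c, inv_c, inv_d, l_a, l_b, l_c, l_d, dl_a, dl_c]
    field_simp
    ring
  have xd : x.d = 1 := by
    have := x.det
    rw [xa, xc] at this
    linarith
  have xe : x = e x.b := by
    ext
    · rw [xa, e_a]
    · rw [e_b]
    · rw [xc, e_c]
    · rw [xd, e_d]
  have h1 : χ x = 0 := by
    rw [xe]
    exact hom_e hp0 h hk hxm.2.1
  have h2 : g * x = l ((1 - (p : ℚ) ^ j) / g.a * g.c) * dl ((p : ℚ) ^ j) hv g := by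
    rw [hx, mul_inv_cancel_left]
  have h3 := h g hg x hxm
  rw [h2, h _ hl _ hd, hom_l hp0 h hk hs, h1, zero_add, add_zero] at h3
  exact h3

lemma c3_dl {p : ℕ} (i j : ℤ) (h0 : (p : ℚ) ≠ 0) (g : M2) :
    dl ((p : ℚ) ^ j) (zpow_ne_zero j h0) (dl ((p : ℚ) ^ i) (zpow_ne_zero i h0) g) =
      dl ((p : ℚ) ^ (i + j)) (zpow_ne_zero _ h0) g := by
  ext
  · rfl
  · simp only [dl_b]
    rw [zpow_add₀ h0, div_div]
  · simp only [dl_c]
    rw [zpow_add₀ h0]
    ring
  · rfl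

/-- periods of a function on the integers -/
def c3_per {A : Type*} (f : ℤ → A) : AddSubgroup ℤ where
  carrier := {j | ∀ i, f (i + j) = f i}
  zero_mem' := fun i => by rw [add_zero]
  add_mem' := fun {a b} ha hb i => by rw [← add_assoc, hb, ha]
  neg_mem' := fun {a} ha i => by
    have := ha (i + -a)
    rw [neg_add_cancel_right] at this
    exact this.symm

theorem c3 {A : Type*} [AddCommGroup A] {p k : ℕ} (hp : p.Prime) {m : ℤ} (hm : m ≠ 0)
    {χ : M2 → A} (h : IsHom (Gam p m m) χ) (hk : ∀ g ∈ Gam p m m, p ^ k • χ g = 0) {g : M2}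
    (hg : g ∈ Gam p m m) (hv : (p : ℚ) ^ (12 : ℤ) ≠ 0) :
    χ (dl ((p : ℚ) ^ (12 : ℤ)) hv g) = χ g := by
  have hp0 : p ≠ 0 := hp.ne_zero
  have h0 : (p : ℚ) ≠ 0 := by exact_mod_cast hp0
  have hm' : (m : ℚ) ≠ 0 := by exact_mod_cast hm
  have hdet := g.det
  have hA : RM p 1 g.a := hg.1.of_sub_one
  have hD : RM p 1 g.d := hg.2.2.2.of_sub_one
  by_cases hc : g.c = 0
  · rw [hc, mul_zero, sub_zero] at hdet
    have ha : g.a ≠ 0 := left_ne_zero_of_mul_eq_one hdet
    refine c3_step hp h hk hg ha 12 hv ?_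
    have e1 : (1 - (p : ℚ) ^ (12 : ℤ)) / g.a = (1 - (p : ℚ) ^ (12 : ℤ)) * g.d := by
      rw [div_eq_iff ha]
      linear_combination (-(1 - (p : ℚ) ^ (12 : ℤ))) * hdet
    rw [e1]
    exact ((RM.one p).sub (RM.zpow hp0 12)).mul_l hD
  · obtain ⟨C, i0, hC0, hCp, hC⟩ := RM.strip hp (mul_ne_zero hc hm')
      (hg.2.2.1.to_one.mul_l (RM.int p m))
    have hC' : (C : ℚ) ≠ 0 := by exact_mod_cast hC0
    obtain ⟨a0, ha0, -⟩ := RM.cong_int hp hCp hA 0 0
    obtain ⟨d0, hd0, -⟩ := RM.cong_int hp hCp hD 0 0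
    have hbc : RM p C (g.b * g.c) := by
      have e1 : g.b * g.c = g.b / m * ((C : ℚ) * (1 : ℤ) * (p : ℚ) ^ i0) := by
        rw [Int.cast_one, mul_one, ← hC]
        field_simp
      rw [e1]
      exact (hg.2.1.div_self hm).mul_l ((RM.int_mul p C 1).mul_r (RM.zpow hp0 i0))
    have hcop : IsCoprime a0 C := by
      have h1 : RM p C ((a0 * d0 - 1 : ℤ) : ℚ) := by
        have e1 : ((a0 * d0 - 1 : ℤ) : ℚ) = g.b * g.c - g.a * (g.d - d0) - (g.a - a0) * d0 := by
          push_cast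
          linear_combination hdet
        rw [e1]
        exact (hbc.sub (hA.mul_l hd0)).sub (ha0.mul_r (RM.int p d0))
      obtain ⟨w, hw⟩ := RM.dvd_of_int hCp h1
      exact ⟨d0, -w, by linear_combination hw⟩
    have key : (12 : ℤ) ∈ c3_per fun i : ℤ => χ (dl ((p : ℚ) ^ i) (zpow_ne_zero i h0) g) := by
      refine c3_mem _ fun q e' hq h3 => ?_
      obtain ⟨a', j, ha', hd1, hd2, hj⟩ := c3_arith hp hC0 hcop hq h3
      refine ⟨j, fun i => ?_, hj⟩
      have ha'' : (a' : ℚ) ≠ 0 := by exact_mod_cast ha'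
      have ht : RM p m ((a' - g.a) / g.c) := by
        have h1 : RM p C ((a' : ℚ) - g.a) := by
          have e1 : (a' : ℚ) - g.a = ((a' - a0 : ℤ) : ℚ) - (g.a - a0) := by
            push_cast
            ring
          rw [e1]
          exact (RM.of_dvd p hd1).sub ha0
        have e2 : (a' - g.a) / g.c =
            (m : ℚ) * (1 : ℤ) * ((a' - g.a) / C * (p : ℚ) ^ (-i0)) := by
          have e3 : g.c = C * (p : ℚ) ^ i0 / m := by
            rw [← hC]
            field_simp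
          have h5 : (p : ℚ) ^ i0 ≠ 0 := zpow_ne_zero i0 h0
          rw [e3, zpow_neg]
          push_cast
          field_simp
        rw [e2]
        exact (RM.int_mul p m 1).mul_r ((h1.div_self hC0).mul_l (RM.zpow hp0 _))
      have hg' : e ((a' - g.a) / g.c) * g ∈ Gam p m m := Subgroup.mul_mem _ (e_mem ht) hg
      have hsame : ∀ n : ℤ, χ (dl ((p : ℚ) ^ n) (zpow_ne_zero n h0) (e ((a' - g.a) / g.c) * g)) =
          χ (dl ((p : ℚ) ^ n) (zpow_ne_zero n h0) g) := fun n => by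
        have h4 : RM p m ((a' - g.a) / g.c / (p : ℚ) ^ n) := by
          rw [div_eq_mul_inv _ ((p : ℚ) ^ n), ← zpow_neg]
          exact ht.mul_r (RM.zpow hp0 _)
        rw [dl_mul, dl_e, h _ (e_mem h4) _ (dl_mem hp0 n _ hg), hom_e hp0 h hk h4, zero_add]
      have hGa : (dl ((p : ℚ) ^ i) (zpow_ne_zero i h0) (e ((a' - g.a) / g.c) * g)).a = a' := by
        simp only [dl_a, mul_a, e_a, e_b]
        field_simp
        ring
      have hst := c3_step hp h hk (dl_mem hp0 i (zpow_ne_zero i h0) hg') (by rw [hGa]; exact ha'')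
        (j : ℤ) (zpow_ne_zero _ h0) (by
          obtain ⟨w, hw⟩ := hd2
          have hw' : (p : ℚ) ^ j - 1 = a' * w := by exact_mod_cast hw
          have e1 : (1 - (p : ℚ) ^ (j : ℤ)) / a' = ((-w : ℤ) : ℚ) := by
            rw [zpow_natCast, div_eq_iff ha'']
            push_cast
            linear_combination -hw'
          rw [hGa, e1]
          exact RM.int p _)
      rw [c3_dl i j h0, hsame, hsame] at hst
      exact hst
    have h12 := key 0
    have e0 : dl ((p : ℚ) ^ (0 : ℤ)) (zpow_ne_zero 0 h0) g = g := by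
      ext <;> simp
    simp only [zero_add, e0] at h12
    exact h12

end Pool.Agent.P.MP_20768c_nt
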