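import Pool.Agent.P.MP_20768c_nt.RA

namespace Pool.Agent.P.MP_20768c_nt

lemma c3a_pow_dvd_lcm {q e a b : ℕ} (hq : q.Prime) (ha : a ≠ 0) (hb : b ≠ 0)
    (h : q ^ e ∣ Nat.lcm a b) : q ^ e ∣ a ∨ q ^ e ∣ b := by
  rw [hq.pow_dvd_iff_le_factorization (Nat.lcm_ne_zero ha hb), Nat.factorization_lcm ha hb,
    Finsupp.sup_apply, le_sup_iff] at h
  rcases h with h | h
  · exact Or.inl ((hq.pow_dvd_iff_le_factorization ha).2 h)
  · exact Or.inr ((hq.pow_dvd_iff_le_factorization hb).2 h)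

lemma c3a_fermat {p r j : ℕ} (hp : p.Prime) (hr : r.Prime) (hpr : p < r) (hj : r - 1 ∣ j) :
    (r : ℤ) ∣ (p : ℤ) ^ j - 1 := by
  obtain ⟨k, rfl⟩ := hj
  have hc : IsCoprime (p : ℤ) (r : ℤ) :=
    Nat.isCoprime_iff_coprime.2 ((Nat.coprime_primes hp hr).2 hpr.ne)
  have h1 := (Int.ModEq.pow_card_sub_one_eq_one hr hc).pow k
  rw [one_pow, ← pow_mul] at h1
  exact h1.symm.dvd

lemma c3a_cast_one {r Q : ℕ} (hr : r.Prime) (h : Q ∣ r - 1) : (r : ZMod Q) = 1 := by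
  have h1 : ((r - 1 : ℕ) : ZMod Q) = 0 := (ZMod.natCast_eq_zero_iff _ _).2 h
  rw [Nat.cast_sub hr.one_lt.le, Nat.cast_one, sub_eq_zero] at h1
  exact h1

/-- two primes of Dirichlet: a modulus `a'` in the class of `a0` whose exponent avoids `q ^ e` -/
lemma c3_arith {p : ℕ} (hp : p.Prime) {a0 C : ℤ} (hC : C ≠ 0) (h : IsCoprime a0 C) {q e : ℕ}
    (hq : q.Prime) (h3 : 3 ≤ Nat.totient (q ^ e)) :
    ∃ (a' : ℤ) (j : ℕ), a' ≠ 0 ∧ C ∣ a' - a0 ∧ a' ∣ (p : ℤ) ^ j - 1 ∧ ¬ q ^ e ∣ j := by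
  classical
  have hn0 : C.natAbs ≠ 0 := Int.natAbs_ne_zero.2 hC
  have hQ0 : q ^ e ≠ 0 := pow_ne_zero _ hq.ne_zero
  have : NeZero C.natAbs := ⟨hn0⟩
  have : NeZero (q ^ e) := ⟨hQ0⟩
  have : NeZero (q ^ e * C.natAbs) := ⟨mul_ne_zero hQ0 hn0⟩
  have hu : IsUnit (a0 : ZMod C.natAbs) := by
    obtain ⟨u, v, huv⟩ := h
    have h0 : (C : ZMod C.natAbs) = 0 :=
      (ZMod.intCast_zmod_eq_zero_iff_dvd _ _).2 (Int.natAbs_dvd.2 dvd_rfl)
    have h1 := congrArg (Int.cast : ℤ → ZMod C.natAbs) huv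
    push_cast at h1
    rw [h0, mul_zero, add_zero] at h1
    exact IsUnit.of_mul_eq_one_right _ h1
  obtain ⟨a1, ha1⟩ := ZMod.unitsMap_surjective (dvd_mul_left C.natAbs (q ^ e)) hu.unit
  have hdQ : q ^ e ∣ q ^ e * C.natAbs := dvd_mul_right _ _
  obtain ⟨ρ, hρ⟩ : ∃ ρ : (ZMod (q ^ e))ˣ,
      ρ ∉ ({1, ZMod.unitsMap hdQ a1} : Finset (ZMod (q ^ e))ˣ) := by
    by_contra hc
    push Not at hc
    have h4 : (Finset.univ : Finset (ZMod (q ^ e))ˣ) ⊆ {1, ZMod.unitsMap hdQ a1} :=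
      fun x _ => hc x
    have h5 := Finset.card_le_card h4
    have h6 : ({1, ZMod.unitsMap hdQ a1} : Finset (ZMod (q ^ e))ˣ).card ≤ 2 := Finset.card_le_two
    rw [Finset.card_univ, ZMod.card_units_eq_totient] at h5
    omega
  obtain ⟨σ, rfl⟩ := ZMod.unitsMap_surjective hdQ ρ
  simp only [Finset.mem_insert, Finset.mem_singleton, not_or] at hρ
  obtain ⟨r1, hr1, hp1, e1⟩ := Nat.forall_exists_prime_gt_and_eq_mod σ.isUnit p
  obtain ⟨r2, hr2, hp2, e2⟩ := Nat.forall_exists_prime_gt_and_eq_mod (a1 * σ⁻¹).isUnit r1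
  have key : ∀ (r : ℕ) (τ : (ZMod (q ^ e * C.natAbs))ˣ), r.Prime →
      (r : ZMod (q ^ e * C.natAbs)) = τ → q ^ e ∣ r - 1 → ZMod.unitsMap hdQ τ = 1 := by
    intro r τ hr hτ hd
    ext
    rw [ZMod.unitsMap_val, ← hτ, ZMod.cast_natCast hdQ, c3a_cast_one hr hd, Units.val_one]
  refine ⟨(r1 : ℤ) * r2, Nat.lcm (r1 - 1) (r2 - 1), ?_, ?_, ?_, ?_⟩
  · exact mul_ne_zero (Int.natCast_ne_zero.2 hp1.ne_zero) (Int.natCast_ne_zero.2 hp2.ne_zero)
  · have h7 : ((r1 * r2 : ℕ) : ZMod (q ^ e * C.natAbs)) = (a1 : ZMod (q ^ e * C.natAbs)) := by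
      rw [Nat.cast_mul, e1, e2, ← Units.val_mul, mul_comm a1, mul_inv_cancel_left]
    have h8 : ((r1 * r2 : ℕ) : ZMod C.natAbs) = (a0 : ZMod C.natAbs) := by
      have h9 := congrArg Units.val ha1
      rw [ZMod.unitsMap_val, ← h7, ZMod.cast_natCast (dvd_mul_left _ _), IsUnit.unit_spec] at h9
      exact h9
    rw [← Int.natAbs_dvd, ← ZMod.intCast_zmod_eq_zero_iff_dvd]
    push_cast at h8 ⊢
    rw [h8, sub_self]
  · refine IsCoprime.mul_dvd ?_ (c3a_fermat hp hp1 hr1 (Nat.dvd_lcm_left _ _))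
      (c3a_fermat hp hp2 (hr1.trans hr2) (Nat.dvd_lcm_right _ _))
    exact Nat.isCoprime_iff_coprime.2 ((Nat.coprime_primes hp1 hp2).2 hr2.ne)
  · intro hd
    have g1 : r1 - 1 ≠ 0 := by have := hp1.one_lt; omega
    have g2 : r2 - 1 ≠ 0 := by have := hp2.one_lt; omega
    rcases c3a_pow_dvd_lcm hq g1 g2 hd with h1 | h1
    · exact hρ.1 (key r1 σ hp1 e1 h1)
    · have h2 := key r2 _ hp2 e2 h1
      rw [map_mul, map_inv, mul_inv_eq_one] at h2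
      exact hρ.2 h2.symm

lemma c3_twelve {K : ℕ} (h8 : ¬ 8 ∣ K) (h9 : ¬ 9 ∣ K) (h5 : ∀ q : ℕ, q.Prime → 5 ≤ q → ¬ q ∣ K) :
    K ∣ 12 := by
  refine (Nat.dvd_iff_prime_pow_dvd_dvd 12 K).2 fun q k hq hk => ?_
  rcases Nat.eq_zero_or_pos k with rfl | hk0
  · simp
  have hqK : q ∣ K := (dvd_pow_self q hk0.ne').trans hk
  have h4 : q < 5 := by
    by_contra hc
    exact h5 q hq (by omega) hqK
  have h2 := hq.two_le
  interval_cases q
  · have : k ≤ 2 := by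
      by_contra hc
      exact h8 ((pow_dvd_pow 2 (show 3 ≤ k by omega)).trans hk)
    exact (pow_dvd_pow 2 this).trans (by norm_num)
  · have : k ≤ 1 := by
      by_contra hc
      exact h9 ((pow_dvd_pow 3 (show 2 ≤ k by omega)).trans hk)
    exact (pow_dvd_pow 3 this).trans (by norm_num)
  · exact absurd hq (by norm_num)

/-- a subgroup of `ℤ` that avoids `8`, `9` and the primes `≥ 5` contains `12` -/
lemma c3_mem (P : AddSubgroup ℤ)
    (h : ∀ q e : ℕ, q.Prime → 3 ≤ Nat.totient (q ^ e) → ∃ j : ℕ, (j : ℤ) ∈ P ∧ ¬ q ^ e ∣ j) :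
    (12 : ℤ) ∈ P := by
  obtain ⟨a, rfl⟩ := Int.subgroup_cyclic P
  have hmem : ∀ x : ℤ, x ∈ AddSubgroup.closure ({a} : Set ℤ) ↔ a ∣ x := by
    intro x
    rw [← AddSubgroup.zmultiples_eq_closure, Int.mem_zmultiples_iff]
  have key : ∀ q e : ℕ, q.Prime → 3 ≤ Nat.totient (q ^ e) → ¬ q ^ e ∣ a.natAbs := by
    intro q e hq h3 hd
    obtain ⟨j, hj, hn⟩ := h q e hq h3
    have := Int.natAbs_dvd_natAbs.2 ((hmem _).1 hj)
    rw [Int.natAbs_natCast] at this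
    exact hn (hd.trans this)
  have h12 : a.natAbs ∣ 12 := by
    refine c3_twelve (key 2 3 Nat.prime_two (by decide)) (key 3 2 Nat.prime_three (by decide)) ?_
    intro q hq h5
    have := key q 1 hq (by rw [pow_one, Nat.totient_prime hq]; omega)
    rwa [pow_one] at this
  rw [hmem, ← Int.natAbs_dvd]
  exact_mod_cast h12

end Pool.Agent.P.MP_20768c_nt
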