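import Pool.Agent.P.MP_20768c_nt.C3

namespace Pool.Agent.P.MP_20768c_nt
open M2

lemma c4_den (q : ℚ) {W : ℤ} (h : (q.den : ℤ) ∣ W) : ∃ z : ℤ, q * W = z := by
  obtain ⟨w, rfl⟩ := h
  refine ⟨q.num * w, ?_⟩
  push_cast
  rw [← mul_assoc, Rat.mul_den_eq_num]

lemma c4_scale {p : ℕ} {m W : ℤ} {q r y : ℚ} (hq : ∃ z : ℤ, q * W = z) (hr : ∃ z : ℤ, r * W = z)
    (hy : RM p (m * W ^ 2) y) : RM p m (q * r * y) := by
  obtain ⟨z1, h1⟩ := hq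
  obtain ⟨z2, h2⟩ := hr
  obtain ⟨k, z, h⟩ := hy
  refine ⟨k, z1 * z2 * z, ?_⟩
  push_cast at h ⊢
  rw [← h1, ← h2]
  linear_combination q * r * h

/-- conjugation is continuous for the principal congruence subgroups -/
lemma conj_cont (p : ℕ) (g : M2) {m : ℤ} (hm : m ≠ 0) :
    ∃ m' : ℤ, m' ≠ 0 ∧ ∀ x ∈ Gam p m' m', g * x * g⁻¹ ∈ Gam p m m := by
  obtain ⟨W, hW, ha, hb, hc, hd⟩ : ∃ W : ℤ, W ≠ 0 ∧ (∃ z : ℤ, g.a * W = z) ∧
      (∃ z : ℤ, g.b * W = z) ∧ (∃ z : ℤ, g.c * W = z) ∧ ∃ z : ℤ, g.d * W = z := by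
    refine ⟨g.a.den * g.b.den * g.c.den * g.d.den, ?_, c4_den _ ?_, c4_den _ ?_, c4_den _ ?_,
      c4_den _ ?_⟩
    · positivity
    · exact ⟨g.b.den * g.c.den * g.d.den, by ring⟩
    · exact ⟨g.a.den * g.c.den * g.d.den, by ring⟩
    · exact ⟨g.a.den * g.b.den * g.d.den, by ring⟩
    · exact ⟨g.a.den * g.b.den * g.c.den, by ring⟩
  refine ⟨m * W ^ 2, mul_ne_zero hm (pow_ne_zero 2 hW), ?_⟩
  rintro x ⟨xa, xb, xc, xd⟩
  have hg := g.det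
  refine ⟨?_, ?_, ?_, ?_⟩
  · have e : (g * x * g⁻¹).a - 1 = g.a * g.d * (x.a - 1) + g.b * g.d * x.c - g.a * g.c * x.b -
        g.b * g.c * (x.d - 1) := by
      simp only [mul_a, mul_b, inv_a, inv_c]
      linear_combination hg
    rw [e]
    exact (((c4_scale ha hd xa).add (c4_scale hb hd xc)).sub (c4_scale ha hc xb)).sub
      (c4_scale hb hc xd)
  · have e : (g * x * g⁻¹).b = g.a * g.a * x.b + g.a * g.b * (x.d - 1) - g.a * g.b * (x.a - 1) -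
        g.b * g.b * x.c := by
      simp only [mul_a, mul_b, inv_b, inv_d]
      ring
    rw [e]
    exact (((c4_scale ha ha xb).add (c4_scale ha hb xd)).sub (c4_scale ha hb xa)).sub
      (c4_scale hb hb xc)
  · have e : (g * x * g⁻¹).c = g.c * g.d * (x.a - 1) + g.d * g.d * x.c - g.c * g.c * x.b -
        g.c * g.d * (x.d - 1) := by
      simp only [mul_c, mul_d, inv_a, inv_c]
      ring
    rw [e]
    exact (((c4_scale hc hd xa).add (c4_scale hd hd xc)).sub (c4_scale hc hc xb)).sub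
      (c4_scale hc hd xd)
  · have e : (g * x * g⁻¹).d - 1 = g.a * g.c * x.b + g.a * g.d * (x.d - 1) -
        g.b * g.c * (x.a - 1) - g.b * g.d * x.c := by
      simp only [mul_c, mul_d, inv_b, inv_d]
      linear_combination hg
    rw [e]
    exact (((c4_scale ha hc xb).add (c4_scale ha hd xd)).sub (c4_scale hb hc xa)).sub
      (c4_scale hb hd xc)

/-- conjugation by `g` fixes `χ` on a principal congruence subgroup -/
def Inert {A : Type*} [AddCommGroup A] (p : ℕ) (χ : M2 → A) (g : M2) : Prop :=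
  ∃ m : ℤ, m ≠ 0 ∧ ∀ x ∈ Gam p m m, χ (g * x * g⁻¹) = χ x

lemma Inert.mul {A : Type*} [AddCommGroup A] {p : ℕ} {χ : M2 → A} {g h : M2}
    (hg : Inert p χ g) (hh : Inert p χ h) : Inert p χ (g * h) := by
  obtain ⟨m1, h1, H1⟩ := hg
  obtain ⟨m2, h2, H2⟩ := hh
  obtain ⟨m3, h3, H3⟩ := conj_cont p h h1
  refine ⟨m2 * m3, mul_ne_zero h2 h3, fun x hx => ?_⟩
  have e : g * h * x * (g * h)⁻¹ = g * (h * x * h⁻¹) * g⁻¹ := by group
  rw [e, H1 _ (H3 x (Gam_mono (dvd_mul_left _ _) (dvd_mul_left _ _) hx)),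
    H2 x (Gam_mono (dvd_mul_right _ _) (dvd_mul_right _ _) hx)]

lemma c4_dl_inv (v : ℚ) (hv : v ≠ 0) (g : M2) : dl v hv g⁻¹ = (dl v hv g)⁻¹ := by
  ext <;> simp [neg_div]

lemma c4_gen {A : Type*} [AddCommGroup A] {p k : ℕ} (hp : p.Prime) {N : ℤ} (hN : N ≠ 0)
    {χ : M2 → A} (h : IsHom (Gam p N 1) χ) (hk : ∀ g ∈ Gam p N 1, p ^ k • χ g = 0)
    (hv : (p : ℚ) ^ (12 : ℤ) ≠ 0) (w : M2) :
    Inert p χ (w * (dl ((p : ℚ) ^ (12 : ℤ)) hv w)⁻¹) := by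
  set u := dl ((p : ℚ) ^ (12 : ℤ)) hv w with hu
  have hle : Gam p N N ≤ Gam p N 1 := Gam_mono dvd_rfl (one_dvd N)
  obtain ⟨m1, h1, H1⟩ := conj_cont p u hN
  obtain ⟨m2, h2, H2⟩ := conj_cont p w hN
  obtain ⟨m3, h3, H3⟩ := conj_cont p u⁻¹ (mul_ne_zero h1 h2)
  have hh : IsHom (Gam p m1 m1) fun x => χ (u * x * u⁻¹) := fun x hx y hy => by
    have e : u * (x * y) * u⁻¹ = u * x * u⁻¹ * (u * y * u⁻¹) := by group
    simp only [e]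
    exact h _ (hle (H1 x hx)) _ (hle (H1 y hy))
  have key : ∀ x ∈ Gam p (m1 * m2) (m1 * m2), χ (w * x * w⁻¹) = χ (u * x * u⁻¹) := by
    intro x hx
    have x1 : x ∈ Gam p m1 m1 := Gam_mono (dvd_mul_right _ _) (dvd_mul_right _ _) hx
    have x2 : x ∈ Gam p m2 m2 := Gam_mono (dvd_mul_left _ _) (dvd_mul_left _ _) hx
    have e1 := c3 hp h1 hh (fun g hg => hk _ (hle (H1 g hg))) x1 hv
    have e2 := c3 hp hN (h.mono hle) (fun g hg => hk _ (hle hg)) (H2 x x2) hv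
    rw [dl_mul, dl_mul, c4_dl_inv, ← hu] at e2
    exact e2.symm.trans e1
  refine ⟨m3, h3, fun y hy => ?_⟩
  have e3 := key _ (H3 y hy)
  have e4 : u * (u⁻¹ * y * u⁻¹⁻¹) * u⁻¹ = y := by group
  have e5 : w * u⁻¹ * y * (w * u⁻¹)⁻¹ = w * (u⁻¹ * y * u⁻¹⁻¹) * w⁻¹ := by group
  rw [e5, e3, e4]

lemma c4_v {p : ℕ} (hp : p.Prime) : (1 : ℚ) < (p : ℚ) ^ (12 : ℤ) :=
  one_lt_zpow₀ (by exact_mod_cast hp.one_lt) (by norm_num)

lemma inert_e {A : Type*} [AddCommGroup A] {p k : ℕ} (hp : p.Prime) {N : ℤ} (hN : N ≠ 0)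
    {χ : M2 → A} (h : IsHom (Gam p N 1) χ) (hk : ∀ g ∈ Gam p N 1, p ^ k • χ g = 0) (t : ℚ) :
    Inert p χ (e t) := by
  have h1 := c4_v hp
  have hv : (p : ℚ) ^ (12 : ℤ) ≠ 0 := (zero_lt_one.trans h1).ne'
  have h2 := c4_gen hp hN h hk hv (e (t / ((p : ℚ) ^ (12 : ℤ) - 1) * (p : ℚ) ^ (12 : ℤ)))
  rw [dl_e, ← e_neg, ← e_add] at h2
  generalize (p : ℚ) ^ (12 : ℤ) = v at h1 hv h2
  have h3 : v - 1 ≠ 0 := (sub_pos.2 h1).ne'
  have h4 : t / (v - 1) * v + -(t / (v - 1) * v / v) = t := by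
    field_simp
    ring
  rwa [h4] at h2

lemma inert_l {A : Type*} [AddCommGroup A] {p k : ℕ} (hp : p.Prime) {N : ℤ} (hN : N ≠ 0)
    {χ : M2 → A} (h : IsHom (Gam p N 1) χ) (hk : ∀ g ∈ Gam p N 1, p ^ k • χ g = 0) (t : ℚ) :
    Inert p χ (l t) := by
  have h1 := c4_v hp
  have hv : (p : ℚ) ^ (12 : ℤ) ≠ 0 := (zero_lt_one.trans h1).ne'
  have h2 := c4_gen hp hN h hk hv (l (t / (1 - (p : ℚ) ^ (12 : ℤ))))
  rw [dl_l, ← l_neg, ← l_add] at h2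
  generalize (p : ℚ) ^ (12 : ℤ) = v at h1 hv h2
  have h3 : 1 - v ≠ 0 := (sub_neg.2 h1).ne
  have h4 : t / (1 - v) + -(v * (t / (1 - v))) = t := by
    field_simp
    ring
  rwa [h4] at h2

theorem c4 {A : Type*} [AddCommGroup A] {p k : ℕ} (hp : p.Prime) {N : ℤ} (hN : N ≠ 0)
    {χ : M2 → A} (h : IsHom (Gam p N 1) χ) (hk : ∀ g ∈ Gam p N 1, p ^ k • χ g = 0)
    {n : ℚ} (hn : n ^ 2 ≠ 0) :
    ∃ m : ℤ, m ≠ 0 ∧ ∀ x ∈ Gam p m m, χ (dl (n ^ 2) hn x) = χ x := by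
  have hn0 : n ≠ 0 := fun h0 => hn (by rw [h0]; norm_num)
  obtain ⟨m, hm, H⟩ := (((inert_l hp hN h hk (n - 1)).mul (inert_e hp hN h hk 1)).mul
    (inert_l hp hN h hk (n⁻¹ - 1))).mul (inert_e hp hN h hk (-n))
  have e1 : l (n - 1) * e 1 * l (n⁻¹ - 1) * e (-n) = D n⁻¹ (inv_ne_zero hn0) := by
    ext <;> simp only [mul_a, mul_b, mul_c, mul_d, e_a, e_b, e_c, e_d, l_a, l_b, l_c, l_d, D_a,
      D_b, D_c, D_d, inv_inv] <;> field_simp <;> ring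
  refine ⟨m, hm, fun x hx => ?_⟩
  have e2 : D n⁻¹ (inv_ne_zero hn0) * x * (D n⁻¹ (inv_ne_zero hn0))⁻¹ = dl (n ^ 2) hn x := by
    ext <;> simp <;> field_simp
  rw [← H x hx, e1, e2]

end Pool.Agent.P.MP_20768c_nt
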