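import Pool.Agent.P.MP_20768c_nt.RA

namespace Pool.Agent.P.MP_20768c_nt
open M2

lemma c5a_cop {a q m : ℤ} (h : IsCoprime a q) (hm : m ≠ 0) : ∃ x, IsCoprime (a + q * x) m := by
  classical
  refine ⟨∏ r ∈ m.natAbs.primeFactors.filter (fun r : ℕ => ¬ (r : ℤ) ∣ a), ((r : ℕ) : ℤ), ?_⟩
  refine isCoprime_of_prime_dvd (fun hh => hm hh.2) fun z hz h1 h2 => ?_
  have hz' : (z.natAbs).Prime := Int.prime_iff_natAbs_prime.1 hz
  by_cases ha : z ∣ a
  · rcases hz.dvd_or_dvd ((dvd_add_right ha).1 h1) with h3 | h3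
    · exact hz.not_unit (h.isUnit_of_dvd' ha h3)
    · obtain ⟨r, hr, h4⟩ := (hz.dvd_finset_prod_iff _).1 h3
      rw [Finset.mem_filter] at hr
      have h5 : z.natAbs = r := (Nat.prime_dvd_prime_iff_eq hz'
        (Nat.prime_of_mem_primeFactors hr.1)).1 (by simpa using Int.natAbs_dvd_natAbs.2 h4)
      exact hr.2 (h5 ▸ Int.natAbs_dvd.2 ha)
  · refine ha ((dvd_add_left (Dvd.dvd.mul_left ?_ q)).1 h1)
    refine Int.natAbs_dvd.1 (Finset.dvd_prod_of_mem (fun r : ℕ => (r : ℤ)) ?_)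
    exact Finset.mem_filter.2 ⟨Nat.mem_primeFactors.2 ⟨hz', Int.natAbs_dvd_natAbs.2 h2,
      Int.natAbs_ne_zero.2 hm⟩, fun hh => ha (Int.natAbs_dvd.1 hh)⟩

lemma c5a_e {g : M2} {a b c d : ℤ} (h : g.a = a ∧ g.b = b ∧ g.c = c ∧ g.d = d) (t : ℤ) :
    (e t * g).a = (a + t * c : ℤ) ∧ (e t * g).b = (b + t * d : ℤ) ∧ (e t * g).c = c ∧
      (e t * g).d = d := by
  obtain ⟨h1, h2, h3, h4⟩ := h
  simp [h1, h2, h3, h4]

lemma c5a_l {g : M2} {a b c d : ℤ} (h : g.a = a ∧ g.b = b ∧ g.c = c ∧ g.d = d) (t : ℤ) :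
    (l t * g).a = a ∧ (l t * g).b = b ∧ (l t * g).c = (c + t * a : ℤ) ∧
      (l t * g).d = (d + t * b : ℤ) := by
  obtain ⟨h1, h2, h3, h4⟩ := h
  simp [h1, h2, h3, h4, add_comm]

lemma c5a_det {g : M2} {a b c d : ℤ} (h : g.a = a ∧ g.b = b ∧ g.c = c ∧ g.d = d) :
    a * d - b * c = 1 := by
  have hdet := g.det
  rw [h.1, h.2.1, h.2.2.1, h.2.2.2] at hdet
  exact_mod_cast hdet

lemma c5a_mem (p : ℕ) {N B : ℤ} {g : M2} {a b c d : ℤ}
    (h : g.a = a ∧ g.b = b ∧ g.c = c ∧ g.d = d) (h1 : N ∣ a - 1) (h2 : B ∣ b) (h3 : N ∣ c) :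
    g ∈ Gam p N B := by
  have h4 : N ∣ d - 1 := by
    have : d - 1 = b * c - (a - 1) * d := by linear_combination c5a_det h
    rw [this]
    exact (h3.mul_left b).sub (h1.mul_right d)
  refine ⟨?_, ?_, ?_, ?_⟩
  · rw [h.1]; exact_mod_cast RM.of_dvd p h1
  · rw [h.2.1]; exact RM.of_dvd p h2
  · rw [h.2.2.1]; exact RM.of_dvd p h3
  · rw [h.2.2.2]; exact_mod_cast RM.of_dvd p h4

/-- a homomorphism on `{B ∣ b}` that kills a principal congruence subgroup and the unipotents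
kills the integer matrices with `a ≡ 1` mod `N B` -/
lemma c5_red {A : Type*} [AddCommGroup A] {p : ℕ} {N B m : ℤ} (hN : N ≠ 0) (hB : B ≠ 0)
    (hm : m ≠ 0) {ψ : M2 → A} (h : IsHom (Gam p N B) ψ)
    (he : ∀ t, RM p B t → ψ (e t) = 0) (hl : ∀ t, RM p N t → ψ (l t) = 0)
    (h0 : ∀ x ∈ Gam p N B, x ∈ Gam p m m → ψ x = 0) {g : M2} {a b c d : ℤ}
    (ha : g.a = a) (hb : g.b = b) (hc : g.c = c) (hd : g.d = d)
    (h1 : N * B ∣ a - 1) (h2 : B ∣ b) (h3 : N ∣ c) : ψ g = 0 := by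
  have hE : ∀ t : ℤ, B ∣ t → ∀ x, x ∈ Gam p N B ∧ ψ x = ψ g →
      e t * x ∈ Gam p N B ∧ ψ (e t * x) = ψ g := fun t ht x hx =>
    ⟨mul_mem (e_mem (RM.of_dvd p ht)) hx.1, by
      rw [h _ (e_mem (RM.of_dvd p ht)) _ hx.1, he _ (RM.of_dvd p ht), zero_add, hx.2]⟩
  have hL : ∀ t : ℤ, N ∣ t → ∀ x, x ∈ Gam p N B ∧ ψ x = ψ g →
      l t * x ∈ Gam p N B ∧ ψ (l t * x) = ψ g := fun t ht x hx =>
    ⟨mul_mem (l_mem (RM.of_dvd p ht)) hx.1, by
      rw [h _ (l_mem (RM.of_dvd p ht)) _ hx.1, hl _ (RM.of_dvd p ht), zero_add, hx.2]⟩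
  have g0 : g.a = a ∧ g.b = b ∧ g.c = c ∧ g.d = d := ⟨ha, hb, hc, hd⟩
  have k0 : g ∈ Gam p N B ∧ ψ g = ψ g := ⟨c5a_mem p g0 ((dvd_mul_right N B).trans h1) h2 h3, rfl⟩
  obtain ⟨a', ha'⟩ := h1
  obtain ⟨c', rfl⟩ := h3
  have hcop : IsCoprime a (B * (N * c')) :=
    IsCoprime.mul_right ⟨1, -(N * a'), by linear_combination ha'⟩
      ⟨d, -b, by linear_combination c5a_det g0⟩
  obtain ⟨x, u, v, huv⟩ := c5a_cop hcop hm
  have g1 := c5a_e g0 (B * x)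
  have k1 := hE _ (dvd_mul_right B x) _ k0
  have g2 := c5a_l g1 (N * ((1 - c') * u))
  have k2 := hL _ (dvd_mul_right N ((1 - c') * u)) _ k1
  have g3 := c5a_e g2 (B * -(a' + x * c'))
  have k3 := hE _ (dvd_mul_right B (-(a' + x * c'))) _ k2
  have g4 := c5a_l g3 (-N)
  have k4 := hL _ (dvd_neg.2 dvd_rfl) _ k3
  have hb3 : B ∣ b + B * x * d + B * -(a' + x * c') *
      (d + N * ((1 - c') * u) * (b + B * x * d)) :=
    (h2.add ((dvd_mul_right B x).mul_right d)).add ((dvd_mul_right B _).mul_right _)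
  have ec : N * c' + N * ((1 - c') * u) * (a + B * x * (N * c')) =
      N * (1 - (1 - c') * v * m) := by linear_combination N * (1 - c') * huv
  rw [ec] at g4
  have ea : a + B * x * (N * c') + B * -(a' + x * c') * (N * (1 - (1 - c') * v * m)) =
      1 + m * (B * (a' + x * c') * N * (1 - c') * v) := by linear_combination ha'
  rw [ea] at g4
  generalize b + B * x * d + B * -(a' + x * c') *
      (d + N * ((1 - c') * u) * (b + B * x * d)) = b3 at g4 hb3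
  generalize d + N * ((1 - c') * u) * (b + B * x * d) + -N * b3 = d4 at g4
  generalize B * (a' + x * c') * N * (1 - c') * v = w at g4
  have hc4 : m ∣ N * (1 - (1 - c') * v * m) + -N * (1 + m * w) :=
    ⟨-(N * ((1 - c') * v + w)), by ring⟩
  generalize N * (1 - (1 - c') * v * m) + -N * (1 + m * w) = c4 at g4 hc4
  have hd4 : m ∣ d4 - 1 := by
    have : d4 - 1 = b3 * c4 - m * (w * d4) := by linear_combination c5a_det g4
    rw [this]
    exact (hc4.mul_left b3).sub (dvd_mul_right _ _)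
  have g5 := c5a_e g4 (-b3)
  have k5 := hE _ (dvd_neg.2 hb3) _ k4
  rw [← k5.2]
  refine h0 _ k5.1 (c5a_mem p g5 ?_ ?_ hc4)
  · have : 1 + m * w + -b3 * c4 - 1 = m * w - b3 * c4 := by ring
    rw [this]
    exact (dvd_mul_right _ _).sub (hc4.mul_left b3)
  · have : b3 + -b3 * d4 = -b3 * (d4 - 1) := by ring
    rw [this]
    exact hd4.mul_left _

end Pool.Agent.P.MP_20768c_nt
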