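import Pool.Agent.P.MP_20768c_nt.C4
import Pool.Agent.P.MP_20768c_nt.C5a

namespace Pool.Agent.P.MP_20768c_nt
open M2

/-- `χ` depends only on the first column -/
lemma col_eq {A : Type*} [AddCommGroup A] {p k : ℕ} (hp : p.Prime) {N : ℤ}
    {χ : M2 → A} (h : IsHom (Gam p N 1) χ) (hk : ∀ g ∈ Gam p N 1, p ^ k • χ g = 0)
    {g g' : M2} (hg : g ∈ Gam p N 1) (hg' : g' ∈ Gam p N 1) (ha : g.a = g'.a) (hc : g.c = g'.c) :
    χ g = χ g' := by
  have hm : g⁻¹ * g' ∈ Gam p N 1 := (Gam p N 1).mul_mem ((Gam p N 1).inv_mem hg) hg'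
  have hb : RM p 1 (g⁻¹ * g').b := (mem_Gam.1 hm).2.1
  have d1 := g.det
  have d2 := g'.det
  have he : g⁻¹ * g' = e (g⁻¹ * g').b := by
    ext
    · simp only [mul_a, inv_a, inv_b, e_a]
      rw [← ha, ← hc]
      linear_combination d1
    · simp only [e_b]
    · simp only [mul_c, inv_c, inv_d, e_c]
      rw [← ha, ← hc]
      ring
    · simp only [mul_d, inv_c, inv_d, e_d]
      rw [ha, hc]
      linear_combination d2
  have h0 : χ (g⁻¹ * g') = 0 := by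
    rw [he]
    exact hom_e hp.ne_zero h hk hb
  have h1 := h g hg (g⁻¹ * g') hm
  rw [mul_inv_cancel_left, h0, add_zero] at h1
  exact h1.symm

/-- first columns `(a, c)` and `(a, c')` with `c ≡ c'` mod `N a` -/
lemma col_cong {A : Type*} [AddCommGroup A] {p k : ℕ} (hp : p.Prime) {N : ℤ}
    {χ : M2 → A} (h : IsHom (Gam p N 1) χ) (hk : ∀ g ∈ Gam p N 1, p ^ k • χ g = 0)
    {g g' : M2} (hg : g ∈ Gam p N 1) (hg' : g' ∈ Gam p N 1) (ha : g.a = g'.a) {s : ℚ}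
    (hs : RM p N s) (hc : g'.c = g.c + s * g.a) : χ g = χ g' := by
  have hl : l s ∈ Gam p N 1 := l_mem hs
  have hm : l s * g ∈ Gam p N 1 := (Gam p N 1).mul_mem hl hg
  have h1 : χ (l s * g) = χ g := by
    rw [h _ hl _ hg, hom_l hp.ne_zero h hk hs, zero_add]
  rw [← h1]
  refine col_eq hp h hk hm hg' ?_ ?_
  · simp only [mul_a, l_a, l_b]
    rw [← ha]
    ring
  · simp only [mul_c, l_c, l_d]
    rw [hc]
    ring

/-- an integer matrix with a given first column and `B ∣ b` -/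
lemma exists_col (p : ℕ) {N B a c : ℤ} (h : IsCoprime a (B * c)) (h1 : N ∣ a - 1) (h3 : N ∣ c) :
    ∃ (g : M2) (b d : ℤ), g ∈ Gam p N B ∧ g.a = a ∧ g.b = b ∧ g.c = c ∧ g.d = d ∧ B ∣ b := by
  obtain ⟨u, v, huv⟩ := h
  have huv' : (u : ℚ) * a + v * (B * c) = 1 := by exact_mod_cast huv
  have hB : B ∣ -(v * B) := (dvd_neg).2 (dvd_mul_left B v)
  have hd : N ∣ u - 1 := by
    have : u - 1 = -(u * (a - 1)) - v * B * c := by linear_combination huv
    rw [this]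
    exact ((dvd_neg).2 (h1.mul_left u)).sub (h3.mul_left _)
  refine ⟨⟨a, ((-(v * B) : ℤ) : ℚ), c, u, ?_⟩, -(v * B), u, ?_, rfl, rfl, rfl, rfl, hB⟩
  · push_cast
    linear_combination huv'
  · refine mem_Gam.2 ⟨?_, RM.of_dvd p hB, RM.of_dvd p h3, ?_⟩
    · show RM p N ((a : ℚ) - 1)
      exact_mod_cast RM.of_dvd p h1
    · show RM p N ((u : ℚ) - 1)
      exact_mod_cast RM.of_dvd p hd

lemma c5_dl_mem {p : ℕ} {N n : ℤ} (hn0 : n ≠ 0) (hn : (n : ℚ) ^ 2 ≠ 0) {g : M2}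
    (hg : g ∈ Gam p N (n ^ 2)) : dl ((n : ℚ) ^ 2) hn g ∈ Gam p N 1 := by
  obtain ⟨a1, b1, c1, d1⟩ := mem_Gam.1 hg
  refine mem_Gam.2 ⟨a1, ?_, ?_, d1⟩
  · have := b1.div_self (pow_ne_zero 2 hn0)
    simpa using this
  · have h2 : RM p 1 ((n : ℚ) ^ 2) := by
      have := RM.int p (n ^ 2)
      simpa using this
    exact h2.mul_l c1

lemma c5_nsmul {A : Type*} [AddCommGroup A] {p k s : ℕ} (hp : p.Prime) (hs : ¬ p ∣ s) {x : A}
    (h1 : s • x = 0) (h2 : p ^ k • x = 0) : x = 0 := by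
  have hc : Nat.Coprime (p ^ k) s := Nat.Coprime.pow_left k ((Nat.Prime.coprime_iff_not_dvd hp).2 hs)
  have e1 := addOrderOf_dvd_of_nsmul_eq_zero h1
  have e2 := addOrderOf_dvd_of_nsmul_eq_zero h2
  have e3 : addOrderOf x = 1 := Nat.eq_one_of_dvd_coprimes hc e2 e1
  exact AddMonoid.addOrderOf_eq_one_iff.1 e3

/-- the first columns `(q, c)` and `(q, n ^ 2 c)` have the same value -/
theorem c5 {A : Type*} [AddCommGroup A] {p k : ℕ} (hp : p.Prime) {N : ℤ} (hN : N ≠ 0)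
    {χ : M2 → A} (h : IsHom (Gam p N 1) χ) (hk : ∀ g ∈ Gam p N 1, p ^ k • χ g = 0)
    {q n c : ℤ} {s : ℕ} (hn0 : n ≠ 0) (hs : ¬ p ∣ s) (hqs : q ∣ n ^ (2 * s) - 1)
    (hqn : IsCoprime q n) (hqc : IsCoprime q c) (h1 : N ∣ q - 1) (h3 : N ∣ c)
    {g g' : M2} (hg : g ∈ Gam p N 1) (hg' : g' ∈ Gam p N 1)
    (ha : g.a = q) (hc : g.c = c) (ha' : g'.a = q) (hc' : g'.c = n ^ 2 * c) : χ g = χ g' := by
  have hn : (n : ℚ) ^ 2 ≠ 0 := pow_ne_zero 2 (by exact_mod_cast hn0)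
  have hB : n ^ 2 ≠ 0 := pow_ne_zero 2 hn0
  have hle : Gam p N (n ^ 2) ≤ Gam p N 1 := Gam_mono dvd_rfl (one_dvd _)
  obtain ⟨ψ, hψ⟩ : ∃ ψ : M2 → A, ∀ x, ψ x = χ (dl ((n : ℚ) ^ 2) hn x) - χ x := ⟨_, fun _ => rfl⟩
  have hhom : IsHom (Gam p N (n ^ 2)) ψ := by
    intro x hx y hy
    rw [hψ, hψ, hψ, dl_mul, h _ (c5_dl_mem hn0 hn hx) _ (c5_dl_mem hn0 hn hy),
      h _ (hle hx) _ (hle hy)]
    abel
  have he : ∀ t, RM p (n ^ 2) t → ψ (e t) = 0 := by
    intro t ht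
    have h2 : RM p 1 (t / (n : ℚ) ^ 2) := by
      have := ht.div_self hB
      simpa using this
    rw [hψ, dl_e, hom_e hp.ne_zero h hk h2, hom_e hp.ne_zero h hk ht.to_one, sub_zero]
  have hl : ∀ t, RM p N t → ψ (l t) = 0 := by
    intro t ht
    have h2 : RM p 1 ((n : ℚ) ^ 2) := by
      have := RM.int p (n ^ 2)
      simpa using this
    rw [hψ, dl_l, hom_l hp.ne_zero h hk (h2.mul_l ht), hom_l hp.ne_zero h hk ht, sub_zero]
  obtain ⟨m, hm, hc4⟩ := c4 hp hN h hk hn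
  have h0 : ∀ x ∈ Gam p N (n ^ 2), x ∈ Gam p m m → ψ x = 0 := by
    intro x _ hx
    rw [hψ, hc4 x hx, sub_self]
  have hex : ∀ i : ℕ, ∃ (G : M2) (b d : ℤ), G ∈ Gam p N (n ^ 2) ∧ G.a = q ∧ G.b = b ∧
      G.c = ((n ^ (2 * i) * c : ℤ) : ℚ) ∧ G.d = d ∧ n ^ 2 ∣ b := by
    intro i
    exact exists_col p (hqn.pow_right.mul_right (hqn.pow_right.mul_right hqc)) h1 (h3.mul_left _)
  choose G b d hG hGa hGb hGc hGd hGn using hex
  have hsame : ∀ i, ψ (G i) = ψ (G 0) := by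
    intro i
    have hmem : (G 0)⁻¹ * G i ∈ Gam p N (n ^ 2) :=
      (Gam p N (n ^ 2)).mul_mem ((Gam p N (n ^ 2)).inv_mem (hG 0)) (hG i)
    have hdet := (G 0).det
    rw [hGa, hGb, hGc, hGd] at hdet
    have hdet' : q * d 0 - b 0 * (n ^ (2 * 0) * c) = 1 := by exact_mod_cast hdet
    have hz : ψ ((G 0)⁻¹ * G i) = 0 := by
      refine c5_red hN hB hm hhom he hl h0
        (a := d 0 * q - b 0 * (n ^ (2 * i) * c)) (b := d 0 * b i - b 0 * d i)
        (c := -(n ^ (2 * 0) * c) * q + q * (n ^ (2 * i) * c))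
        (d := -(n ^ (2 * 0) * c) * b i + q * d i) ?_ ?_ ?_ ?_ ?_ ?_ ?_
      · simp only [mul_a, inv_a, inv_b, hGa, hGb, hGc, hGd]
        push_cast
        ring
      · simp only [mul_b, inv_a, inv_b, hGb, hGd]
        push_cast
        ring
      · simp only [mul_c, inv_c, inv_d, hGa, hGc]
        push_cast
        ring
      · simp only [mul_d, inv_c, inv_d, hGa, hGb, hGc, hGd]
        push_cast
        ring
      · have : d 0 * q - b 0 * (n ^ (2 * i) * c) - 1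
            = (c * (n ^ (2 * 0) - n ^ (2 * i))) * b 0 := by linear_combination hdet'
        rw [this]
        exact mul_dvd_mul (h3.mul_right _) (hGn 0)
      · exact ((hGn i).mul_left _).sub ((hGn 0).mul_right _)
      · have : -(n ^ (2 * 0) * c) * q + q * (n ^ (2 * i) * c)
            = c * (q * (n ^ (2 * i) - n ^ (2 * 0))) := by ring
        rw [this]
        exact h3.mul_right _
    have h2 := hhom _ (hG 0) _ hmem
    rw [mul_inv_cancel_left, hz, add_zero] at h2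
    exact h2
  have hstep : ∀ i, χ (G (i + 1)) = χ (G i) + ψ (G 0) := by
    intro i
    have h2 : χ (G (i + 1)) = χ (dl ((n : ℚ) ^ 2) hn (G i)) := by
      refine col_eq hp h hk (hle (hG _)) (c5_dl_mem hn0 hn (hG i)) ?_ ?_
      · rw [dl_a, hGa, hGa]
      · rw [dl_c, hGc, hGc]
        push_cast
        ring
    rw [h2, ← hsame i, hψ]
    abel
  have hiter : ∀ i, χ (G i) = χ (G 0) + i • ψ (G 0) := by
    intro i
    induction i with
    | zero => simp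
    | succ i ih => rw [hstep, ih, succ_nsmul, add_assoc]
  have hper : χ (G 0) = χ (G s) := by
    obtain ⟨w, hw⟩ := hqs
    refine col_cong hp h hk (hle (hG 0)) (hle (hG s)) (by rw [hGa, hGa])
      (s := ((w * c : ℤ) : ℚ)) (RM.of_dvd p (h3.mul_left w)) ?_
    rw [hGc, hGc, hGa]
    have : n ^ (2 * s) * c = n ^ (2 * 0) * c + w * c * q := by linear_combination c * hw
    exact_mod_cast this
  have hs0 : s • ψ (G 0) = 0 := by
    have := hiter s
    rw [← hper] at this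
    simpa using this
  have hp0 : p ^ k • ψ (G 0) = 0 := by
    rw [hψ, smul_sub, hk _ (c5_dl_mem hn0 hn (hG 0)), hk _ (hle (hG 0)), sub_zero]
  have hz : ψ (G 0) = 0 := c5_nsmul hp hs hs0 hp0
  have e0 : χ g = χ (G 0) := by
    refine col_eq hp h hk hg (hle (hG 0)) (by rw [ha, hGa]) ?_
    rw [hc, hGc]
    push_cast
    ring
  have e1 : χ g' = χ (G 1) := by
    refine col_eq hp h hk hg' (hle (hG 1)) (by rw [ha', hGa]) ?_
    rw [hc', hGc]
    push_cast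
    ring
  rw [e0, e1, hstep 0, hz, add_zero]

end Pool.Agent.P.MP_20768c_nt
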