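import Pool.Agent.P.MP_20768c_nt.RA

namespace Pool.Agent.P.MP_20768c_nt

lemma c6a_crt {m1 m2 r1 r2 : ℤ} (h12 : IsCoprime m1 m2) (h1 : IsCoprime r1 m1)
    (h2 : IsCoprime r2 m2) (z1 : m1 ≠ 0) (z2 : m2 ≠ 0) (n : ℕ) :
    ∃ q : ℕ, n < q ∧ q.Prime ∧ m1 ∣ (q : ℤ) - r1 ∧ m2 ∣ (q : ℤ) - r2 := by
  obtain ⟨u, v, huv⟩ := h12
  have e1 : r1 * v * m2 + r2 * u * m1 = r1 + m1 * ((r2 - r1) * u) := by
    linear_combination r1 * huv
  have e2 : r1 * v * m2 + r2 * u * m1 = r2 + m2 * ((r1 - r2) * v) := by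
    linear_combination r2 * huv
  have c1 : IsCoprime (r1 * v * m2 + r2 * u * m1) m1 := e1 ▸ h1.add_mul_left_left _
  have c2 : IsCoprime (r1 * v * m2 + r2 * u * m1) m2 := e2 ▸ h2.add_mul_left_left _
  obtain ⟨q, hn, hq, hm⟩ := Nat.forall_exists_prime_gt_and_zmodEq n (q := (m1 * m2).natAbs)
    (a := r1 * v * m2 + r2 * u * m1) (Int.natAbs_ne_zero.2 (mul_ne_zero z1 z2))
    ((c1.mul_right c2).of_isCoprime_of_dvd_right (Int.natAbs_dvd.2 dvd_rfl))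
  have hd : m1 * m2 ∣ (q : ℤ) - (r1 * v * m2 + r2 * u * m1) := Int.natAbs_dvd.1 hm.symm.dvd
  refine ⟨q, hn, hq, ?_, ?_⟩
  · have := ((dvd_mul_right m1 m2).trans hd).add (dvd_mul_right m1 ((r2 - r1) * u))
    rwa [e1, show (q : ℤ) - (r1 + m1 * ((r2 - r1) * u)) + m1 * ((r2 - r1) * u) = q - r1 by ring]
      at this
  · have := ((dvd_mul_left m2 m1).trans hd).add (dvd_mul_right m2 ((r1 - r2) * v))
    rwa [e2, show (q : ℤ) - (r2 + m2 * ((r1 - r2) * v)) + m2 * ((r1 - r2) * v) = q - r2 by ring]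
      at this

lemma c6a_four {a : ℤ} (h : a % 2 = 1) : IsCoprime a 4 := by
  have h2 : IsCoprime a 2 := ⟨1, -(a / 2), by omega⟩
  exact h2.mul_right h2

/-- a prime `q` in the class of `a0` with `p ∤ (q-1)/2` such that `-1` or `p` is a nonsquare -/
lemma c6_prime {p : ℕ} (hp : p.Prime) {a0 C : ℤ} (hC : IsCoprime C (p : ℤ))
    (h : IsCoprime a0 C) :
    ∃ q s : ℕ, q.Prime ∧ q ≠ p ∧ q = 2 * s + 1 ∧ ¬ p ∣ s ∧ C ∣ (q : ℤ) - a0 ∧
      (¬ IsSquare (-1 : ZMod q) ∨ ¬ IsSquare ((p : ℕ) : ZMod q)) := by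
  have C0 : C ≠ 0 := by
    rintro rfl
    rw [isCoprime_zero_left, Int.isUnit_iff] at hC
    have := hp.two_le
    omega
  have p0 : (p : ℤ) ≠ 0 := by exact_mod_cast hp.ne_zero
  rcases hp.eq_two_or_odd with rfl | hodd
  · have h4 : IsCoprime C 4 := hC.mul_right hC
    obtain ⟨q, hn, hq, d1, d2⟩ := c6a_crt h4 h (c6a_four (a := 3) rfl) C0 (by norm_num) 2
    have := Fact.mk hq
    exact ⟨q, q / 2, hq, hn.ne', by omega, by omega, d1,
      Or.inl fun hs => ZMod.exists_sq_eq_neg_one_iff.1 hs (by omega)⟩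
  have p2 : p ≠ 2 := by omega
  have := Fact.mk hp
  obtain ⟨a, ha, hap, da, -⟩ := c6a_crt (m2 := 1) (r2 := 0) isCoprime_one_right h
    isCoprime_one_right C0 one_ne_zero 2
  have ao : a % 2 = 1 := hap.eq_two_or_odd.resolve_left ha.ne'
  have aC : IsCoprime (a : ℤ) (4 * C) := by
    refine (c6a_four (by omega)).mul_right ?_
    obtain ⟨k, hk⟩ := da
    rw [show (a : ℤ) = a0 + C * k by linear_combination hk]
    exact h.add_mul_left_left _
  have Cp : IsCoprime (4 * C) (p : ℤ) := (c6a_four (by omega)).symm.mul_left hC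
  have fin : ∀ q : ℕ, 4 * C ∣ (q : ℤ) - a → C ∣ (q : ℤ) - a0 ∧ q % 4 = a % 4 := fun q d => by
    have d4 := (dvd_mul_right 4 C).trans d
    refine ⟨?_, by omega⟩
    have := ((dvd_mul_left C 4).trans d).add da
    rwa [sub_add_sub_cancel] at this
  by_cases h3 : a % 4 = 3
  · obtain ⟨q, hn, hq, d1, d2⟩ := c6a_crt Cp aC isCoprime_one_left.neg_left
      (mul_ne_zero (by norm_num) C0) p0 p
    have := Fact.mk hq
    obtain ⟨f1, f2⟩ := fin q d1
    refine ⟨q, q / 2, hq, hn.ne', by omega, fun hs => p2 ?_, f1,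
      Or.inl fun hs => ZMod.exists_sq_eq_neg_one_iff.1 hs (by omega)⟩
    have d3 : (p : ℤ) ∣ (q : ℤ) - -1 - 2 * ((q / 2 : ℕ) : ℤ) :=
      d2.sub ((Int.natCast_dvd_natCast.2 hs).mul_left 2)
    rw [show (q : ℤ) - -1 - 2 * ((q / 2 : ℕ) : ℤ) = (2 : ℕ) by omega,
      Int.natCast_dvd_natCast] at d3
    exact (Nat.prime_dvd_prime_iff_eq hp Nat.prime_two).1 d3
  · obtain ⟨ρ, hρ⟩ := FiniteField.exists_nonsquare (F := ZMod p)
      (by rw [ZMod.ringChar_zmod_n]; exact p2)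
    obtain ⟨r, rfl⟩ := ZMod.intCast_surjective ρ
    have r0 : (r : ZMod p) ≠ 0 := fun e => hρ (e ▸ IsSquare.zero)
    obtain ⟨q, hn, hq, d1, d2⟩ := c6a_crt Cp aC
      ((ZMod.coe_int_isUnit_iff_isCoprime r p).1 r0.isUnit).symm (mul_ne_zero (by norm_num) C0) p0 p
    have := Fact.mk hq
    obtain ⟨f1, f2⟩ := fin q d1
    have e : (q : ZMod p) = (r : ZMod p) := by
      have := (ZMod.intCast_zmod_eq_zero_iff_dvd _ p).2 d2
      push_cast at this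
      exact sub_eq_zero.1 this
    refine ⟨q, q / 2, hq, hn.ne', by omega, fun hs => hρ ?_, f1, Or.inr fun hs => hρ ?_⟩
    · rw [← e, show q = 2 * (q / 2) + 1 by omega, Nat.cast_add, Nat.cast_mul,
        (ZMod.natCast_eq_zero_iff _ p).2 hs, mul_zero, zero_add, Nat.cast_one]
      exact IsSquare.one
    · rw [← e]
      exact (ZMod.exists_sq_eq_prime_iff_of_mod_four_eq_one (p := q) (q := p) (by omega) p2).1 hs

/-- every unit is a square times `1`, `-1` or `p` -/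
lemma c6_sq {p q : ℕ} (hp : p.Prime) (hq : q.Prime) (hqp : q ≠ p)
    (hns : ¬ IsSquare (-1 : ZMod q) ∨ ¬ IsSquare ((p : ℕ) : ZMod q)) {c1 : ℚ} (hc1 : RM p 1 c1)
    (hc : ¬ RM p q c1) :
    ∃ n w : ℤ, IsCoprime (q : ℤ) n ∧ (w = 1 ∨ w = -1 ∨ w = p) ∧
      RM p q (c1 - (n : ℚ) ^ 2 * w) := by
  have := Fact.mk hq
  obtain ⟨z, hz, -⟩ := RM.cong_int hp (C := q)
    (Nat.isCoprime_iff_coprime.2 ((Nat.coprime_primes hq hp).2 hqp)) hc1 0 0
  have z0 : (z : ZMod q) ≠ 0 := fun e => hc (by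
    simpa using hz.add (RM.of_dvd p ((ZMod.intCast_zmod_eq_zero_iff_dvd _ q).1 e)))
  have key : ∃ (y : ZMod q) (w : ℤ), (w = 1 ∨ w = -1 ∨ w = p) ∧ (z : ZMod q) = y ^ 2 * w := by
    by_cases hs : IsSquare (z : ZMod q)
    · obtain ⟨y, hy⟩ := hs
      exact ⟨y, 1, Or.inl rfl, by rw [hy]; push_cast; ring⟩
    obtain ⟨w, hw, hw2⟩ : ∃ w : ℤ, (w = -1 ∨ w = p) ∧ ¬ IsSquare (w : ZMod q) := by
      rcases hns with h | h
      · exact ⟨-1, Or.inl rfl, by simpa using h⟩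
      · exact ⟨p, Or.inr rfl, by simpa using h⟩
    have w0 : (w : ZMod q) ≠ 0 := fun e => hw2 (e ▸ IsSquare.zero)
    obtain ⟨y, hy⟩ := (quadraticChar_one_iff_isSquare (mul_ne_zero z0 w0)).1 (by
      rw [map_mul, quadraticChar_neg_one_iff_not_isSquare.2 hs,
        quadraticChar_neg_one_iff_not_isSquare.2 hw2]
      norm_num)
    refine ⟨y / w, w, Or.inr hw, ?_⟩
    field_simp
    linear_combination hy
  obtain ⟨y, w, hw, hy⟩ := key
  obtain ⟨n, rfl⟩ := ZMod.intCast_surjective y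
  have n0 : (n : ZMod q) ≠ 0 := fun e => z0 (by rw [hy, e]; ring)
  refine ⟨n, w, (ZMod.coe_int_isUnit_iff_isCoprime n q).1 n0.isUnit, hw, ?_⟩
  have d : (q : ℤ) ∣ z - n ^ 2 * w := (ZMod.intCast_zmod_eq_zero_iff_dvd _ q).1 (by
    push_cast
    exact sub_eq_zero.2 hy)
  have := hz.add (RM.of_dvd p d)
  push_cast at this
  rwa [sub_add_sub_cancel] at this

end Pool.Agent.P.MP_20768c_nt
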