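import Pool.Agent.P.MP_20768c_nt.C5
import Pool.Agent.P.MP_20768c_nt.C6a
import Pool.Agent.P.MP_20768c_nt.B1

namespace Pool.Agent.P.MP_20768c_nt
open M2

lemma c6_last {A : Type*} [AddCommGroup A] {p k : ℕ} (hp : p.Prime) {N : ℤ} (hN0 : N ≠ 0)
    {χ : M2 → A} (h : IsHom (Gam p N 1) χ) (hk : ∀ g ∈ Gam p N 1, p ^ k • χ g = 0) {q w : ℤ}
    (h1 : N ∣ q - 1) (hw : w = 1 ∨ w = -1 ∨ w = p) {g : M2} (hg : g ∈ Gam p N 1) (ha : g.a = q)
    (hc : g.c = (N * w : ℤ)) : χ g = 0 := by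
  obtain ⟨m, hm⟩ := h1
  have hp' : (p : ℚ) ≠ 0 := by exact_mod_cast hp.ne_zero
  have hw0 : (w : ℚ) ≠ 0 := by
    rcases hw with rfl | rfl | rfl
    · norm_num
    · norm_num
    · exact_mod_cast hp.ne_zero
  have ht : RM p 1 (-(m : ℚ) / w) := by
    rcases hw with rfl | rfl | rfl
    · simpa using (RM.int p m).neg
    · have e : -(m : ℚ) / ((-1 : ℤ) : ℚ) = m := by push_cast; ring
      rw [e]
      exact RM.int p m
    · simpa using ((RM.int p m).neg).div_pow hp.ne_zero 1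
  have hm' : (q : ℚ) - 1 = N * m := by exact_mod_cast hm
  have hl : RM p N ((N * w : ℤ) : ℚ) := RM.of_dvd p (dvd_mul_right N w)
  have h2 := col_eq hp h hk ((Gam p N 1).mul_mem (e_mem ht) hg) (l_mem hl)
    (by
      rw [mul_a, e_a, e_b, l_a, ha, hc]
      push_cast
      field_simp
      linear_combination hm')
    (by rw [mul_c, e_c, e_d, l_c, hc]; ring)
  rwa [h _ (e_mem ht) _ hg, hom_e hp.ne_zero h hk ht, hom_l hp.ne_zero h hk hl, zero_add] at h2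

lemma c6_prime_col {A : Type*} [AddCommGroup A] {p k : ℕ} (hp : p.Prime) {N : ℤ} (hN0 : N ≠ 0)
    {χ : M2 → A} (h : IsHom (Gam p N 1) χ) (hk : ∀ g ∈ Gam p N 1, p ^ k • χ g = 0) {q s : ℕ}
    (hq : q.Prime) (hqp : q ≠ p) (hqs : q = 2 * s + 1) (hs : ¬ p ∣ s)
    (hns : ¬ IsSquare (-1 : ZMod q) ∨ ¬ IsSquare ((p : ℕ) : ZMod q)) (h1 : N ∣ (q : ℤ) - 1)
    {g : M2} (hg : g ∈ Gam p N 1) (ha : g.a = ((q : ℤ) : ℚ)) : χ g = 0 := by
  have hcp : IsCoprime (q : ℤ) (p : ℤ) :=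
    Nat.isCoprime_iff_coprime.2 ((Nat.coprime_primes hq hp).2 hqp)
  have hN' : (N : ℚ) ≠ 0 := by exact_mod_cast hN0
  have hq0 : (q : ℤ) ≠ 0 := by exact_mod_cast hq.ne_zero
  have hq' : ((q : ℤ) : ℚ) ≠ 0 := by exact_mod_cast hq.ne_zero
  have hqu : ¬ (q : ℤ) ∣ 1 := fun hd => hq.one_lt.ne' (Nat.dvd_one.1 (by exact_mod_cast hd))
  have hc1 : RM p 1 (g.c / N) := hg.2.2.1.div_self hN0
  have hnc : ¬ RM p q (g.c / N) := fun hc => by
    have h2 : RM p q (g.a * g.d - g.b * (N * (g.c / N))) := by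
      refine RM.sub ?_ (hg.2.1.mul_l ((RM.int p N).mul_l hc))
      rw [ha]
      exact (RM.of_dvd p (dvd_refl _)).mul_r hg.2.2.2.of_sub_one
    rw [mul_div_cancel₀ _ hN', g.det] at h2
    exact hqu (RM.dvd_of_int hcp (by exact_mod_cast h2))
  obtain ⟨n, w, hqn, hw, hr⟩ := c6_sq hp hq hqp hns hc1 hnc
  have hn0 : n ≠ 0 := by
    rintro rfl
    exact hqu (isUnit_iff_dvd_one.1 (isCoprime_zero_right.1 hqn))
  have hqN : IsCoprime (q : ℤ) N := by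
    obtain ⟨m, hm⟩ := h1
    exact ⟨1, -m, by linear_combination hm⟩
  have hqw : IsCoprime (q : ℤ) w := by
    rcases hw with rfl | rfl | rfl
    · exact isCoprime_one_right
    · exact isCoprime_one_right.neg_right
    · exact hcp
  have hqc : IsCoprime (q : ℤ) (N * w) := hqN.mul_right hqw
  obtain ⟨g2, -, -, hg2, a2, -, c2, -, -⟩ := exists_col p (N := N) (B := 1) (a := q) (c := N * w)
    (by rwa [one_mul]) h1 (dvd_mul_right N w)
  obtain ⟨g3, -, -, hg3, a3, -, c3, -, -⟩ := exists_col p (N := N) (B := 1) (a := q)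
    (c := n ^ 2 * (N * w)) (by rw [one_mul]; exact (hqn.pow_right).mul_right hqc) h1
    ((dvd_mul_right N w).mul_left _)
  have hF : (q : ℤ) ∣ n ^ (2 * s) - 1 := by
    have h3 := Int.ModEq.pow_card_sub_one_eq_one hq hqn.symm
    have h4 : q - 1 = 2 * s := by omega
    rw [h4] at h3
    exact h3.symm.dvd
  have e1 : χ g = χ g3 := col_cong hp h hk hg hg3 (ha.trans a3.symm)
    (s := N * -((g.c / N - (n : ℚ) ^ 2 * w) / ((q : ℤ) : ℚ)))
    ((RM.of_dvd p (dvd_refl N)).mul_r (hr.div_self hq0).neg)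
    (by
      rw [c3, ha]
      field_simp
      push_cast
      ring)
  have e2 : χ g2 = χ g3 := c5 hp hN0 h hk hn0 hs hF hqn hqc h1 (dvd_mul_right N w) hg2 hg3 a2 c2 a3
    (by rw [c3]; push_cast; ring)
  rw [e1, ← e2]
  exact c6_last hp hN0 h hk h1 hw hg2 a2 c2

lemma c6_ne {A : Type*} [AddCommGroup A] {p k : ℕ} (hp : p.Prime) {N : ℤ}
    (hN : IsCoprime N (p : ℤ)) (hN0 : N ≠ 0) {χ : M2 → A} (h : IsHom (Gam p N 1) χ)
    (hk : ∀ g ∈ Gam p N 1, p ^ k • χ g = 0) {g : M2} (hg : g ∈ Gam p N 1) (hc0 : g.c ≠ 0) :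
    χ g = 0 := by
  have hp' : (p : ℚ) ≠ 0 := by exact_mod_cast hp.ne_zero
  obtain ⟨C, i, hC0, hC, hc⟩ := RM.strip hp hc0 hg.2.2.1.to_one
  have hC' : (C : ℚ) ≠ 0 := by exact_mod_cast hC0
  have hpi : (p : ℚ) ^ i ≠ 0 := zpow_ne_zero i hp'
  have hCc : RM p C g.c := by
    rw [hc]
    exact (RM.of_dvd p (dvd_refl C)).mul_r (RM.zpow hp.ne_zero i)
  obtain ⟨a0, ha0, -⟩ := RM.cong_int hp hC hg.1.of_sub_one 0 0
  obtain ⟨d0, hd0, -⟩ := RM.cong_int hp hC hg.2.2.2.of_sub_one 0 0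
  have hco : IsCoprime a0 C := by
    have h1 : RM p C ((a0 * d0 - 1 : ℤ) : ℚ) := by
      have e : ((a0 * d0 - 1 : ℤ) : ℚ) =
          g.b * g.c - (g.a - a0) * g.d - a0 * (g.d - d0) := by
        push_cast
        linear_combination g.det
      rw [e]
      exact ((hg.2.1.mul_l hCc).sub (ha0.mul_r hg.2.2.2.of_sub_one)).sub ((RM.int p a0).mul_l hd0)
    obtain ⟨u, hu⟩ := RM.dvd_of_int hC h1
    exact ⟨d0, -u, by linear_combination hu⟩
  obtain ⟨q, s, hq, hqp, hqs, hs, hqa, hns⟩ := c6_prime hp hC hco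
  have h2 : RM p C (((q : ℤ) : ℚ) - g.a) := by
    have e : ((q : ℤ) : ℚ) - g.a = (((q : ℤ) - a0 : ℤ) : ℚ) - (g.a - a0) := by
      push_cast
      ring
    rw [e]
    exact (RM.of_dvd p hqa).sub ha0
  have ht : RM p 1 ((((q : ℤ) : ℚ) - g.a) / C * (p : ℚ) ^ (-i)) :=
    (h2.div_self hC0).mul_r (RM.zpow hp.ne_zero _)
  have hg1 := (Gam p N 1).mul_mem (e_mem ht) hg
  have ha1 : (e ((((q : ℤ) : ℚ) - g.a) / C * (p : ℚ) ^ (-i)) * g).a = ((q : ℤ) : ℚ) := by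
    rw [mul_a, e_a, e_b, hc, zpow_neg]
    field_simp
    ring
  have h3 : N ∣ (q : ℤ) - 1 := by
    have h4 := hg1.1
    rw [ha1] at h4
    exact RM.dvd_of_int hN (by exact_mod_cast h4)
  have h5 := c6_prime_col hp hN0 h hk hq hqp hqs hs hns h3 hg1 ha1
  rwa [h _ (e_mem ht) _ hg, hom_e hp.ne_zero h hk ht, zero_add] at h5

/-- B2: the group has no nonzero homomorphism to a group killed by `p ^ k` -/
theorem c6 {A : Type*} [AddCommGroup A] {p k : ℕ} (hp : p.Prime) {N : ℤ}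
    (hN : IsCoprime N (p : ℤ)) {χ : M2 → A} (h : IsHom (Gam p N 1) χ)
    (hk : ∀ g ∈ Gam p N 1, p ^ k • χ g = 0) : ∀ g ∈ Gam p N 1, χ g = 0 := by
  have hN0 : N ≠ 0 := by
    rintro rfl
    have h1 := isUnit_iff_dvd_one.1 (isCoprime_zero_left.1 hN)
    exact hp.one_lt.ne' (Nat.dvd_one.1 (by exact_mod_cast h1))
  intro g hg
  by_cases hc : g.c = 0
  · have hl : RM p N (N : ℚ) := RM.of_dvd p (dvd_refl N)
    have ha : g.a ≠ 0 := fun h0 => by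
      have h1 := g.det
      rw [h0, hc] at h1
      norm_num at h1
    have h2 := c6_ne hp hN hN0 h hk ((Gam p N 1).mul_mem (l_mem hl) hg) (by
      rw [mul_c, l_c, l_d, hc, mul_zero, add_zero]
      exact mul_ne_zero (by exact_mod_cast hN0) ha)
    rwa [h _ (l_mem hl) _ hg, hom_l hp.ne_zero h hk hl, zero_add] at h2
  · exact c6_ne hp hN hN0 h hk hg hc

theorem core {A : Type*} [AddCommGroup A] {p k : ℕ} (hp : p.Prime) {N : ℤ}
    (hN : IsCoprime N (p : ℤ)) (r : ℕ) {m : ℕ} (hm : 0 < m) (Φ : M2 → A)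
    (hk : ∀ g ∈ Gam p N 1, p ^ k • Φ g = 0)
    (hU : ∀ h ∈ Gam p N 1, ∀ t, RM p 1 t → Φ (h * e t) = Φ h)
    (hL : ∀ h ∈ Gam p N 1, ∀ t, RM p N t → Φ (h * l t) = Φ h)
    (hu : (p : ℚ) ^ m ≠ 0) (hDm : D ((p : ℚ) ^ m) hu ∈ Gam p N 1)
    (hD : ∀ h ∈ Gam p N 1, Φ (h * D ((p : ℚ) ^ m) hu) = Φ h)
    (hΔ : ∀ g, Int1 (N * (p : ℤ) ^ r) g → ∀ h ∈ Gam p N 1, Φ (g * h) = Φ g + Φ h) :
    ∀ g ∈ Gam p N 1, Φ g = 0 :=
  c6 hp hN (b1 hp hN r hm Φ hU hL hu hDm hD hΔ) hk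

end Pool.Agent.P.MP_20768c_nt
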