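import Mathlib

open Complex UpperHalfPlane

namespace Pool.Agent.P.MP_20768c_nt

/-- The modular symbol `[r] = 2π ∫_0^∞ f(r + iy) dy = 2πi ∫_{i∞}^r f(z) dz`. -/
noncomputable def sym (f : ℍ → ℂ) (r : ℚ) : ℂ :=
  2 * Real.pi * ∫ y in Set.Ioi (0 : ℝ), f (ofComplex ((r : ℂ) + (y : ℂ) * Complex.I))

/-- The Mazur, Tate, Teitelbaum measure of the ball `a + p^n ℤ_p` (`n ≥ 1`, `a` prime to `p`):
`α^(-n) [a/p^n] - e α^(-n-1) [a/p^(n-1)]`, where `e` is the value of the character at `p`. -/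
noncomputable def mtt {p : ℕ} [Fact p.Prime] (S : ℚ → ℂ_[p]) (e α : ℂ_[p]) (n a : ℕ) : ℂ_[p] :=
  α⁻¹ ^ n * S ((a : ℚ) / (p : ℚ) ^ n) - e * α⁻¹ ^ (n + 1) * S ((a : ℚ) / (p : ℚ) ^ (n - 1))

/-- `p ^ wd p` is `p` for odd `p` and `4` for `p = 2`. -/
def wd (p : ℕ) : ℕ := if p = 2 then 2 else 1

/-- Write `q = p ^ wd p` and a unit `x` of `ℤ_p` as `ω(x) (1+q)^(ℓ(x))` with `ω(x)` a root of
unity. `IsLog p n a j` says `ℓ(a) ≡ j` mod `p^n`, that is `a ≡ ω(a) (1+q)^j` mod `q p^n`;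
it is tested after raising to the power `φ(q)`. -/
def IsLog (p n a j : ℕ) : Prop :=
  a ^ (p ^ wd p).totient ≡ (1 + p ^ wd p) ^ (j * (p ^ wd p).totient) [MOD p ^ (n + 2 * wd p - 1)]

open Classical in
/-- The level `q p^n` Riemann sum for the coefficient of `T^k` in
`∫ ψ(x) (1+T)^(ℓ(x)) dμ(x)` over the units of `ℤ_p`. -/
noncomputable def riem {p : ℕ} [Fact p.Prime] (μ : ℕ → ℕ → ℂ_[p])
    (ψ : DirichletCharacter ℂ_[p] (p ^ wd p)) (k n : ℕ) : ℂ_[p] :=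
  ∑ j ∈ Finset.range (p ^ n), ∑ a ∈ Finset.range (p ^ (n + wd p)),
    if IsLog p n a j then
      ψ (a : ZMod (p ^ wd p)) * μ (n + wd p) a * (j.choose k : ℂ_[p]) else 0

end Pool.Agent.P.MP_20768c_nt
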