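import Pool.Agent.P.MP_20768c_nt.Bd
import Pool.Agent.P.MP_20768c_nt.C6

namespace Pool.Agent.P.MP_20768c_nt
open M2

/-- the open ball of radius `c` as an additive subgroup -/
def eng0_ball (K : Type*) [NormedField K] [IsUltrametricDist K] {c : ℝ} (hc : 0 < c) :
    AddSubgroup K where
  carrier := {x | ‖x‖ < c}
  zero_mem' := by simpa using hc
  add_mem' := fun {x y} hx hy =>
    (IsUltrametricDist.norm_add_le_max x y).trans_lt (max_lt hx hy)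
  neg_mem' := fun {x} hx => by simpa using hx

/-- application of `core` to `h ↦ F(b,d) - Q(b,d)` modulo the open ball of radius `c` -/
theorem eng0 {K : Type*} [NormedField K] [IsUltrametricDist K] {p : ℕ} (hp : p.Prime)
    (hpn : ‖(p : K)‖ < 1) {M : ℕ} [NeZero M] {N : ℤ} {r : ℕ} (hN : IsCoprime N (p : ℤ))
    (hM : (M : ℤ) = N * (p : ℤ) ^ r) {ε : DirichletCharacter K M} {S : ℚ → K} (hT : TLaw M ε S)
    {c : ℝ} (hc : 0 < c) (Q : ℚ → ℚ → K)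
    (q0 : Q 0 1 = S 0)
    (q1 : ∃ B : ℝ, ∀ h ∈ Gam p N 1, ‖Q h.b h.d‖ ≤ B)
    (q2 : ∀ g, Int1 (M : ℤ) g → ∀ h ∈ Gam p N 1, Q (g * h).b (g * h).d = Q h.b h.d)
    (q3 : ∀ h ∈ Gam p N 1, ∀ h' ∈ Gam p N 1, h.a = h'.a → h.c = h'.c →
      ‖(Fv S h.b h.d - Q h.b h.d) - (Fv S h'.b h'.d - Q h'.b h'.d)‖ < c)
    (q4 : ∃ m : ℕ, 0 < m ∧ RM p N ((p : ℚ) ^ m - 1) ∧ ∀ h ∈ Gam p N 1,
      ‖Q (h.b * ((p : ℚ) ^ m)⁻¹) (h.d * ((p : ℚ) ^ m)⁻¹) - Q h.b h.d‖ < c)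
    {b d : ℤ} (hbd : IsCoprime b d) (hd : (M : ℤ) ∣ d - 1) : ‖Fv S b d - S 0‖ < c := by
  obtain ⟨B1, hB1⟩ := sd_bdd hT
  obtain ⟨B2, hB2⟩ := q1
  obtain ⟨m, hm, hm1, hm2⟩ := q4
  have hp0 : (p : ℚ) ≠ 0 := by exact_mod_cast hp.ne_zero
  have hu : (p : ℚ) ^ m ≠ 0 := pow_ne_zero _ hp0
  have hB0 : 0 ≤ B1 := (norm_nonneg _).trans (hB1 0)
  have hF : ∀ x y : ℚ, ‖Fv S x y‖ ≤ B1 := by
    intro x y
    unfold Fv
    split_ifs
    · simpa using hB0
    · exact hB1 _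
  have hB20 : 0 ≤ B2 := (norm_nonneg _).trans (hB2 1 (Gam p N 1).one_mem)
  obtain ⟨k, hk⟩ := exists_pow_lt_of_lt_one (show 0 < c / (B1 + B2 + 1) by positivity) hpn
  have hQ : ∀ g, Int1 (M : ℤ) g → Q g.b g.d = S 0 := by
    intro g hg
    have := q2 g hg 1 (Gam p N 1).one_mem
    rw [mul_one] at this
    rw [this]
    exact q0
  have hmk : ∀ x y : K, ‖x - y‖ < c →
      (QuotientAddGroup.mk x : K ⧸ eng0_ball K hc) = QuotientAddGroup.mk y := by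
    intro x y h
    rw [QuotientAddGroup.eq]
    show ‖-x + y‖ < c
    rwa [neg_add_eq_sub, norm_sub_rev]
  have key := core (A := K ⧸ eng0_ball K hc) (k := k) hp hN r hm
    (fun h => QuotientAddGroup.mk (Fv S h.b h.d - Q h.b h.d)) ?_ ?_ ?_ hu ?_ ?_ ?_
  · have hcop : IsCoprime d (b * (M : ℤ)) := by
      refine IsCoprime.mul_right hbd.symm ?_
      obtain ⟨w, hw⟩ := hd
      exact ⟨1, -w, by linear_combination hw⟩
    obtain ⟨u, v, huv⟩ := hcop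
    have hdet : (u : ℚ) * d - b * ((-(v * M) : ℤ) : ℚ) = 1 := by
      have : u * d - b * (-(v * M)) = 1 := by linear_combination huv
      exact_mod_cast this
    have hg : Int1 (M : ℤ) ⟨u, b, ((-(v * M) : ℤ) : ℚ), d, hdet⟩ :=
      ⟨u, b, -(v * M), d, rfl, rfl, rfl, rfl, (Dvd.intro_left v rfl).neg_right, hd⟩
    have h1 := key _ (hg.mem (p := p) (N := N) ⟨_, hM⟩)
    have h2 := hQ _ hg
    simp only at h1 h2
    rw [h2, QuotientAddGroup.eq_zero_iff] at h1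
    exact h1
  · intro g hg
    rw [← QuotientAddGroup.mk_nsmul, QuotientAddGroup.eq_zero_iff]
    show ‖p ^ k • (Fv S g.b g.d - Q g.b g.d)‖ < c
    rw [nsmul_eq_mul, norm_mul, Nat.cast_pow, norm_pow]
    have h1 : ‖Fv S g.b g.d - Q g.b g.d‖ ≤ B1 + B2 + 1 :=
      (norm_sub_le _ _).trans (by linarith [hF g.b g.d, hB2 g hg])
    rw [lt_div_iff₀ (by positivity)] at hk
    exact lt_of_le_of_lt (mul_le_mul_of_nonneg_left h1 (by positivity)) hk
  · intro h hh t ht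
    exact hmk _ _ (q3 _ ((Gam p N 1).mul_mem hh (e_mem ht)) h hh (by simp) (by simp))
  · intro h _ t _
    simp
  · refine ⟨hm1, RM.zero _ _, RM.zero _ _, ?_⟩
    have : (D ((p : ℚ) ^ m) hu).d - 1 = -(((p : ℚ) ^ m - 1) * ((p : ℚ) ^ m)⁻¹) := by
      rw [D_d]; field_simp; ring
    rw [this]
    exact (hm1.mul_r (RM.inv_pow hp.ne_zero m)).neg
  · intro h hh
    have e1 : (h * D ((p : ℚ) ^ m) hu).b = h.b * ((p : ℚ) ^ m)⁻¹ := by simp
    have e2 : (h * D ((p : ℚ) ^ m) hu).d = h.d * ((p : ℚ) ^ m)⁻¹ := by simp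
    have e3 : Fv S (h.b * ((p : ℚ) ^ m)⁻¹) (h.d * ((p : ℚ) ^ m)⁻¹) = Fv S h.b h.d := by
      rw [mul_comm h.b, mul_comm h.d]
      exact Fv_smul S _ _ (inv_ne_zero hu)
    refine hmk _ _ ?_
    rw [e1, e2, e3, sub_sub_sub_cancel_left, norm_sub_rev]
    exact hm2 h hh
  · intro g hg h hh
    rw [← hM] at hg
    rw [← QuotientAddGroup.mk_add, q2 g hg h hh, hQ g hg]
    obtain ⟨a', b', c', d', ha, hb, hc', hd', h1, h2⟩ := hg
    have hdet := g.det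
    rw [ha, hb, hc', hd'] at hdet
    have hdet' : a' * d' - b' * c' = 1 := by exact_mod_cast hdet
    have hne : h.b ≠ 0 ∨ h.d ≠ 0 := by
      by_contra hcon
      push Not at hcon
      have := h.det
      rw [hcon.1, hcon.2] at this
      simp at this
    have t1 := hT a' b' c' d' hdet' h1 h.b h.d hne
    have t2 := hT a' b' c' d' hdet' h1 0 1 (Or.inr one_ne_zero)
    rw [char_one ε h2, one_mul] at t1 t2
    have t3 : Fv S 0 1 = S 0 := by simp [Fv]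
    rw [mul_zero, mul_zero, mul_one, mul_one, zero_add, zero_add, t3] at t2
    rw [mul_b, mul_d, ha, hb, hc', hd', t1, t2]
    congr 1
    ring

open Classical in
/-- the exponent and the primitive vector of `(x, y)` -/
noncomputable def prim (p : ℕ) (x y : ℚ) : ℤ × ℤ × ℤ :=
  if h : ∃ v : ℤ × ℤ × ℤ, Prim p x y v.1 v.2.1 v.2.2 then h.choose else 0

lemma prim_eq {p : ℕ} (hp : p.Prime) {x y : ℚ} {j x' y' : ℤ} (h : Prim p x y j x' y') :
    prim p x y = (j, x', y') := by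
  unfold prim
  have hex : ∃ v : ℤ × ℤ × ℤ, Prim p x y v.1 v.2.1 v.2.2 := ⟨(j, x', y'), h⟩
  rw [dif_pos hex]
  obtain ⟨h1, h2, h3⟩ := Prim.unique hp hex.choose_spec h
  exact Prod.ext h1 (Prod.ext h2 h3)

lemma prim_col1 {p : ℕ} (hp : p.Prime) {N : ℤ} (hN : IsCoprime N (p : ℤ)) {h : M2}
    (hh : h ∈ Gam p N 1) : ∃ j a c, Prim p h.a h.c j a c ∧ N ∣ c := by
  obtain ⟨ha, hb, hc, hd⟩ := hh
  obtain ⟨j, a, c, hP⟩ := Prim.exists hp ha.of_sub_one hc.to_one hd.of_sub_one hb.neg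
    (by linear_combination h.det)
  refine ⟨j, a, c, hP, RM.dvd_of_int hN ?_⟩
  have hp0 : (p : ℚ) ≠ 0 := by exact_mod_cast hp.ne_zero
  have : (c : ℚ) = (p : ℚ) ^ (-j) * h.c := by
    rw [hP.2.2, ← mul_assoc, ← zpow_add₀ hp0]; simp
  rw [this]
  exact (RM.zpow hp.ne_zero _).mul_l hc

lemma prim_col2 {p : ℕ} (hp : p.Prime) {N : ℤ} {h : M2}
    (hh : h ∈ Gam p N 1) : ∃ j b d, Prim p h.b h.d j b d := by
  obtain ⟨ha, hb, hc, hd⟩ := hh
  exact Prim.exists hp hb hd.of_sub_one hc.to_one.neg ha.of_sub_one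
    (by linear_combination h.det)

/-- the determinant of the two primitive columns is a power of `p` -/
lemma prim_det {p : ℕ} (hp : p.Prime) {h : M2} {j a c j' b d : ℤ}
    (h1 : Prim p h.a h.c j a c) (h2 : Prim p h.b h.d j' b d) :
    ∃ n : ℕ, j + j' = -(n : ℤ) ∧ a * d - b * c = (p : ℤ) ^ n := by
  have hp0 : (p : ℚ) ≠ 0 := by exact_mod_cast hp.ne_zero
  have hdet := h.det
  rw [h1.2.1, h1.2.2, h2.2.1, h2.2.2] at hdet
  have key : (p : ℚ) ^ (j + j') * ((a * d - b * c : ℤ) : ℚ) = 1 := by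
    rw [zpow_add₀ hp0]; push_cast; linear_combination hdet
  obtain ⟨n, hn | hn⟩ := (j + j').eq_nat_or_neg
  · rw [hn, zpow_natCast] at key
    have k2 : (p : ℤ) ^ n * (a * d - b * c) = 1 := by exact_mod_cast key
    have hn0 : n = 0 := by
      by_contra h0
      have : (p : ℤ) ∣ 1 := k2 ▸ (dvd_pow_self _ h0).mul_right _
      have := Int.natCast_dvd_natCast.1 (show (p : ℤ) ∣ ((1 : ℕ) : ℤ) by simpa using this)
      exact hp.one_lt.ne' (Nat.dvd_one.1 this)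
    subst hn0
    exact ⟨0, by simpa using hn, by simpa using k2⟩
  · refine ⟨n, hn, ?_⟩
    rw [hn, zpow_neg, zpow_natCast, inv_mul_eq_iff_eq_mul₀ (pow_ne_zero _ hp0), mul_one] at key
    exact_mod_cast key

lemma prim_mul {p : ℕ} {M : ℤ} {g h : M2} (hg : Int1 M g) {j b d : ℤ}
    (h2 : Prim p h.b h.d j b d) :
    ∃ b' d', Prim p (g * h).b (g * h).d j b' d' ∧ M ∣ d' - d := by
  obtain ⟨a', b', c', d', ha, hb, hc, hd, h1, h3⟩ := hg
  have hdet := g.det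
  rw [ha, hb, hc, hd] at hdet
  have hdet' : a' * d' - b' * c' = 1 := by exact_mod_cast hdet
  obtain ⟨⟨u, v, huv⟩, e1, e2⟩ := h2
  refine ⟨a' * b + b' * d, c' * b + d' * d, ⟨⟨u * d' - v * c', v * a' - u * b', ?_⟩, ?_, ?_⟩, ?_⟩
  · linear_combination (u * b + v * d) * hdet' + huv
  · rw [mul_b, ha, hb, e1, e2]; push_cast; ring
  · rw [mul_d, hc, hd, e1, e2]; push_cast; ring
  · have : c' * b + d' * d - d = c' * b + (d' - 1) * d := by ring
    rw [this]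
    exact (h1.mul_right b).add (h3.mul_right d)

lemma prim_scale {p : ℕ} (hp : p.Prime) {x y : ℚ} {j x' y' : ℤ} (h : Prim p x y j x' y') (m : ℕ) :
    Prim p (x * ((p : ℚ) ^ m)⁻¹) (y * ((p : ℚ) ^ m)⁻¹) (j - m) x' y' := by
  have hp0 : (p : ℚ) ≠ 0 := by exact_mod_cast hp.ne_zero
  refine ⟨h.1, ?_, ?_⟩
  · rw [zpow_sub₀ hp0, zpow_natCast, h.2.1]; ring
  · rw [zpow_sub₀ hp0, zpow_natCast, h.2.2]; ring

lemma Fv_prim {K : Type*} [Zero K] (S : ℚ → K) {p : ℕ} (hp : p.Prime) {x y : ℚ} {j x' y' : ℤ}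
    (h : Prim p x y j x' y') : Fv S x y = Fv S x' y' := by
  have hp0 : (p : ℚ) ≠ 0 := by exact_mod_cast hp.ne_zero
  rw [h.2.1, h.2.2]
  exact Fv_smul S _ _ (zpow_ne_zero _ hp0)

end Pool.Agent.P.MP_20768c_nt
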