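import Pool.Agent.P.MP_20768c_nt.EngA1
import Pool.Agent.P.MP_20768c_nt.Eng0

namespace Pool.Agent.P.MP_20768c_nt
open M2

lemma enga_norm_e {K : Type*} [NormedField K] {p M : ℕ} (hM : IsCoprime (M : ℤ) (p : ℤ))
    (ε : DirichletCharacter K M) : ‖ε (p : ZMod M)‖ = 1 := by
  apply char_norm_unit
  have := (ZMod.coe_int_isUnit_iff_isCoprime (p : ℤ) M).2 hM
  simpa using this

lemma enga_lt {K : Type*} [NormedField K] [IsUltrametricDist K] {x y : K} {c : ℝ}
    (hx : ‖x‖ < c) (hy : ‖y‖ < c) : ‖x + y‖ < c :=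
  (IsUltrametricDist.norm_add_le_max x y).trans_lt (max_lt hx hy)

lemma enga_prod {K : Type*} [NormedField K] [IsUltrametricDist K] {α u L : K} {c : ℝ}
    (hα : ‖α‖ = 1) (hu : ‖u‖ = 1) (h : ‖(α - 1) * (u - 1) * L‖ < c) (i j : ℤ) :
    ‖(α ^ i - 1) * (u ^ j - 1) * L‖ < c := by
  refine lt_of_le_of_lt ?_ h
  simp only [norm_mul]
  have h1 := norm_zpow_sub_one hα i
  have h2 := norm_zpow_sub_one hu j
  gcongr

lemma enga_eps {K : Type*} [Field K] {p M : ℕ} (hM : IsCoprime (M : ℤ) (p : ℤ))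
    (hp : p ≠ 0) (ε : DirichletCharacter K M) (he : ε (p : ZMod M) ≠ 0) {j a : ℤ}
    (h : RM p M ((p : ℚ) ^ j * a - 1)) : ε (p : ZMod M) ^ j * ε (a : ZMod M) = 1 := by
  have hp' : (p : ℚ) ≠ 0 := by exact_mod_cast hp
  obtain ⟨k, rfl | rfl⟩ := j.eq_nat_or_neg
  · have h1 : (M : ℤ) ∣ (p : ℤ) ^ k * a - 1 := by
      apply RM.dvd_of_int hM
      push_cast
      simpa using h
    have h2 := char_one ε h1
    push_cast at h2
    rw [map_mul, map_pow] at h2
    rw [zpow_natCast]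
    exact h2
  · have h1 : (M : ℤ) ∣ a - (p : ℤ) ^ k := by
      apply RM.dvd_of_int hM
      have h3 := (RM.pow p k).mul_l h
      have e : (p : ℚ) ^ k * ((p : ℚ) ^ (-(k : ℤ)) * a - 1) = ((a - (p : ℤ) ^ k : ℤ) : ℚ) := by
        rw [zpow_neg, zpow_natCast]
        push_cast
        field_simp
      rwa [e] at h3
    have h2 := char_cong ε h1
    push_cast at h2
    rw [map_pow] at h2
    rw [h2, zpow_neg, zpow_natCast]
    exact inv_mul_cancel₀ (pow_ne_zero _ he)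

/-- case `p ∤ M`: `F(b,d) - u ^ j' L` depends only on the first column -/
lemma engA_col {K : Type*} [NormedField K] [IsUltrametricDist K] {p M : ℕ} (hp : p.Prime)
    (hM : IsCoprime (M : ℤ) (p : ℤ)) {ε : DirichletCharacter K M} {S : ℚ → K} {α : K} {c : ℝ}
    (hT : TLaw M ε S) (hα1 : ‖α‖ = 1)
    (hval : ∀ (n : ℕ) (a : ℤ), (n = 0 ∨ ¬ (p : ℤ) ∣ a) →
      ‖S (a / (p : ℚ) ^ n) - (α / ε (p : ZMod M)) ^ (-(n : ℤ)) * S 0‖ < c)
    (hrel : ‖(α - 1) * (α / ε (p : ZMod M) - 1) * S 0‖ < c)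
    {h : M2} (hh : h ∈ Gam p M 1) {j a' c' j' b' d' : ℤ}
    (h1 : Prim p h.a h.c j a' c') (h2 : Prim p h.b h.d j' b' d') :
    ‖(Fv S h.b h.d - (α / ε (p : ZMod M)) ^ j' * S 0) - (Fv S a' c' + (α ^ j - 1) * S 0)‖ < c := by
  have hp' : (p : ℚ) ≠ 0 := by exact_mod_cast hp.ne_zero
  have he1 := enga_norm_e hM ε
  have he0 : ε (p : ZMod M) ≠ 0 := by
    intro h0; rw [h0, norm_zero] at he1; exact zero_ne_one he1
  have hα0 : α ≠ 0 := by
    intro h0; rw [h0, norm_zero] at hα1; exact zero_ne_one hα1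
  have hu1 : ‖α / ε (p : ZMod M)‖ = 1 := by rw [norm_div, hα1, he1, div_one]
  obtain ⟨n, hn, hdet⟩ := prim_det hp h1 h2
  obtain ⟨ha, -, hc, -⟩ := mem_Gam.1 hh
  have hc' : (M : ℤ) ∣ c' := by
    apply RM.dvd_of_int hM
    have h3 := (RM.zpow hp.ne_zero (-j)).mul_l hc
    have e : (p : ℚ) ^ (-j) * h.c = c' := by
      rw [h1.2.2, zpow_neg]
      field_simp
    rwa [e] at h3
  obtain ⟨y, x', hxy⟩ := h1.1
  have hγ : a' * y - (-x') * c' = 1 := by linear_combination hxy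
  set x : ℤ := -x' with hx
  set t : ℤ := y * b' - x * d' with ht
  have hb : b' = a' * t + x * (p : ℤ) ^ n := by
    rw [ht, ← hdet]; linear_combination (-b') * hγ
  have hd : d' = c' * t + y * (p : ℤ) ^ n := by
    rw [ht, ← hdet]; linear_combination (-d') * hγ
  have hlow : n = 0 ∨ ¬ (p : ℤ) ∣ t := by
    by_cases h0 : n = 0
    · exact Or.inl h0
    · refine Or.inr fun hpt => ?_
      have hpn : (p : ℤ) ∣ (p : ℤ) ^ n := dvd_pow_self _ h0
      have d1 : (p : ℤ) ∣ b' := by rw [hb]; exact (hpt.mul_left _).add (hpn.mul_left _)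
      have d2 : (p : ℤ) ∣ d' := by rw [hd]; exact (hpt.mul_left _).add (hpn.mul_left _)
      have := h2.1.isUnit_of_dvd' d1 d2
      rw [Int.isUnit_iff_natAbs_eq] at this
      exact hp.one_lt.ne' (by simpa using this)
  have hpn0 : (p : ℚ) ^ n ≠ 0 := pow_ne_zero _ hp'
  have hF := hT a' x c' y hγ hc' t ((p : ℚ) ^ n) (Or.inr hpn0)
  have eb : (a' : ℚ) * t + x * (p : ℚ) ^ n = b' := by rw [hb]; push_cast; ring
  have ed : (c' : ℚ) * t + y * (p : ℚ) ^ n = d' := by rw [hd]; push_cast; ring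
  rw [eb, ed, Fv_of_ne S _ hpn0] at hF
  have e1 : ε (p : ZMod M) ^ j * ε (a' : ZMod M) = 1 := by
    apply enga_eps hM hp.ne_zero ε he0
    rw [← h1.2.1]; exact ha
  have e2 : ε (a' : ZMod M) * ε (y : ZMod M) = 1 := by
    have h3 : (M : ℤ) ∣ a' * y - 1 := by
      have : a' * y - 1 = x * c' := by linear_combination hγ
      rw [this]; exact hc'.mul_left _
    have h4 := char_one ε h3
    push_cast at h4
    rwa [map_mul] at h4
  have e3 : ε (y : ZMod M) = ε (p : ZMod M) ^ j := by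
    linear_combination (-ε (y : ZMod M)) * e1 + ε (p : ZMod M) ^ j * e2
  have e4 : ε (p : ZMod M) ^ j * (α / ε (p : ZMod M)) ^ (-(n : ℤ)) =
      α ^ j * (α / ε (p : ZMod M)) ^ j' := by
    rw [← hn, zpow_add₀ (div_ne_zero hα0 he0), div_zpow, ← mul_assoc,
      mul_div_cancel₀ _ (zpow_ne_zero j he0)]
  rw [Fv_prim S hp h2, hF, e3]
  have key : Fv S a' c' + ε (p : ZMod M) ^ j * S (t / (p : ℚ) ^ n) -
      (α / ε (p : ZMod M)) ^ j' * S 0 - (Fv S a' c' + (α ^ j - 1) * S 0) =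
      ε (p : ZMod M) ^ j * (S (t / (p : ℚ) ^ n) - (α / ε (p : ZMod M)) ^ (-(n : ℤ)) * S 0) +
        (α ^ j - 1) * ((α / ε (p : ZMod M)) ^ j' - 1) * S 0 := by
    linear_combination (S 0) * e4
  rw [key]
  refine enga_lt ?_ (enga_prod hα1 hu1 hrel j j')
  rw [norm_mul, norm_zpow, he1, one_zpow, one_mul]
  exact hval n t hlow

theorem engA {K : Type*} [NormedField K] [IsUltrametricDist K] {p M : ℕ} [NeZero M]
    (hp : p.Prime) (hpn : ‖(p : K)‖ < 1) (hM : ¬ p ∣ M) {ε : DirichletCharacter K M}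
    {S : ℚ → K} {A α : K} {c : ℝ} (hT : TLaw M ε S) (hH : HLaw p M ε A S)
    (hα : α ^ 2 - A * α + ε (p : ZMod M) * p = 0) (hα1 : ‖α‖ = 1) (hc : 0 < c)
    (hμ : ∀ (n : ℕ) (a : ℤ), ¬ (p : ℤ) ∣ a →
      ‖α * S (a / (p : ℚ) ^ (n + 1)) - ε (p : ZMod M) * S (a / (p : ℚ) ^ n)‖ < c)
    {b d : ℤ} (hbd : IsCoprime b d) (hd : (M : ℤ) ∣ d - 1) : ‖Fv S b d - S 0‖ < c := by
  have hcop : Nat.Coprime p M := (Nat.Prime.coprime_iff_not_dvd hp).2 hM
  have hM' : IsCoprime (M : ℤ) (p : ℤ) := Nat.isCoprime_iff_coprime.2 hcop.symm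
  have he1 := enga_norm_e hM' ε
  have he0 : ε (p : ZMod M) ≠ 0 := by
    intro h0; rw [h0, norm_zero] at he1; exact zero_ne_one he1
  have hα0 : α ≠ 0 := by
    intro h0; rw [h0, norm_zero] at hα1; exact zero_ne_one hα1
  have hu1 : ‖α / ε (p : ZMod M)‖ = 1 := by rw [norm_div, hα1, he1, div_one]
  have hu0 : α / ε (p : ZMod M) ≠ 0 := div_ne_zero hα0 he0
  have hval := engA_val hp hT hα1 he1 hc hμ
  have hrel := engA_rel hp hT hH hα hα1 he1 hc hμ
  refine eng0 hp hpn (N := M) (r := 0) hM' (by simp) hT hc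
    (fun x y => (α / ε (p : ZMod M)) ^ (prim p x y).1 * S 0) ?_ ?_ ?_ ?_ ?_ hbd hd
  · have h0 : Prim p 0 1 0 0 1 := ⟨isCoprime_one_right, by simp, by simp⟩
    simp only [prim_eq hp h0, zpow_zero, one_mul]
  · refine ⟨‖S 0‖, fun h _ => ?_⟩
    rw [norm_mul, norm_zpow, hu1, one_zpow, one_mul]
  · intro g hg h hh
    obtain ⟨j, b1, d1, h2⟩ := prim_col2 hp hh
    obtain ⟨b2, d2, h3, -⟩ := prim_mul hg h2
    simp only [prim_eq hp h2, prim_eq hp h3]
  · intro h hh h' hh' ea ec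
    obtain ⟨j, a1, c1, h1, -⟩ := prim_col1 hp hM' hh
    have h1' : Prim p h'.a h'.c j a1 c1 := by rw [← ea, ← ec]; exact h1
    obtain ⟨j1, b1, d1, h2⟩ := prim_col2 hp hh
    obtain ⟨j2, b2, d2, h2'⟩ := prim_col2 hp hh'
    have k1 := engA_col hp hM' hT hα1 hval hrel hh h1 h2
    have k2 := engA_col hp hM' hT hα1 hval hrel hh' h1' h2'
    rw [← norm_neg] at k2
    have k3 := enga_lt k1 k2
    simp only [prim_eq hp h2, prim_eq hp h2']
    refine lt_of_eq_of_lt ?_ k3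
    congr 1
    ring
  · have hφ : (M : ℤ) ∣ (p : ℤ) ^ (Nat.totient M) - 1 := by
      have h1 := (Nat.ModEq.pow_totient hcop).symm.dvd
      push_cast at h1
      exact h1
    have heφ : ε (p : ZMod M) ^ (Nat.totient M) = 1 := by
      have h1 := char_one ε hφ
      push_cast at h1
      rwa [map_pow] at h1
    have hw : (α / ε (p : ZMod M)) ^ (Nat.totient M) = α ^ (Nat.totient M) := by
      rw [div_pow, heφ, div_one]
    have hsq : ‖((α / ε (p : ZMod M)) ^ (Nat.totient M) - 1) *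
        ((α / ε (p : ZMod M)) ^ (Nat.totient M) - 1) * S 0‖ < c := by
      have h1 := enga_prod hα1 hu1 hrel (Nat.totient M : ℤ) (Nat.totient M : ℤ)
      rw [zpow_natCast, zpow_natCast, ← hw] at h1
      exact h1
    obtain ⟨k, hk⟩ := unip_pow hpn (by rw [norm_pow, hu1, one_pow]) hsq
    rw [← pow_mul] at hk
    refine ⟨Nat.totient M * p ^ k,
      Nat.mul_pos (Nat.totient_pos.2 (Nat.pos_of_ne_zero (NeZero.ne M))) (pow_pos hp.pos k),
      ?_, fun h hh => ?_⟩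
    · have h1 : (M : ℤ) ∣ (p : ℤ) ^ (Nat.totient M * p ^ k) - 1 := by
        rw [pow_mul]
        exact hφ.trans (by simpa using sub_dvd_pow_sub_pow ((p : ℤ) ^ (Nat.totient M)) 1 (p ^ k))
      have h2 := RM.of_dvd p h1
      push_cast at h2
      exact h2
    · obtain ⟨j, b1, d1, h2⟩ := prim_col2 hp hh
      have h3 := prim_scale hp h2 (Nat.totient M * p ^ k)
      simp only [prim_eq hp h2, prim_eq hp h3]
      generalize Nat.totient M * p ^ k = m at hk ⊢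
      have e : (α / ε (p : ZMod M)) ^ (j - (m : ℤ)) * S 0 - (α / ε (p : ZMod M)) ^ j * S 0 =
          -(α / ε (p : ZMod M)) ^ (j - (m : ℤ)) * (((α / ε (p : ZMod M)) ^ m - 1) * S 0) := by
        have e1 : (α / ε (p : ZMod M)) ^ j =
            (α / ε (p : ZMod M)) ^ (j - (m : ℤ)) * (α / ε (p : ZMod M)) ^ m := by
          rw [← zpow_natCast, ← zpow_add₀ hu0, sub_add_cancel]
        rw [e1]
        generalize (α / ε (p : ZMod M)) ^ (j - (m : ℤ)) = v
        ring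
      rw [e, norm_mul, norm_neg, norm_zpow, hu1, one_zpow, one_mul]
      exact hk

end Pool.Agent.P.MP_20768c_nt
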