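import Pool.Agent.P.MP_20768c_nt.SD

namespace Pool.Agent.P.MP_20768c_nt

section
variable {K : Type*} [NormedField K] [IsUltrametricDist K]

lemma enga1_add_lt {x y : K} {c : ℝ} (hx : ‖x‖ < c) (hy : ‖y‖ < c) : ‖x + y‖ < c :=
  (IsUltrametricDist.norm_add_le_max x y).trans_lt (max_lt hx hy)

lemma enga1_pow_sub_one {x : K} (hx : ‖x‖ = 1) (n : ℕ) : ‖x ^ n - 1‖ ≤ ‖x - 1‖ := by
  induction n with
  | zero => simp
  | succ n ih =>
    have e : x ^ (n + 1) - 1 = x * (x ^ n - 1) + (x - 1) := by ring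
    rw [e]
    refine (IsUltrametricDist.norm_add_le_max _ _).trans (max_le ?_ le_rfl)
    rw [norm_mul, hx, one_mul]
    exact ih

lemma norm_zpow_sub_one {x : K} (hx : ‖x‖ = 1) (j : ℤ) : ‖x ^ j - 1‖ ≤ ‖x - 1‖ := by
  have hx0 : x ≠ 0 := by
    intro h
    rw [h, norm_zero] at hx
    exact zero_ne_one hx
  obtain ⟨n, rfl | rfl⟩ := Int.eq_nat_or_neg j
  · rw [zpow_natCast]
    exact enga1_pow_sub_one hx n
  · have e : x ^ (-(n : ℤ)) - 1 = -((x ^ n - 1) / x ^ n) := by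
      rw [zpow_neg, zpow_natCast]
      field_simp
      ring
    rw [e, norm_neg, norm_div, norm_pow, hx, one_pow, div_one]
    exact enga1_pow_sub_one hx n

lemma enga1_expand {w : K} (hw : ‖w‖ = 1) (n : ℕ) :
    ∃ y : K, ‖y‖ ≤ 1 ∧ w ^ n - 1 = n * (w - 1) + (w - 1) * (w - 1) * y := by
  induction n with
  | zero => exact ⟨0, by simp, by simp⟩
  | succ n ih =>
    obtain ⟨y, hy, e⟩ := ih
    refine ⟨n + w * y, ?_, ?_⟩
    · refine (IsUltrametricDist.norm_add_le_max _ _).trans (max_le ?_ ?_)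
      · exact IsUltrametricDist.norm_natCast_le_one K n
      · rw [norm_mul, hw, one_mul]
        exact hy
    · push_cast
      linear_combination w * e

/-- if `(w - 1) ^ 2 L` is small then `(w ^ (p ^ k) - 1) L` is small for some `k` -/
lemma unip_pow {p : ℕ} (hpn : ‖(p : K)‖ < 1) {w L : K} (hw : ‖w‖ = 1) {c : ℝ}
    (h : ‖(w - 1) * (w - 1) * L‖ < c) : ∃ k : ℕ, ‖(w ^ (p ^ k) - 1) * L‖ < c := by
  have hc : 0 < c := (norm_nonneg _).trans_lt h
  have hB : 0 < ‖(w - 1) * L‖ + 1 := by positivity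
  obtain ⟨k, hk⟩ := exists_pow_lt_of_lt_one (div_pos hc hB) hpn
  refine ⟨k, ?_⟩
  obtain ⟨y, hy, e⟩ := enga1_expand hw (p ^ k)
  have e2 : (w ^ (p ^ k) - 1) * L =
      (p : K) ^ k * ((w - 1) * L) + y * ((w - 1) * (w - 1) * L) := by
    rw [e]
    push_cast
    ring
  rw [e2]
  refine enga1_add_lt ?_ ?_
  · rw [norm_mul, norm_pow]
    rw [lt_div_iff₀ hB] at hk
    have h0 : 0 ≤ ‖(p : K)‖ ^ k := by positivity
    nlinarith
  · rw [norm_mul]
    exact (mul_le_of_le_one_left (norm_nonneg _) hy).trans_lt h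

variable {p M : ℕ} {ε : DirichletCharacter K M} {S : ℚ → K} {A α : K} {c : ℝ}

/-- case `p ∤ M`: the values on `ℤ[1/p]` -/
lemma engA_val (hp : p.Prime) (hT : TLaw M ε S) (hα1 : ‖α‖ = 1) (he : ‖ε (p : ZMod M)‖ = 1)
    (hc : 0 < c)
    (hμ : ∀ (n : ℕ) (a : ℤ), ¬ (p : ℤ) ∣ a →
      ‖α * S (a / (p : ℚ) ^ (n + 1)) - ε (p : ZMod M) * S (a / (p : ℚ) ^ n)‖ < c)
    (n : ℕ) (a : ℤ) (ha : n = 0 ∨ ¬ (p : ℤ) ∣ a) :
    ‖S (a / (p : ℚ) ^ n) - (α / ε (p : ZMod M)) ^ (-(n : ℤ)) * S 0‖ < c := by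
  have hα0 : α ≠ 0 := by
    intro h
    rw [h, norm_zero] at hα1
    exact zero_ne_one hα1
  have he0 : ε (p : ZMod M) ≠ 0 := by
    intro h
    rw [h, norm_zero] at he
    exact zero_ne_one he
  induction n with
  | zero =>
    have := hT.per 0 a
    rw [zero_add] at this
    simpa [this] using hc
  | succ n ih =>
    have ha' : ¬ (p : ℤ) ∣ a := by
      rcases ha with h | h
      · omega
      · exact h
    have h1 := hμ n a ha'
    have h2 := ih (Or.inr ha')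
    set e := ε (p : ZMod M) with hedef
    have e1 : (α / e) ^ (-((n + 1 : ℕ) : ℤ)) = (α / e) ^ (-(n : ℤ)) * (e / α) := by
      rw [zpow_neg, zpow_neg, zpow_natCast, zpow_natCast, pow_succ, mul_inv, inv_div]
    have e2 : S (a / (p : ℚ) ^ (n + 1)) - (α / e) ^ (-((n + 1 : ℕ) : ℤ)) * S 0 =
        α⁻¹ * (α * S (a / (p : ℚ) ^ (n + 1)) - e * S (a / (p : ℚ) ^ n)) +
          (e / α) * (S (a / (p : ℚ) ^ n) - (α / e) ^ (-(n : ℤ)) * S 0) := by
      rw [e1]
      field_simp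
      ring
    rw [e2]
    refine enga1_add_lt ?_ ?_
    · rw [norm_mul, norm_inv, hα1, inv_one, one_mul]
      exact h1
    · rw [norm_mul, norm_div, hα1, he, div_one, one_mul]
      exact h2

/-- case `p ∤ M`: the Hecke relation at `0` -/
lemma engA_rel (hp : p.Prime) (hT : TLaw M ε S) (hH : HLaw p M ε A S)
    (hα : α ^ 2 - A * α + ε (p : ZMod M) * p = 0) (hα1 : ‖α‖ = 1)
    (he : ‖ε (p : ZMod M)‖ = 1) (hc : 0 < c)
    (hμ : ∀ (n : ℕ) (a : ℤ), ¬ (p : ℤ) ∣ a →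
      ‖α * S (a / (p : ℚ) ^ (n + 1)) - ε (p : ZMod M) * S (a / (p : ℚ) ^ n)‖ < c) :
    ‖(α - 1) * (α / ε (p : ZMod M) - 1) * S 0‖ < c := by
  have he0 : ε (p : ZMod M) ≠ 0 := by
    intro h
    rw [h, norm_zero] at he
    exact zero_ne_one he
  set e := ε (p : ZMod M) with hedef
  have key : ∀ m : ℕ, m + 1 ≤ p →
      ‖α * ∑ k ∈ Finset.range m, S (((k + 1 : ℕ) : ℚ) / p) - m * (e * S 0)‖ < c := by
    intro m
    induction m with
    | zero => intro _; simpa using hc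
    | succ m ih =>
      intro hm
      have h1 := ih (by omega)
      have hnd : ¬ (p : ℤ) ∣ ((m + 1 : ℕ) : ℤ) := by
        rw [Int.natCast_dvd_natCast]
        exact Nat.not_dvd_of_pos_of_lt (by omega) (by omega)
      have h2 := hμ 0 ((m + 1 : ℕ) : ℤ) hnd
      have h3 := hT.per 0 ((m + 1 : ℕ) : ℤ)
      rw [zero_add] at h3
      rw [zero_add, pow_one, pow_zero, div_one, h3, Int.cast_natCast] at h2
      have e1 : α * ∑ k ∈ Finset.range (m + 1), S (((k + 1 : ℕ) : ℚ) / p) -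
          ((m + 1 : ℕ) : K) * (e * S 0) =
          (α * ∑ k ∈ Finset.range m, S (((k + 1 : ℕ) : ℚ) / p) - m * (e * S 0)) +
            (α * S (((m + 1 : ℕ) : ℚ) / p) - e * S 0) := by
        rw [Finset.sum_range_succ]
        push_cast
        ring
      rw [e1]
      exact enga1_add_lt h1 h2
  obtain ⟨m, rfl⟩ : ∃ m, p = m + 1 := ⟨p - 1, by have := hp.pos; omega⟩
  have h1 := key m le_rfl
  have h2 := hH 0
  rw [Finset.sum_range_succ', mul_zero] at h2
  simp only [zero_add, Nat.cast_zero, zero_div] at h2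
  have e1 : (α - 1) * (α / e - 1) * S 0 =
      e⁻¹ * (α * ∑ k ∈ Finset.range m, S (((k + 1 : ℕ) : ℚ) / ((m + 1 : ℕ) : ℚ)) -
        m * (e * S 0)) := by
    have hα' : α ^ 2 - A * α + e * ((m : K) + 1) = 0 := by
      rw [← hα]
      push_cast
      ring
    field_simp
    linear_combination α * h2 + S 0 * hα'
  rw [e1, norm_mul, norm_inv, he, inv_one, one_mul]
  exact h1

end

end Pool.Agent.P.MP_20768c_nt
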