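import Pool.Agent.P.MP_20768c_nt.EngB2
import Pool.Agent.P.MP_20768c_nt.EngA

namespace Pool.Agent.P.MP_20768c_nt
open M2

theorem engB {K : Type*} [NormedField K] [IsUltrametricDist K] {p M : ℕ} [NeZero M]
    (hp : p.Prime) (hpn : ‖(p : K)‖ < 1) (hM : p ∣ M) {ε : DirichletCharacter K M}
    {S : ℚ → K} {α : K} {c : ℝ} (hT : TLaw M ε S) (hH : HLaw p M ε α S)
    (hα1 : ‖α‖ = 1) (hc : 0 < c)
    (hμ : ∀ (n : ℕ) (a : ℤ), ¬ (p : ℤ) ∣ a → ‖S (a / (p : ℚ) ^ (n + 1))‖ < c)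
    {b d : ℤ} (hbd : IsCoprime b d) (hd : (M : ℤ) ∣ d - 1) : ‖Fv S b d - S 0‖ < c := by
  obtain ⟨r, N, hN0, hMN0⟩ := Nat.exists_eq_pow_mul_and_not_dvd (NeZero.ne M) p hp.one_lt.ne'
  have hN : IsCoprime (N : ℤ) (p : ℤ) :=
    Nat.isCoprime_iff_coprime.2 ((Nat.Prime.coprime_iff_not_dvd hp).2 hN0).symm
  have hMN : (M : ℤ) = (N : ℤ) * (p : ℤ) ^ r := by rw [hMN0]; push_cast; ring
  have hNne : ((N : ℤ) : ℚ) ≠ 0 := by
    have : N ≠ 0 := by rintro rfl; exact hN0 (dvd_zero p)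
    exact_mod_cast this
  refine eng0 hp hpn hN hMN hT hc (fun x y => ε (((prim p x y).2.2 : ℤ) : ZMod M) * S 0)
    ?_ ?_ ?_ ?_ ?_ hbd hd
  · have h0 : Prim p 0 1 0 0 1 := ⟨isCoprime_one_right, by simp, by simp⟩
    simp [prim_eq hp h0]
  · refine ⟨‖S 0‖, fun h _ => ?_⟩
    rw [norm_mul]
    exact mul_le_of_le_one_left (norm_nonneg _) (char_norm_le ε _)
  · intro g hg h hh
    obtain ⟨j, b1, d1, h1⟩ := prim_col2 hp hh
    obtain ⟨b2, d2, h2, h3⟩ := prim_mul hg h1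
    simp only [prim_eq hp h1, prim_eq hp h2]
    rw [char_cong ε h3]
  · intro h hh h' hh' ea ec
    obtain ⟨j, a', c', h0, hc'⟩ := prim_col1 hp hN hh
    have h0' : Prim p h'.a h'.c j a' c' := by rw [← ea, ← ec]; exact h0
    obtain ⟨j1, b1, d1, h1⟩ := prim_col2 hp hh
    obtain ⟨j2, b2, d2, h2⟩ := prim_col2 hp hh'
    obtain ⟨n1, -, e1⟩ := prim_det hp h0 h1
    obtain ⟨n2, -, e2⟩ := prim_det hp h0' h2
    simp only [prim_eq hp h1, prim_eq hp h2]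
    rw [Fv_prim S hp h1, Fv_prim S hp h2]
    change ‖Hv ε S b1 d1 - Hv ε S b2 d2‖ < c
    by_cases hpc : (p : ℤ) ∣ c'
    · have k1 := engB_E2 hp hM hN hMN hT hH hα1 hc hμ h0.1 h1.1 hc' hpc e1
      have k2 := engB_E2 hp hM hN hMN hT hH hα1 hc hμ h0.1 h2.1 hc' hpc e2
      have e : Hv ε S b1 d1 - Hv ε S b2 d2 =
          (Hv ε S b1 d1 - Fv S a' c') + -(Hv ε S b2 d2 - Fv S a' c') := by ring
      rw [e]
      refine (IsUltrametricDist.norm_add_le_max _ _).trans_lt (max_lt k1 ?_)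
      rwa [norm_neg]
    · exact engB_E3 hp hM hN hMN hT hH hα1 hc hμ h0.1 h1.1 h2.1 hc' hpc e1 e2
  · obtain ⟨i, hi, h1⟩ := RM.pow_one_mod hp hNne (RM.int p N) 1
    refine ⟨i, hi, ?_, fun h hh => ?_⟩
    · have h2 := (RM.of_dvd p (dvd_refl (N : ℤ))).mul_r h1
      rwa [pow_one, mul_div_cancel₀ _ hNne] at h2
    · obtain ⟨j, b1, d1, h2⟩ := prim_col2 hp hh
      simp only [prim_eq hp h2, prim_eq hp (prim_scale hp h2 i)]
      simpa using hc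

/-- both cases -/
theorem engine {K : Type*} [NormedField K] [IsUltrametricDist K] {p M : ℕ} [NeZero M]
    (hp : p.Prime) (hpn : ‖(p : K)‖ < 1) {ε : DirichletCharacter K M}
    {S : ℚ → K} {A α : K} {c : ℝ} (hT : TLaw M ε S) (hH : HLaw p M ε A S)
    (hα : α ^ 2 - A * α + ε (p : ZMod M) * p = 0) (hα1 : ‖α‖ = 1) (hc : 0 < c)
    (hμ : ∀ (n : ℕ) (a : ℤ), ¬ (p : ℤ) ∣ a →
      ‖α * S (a / (p : ℚ) ^ (n + 1)) - ε (p : ZMod M) * S (a / (p : ℚ) ^ n)‖ < c)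
    {b d : ℤ} (hbd : IsCoprime b d) (hd : (M : ℤ) ∣ d - 1) : ‖Fv S b d - S 0‖ < c := by
  by_cases hM : p ∣ M
  · have h0 : ε (p : ZMod M) = 0 := by
      simpa using char_zero ε hp hM (dvd_refl (p : ℤ))
    have hα0 : α ≠ 0 := by
      rintro rfl
      simp at hα1
    have hA : A = α := by
      rw [h0] at hα
      apply mul_right_cancel₀ hα0
      linear_combination -hα
    subst hA
    refine engB hp hpn hM hT hH hα1 hc (fun n a ha => ?_) hbd hd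
    have := hμ n a ha
    rwa [h0, zero_mul, sub_zero, norm_mul, hα1, one_mul] at this
  · exact engA hp hpn hM hT hH hα hα1 hc hμ hbd hd

end Pool.Agent.P.MP_20768c_nt
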