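import Pool.Agent.P.MP_20768c_nt.SD

namespace Pool.Agent.P.MP_20768c_nt

/-- `H(b,d) = F(b,d) - ε(d) L` on primitive vectors -/
def Hv {K : Type*} [Field K] {M : ℕ} (ε : DirichletCharacter K M) (S : ℚ → K) (b d : ℤ) : K :=
  Fv S b d - ε (d : ZMod M) * S 0

/-- the value of `H` at the primitive vector under `(b + k d, p d)` -/
def Hs {K : Type*} [Field K] {M : ℕ} (ε : DirichletCharacter K M) (S : ℚ → K) (p : ℕ)
    (b d : ℤ) (k : ℕ) : K :=
  if (p : ℤ) ∣ b + k * d then Hv ε S ((b + k * d) / p) d else Hv ε S (b + k * d) (p * d)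

lemma engb1_sum_lt {K ι : Type*} [NormedField K] [IsUltrametricDist K] {c : ℝ} (hc : 0 < c)
    (s : Finset ι) (f : ι → K) (h : ∀ i ∈ s, ‖f i‖ < c) : ‖∑ i ∈ s, f i‖ < c := by
  classical
  induction s using Finset.induction_on with
  | empty => simpa using hc
  | insert a s ha ih =>
    rw [Finset.sum_insert ha]
    exact (IsUltrametricDist.norm_add_le_max _ _).trans_lt
      (max_lt (h a (Finset.mem_insert_self _ _))
        (ih fun i hi => h i (Finset.mem_insert_of_mem hi)))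

lemma engb1_unique {p : ℕ} (hp : p.Prime) {d : ℤ} (hd : ¬ (p : ℤ) ∣ d) (b : ℤ) :
    ∃ k0 : ℕ, k0 < p ∧ (p : ℤ) ∣ b + k0 * d ∧
      ∀ k : ℕ, k < p → (p : ℤ) ∣ b + k * d → k = k0 := by
  have hpi : Prime (p : ℤ) := Nat.prime_iff_prime_int.mp hp
  have hp0 : (0 : ℤ) < p := by exact_mod_cast hp.pos
  obtain ⟨u, v, huv⟩ : IsCoprime (p : ℤ) d := (Prime.coprime_iff_not_dvd hpi).mpr hd
  have h0 := Int.emod_nonneg (-b * v) hp0.ne'
  have h1 := Int.emod_lt_of_pos (-b * v) hp0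
  obtain ⟨k0, hk0⟩ := Int.eq_ofNat_of_zero_le h0
  have hdiv : (p : ℤ) ∣ b + k0 * d := by
    rw [← hk0, Int.emod_def]
    refine ⟨b * u - (-b * v / p) * d, ?_⟩
    linear_combination (-b) * huv
  refine ⟨k0, by rw [hk0] at h1; exact_mod_cast h1, hdiv, fun k hk h => ?_⟩
  have h2 : (p : ℤ) ∣ ((k : ℤ) - k0) * d := by
    have : ((k : ℤ) - k0) * d = (b + k * d) - (b + k0 * d) := by ring
    rw [this]
    exact h.sub hdiv
  have h3 : (p : ℤ) ∣ (k : ℤ) - k0 := (hpi.dvd_or_dvd h2).resolve_right hd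
  have h4 : (k : ℤ) - k0 = 0 := by
    apply Int.eq_zero_of_abs_lt_dvd h3
    rw [hk0] at h1
    rw [abs_lt]
    constructor <;> omega
  omega

section
variable {K : Type*} [NormedField K] [IsUltrametricDist K] {p M : ℕ}
  {ε : DirichletCharacter K M} {S : ℚ → K} {α : K} {c : ℝ}

/-- the relation `U_p` on vectors -/
lemma engB_U (hp : p.Prime) (hM : p ∣ M) (hH : HLaw p M ε α S) (x y : ℤ) :
    α * Fv S x y = ∑ k ∈ Finset.range p, Fv S ((x + k * y : ℤ) : ℚ) ((p * y : ℤ) : ℚ) := by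
  have hp0 : (p : ℚ) ≠ 0 := by exact_mod_cast hp.ne_zero
  by_cases hy : y = 0
  · subst hy
    simp [Fv]
  have hy' : (y : ℚ) ≠ 0 := by exact_mod_cast hy
  have he : ε (p : ZMod M) = 0 := by
    have := char_zero ε hp hM (x := (p : ℤ)) dvd_rfl
    simpa using this
  rw [Fv_of_ne S _ hy', hH, he, zero_mul, add_zero]
  refine Finset.sum_congr rfl fun k _ => ?_
  have h2 : ((p * y : ℤ) : ℚ) ≠ 0 := by
    push_cast
    exact mul_ne_zero hp0 hy'
  rw [Fv_of_ne S _ h2]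
  congr 1
  push_cast
  field_simp

lemma engB_L (hp : p.Prime) (hM : p ∣ M) (hH : HLaw p M ε α S) (hc : 0 < c)
    (hμ : ∀ (n : ℕ) (a : ℤ), ¬ (p : ℤ) ∣ a → ‖S (a / (p : ℚ) ^ (n + 1))‖ < c) :
    ‖(α - 1) * S 0‖ < c := by
  have he : ε (p : ZMod M) = 0 := by
    have := char_zero ε hp hM (x := (p : ℤ)) dvd_rfl
    simpa using this
  have h0 := hH 0
  rw [he, zero_mul, add_zero] at h0
  obtain ⟨q, rfl⟩ : ∃ q, p = q + 1 := ⟨p - 1, by have := hp.pos; omega⟩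
  rw [Finset.sum_range_succ'] at h0
  have h1 : (α - 1) * S 0 =
      ∑ k ∈ Finset.range q, S ((0 + ((k + 1 : ℕ) : ℚ)) / ((q + 1 : ℕ) : ℚ)) := by
    have h2 : S ((0 + ((0 : ℕ) : ℚ)) / ((q + 1 : ℕ) : ℚ)) = S 0 := by simp
    rw [h2] at h0
    linear_combination h0
  rw [h1]
  refine engb1_sum_lt hc _ _ fun k hk => ?_
  have hk' : k < q := Finset.mem_range.mp hk
  have h3 := hμ 0 ((k + 1 : ℕ) : ℤ) (by
    intro h
    have h4 : q + 1 ∣ k + 1 := by exact_mod_cast h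
    have := Nat.le_of_dvd (Nat.succ_pos k) h4
    omega)
  simpa using h3

/-- `α H(y) = ∑ H(y_k)` up to `c` -/
lemma engB_step (hp : p.Prime) (hM : p ∣ M) (hH : HLaw p M ε α S)
    (hL : ‖(α - 1) * S 0‖ < c) {b d : ℤ} (hbd : IsCoprime b d) :
    ‖α * Hv ε S b d - ∑ k ∈ Finset.range p, Hs ε S p b d k‖ < c := by
  have hp0 : (p : ℚ) ≠ 0 := by exact_mod_cast hp.ne_zero
  have hc : 0 < c := (norm_nonneg _).trans_lt hL
  have hs : ∀ k : ℕ, Hs ε S p b d k = Fv S ((b + k * d : ℤ) : ℚ) ((p * d : ℤ) : ℚ) -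
      (if (p : ℤ) ∣ b + k * d then ε (d : ZMod M) * S 0 else 0) := by
    intro k
    unfold Hs Hv
    split_ifs with h
    · obtain ⟨w, hw⟩ := h
      have hp1 : (p : ℤ) ≠ 0 := by exact_mod_cast hp.ne_zero
      rw [hw, Int.mul_ediv_cancel_left _ hp1]
      have := Fv_smul S (w : ℚ) (d : ℚ) hp0
      push_cast
      rw [this]
    · rw [char_zero ε hp hM (x := p * d) (dvd_mul_right _ _)]
      simp
  simp only [hs]
  rw [Finset.sum_sub_distrib, ← engB_U hp hM hH b d]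
  unfold Hv
  by_cases hd : (p : ℤ) ∣ d
  · rw [char_zero ε hp hM hd]
    simpa using hc
  obtain ⟨k0, hk0, hk1, hk2⟩ := engb1_unique hp hd b
  rw [Finset.sum_eq_single k0 (fun k hk hne => if_neg fun h =>
    hne (hk2 k (Finset.mem_range.mp hk) h)) (fun h => absurd (Finset.mem_range.mpr hk0) h),
    if_pos hk1]
  have h1 : α * (Fv S b d - ε (d : ZMod M) * S 0) - (α * Fv S b d - ε (d : ZMod M) * S 0) =
      -(ε (d : ZMod M) * ((α - 1) * S 0)) := by ring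
  rw [h1, norm_neg, norm_mul]
  exact (mul_le_of_le_one_left (norm_nonneg _) (char_norm_le ε _)).trans_lt hL

/-- E1 -/
lemma engB_E1 (hp : p.Prime) (hM : p ∣ M) (hT : TLaw M ε S) (hc : 0 < c)
    (hμ : ∀ (n : ℕ) (a : ℤ), ¬ (p : ℤ) ∣ a → ‖S (a / (p : ℚ) ^ (n + 1))‖ < c)
    {a' c' b d : ℤ} {n : ℕ} (h1 : IsCoprime a' c') (h2 : IsCoprime b d) (hc' : (M : ℤ) ∣ c')
    (hdet : a' * d - b * c' = (p : ℤ) ^ n) : ‖Hv ε S b d - Fv S a' c'‖ < c := by
  have hp0 : (p : ℚ) ≠ 0 := by exact_mod_cast hp.ne_zero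
  obtain ⟨y, x0, hxy⟩ := h1
  have hpn : ((p : ℚ) ^ n) ≠ 0 := pow_ne_zero _ hp0
  have hb : b = a' * (y * b + x0 * d) + (-x0) * (p : ℤ) ^ n := by
    rw [← hdet]; linear_combination (-b) * hxy
  have hd : d = c' * (y * b + x0 * d) + y * (p : ℤ) ^ n := by
    rw [← hdet]; linear_combination (-d) * hxy
  set t : ℤ := y * b + x0 * d with ht
  have hT1 := hT a' (-x0) c' y (by linear_combination hxy) hc' (t : ℚ) ((p : ℚ) ^ n) (Or.inr hpn)
  have hb' : (a' : ℚ) * t + ((-x0 : ℤ) : ℚ) * (p : ℚ) ^ n = b := by exact_mod_cast hb.symm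
  have hd' : (c' : ℚ) * t + (y : ℚ) * (p : ℚ) ^ n = d := by exact_mod_cast hd.symm
  rw [hb', hd', Fv_of_ne S _ hpn] at hT1
  unfold Hv
  rw [hT1]
  rcases n with _ | n
  · have h3 : ε (d : ZMod M) = ε (y : ZMod M) := by
      apply char_cong
      have : d - y = c' * t := by rw [pow_zero, mul_one] at hd; linear_combination hd
      rw [this]
      exact hc'.mul_right t
    have h4 : S ((t : ℚ) / (p : ℚ) ^ 0) = S 0 := by
      have := hT.per 0 t
      simpa using this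
    rw [h3, h4]
    simpa using hc
  · have hpM : (p : ℤ) ∣ (M : ℤ) := by exact_mod_cast hM
    have hpp : (p : ℤ) ∣ (p : ℤ) ^ (n + 1) := dvd_pow_self _ (Nat.succ_ne_zero n)
    have hpd : (p : ℤ) ∣ d := by
      rw [hd]
      exact ((hpM.trans hc').mul_right t).add (hpp.mul_left y)
    have hpt : ¬ (p : ℤ) ∣ t := by
      intro h
      have hpb : (p : ℤ) ∣ b := by
        rw [hb]
        exact (h.mul_left a').add (hpp.mul_left _)
      have := h2.isUnit_of_dvd' hpb hpd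
      rw [Int.isUnit_iff_natAbs_eq] at this
      exact hp.one_lt.ne' (by simpa using this)
    rw [char_zero ε hp hM hpd, zero_mul, sub_zero, add_sub_cancel_left, norm_mul]
    exact (mul_le_of_le_one_left (norm_nonneg _) (char_norm_le ε _)).trans_lt (hμ n t hpt)

/-- the base case of E3: a parabolic element of `Γ₁(M)` -/
lemma engB_par {N : ℤ} {r : ℕ} (hMN : (M : ℤ) = N * (p : ℤ) ^ r) (hp : p.Prime)
    (hT : TLaw M ε S) {a' c' b1 d1 b2 d2 : ℤ} (hc' : N ∣ c') (hpc : ¬ (p : ℤ) ∣ c')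
    (h1 : a' * d1 - b1 * c' = 1) (h2 : a' * d2 - b2 * c' = 1)
    (hd1 : (p : ℤ) ^ r ∣ d1) (hd2 : (p : ℤ) ^ r ∣ d2) : Fv S b2 d2 = Fv S b1 d1 := by
  set s : ℤ := d1 * b2 - b1 * d2 with hs
  have hps : (p : ℤ) ^ r ∣ s := (hd1.mul_right b2).sub (hd2.mul_left b1)
  have hMs : (M : ℤ) ∣ s * c' := by
    rw [hMN, mul_comm N]
    exact mul_dvd_mul hps hc'
  have hM1 : (M : ℤ) ∣ -(s * c' ^ 2) := by
    have : -(s * c' ^ 2) = s * c' * (-c') := by ring
    rw [this]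
    exact hMs.mul_right _
  have he : ε ((1 + s * a' * c' : ℤ) : ZMod M) = 1 := by
    apply char_one
    have : 1 + s * a' * c' - 1 = s * c' * a' := by ring
    rw [this]
    exact hMs.mul_right _
  have hdet : (1 - s * a' * c') * (1 + s * a' * c') - (s * a' ^ 2) * (-(s * c' ^ 2)) = 1 := by
    ring
  have hc0 : (c' : ℚ) ≠ 0 := by
    intro h
    have : c' = 0 := by exact_mod_cast h
    exact hpc (this ▸ dvd_zero _)
  have hbd : (b1 : ℚ) ≠ 0 ∨ (d1 : ℚ) ≠ 0 := by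
    by_contra h
    rw [not_or, not_not, not_not] at h
    have e1 : b1 = 0 := by exact_mod_cast h.1
    have e2 : d1 = 0 := by exact_mod_cast h.2
    rw [e1, e2] at h1
    simp at h1
  have hA := hT _ _ _ _ hdet hM1 a' c' (Or.inr hc0)
  have hB := hT _ _ _ _ hdet hM1 b1 d1 hbd
  rw [he, one_mul] at hA hB
  have e1 : (1 - s * a' * c') * a' + (s * a' ^ 2) * c' = a' := by ring
  have e2 : (-(s * c' ^ 2)) * a' + (1 + s * a' * c') * c' = c' := by ring
  have e3 : (1 - s * a' * c') * b1 + (s * a' ^ 2) * d1 = b2 := by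
    rw [hs]
    linear_combination ((d1 * b2 - b1 * d2) * a' + b2) * h1 - b1 * h2
  have e4 : (-(s * c' ^ 2)) * b1 + (1 + s * a' * c') * d1 = d2 := by
    rw [hs]
    linear_combination ((d1 * b2 - b1 * d2) * c' + d2) * h1 - d1 * h2
  have f1 : ((1 - s * a' * c' : ℤ) : ℚ) * a' + ((s * a' ^ 2 : ℤ) : ℚ) * c' = a' := by
    exact_mod_cast e1
  have f2 : ((-(s * c' ^ 2) : ℤ) : ℚ) * a' + ((1 + s * a' * c' : ℤ) : ℚ) * c' = c' := by
    exact_mod_cast e2
  have f3 : ((1 - s * a' * c' : ℤ) : ℚ) * b1 + ((s * a' ^ 2 : ℤ) : ℚ) * d1 = b2 := by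
    exact_mod_cast e3
  have f4 : ((-(s * c' ^ 2) : ℤ) : ℚ) * b1 + ((1 + s * a' * c' : ℤ) : ℚ) * d1 = d2 := by
    exact_mod_cast e4
  rw [f1, f2] at hA
  rw [f3, f4] at hB
  linear_combination hB - hA

end

end Pool.Agent.P.MP_20768c_nt
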