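import Pool.Agent.P.MP_20768c_nt.EngB1

namespace Pool.Agent.P.MP_20768c_nt

lemma engb2_add_lt {K : Type*} [NormedField K] [IsUltrametricDist K] {x y : K} {c : ℝ}
    (hx : ‖x‖ < c) (hy : ‖y‖ < c) : ‖x + y‖ < c :=
  (IsUltrametricDist.norm_add_le_max x y).trans_lt (max_lt hx hy)

lemma engb2_sub_lt {K : Type*} [NormedField K] [IsUltrametricDist K] {x y : K} {c : ℝ}
    (hx : ‖x‖ < c) (hy : ‖y‖ < c) : ‖x - y‖ < c := by
  rw [sub_eq_add_neg]
  exact engb2_add_lt hx (by rwa [norm_neg])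

lemma engb2_sum_lt {K : Type*} [NormedField K] [IsUltrametricDist K] {c : ℝ} (hc : 0 < c)
    (f : ℕ → K) (n : ℕ) (h : ∀ k, ‖f k‖ < c) : ‖∑ k ∈ Finset.range n, f k‖ < c := by
  induction n with
  | zero => simpa using hc
  | succ n ih =>
    rw [Finset.sum_range_succ]
    exact engb2_add_lt ih (h n)

lemma engb2_cop {p : ℕ} (hp : p.Prime) {x : ℤ} (h : ¬ (p : ℤ) ∣ x) : IsCoprime x (p : ℤ) :=
  (((Nat.prime_iff_prime_int.mp hp).irreducible.coprime_iff_not_dvd).mpr h).symm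

lemma engb2_shift {x y : ℤ} (h : IsCoprime x y) (k : ℤ) : IsCoprime (x + k * y) y :=
  h.add_mul_right_left k

section
variable {K : Type*} [Field K] {p M : ℕ} (ε : DirichletCharacter K M) (S : ℚ → K)

/-- the neighbour data against `(a' + k c', p c')` -/
lemma engb2_data2 (hp : p.Prime) {a' c' b d : ℤ} {n : ℕ} (h2 : IsCoprime b d)
    (hdet : a' * d - b * c' = (p : ℤ) ^ n) (k : ℕ) :
    ∃ (b' d' : ℤ) (n' : ℕ), Hs ε S p b d k = Hv ε S b' d' ∧ IsCoprime b' d' ∧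
      (a' + k * c') * d' - b' * (p * c') = (p : ℤ) ^ n' := by
  have hs := engb2_shift h2 (k : ℤ)
  by_cases h : (p : ℤ) ∣ b + k * d
  · refine ⟨(b + k * d) / p, d, n, by rw [Hs, if_pos h], ?_, ?_⟩
    · exact hs.of_isCoprime_of_dvd_left (Int.ediv_dvd_of_dvd h)
    · have e := Int.ediv_mul_cancel h
      linear_combination hdet - c' * e
  · refine ⟨b + k * d, p * d, n + 1, by rw [Hs, if_neg h], (engb2_cop hp h).mul_right hs, ?_⟩
    rw [pow_succ]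
    linear_combination (p : ℤ) * hdet

/-- the neighbour data against `((a' + k c') / p, c')` -/
lemma engb2_data3 (hp : p.Prime) {a' c' b d a2 : ℤ} {n r T : ℕ} (h2 : IsCoprime b d)
    (hpc : ¬ (p : ℤ) ∣ c') (hdet : a' * d - b * c' = (p : ℤ) ^ n) (k : ℕ)
    (ha : a' + k * c' = p * a2) (hd : (p : ℤ) ^ (n + r) ∣ (p : ℤ) ^ (T + 1) * d) :
    ∃ (b' d' : ℤ) (n' : ℕ), Hs ε S p b d k = Hv ε S b' d' ∧ IsCoprime b' d' ∧
      a2 * d' - b' * c' = (p : ℤ) ^ n' ∧ (p : ℤ) ^ (n' + r) ∣ (p : ℤ) ^ T * d' := by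
  have hs := engb2_shift h2 (k : ℤ)
  have hpp : Prime (p : ℤ) := Nat.prime_iff_prime_int.mp hp
  have key : (b + k * d) * c' = p * a2 * d - (p : ℤ) ^ n := by
    linear_combination d * ha - hdet
  cases n with
  | zero =>
    have h : ¬ (p : ℤ) ∣ b + k * d := by
      intro h
      have h1 : (p : ℤ) ∣ p * a2 * d - (b + k * d) * c' :=
        dvd_sub (Dvd.intro _ (mul_assoc _ _ _).symm) (h.mul_right _)
      have h3 : (p : ℤ) * a2 * d - (b + k * d) * c' = 1 := by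
        rw [key]; ring
      rw [h3] at h1
      exact hpp.not_dvd_one h1
    refine ⟨b + k * d, p * d, 0, by rw [Hs, if_neg h], (engb2_cop hp h).mul_right hs, ?_, ?_⟩
    · linear_combination (-1 : ℤ) * key
    · have e : (p : ℤ) ^ T * (p * d) = (p : ℤ) ^ (T + 1) * d := by ring
      rw [e]
      exact hd
  | succ n =>
    have h : (p : ℤ) ∣ b + k * d := by
      have h1 : (p : ℤ) ∣ (b + k * d) * c' := ⟨a2 * d - (p : ℤ) ^ n, by rw [key]; ring⟩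
      exact (hpp.dvd_or_dvd h1).resolve_right hpc
    refine ⟨(b + k * d) / p, d, n, by rw [Hs, if_pos h],
      hs.of_isCoprime_of_dvd_left (Int.ediv_dvd_of_dvd h), ?_, ?_⟩
    · have e := Int.ediv_mul_cancel h
      apply mul_left_cancel₀ hpp.ne_zero
      linear_combination (-1 : ℤ) * key - c' * e
    · have e1 : (p : ℤ) ^ (n + 1 + r) = p * (p : ℤ) ^ (n + r) := by ring
      have e2 : (p : ℤ) ^ (T + 1) * d = p * ((p : ℤ) ^ T * d) := by ring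
      rw [e1, e2] at hd
      exact (mul_dvd_mul_iff_left hpp.ne_zero).mp hd

end

section
variable {K : Type*} [NormedField K] [IsUltrametricDist K] {p M : ℕ}
  {ε : DirichletCharacter K M} {S : ℚ → K} {α : K} {c : ℝ} {N : ℤ} {r : ℕ}

lemma engb2_E2_aux (hp : p.Prime) (hM : p ∣ M) (hN : IsCoprime N (p : ℤ))
    (hMN : (M : ℤ) = N * (p : ℤ) ^ r) (hT : TLaw M ε S) (hH : HLaw p M ε α S) (hα1 : ‖α‖ = 1)
    (hc : 0 < c) (hμ : ∀ (n : ℕ) (a : ℤ), ¬ (p : ℤ) ∣ a → ‖S (a / (p : ℚ) ^ (n + 1))‖ < c)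
    (T : ℕ) : ∀ (a' c' b d : ℤ) (n : ℕ), IsCoprime a' c' → IsCoprime b d → N ∣ c' →
      (p : ℤ) ∣ c' → (p : ℤ) ^ r ∣ (p : ℤ) ^ T * c' → a' * d - b * c' = (p : ℤ) ^ n →
      ‖Hv ε S b d - Fv S a' c'‖ < c := by
  induction T with
  | zero =>
    intro a' c' b d n h1 h2 hc' _ hr hdet
    rw [pow_zero, one_mul] at hr
    refine engB_E1 hp hM hT hc hμ h1 h2 ?_ hdet
    rw [hMN]
    exact IsCoprime.mul_dvd hN.pow_right hc' hr
  | succ T ih =>
    intro a' c' b d n h1 h2 hc' hpc hr hdet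
    have hL := engB_L hp hM hH hc hμ
    have hst := engB_step hp hM hH hL h2
    have hU := engB_U hp hM hH a' c'
    have hk : ∀ k : ℕ,
        ‖Hs ε S p b d k - Fv S ((a' + k * c' : ℤ) : ℚ) ((p * c' : ℤ) : ℚ)‖ < c := by
      intro k
      obtain ⟨b', d', n', e, hco, hdet'⟩ := engb2_data2 ε S hp h2 hdet k
      rw [e]
      have hs := engb2_shift h1 (k : ℤ)
      refine ih _ _ b' d' n' ((hs.of_isCoprime_of_dvd_right hpc).mul_right hs) hco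
        (hc'.mul_left _) (Dvd.intro _ rfl) ?_ hdet'
      have e2 : (p : ℤ) ^ T * (p * c') = (p : ℤ) ^ (T + 1) * c' := by ring
      rw [e2]
      exact hr
    have hsum := engb2_sum_lt hc _ p hk
    have := engb2_add_lt hst hsum
    rw [Finset.sum_sub_distrib, ← hU, sub_add_sub_cancel, ← mul_sub, norm_mul, hα1,
      one_mul] at this
    exact this

/-- E2: `N p ∣ c'`; the induction is on `T` with `p ^ r ∣ p ^ T c'` -/
lemma engB_E2 (hp : p.Prime) (hM : p ∣ M) (hN : IsCoprime N (p : ℤ))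
    (hMN : (M : ℤ) = N * (p : ℤ) ^ r) (hT : TLaw M ε S) (hH : HLaw p M ε α S) (hα1 : ‖α‖ = 1)
    (hc : 0 < c) (hμ : ∀ (n : ℕ) (a : ℤ), ¬ (p : ℤ) ∣ a → ‖S (a / (p : ℚ) ^ (n + 1))‖ < c)
    {a' c' b d : ℤ} {n : ℕ} (h1 : IsCoprime a' c') (h2 : IsCoprime b d) (hc' : N ∣ c')
    (hpc : (p : ℤ) ∣ c') (hdet : a' * d - b * c' = (p : ℤ) ^ n) :
    ‖Hv ε S b d - Fv S a' c'‖ < c :=
  engb2_E2_aux hp hM hN hMN hT hH hα1 hc hμ r a' c' b d n h1 h2 hc' hpc (Dvd.intro _ rfl) hdet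

lemma engb2_E3_aux (hp : p.Prime) (hM : p ∣ M) (hN : IsCoprime N (p : ℤ))
    (hMN : (M : ℤ) = N * (p : ℤ) ^ r) (hT : TLaw M ε S) (hH : HLaw p M ε α S) (hα1 : ‖α‖ = 1)
    (hc : 0 < c) (hμ : ∀ (n : ℕ) (a : ℤ), ¬ (p : ℤ) ∣ a → ‖S (a / (p : ℚ) ^ (n + 1))‖ < c)
    {c' : ℤ} (hc' : N ∣ c') (hpc : ¬ (p : ℤ) ∣ c')
    (T : ℕ) : ∀ (a' b1 d1 b2 d2 : ℤ) (n1 n2 : ℕ), IsCoprime a' c' → IsCoprime b1 d1 →
      IsCoprime b2 d2 → a' * d1 - b1 * c' = (p : ℤ) ^ n1 → a' * d2 - b2 * c' = (p : ℤ) ^ n2 →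
      (p : ℤ) ^ (n1 + r) ∣ (p : ℤ) ^ T * d1 → (p : ℤ) ^ (n2 + r) ∣ (p : ℤ) ^ T * d2 →
      ‖Hv ε S b1 d1 - Hv ε S b2 d2‖ < c := by
  have hpp : Prime (p : ℤ) := Nat.prime_iff_prime_int.mp hp
  induction T with
  | zero =>
    intro a' b1 d1 b2 d2 n1 n2 _ h1 h2 hdet1 hdet2 hd1 hd2
    rw [pow_zero, one_mul] at hd1 hd2
    have hr : r ≠ 0 := by
      rintro rfl
      have h3 : (p : ℤ) ∣ (M : ℤ) := by exact_mod_cast hM
      rw [hMN, pow_zero, mul_one] at h3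
      exact hpp.not_isUnit (hN.isUnit_of_dvd' h3 dvd_rfl)
    have base : ∀ (b d : ℤ) (n : ℕ), IsCoprime b d → a' * d - b * c' = (p : ℤ) ^ n →
        (p : ℤ) ^ (n + r) ∣ d → a' * d - b * c' = 1 ∧ (p : ℤ) ^ r ∣ d ∧ (p : ℤ) ∣ d := by
      intro b d n h hdet hd
      have hpr : (p : ℤ) ^ r ∣ d := (pow_dvd_pow _ (Nat.le_add_left r n)).trans hd
      have hpd : (p : ℤ) ∣ d := (dvd_pow_self _ hr).trans hpr
      refine ⟨?_, hpr, hpd⟩
      cases n with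
      | zero => simpa using hdet
      | succ n =>
        exfalso
        have h3 : (p : ℤ) ∣ b * c' := by
          have e : b * c' = a' * d - (p : ℤ) ^ (n + 1) := by linear_combination (-1 : ℤ) * hdet
          rw [e]
          exact dvd_sub (hpd.mul_left _) (dvd_pow_self _ (Nat.succ_ne_zero n))
        exact hpp.not_isUnit (h.isUnit_of_dvd' ((hpp.dvd_or_dvd h3).resolve_right hpc) hpd)
    obtain ⟨e1, r1, p1⟩ := base b1 d1 n1 h1 hdet1 hd1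
    obtain ⟨e2, r2, p2⟩ := base b2 d2 n2 h2 hdet2 hd2
    have hF := engB_par hMN hp hT hc' hpc e1 e2 r1 r2
    rw [Hv, Hv, char_zero ε hp hM p1, char_zero ε hp hM p2, hF, sub_self, norm_zero]
    exact hc
  | succ T ih =>
    intro a' b1 d1 b2 d2 n1 n2 h0 h1 h2 hdet1 hdet2 hd1 hd2
    have hL := engB_L hp hM hH hc hμ
    have hst1 := engB_step hp hM hH hL h1
    have hst2 := engB_step hp hM hH hL h2
    have hk : ∀ k : ℕ, ‖Hs ε S p b1 d1 k - Hs ε S p b2 d2 k‖ < c := by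
      intro k
      have hs := engb2_shift h0 (k : ℤ)
      by_cases h : (p : ℤ) ∣ a' + k * c'
      · obtain ⟨a2, ha⟩ := h
        obtain ⟨b1', d1', n1', e1, co1, det1, dv1⟩ := engb2_data3 ε S hp h1 hpc hdet1 k ha hd1
        obtain ⟨b2', d2', n2', e2, co2, det2, dv2⟩ := engb2_data3 ε S hp h2 hpc hdet2 k ha hd2
        rw [e1, e2]
        rw [ha] at hs
        exact ih a2 b1' d1' b2' d2' n1' n2' hs.of_mul_left_right co1 co2 det1 det2 dv1 dv2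
      · obtain ⟨b1', d1', n1', e1, co1, det1⟩ := engb2_data2 ε S hp h1 hdet1 k
        obtain ⟨b2', d2', n2', e2, co2, det2⟩ := engb2_data2 ε S hp h2 hdet2 k
        have hco := (engb2_cop hp h).mul_right hs
        have q1 := engB_E2 hp hM hN hMN hT hH hα1 hc hμ hco co1 (hc'.mul_left _)
          (Dvd.intro _ rfl) det1
        have q2 := engB_E2 hp hM hN hMN hT hH hα1 hc hμ hco co2 (hc'.mul_left _)
          (Dvd.intro _ rfl) det2
        have := engb2_sub_lt q1 q2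
        rw [sub_sub_sub_cancel_right] at this
        rw [e1, e2]
        exact this
    have hsum := engb2_sum_lt hc _ p hk
    have := engb2_add_lt (engb2_sub_lt hst1 hst2) hsum
    rw [Finset.sum_sub_distrib] at this
    have e : α * Hv ε S b1 d1 - ∑ k ∈ Finset.range p, Hs ε S p b1 d1 k -
        (α * Hv ε S b2 d2 - ∑ k ∈ Finset.range p, Hs ε S p b2 d2 k) +
        (∑ k ∈ Finset.range p, Hs ε S p b1 d1 k - ∑ k ∈ Finset.range p, Hs ε S p b2 d2 k) =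
        α * (Hv ε S b1 d1 - Hv ε S b2 d2) := by ring
    rw [e, norm_mul, hα1, one_mul] at this
    exact this

/-- E3: `p ∤ c'`; the induction is on `T` with `p ^ (n_i + r) ∣ p ^ T d_i` -/
lemma engB_E3 (hp : p.Prime) (hM : p ∣ M) (hN : IsCoprime N (p : ℤ))
    (hMN : (M : ℤ) = N * (p : ℤ) ^ r) (hT : TLaw M ε S) (hH : HLaw p M ε α S) (hα1 : ‖α‖ = 1)
    (hc : 0 < c) (hμ : ∀ (n : ℕ) (a : ℤ), ¬ (p : ℤ) ∣ a → ‖S (a / (p : ℚ) ^ (n + 1))‖ < c)
    {a' c' b1 d1 b2 d2 : ℤ} {n1 n2 : ℕ} (h0 : IsCoprime a' c') (h1 : IsCoprime b1 d1)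
    (h2 : IsCoprime b2 d2) (hc' : N ∣ c') (hpc : ¬ (p : ℤ) ∣ c')
    (hdet1 : a' * d1 - b1 * c' = (p : ℤ) ^ n1) (hdet2 : a' * d2 - b2 * c' = (p : ℤ) ^ n2) :
    ‖Hv ε S b1 d1 - Hv ε S b2 d2‖ < c :=
  engb2_E3_aux hp hM hN hMN hT hH hα1 hc hμ hc' hpc (n1 + n2 + r) a' b1 d1 b2 d2 n1 n2 h0 h1 h2
    hdet1 hdet2 ((pow_dvd_pow _ (by omega)).mul_right _) ((pow_dvd_pow _ (by omega)).mul_right _)

end

end Pool.Agent.P.MP_20768c_nt
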