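import Mathlib

namespace Pool.Agent.P.MP_20768c_nt

/-- `SL(2,ℚ)` in coordinates. -/
@[ext] structure M2 where
  a : ℚ
  b : ℚ
  c : ℚ
  d : ℚ
  det : a * d - b * c = 1

namespace M2

instance : Mul M2 := ⟨fun g h => ⟨g.a * h.a + g.b * h.c, g.a * h.b + g.b * h.d,
  g.c * h.a + g.d * h.c, g.c * h.b + g.d * h.d, by
    have h1 := g.det
    have h2 := h.det
    linear_combination (h.a * h.d - h.b * h.c) * h1 + h2⟩⟩
instance : One M2 := ⟨⟨1, 0, 0, 1, by norm_num⟩⟩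
instance : Inv M2 := ⟨fun g => ⟨g.d, -g.b, -g.c, g.a, by
  have h1 := g.det
  linear_combination h1⟩⟩

@[simp] lemma mul_a (g h : M2) : (g * h).a = g.a * h.a + g.b * h.c := rfl
@[simp] lemma mul_b (g h : M2) : (g * h).b = g.a * h.b + g.b * h.d := rfl
@[simp] lemma mul_c (g h : M2) : (g * h).c = g.c * h.a + g.d * h.c := rfl
@[simp] lemma mul_d (g h : M2) : (g * h).d = g.c * h.b + g.d * h.d := rfl
@[simp] lemma one_a : (1 : M2).a = 1 := rfl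
@[simp] lemma one_b : (1 : M2).b = 0 := rfl
@[simp] lemma one_c : (1 : M2).c = 0 := rfl
@[simp] lemma one_d : (1 : M2).d = 1 := rfl
@[simp] lemma inv_a (g : M2) : g⁻¹.a = g.d := rfl
@[simp] lemma inv_b (g : M2) : g⁻¹.b = -g.b := rfl
@[simp] lemma inv_c (g : M2) : g⁻¹.c = -g.c := rfl
@[simp] lemma inv_d (g : M2) : g⁻¹.d = g.a := rfl

instance : Group M2 where
  mul_assoc g h k := by ext <;> simp <;> ring
  one_mul g := by ext <;> simp
  mul_one g := by ext <;> simp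
  inv_mul_cancel g := by
    have h1 := g.det
    ext <;> simp <;> linarith

/-- upper unipotent -/
def e (t : ℚ) : M2 := ⟨1, t, 0, 1, by ring⟩
/-- lower unipotent -/
def l (t : ℚ) : M2 := ⟨1, 0, t, 1, by ring⟩
/-- `diag (u, 1/u)` -/
def D (u : ℚ) (hu : u ≠ 0) : M2 := ⟨u, 0, 0, u⁻¹, by simp [hu]⟩
/-- conjugation by `diag (1, v)` -/
def dl (v : ℚ) (hv : v ≠ 0) (g : M2) : M2 := ⟨g.a, g.b / v, v * g.c, g.d, by
  have h1 := g.det
  field_simp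
  linarith⟩

@[simp] lemma e_a (t : ℚ) : (e t).a = 1 := rfl
@[simp] lemma e_b (t : ℚ) : (e t).b = t := rfl
@[simp] lemma e_c (t : ℚ) : (e t).c = 0 := rfl
@[simp] lemma e_d (t : ℚ) : (e t).d = 1 := rfl
@[simp] lemma l_a (t : ℚ) : (l t).a = 1 := rfl
@[simp] lemma l_b (t : ℚ) : (l t).b = 0 := rfl
@[simp] lemma l_c (t : ℚ) : (l t).c = t := rfl
@[simp] lemma l_d (t : ℚ) : (l t).d = 1 := rfl
@[simp] lemma D_a (u : ℚ) (hu : u ≠ 0) : (D u hu).a = u := rfl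
@[simp] lemma D_b (u : ℚ) (hu : u ≠ 0) : (D u hu).b = 0 := rfl
@[simp] lemma D_c (u : ℚ) (hu : u ≠ 0) : (D u hu).c = 0 := rfl
@[simp] lemma D_d (u : ℚ) (hu : u ≠ 0) : (D u hu).d = u⁻¹ := rfl
@[simp] lemma dl_a (v : ℚ) (hv : v ≠ 0) (g : M2) : (dl v hv g).a = g.a := rfl
@[simp] lemma dl_b (v : ℚ) (hv : v ≠ 0) (g : M2) : (dl v hv g).b = g.b / v := rfl
@[simp] lemma dl_c (v : ℚ) (hv : v ≠ 0) (g : M2) : (dl v hv g).c = v * g.c := rfl
@[simp] lemma dl_d (v : ℚ) (hv : v ≠ 0) (g : M2) : (dl v hv g).d = g.d := rfl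

lemma e_add (s t : ℚ) : e (s + t) = e s * e t := by ext <;> simp [add_comm]
lemma l_add (s t : ℚ) : l (s + t) = l s * l t := by ext <;> simp
lemma e_zero : e 0 = 1 := by ext <;> simp
lemma l_zero : l 0 = 1 := by ext <;> simp
lemma e_neg (t : ℚ) : e (-t) = (e t)⁻¹ := by ext <;> simp
lemma l_neg (t : ℚ) : l (-t) = (l t)⁻¹ := by ext <;> simp
lemma e_pow (t : ℚ) (n : ℕ) : e t ^ n = e (n * t) := by
  induction n with
  | zero => simp [e_zero]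
  | succ n ih => rw [pow_succ, ih, ← e_add]; congr 1; push_cast; ring
lemma l_pow (t : ℚ) (n : ℕ) : l t ^ n = l (n * t) := by
  induction n with
  | zero => simp [l_zero]
  | succ n ih => rw [pow_succ, ih, ← l_add]; congr 1; push_cast; ring
lemma dl_mul (v : ℚ) (hv : v ≠ 0) (g h : M2) : dl v hv (g * h) = dl v hv g * dl v hv h := by
  ext <;> simp <;> field_simp
lemma dl_e (v : ℚ) (hv : v ≠ 0) (t : ℚ) : dl v hv (e t) = e (t / v) := by ext <;> simp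
lemma dl_l (v : ℚ) (hv : v ≠ 0) (t : ℚ) : dl v hv (l t) = l (v * t) := by ext <;> simp

end M2

/-- `x` lies in `m ℤ[1/p]`. -/
def RM (p : ℕ) (m : ℤ) (x : ℚ) : Prop := ∃ (k : ℕ) (z : ℤ), x * (p : ℚ) ^ k = m * z

namespace RM
variable {p : ℕ} {m m' : ℤ} {x y : ℚ}

lemma int_mul (p : ℕ) (m z : ℤ) : RM p m ((m : ℚ) * z) := ⟨0, z, by simp⟩
lemma of_dvd (p : ℕ) {z : ℤ} (h : m ∣ z) : RM p m (z : ℚ) := by
  obtain ⟨w, rfl⟩ := h
  exact ⟨0, w, by simp⟩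
lemma int (p : ℕ) (z : ℤ) : RM p 1 (z : ℚ) := of_dvd p (one_dvd z)
lemma zero (p : ℕ) (m : ℤ) : RM p m 0 := ⟨0, 0, by simp⟩
lemma one (p : ℕ) : RM p 1 1 := ⟨0, 1, by simp⟩
lemma add (hx : RM p m x) (hy : RM p m y) : RM p m (x + y) := by
  obtain ⟨k, z, h⟩ := hx
  obtain ⟨j, w, h'⟩ := hy
  refine ⟨k + j, z * p ^ j + w * p ^ k, ?_⟩
  push_cast
  rw [pow_add]
  linear_combination (p : ℚ) ^ j * h + (p : ℚ) ^ k * h'
lemma neg (hx : RM p m x) : RM p m (-x) := by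
  obtain ⟨k, z, h⟩ := hx
  refine ⟨k, -z, ?_⟩
  push_cast
  linear_combination -h
lemma sub (hx : RM p m x) (hy : RM p m y) : RM p m (x - y) := by
  rw [sub_eq_add_neg]; exact hx.add hy.neg
lemma mul (hx : RM p m x) (hy : RM p m' y) : RM p (m * m') (x * y) := by
  obtain ⟨k, z, h⟩ := hx
  obtain ⟨j, w, h'⟩ := hy
  refine ⟨k + j, z * w, ?_⟩
  push_cast
  rw [pow_add]
  linear_combination (y * (p : ℚ) ^ j) * h + (m * z : ℚ) * h'
lemma mul_r (hx : RM p m x) (hy : RM p 1 y) : RM p m (x * y) := by simpa using hx.mul hy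
lemma mul_l (hx : RM p 1 x) (hy : RM p m y) : RM p m (x * y) := by simpa using hx.mul hy
lemma mono (h : m' ∣ m) (hx : RM p m x) : RM p m' x := by
  obtain ⟨k, z, hz⟩ := hx
  obtain ⟨w, rfl⟩ := h
  refine ⟨k, w * z, ?_⟩
  push_cast at hz ⊢
  linear_combination hz
lemma to_one (hx : RM p m x) : RM p 1 x := hx.mono (one_dvd m)
lemma of_sub_one (hx : RM p m (x - 1)) : RM p 1 x := by
  simpa using hx.to_one.add (one p)
lemma zpow (hp : p ≠ 0) (i : ℤ) : RM p 1 ((p : ℚ) ^ i) := by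
  have hp' : (p : ℚ) ≠ 0 := by exact_mod_cast hp
  obtain ⟨n, rfl | rfl⟩ := i.eq_nat_or_neg
  · exact ⟨0, p ^ n, by simp⟩
  · exact ⟨n, 1, by simp [hp']⟩
lemma pow (p n : ℕ) : RM p 1 ((p : ℚ) ^ n) := ⟨0, p ^ n, by simp⟩
lemma inv_pow (hp : p ≠ 0) (n : ℕ) : RM p 1 (((p : ℚ) ^ n)⁻¹) := by
  simpa using zpow hp (-(n : ℤ))
lemma div_pow (hp : p ≠ 0) (hx : RM p m x) (n : ℕ) : RM p m (x / (p : ℚ) ^ n) := by
  rw [div_eq_mul_inv]; exact hx.mul_r (inv_pow hp n)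
/-- division by the modulus -/
lemma div_self (hm : m ≠ 0) (hx : RM p m x) : RM p 1 (x / m) := by
  obtain ⟨k, z, h⟩ := hx
  have hm' : (m : ℚ) ≠ 0 := by exact_mod_cast hm
  refine ⟨k, z, ?_⟩
  field_simp
  push_cast
  linear_combination h
/-- an integer in `m ℤ[1/p]` is a multiple of `m` when `m` is prime to `p` -/
lemma dvd_of_int {z : ℤ} (hm : IsCoprime m (p : ℤ)) (h : RM p m (z : ℚ)) : m ∣ z := by
  obtain ⟨k, w, hw⟩ := h
  have h1 : z * (p : ℤ) ^ k = m * w := by exact_mod_cast hw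
  exact (hm.pow_right (n := k)).dvd_of_dvd_mul_right ⟨w, h1⟩

end RM

/-- The matrices over `ℤ[1/p]` with `a ≡ d ≡ 1`, `c ≡ 0` mod `N` and `b ≡ 0` mod `B`. -/
def Gam (p : ℕ) (N B : ℤ) : Subgroup M2 where
  carrier := {g | RM p N (g.a - 1) ∧ RM p B g.b ∧ RM p N g.c ∧ RM p N (g.d - 1)}
  one_mem' := by simp [RM.zero]
  mul_mem' := by
    rintro g h ⟨a1, b1, c1, d1⟩ ⟨a2, b2, c2, d2⟩
    refine ⟨?_, ?_, ?_, ?_⟩
    · have : (g * h).a - 1 = (g.a - 1) * h.a + (h.a - 1) + g.b * h.c := by simp; ring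
      rw [this]
      exact ((a1.mul_r a2.of_sub_one).add a2).add (b1.to_one.mul_l c2)
    · exact (a1.of_sub_one.mul_l b2).add (b1.mul_r d2.of_sub_one)
    · exact (c1.mul_r a2.of_sub_one).add (d1.of_sub_one.mul_l c2)
    · have : (g * h).d - 1 = g.c * h.b + ((g.d - 1) * h.d + (h.d - 1)) := by simp; ring
      rw [this]
      exact (c1.mul_r b2.to_one).add ((d1.mul_r d2.of_sub_one).add d2)
  inv_mem' := by
    rintro g ⟨a1, b1, c1, d1⟩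
    exact ⟨d1, b1.neg, c1.neg, a1⟩

lemma mem_Gam {p : ℕ} {N B : ℤ} {g : M2} :
    g ∈ Gam p N B ↔ RM p N (g.a - 1) ∧ RM p B g.b ∧ RM p N g.c ∧ RM p N (g.d - 1) := Iff.rfl

lemma Gam_mono {p : ℕ} {N B N' B' : ℤ} (hN : N ∣ N') (hB : B ∣ B') : Gam p N' B' ≤ Gam p N B := by
  rintro g ⟨a1, b1, c1, d1⟩
  exact ⟨a1.mono hN, b1.mono hB, c1.mono hN, d1.mono hN⟩

lemma e_mem {p : ℕ} {N B : ℤ} {t : ℚ} (ht : RM p B t) : M2.e t ∈ Gam p N B := by
  simp [mem_Gam, RM.zero, ht]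

lemma l_mem {p : ℕ} {N B : ℤ} {t : ℚ} (ht : RM p N t) : M2.l t ∈ Gam p N B := by
  simp [mem_Gam, RM.zero, ht]

lemma dl_mem {p : ℕ} (hp : p ≠ 0) {N B : ℤ} (i : ℤ) (hv : (p : ℚ) ^ i ≠ 0) {g : M2}
    (hg : g ∈ Gam p N B) : M2.dl ((p : ℚ) ^ i) hv g ∈ Gam p N B := by
  obtain ⟨a1, b1, c1, d1⟩ := hg
  refine ⟨a1, ?_, (RM.zpow hp i).mul_l c1, d1⟩
  rw [M2.dl_b, div_eq_mul_inv, ← zpow_neg]
  exact b1.mul_r (RM.zpow hp _)

/-- `g` is an integer matrix in `Γ₁(M)`. -/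
def Int1 (M : ℤ) (g : M2) : Prop :=
  ∃ a b c d : ℤ, g.a = a ∧ g.b = b ∧ g.c = c ∧ g.d = d ∧ M ∣ c ∧ M ∣ d - 1

lemma Int1.mem {p : ℕ} {N M : ℤ} (h : N ∣ M) {g : M2} (hg : Int1 M g) : g ∈ Gam p N 1 := by
  obtain ⟨a, b, c, d, ha, hb, hc, hd, h1, h2⟩ := hg
  have hdet := g.det
  rw [ha, hb, hc, hd] at hdet
  have hdet' : a * d - b * c = 1 := by exact_mod_cast hdet
  have h3 : M ∣ a - 1 := by
    have : a - 1 = b * c - a * (d - 1) := by linear_combination hdet'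
    rw [this]
    exact (h1.mul_left b).sub (h2.mul_left a)
  refine ⟨?_, ?_, ?_, ?_⟩
  · rw [ha]; exact_mod_cast RM.of_dvd p (h.trans h3)
  · rw [hb]; exact RM.int p b
  · rw [hc]; exact RM.of_dvd p (h.trans h1)
  · rw [hd]; exact_mod_cast RM.of_dvd p (h.trans h2)

/-- `χ` is additive on `H`. -/
def IsHom {A : Type*} [AddCommGroup A] (H : Subgroup M2) (χ : M2 → A) : Prop :=
  ∀ g ∈ H, ∀ h ∈ H, χ (g * h) = χ g + χ h

namespace IsHom
variable {A : Type*} [AddCommGroup A] {H H' : Subgroup M2} {χ : M2 → A}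

lemma mono (h : IsHom H χ) (hle : H' ≤ H) : IsHom H' χ :=
  fun g hg k hk => h g (hle hg) k (hle hk)
lemma one (h : IsHom H χ) : χ 1 = 0 := by
  have := h 1 H.one_mem 1 H.one_mem
  simpa using this
lemma inv (h : IsHom H χ) {g : M2} (hg : g ∈ H) : χ g⁻¹ = -χ g := by
  have := h g⁻¹ (H.inv_mem hg) g hg
  rw [inv_mul_cancel, h.one] at this
  exact eq_neg_of_add_eq_zero_left this.symm
lemma pow (h : IsHom H χ) {g : M2} (hg : g ∈ H) (n : ℕ) : χ (g ^ n) = n • χ g := by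
  induction n with
  | zero => simp [h.one]
  | succ n ih => rw [pow_succ, h _ (H.pow_mem hg n) _ hg, ih, succ_nsmul]

end IsHom

section unip
variable {A : Type*} [AddCommGroup A] {p k : ℕ} {N B : ℤ} {χ : M2 → A}

/-- C2: unipotent elements are `p`-divisible. -/
lemma hom_e (hp : p ≠ 0) (h : IsHom (Gam p N B) χ) (hk : ∀ g ∈ Gam p N B, p ^ k • χ g = 0)
    {t : ℚ} (ht : RM p B t) : χ (M2.e t) = 0 := by
  have hp' : (p : ℚ) ≠ 0 := by exact_mod_cast hp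
  have hm : M2.e (t / (p : ℚ) ^ k) ∈ Gam p N B := e_mem (ht.div_pow hp k)
  have : M2.e t = M2.e (t / (p : ℚ) ^ k) ^ (p ^ k) := by
    rw [M2.e_pow]; congr 1; push_cast; field_simp
  rw [this, h.pow hm, hk _ hm]

lemma hom_l (hp : p ≠ 0) (h : IsHom (Gam p N B) χ) (hk : ∀ g ∈ Gam p N B, p ^ k • χ g = 0)
    {t : ℚ} (ht : RM p N t) : χ (M2.l t) = 0 := by
  have hp' : (p : ℚ) ≠ 0 := by exact_mod_cast hp
  have hm : M2.l (t / (p : ℚ) ^ k) ∈ Gam p N B := l_mem (ht.div_pow hp k)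
  have : M2.l t = M2.l (t / (p : ℚ) ^ k) ^ (p ^ k) := by
    rw [M2.l_pow]; congr 1; push_cast; field_simp
  rw [this, h.pow hm, hk _ hm]

end unip

end Pool.Agent.P.MP_20768c_nt
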