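import Pool.Agent.P.MP_20768c_nt.Bd

namespace Pool.Agent.P.MP_20768c_nt

section
variable {K : Type*} [NormedField K] [IsUltrametricDist K] {p M : ℕ}
  {ε : DirichletCharacter K M} {S : ℚ → K} {A α : K} {c : ℝ}

lemma intg_per (hp : p.Prime) (hT : TLaw M ε S) (n : ℕ) (a : ℤ) (k : ℕ) :
    S (((a + k * (p : ℤ) ^ n : ℤ) : ℚ) / (p : ℚ) ^ n) = S (a / (p : ℚ) ^ n) := by
  have hp0 : (p : ℚ) ≠ 0 := by exact_mod_cast hp.ne_zero
  rw [← hT.per (a / (p : ℚ) ^ n) (k : ℤ)]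
  congr 1
  push_cast
  field_simp

/-- distribution relation for `D(n, a) = α S(a/p^(n+1)) - e S(a/p^n)` -/
lemma dist_rel (hp : p.Prime) (hT : TLaw M ε S) (hH : HLaw p M ε A S)
    (hα : α ^ 2 - A * α + ε (p : ZMod M) * p = 0) (hα0 : α ≠ 0) (n : ℕ) (a : ℤ) :
    α * (α * S (a / (p : ℚ) ^ (n + 1)) - ε (p : ZMod M) * S (a / (p : ℚ) ^ n)) =
      ∑ k ∈ Finset.range p,
        (α * S (((a + k * (p : ℤ) ^ (n + 1) : ℤ) : ℚ) / (p : ℚ) ^ (n + 2)) -
          ε (p : ZMod M) * S (((a + k * (p : ℤ) ^ (n + 1) : ℤ) : ℚ) / (p : ℚ) ^ (n + 1))) := by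
  have hp0 : (p : ℚ) ≠ 0 := by exact_mod_cast hp.ne_zero
  have h1 := hH (a / (p : ℚ) ^ (n + 1))
  have e1 : (p : ℚ) * (a / (p : ℚ) ^ (n + 1)) = a / (p : ℚ) ^ n := by
    field_simp
    ring
  have e2 : ∀ k : ℕ, (((a + k * (p : ℤ) ^ (n + 1) : ℤ) : ℚ) / (p : ℚ) ^ (n + 2)) =
      (a / (p : ℚ) ^ (n + 1) + k) / p := by
    intro k
    push_cast
    field_simp
    ring
  have e3 : ∀ k : ℕ, S (((a + k * (p : ℤ) ^ (n + 1) : ℤ) : ℚ) / (p : ℚ) ^ (n + 1)) =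
      S (a / (p : ℚ) ^ (n + 1)) := fun k => intg_per hp hT (n + 1) a k
  rw [e1] at h1
  simp only [e2, e3]
  rw [Finset.sum_sub_distrib, ← Finset.mul_sum, Finset.sum_const, Finset.card_range, nsmul_eq_mul]
  linear_combination α * h1 + S (a / (p : ℚ) ^ (n + 1)) * hα

/-- `a / p ^ n` and `a' / p ^ n` are equivalent under `Γ₁(M)` -/
lemma orbit_le (hp : p.Prime) {N : ℤ} {r : ℕ} (hN : IsCoprime N (p : ℤ))
    (hMN : (M : ℤ) = N * (p : ℤ) ^ r) (hT : TLaw M ε S)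
    (hP : ∀ b d : ℤ, IsCoprime b d → (M : ℤ) ∣ d - 1 → ‖Fv S b d - S 0‖ ≤ c)
    {n : ℕ} (hn : r ≤ n) {a a' : ℤ} (ha : ¬ (p : ℤ) ∣ a) (ha' : ¬ (p : ℤ) ∣ a')
    (h : (p : ℤ) ^ r ∣ a' - a) : ‖S (a' / (p : ℚ) ^ n) - S (a / (p : ℚ) ^ n)‖ ≤ c := by
  have hp0 : (p : ℚ) ^ n ≠ 0 := pow_ne_zero _ (by exact_mod_cast hp.ne_zero)
  have hpi : Prime (p : ℤ) := Nat.prime_iff_prime_int.mp hp
  have key : ∀ x : ℤ, ¬ (p : ℤ) ∣ x → ∃ u v : ℤ, u * (x * N) + v * (p : ℤ) ^ n = 1 := by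
    intro x hx
    have h1 : IsCoprime x (p : ℤ) := ((hpi.coprime_iff_not_dvd).mpr hx).symm
    exact (h1.mul_left hN).pow_right
  obtain ⟨u, v, huv⟩ := key a ha
  obtain ⟨u', v', huv'⟩ := key a' ha'
  obtain ⟨m, rfl⟩ := Nat.exists_eq_add_of_le hn
  obtain ⟨w, hw⟩ := h
  set P : ℤ := (p : ℤ) ^ (r + m) with hPdef
  have hPr : P = (p : ℤ) ^ r * (p : ℤ) ^ m := pow_add _ _ _
  have hdet : (a' * (u * N) + v' * P) * (a * (u' * N) + P * v) -
      (a' * v - a * v') * (P * (u * N - u' * N)) = 1 := by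
    linear_combination (u' * (a' * N) + v' * P) * huv + huv'
  have hC : (M : ℤ) ∣ P * (u * N - u' * N) := by
    rw [hMN, hPr]
    exact ⟨(p : ℤ) ^ m * (u - u'), by ring⟩
  have hD : (M : ℤ) ∣ a * (u' * N) + P * v - 1 := by
    rw [hMN]
    refine (hN.pow_right (n := r)).mul_dvd ?_ ?_
    · exact ⟨a * (u' - u), by linear_combination huv⟩
    · refine ⟨(p : ℤ) ^ m * (v - v') - w * (u' * N), ?_⟩
      linear_combination huv' - (u' * N) * hw + (v - v') * hPr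
  have h1 := hT _ _ _ _ hdet hC (a : ℚ) ((p : ℚ) ^ (r + m)) (Or.inr hp0)
  have h2 := hT _ _ _ _ hdet hC 0 1 (Or.inr one_ne_zero)
  rw [char_one ε hD] at h1 h2
  have hPq : ((P : ℤ) : ℚ) = (p : ℚ) ^ (r + m) := by rw [hPdef]; push_cast; rfl
  have huq : (u : ℚ) * (a * N) + v * (p : ℚ) ^ (r + m) = 1 := by
    rw [← hPq]; exact_mod_cast huv
  have e1 : ((a' * (u * N) + v' * P : ℤ) : ℚ) * a + ((a' * v - a * v' : ℤ) : ℚ) *
      (p : ℚ) ^ (r + m) = a' := by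
    push_cast
    rw [hPq]
    linear_combination (a' : ℚ) * huq
  have e2 : ((P * (u * N - u' * N) : ℤ) : ℚ) * a + ((a * (u' * N) + P * v : ℤ) : ℚ) *
      (p : ℚ) ^ (r + m) = (p : ℚ) ^ (r + m) := by
    push_cast
    rw [hPq]
    linear_combination (p : ℚ) ^ (r + m) * huq
  rw [e1, e2, Fv_of_ne S _ hp0, Fv_of_ne S _ hp0] at h1
  rw [mul_zero, mul_zero, mul_one, mul_one, zero_add, zero_add, Fv_of_ne S 0 one_ne_zero,
    zero_div] at h2
  have hcop : IsCoprime (a' * v - a * v') (a * (u' * N) + P * v) :=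
    ⟨-(P * (u * N - u' * N)), a' * (u * N) + v' * P, by linear_combination hdet⟩
  have h3 := hP _ _ hcop hD
  have h4 : S (a' / (p : ℚ) ^ (r + m)) - S (a / (p : ℚ) ^ (r + m)) =
      Fv S ((a' * v - a * v' : ℤ) : ℚ) ((a * (u' * N) + P * v : ℤ) : ℚ) - S 0 := by
    linear_combination h1 - h2
  rw [h4]
  exact h3

theorem integral_le [NeZero M] (hp : p.Prime) (hpn : ‖(p : K)‖ < 1) (hT : TLaw M ε S)
    (hH : HLaw p M ε A S) (hα : α ^ 2 - A * α + ε (p : ZMod M) * p = 0) (hα1 : ‖α‖ = 1)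
    (hP : ∀ b d : ℤ, IsCoprime b d → (M : ℤ) ∣ d - 1 → ‖Fv S b d - S 0‖ ≤ c)
    (n : ℕ) (a : ℤ) (ha : ¬ (p : ℤ) ∣ a) :
    ‖α * S (a / (p : ℚ) ^ (n + 1)) - ε (p : ZMod M) * S (a / (p : ℚ) ^ n)‖ ≤ c := by
  have hpi : Prime (p : ℤ) := Nat.prime_iff_prime_int.mp hp
  have hα0 : α ≠ 0 := by
    intro h
    rw [h, norm_zero] at hα1
    exact zero_ne_one hα1
  obtain ⟨r, N, hNp, hMN⟩ := Nat.exists_eq_pow_mul_and_not_dvd (NeZero.ne M) p hp.ne_one
  have hN : IsCoprime (N : ℤ) (p : ℤ) :=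
    ((hpi.coprime_iff_not_dvd).mpr (by exact_mod_cast hNp)).symm
  have hMN' : (M : ℤ) = (N : ℤ) * (p : ℤ) ^ r := by rw [hMN]; push_cast; ring
  have hc : 0 ≤ c := (norm_nonneg _).trans (hP 0 1 isCoprime_one_right (by simp))
  obtain ⟨B, hB⟩ := sd_bdd hT
  set D : ℕ → ℤ → K := fun n a =>
    α * S (a / (p : ℚ) ^ (n + 1)) - ε (p : ZMod M) * S (a / (p : ℚ) ^ n) with hD
  have hrel : ∀ n a, α * D n a = ∑ k ∈ Finset.range p, D (n + 1) (a + k * (p : ℤ) ^ (n + 1)) :=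
    fun n a => dist_rel hp hT hH hα hα0 n a
  have hnd : ∀ (n k : ℕ) (a : ℤ), ¬ (p : ℤ) ∣ a → ¬ (p : ℤ) ∣ a + k * (p : ℤ) ^ (n + 1) := by
    intro n k a ha h
    exact ha ((dvd_add_left (Dvd.dvd.mul_left (dvd_pow_self _ (Nat.succ_ne_zero n)) _)).mp h)
  have hDB : ∀ n a, ‖D n a‖ ≤ B := by
    intro n a
    simp only [hD, sub_eq_add_neg]
    refine (IsUltrametricDist.norm_add_le_max _ _).trans (max_le ?_ ?_)
    · rw [norm_mul, hα1, one_mul]
      exact hB _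
    · rw [norm_neg, norm_mul]
      exact (mul_le_of_le_one_left (norm_nonneg _) (char_norm_le ε _)).trans (hB _)
  have hstep : ∀ n a, r ≤ n + 1 → ¬ (p : ℤ) ∣ a →
      ‖D n a‖ ≤ max (‖(p : K)‖ * ‖D (n + 1) a‖) c := by
    intro n a hn ha
    have h1 : α * D n a = p * D (n + 1) a +
        ∑ k ∈ Finset.range p, (D (n + 1) (a + k * (p : ℤ) ^ (n + 1)) - D (n + 1) a) := by
      have h0 : ∑ k ∈ Finset.range p, (D (n + 1) (a + k * (p : ℤ) ^ (n + 1)) - D (n + 1) a) =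
          ∑ k ∈ Finset.range p, D (n + 1) (a + k * (p : ℤ) ^ (n + 1)) - p * D (n + 1) a := by
        rw [Finset.sum_sub_distrib, Finset.sum_const, Finset.card_range, nsmul_eq_mul]
      rw [h0, ← hrel]
      ring
    have h2 : ‖∑ k ∈ Finset.range p,
        (D (n + 1) (a + k * (p : ℤ) ^ (n + 1)) - D (n + 1) a)‖ ≤ c := by
      refine IsUltrametricDist.norm_sum_le_of_forall_le_of_nonneg hc fun k _ => ?_
      have h3 := orbit_le hp hN hMN' hT hP (n := n + 1 + 1) (by omega) ha (hnd n k a ha)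
        (by
          rw [add_sub_cancel_left]
          exact Dvd.dvd.mul_left (pow_dvd_pow _ hn) _)
      have h4 : D (n + 1) (a + k * (p : ℤ) ^ (n + 1)) - D (n + 1) a =
          α * (S (((a + k * (p : ℤ) ^ (n + 1) : ℤ) : ℚ) / (p : ℚ) ^ (n + 1 + 1)) -
            S (a / (p : ℚ) ^ (n + 1 + 1))) := by
        simp only [hD]
        rw [intg_per hp hT (n + 1) a k]
        ring
      rw [h4, norm_mul, hα1, one_mul]
      exact h3
    have h5 : ‖D n a‖ = ‖α * D n a‖ := by rw [norm_mul, hα1, one_mul]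
    rw [h5, h1]
    refine (IsUltrametricDist.norm_add_le_max _ _).trans (max_le_max ?_ h2)
    rw [norm_mul]
  have hiter : ∀ m n a, r ≤ n + 1 → ¬ (p : ℤ) ∣ a → ‖D n a‖ ≤ max (‖(p : K)‖ ^ m * B) c := by
    intro m
    induction m with
    | zero =>
      intro n a _ _
      rw [pow_zero, one_mul]
      exact (hDB n a).trans (le_max_left _ _)
    | succ m ih =>
      intro n a hn ha
      refine (hstep n a hn ha).trans (max_le ?_ (le_max_right _ _))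
      rcases le_max_iff.mp (ih (n + 1) a (by omega) ha) with h | h
      · refine le_trans ?_ (le_max_left _ _)
        rw [pow_succ', mul_assoc]
        exact mul_le_mul_of_nonneg_left h (norm_nonneg _)
      · refine le_trans ?_ (le_max_right _ _)
        exact (mul_le_of_le_one_left (norm_nonneg _) hpn.le).trans h
  have htop : ∀ n a, r ≤ n + 1 → ¬ (p : ℤ) ∣ a → ‖D n a‖ ≤ c := by
    intro n a hn ha
    have ht : Filter.Tendsto (fun m : ℕ => max (‖(p : K)‖ ^ m * B) c) Filter.atTop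
        (nhds (max (0 * B) c)) :=
      ((tendsto_pow_atTop_nhds_zero_of_lt_one (norm_nonneg _) hpn).mul_const B).max
        tendsto_const_nhds
    have h := ge_of_tendsto' ht fun m => hiter m n a hn ha
    rwa [zero_mul, max_eq_right hc] at h
  have hall : ∀ j n a, r ≤ n + 1 + j → ¬ (p : ℤ) ∣ a → ‖D n a‖ ≤ c := by
    intro j
    induction j with
    | zero => exact fun n a hn ha => htop n a hn ha
    | succ j ih =>
      intro n a hn ha
      have h5 : ‖D n a‖ = ‖α * D n a‖ := by rw [norm_mul, hα1, one_mul]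
      rw [h5, hrel]
      exact IsUltrametricDist.norm_sum_le_of_forall_le_of_nonneg hc fun k _ =>
        ih (n + 1) _ (by omega) (hnd n k a ha)
  exact hall r n a (by omega) ha

end

/-- for `d = 0` (level one) the value at `0` vanishes -/
lemma Fv_sub_eq {K : Type*} [Field K] [CharZero K] {M : ℕ} {ε : DirichletCharacter K M}
    {S : ℚ → K} (hT : TLaw M ε S) {b d : ℤ} (hd : (M : ℤ) ∣ d - 1) :
    Fv S b d - S 0 = S (b / d) - S 0 := by
  by_cases h0 : d = 0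
  · subst h0
    have h1 : (M : ℤ) ∣ 1 := by simpa using hd
    have h2 := hT 0 (-1) 1 0 (by simp) h1 0 1 (Or.inr one_ne_zero)
    rw [char_one ε hd] at h2
    have h3 : S 0 + S 0 = 0 := by simpa [Fv] using h2.symm
    have h4 : S 0 = 0 := by simpa [← two_mul] using h3
    simp [Fv, h4]
  · rw [Fv_of_ne S _ (by exact_mod_cast h0)]

end Pool.Agent.P.MP_20768c_nt
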