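import Pool.Agent.P.MP_20768c_nt.Ser2

open Filter Topology

namespace Pool.Agent.P.MP_20768c_nt

lemma ser2b_per {Q : ℕ} {g : ℕ → ℤ} (hg : ∀ y, g (y + Q) = g y) (k y : ℕ) :
    (fwdDiff 1)^[k] g (y + Q) = (fwdDiff 1)^[k] g y := by
  rw [← fwdDiff_iter_comp_add, show (fun r => g (r + Q)) = g from funext hg]

lemma ser2b_dvd {d : ℤ} {g : ℕ → ℤ} (hg : ∀ y, d ∣ g y) (k y : ℕ) :
    d ∣ (fwdDiff 1)^[k] g y := by
  rw [fwdDiff_iter_eq_sum_shift]
  refine Finset.dvd_sum fun i _ => ?_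
  rw [smul_eq_mul]
  exact (hg _).mul_left _

lemma ser2b_one {p : ℕ} (hp : p.Prime) (n : ℕ) {g : ℕ → ℤ} (hg : ∀ y, g (y + p ^ n) = g y)
    (y : ℕ) : (p : ℤ) ∣ (fwdDiff 1)^[p ^ n] g y := by
  rw [fwdDiff_iter_eq_sum_shift]
  obtain ⟨m, hm⟩ : ∃ m, p ^ n = m + 1 :=
    ⟨p ^ n - 1, by have := Nat.pow_pos (n := n) hp.pos; omega⟩
  rw [Finset.sum_range_succ]
  conv => enter [2, 1, 1]; rw [hm]
  rw [Finset.sum_range_succ', add_assoc]
  refine dvd_add (Finset.dvd_sum fun i hi => ?_) ?_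
  · rw [smul_eq_mul]
    have hi' : i < m := Finset.mem_range.1 hi
    have h1 : p ∣ (p ^ n).choose (i + 1) := hp.dvd_choose_pow (by omega) (by omega)
    have h2 : (p : ℤ) ∣ (((p ^ n).choose (i + 1) : ℕ) : ℤ) := by exact_mod_cast h1
    exact (h2.mul_left _).mul_right _
  · simp only [smul_eq_mul, Nat.sub_zero, Nat.choose_zero_right, Nat.sub_self, Nat.choose_self,
      pow_zero, mul_one, Nat.cast_one, one_mul, add_zero, zero_mul, hg]
    rw [← add_one_mul]
    refine Dvd.dvd.mul_right ?_ _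
    rcases Nat.even_or_odd (p ^ n) with he | ho
    · have h2 : p = 2 := by
        have := (Nat.even_pow.1 he).1
        exact (hp.even_iff).1 this
      rw [he.neg_one_pow, h2]
      norm_num
    · rw [ho.neg_one_pow]
      simp

lemma ser2b_pow {p : ℕ} (hp : p.Prime) (n i : ℕ) : ∀ g : ℕ → ℤ, (∀ y, g (y + p ^ n) = g y) →
    ∀ y, (p : ℤ) ^ i ∣ (fwdDiff 1)^[i * p ^ n] g y := by
  induction i with
  | zero => intro g _ y; simp
  | succ i ih =>
    intro g hg y
    have hp0 : (p : ℤ) ≠ 0 := by exact_mod_cast hp.ne_zero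
    choose h hh using ser2b_one hp n hg
    have hper : ∀ y, h (y + p ^ n) = h y := by
      intro z
      apply mul_left_cancel₀ hp0
      rw [← hh, ← hh, ser2b_per hg]
    have heq : (fwdDiff 1)^[p ^ n] g = (p : ℤ) • h := by
      funext z
      rw [hh, Pi.smul_apply, smul_eq_mul]
    rw [add_one_mul, Function.iterate_add_apply, heq, fwdDiff_iter_const_smul, Pi.smul_apply,
      smul_eq_mul, pow_succ']
    exact mul_dvd_mul_left _ (ih h hper y)

/-- Mahler coefficients of the indicator of a residue class mod `p ^ n` -/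
lemma mahler_ind {p : ℕ} (hp : p.Prime) (n j : ℕ) : ∃ E : ℕ → ℤ,
    (∀ x : ℕ, ∀ X : ℕ, x < X → (if x % p ^ n = j then (1 : ℤ) else 0) =
      ∑ k ∈ Finset.range X, E k * (x.choose k : ℤ)) ∧
    ∀ i k : ℕ, i * p ^ n ≤ k → (p : ℤ) ^ i ∣ E k := by
  set f : ℕ → ℤ := fun x => if x % p ^ n = j then 1 else 0 with hf
  have hper : ∀ y, f (y + p ^ n) = f y := by
    intro y
    simp only [hf, Nat.add_mod_right]
  refine ⟨fun k => (fwdDiff 1)^[k] f 0, fun x X hx => ?_, fun i k hk => ?_⟩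
  · have h1 := shift_eq_sum_fwdDiff_iter 1 f x 0
    simp only [smul_eq_mul, mul_one, zero_add, nsmul_eq_mul] at h1
    have h2 : f x = if x % p ^ n = j then (1 : ℤ) else 0 := rfl
    rw [← h2, h1]
    have h3 : Finset.range (x + 1) ⊆ Finset.range X := Finset.range_subset_range.2 hx
    rw [← Finset.sum_subset h3]
    · exact Finset.sum_congr rfl fun k _ => mul_comm _ _
    · intro k _ hk
      have : x < k := by simpa using hk
      rw [Nat.choose_eq_zero_of_lt this]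
      simp
  · obtain ⟨r, rfl⟩ := Nat.exists_eq_add_of_le' hk
    show (p : ℤ) ^ i ∣ (fwdDiff 1)^[r + i * p ^ n] f 0
    rw [Function.iterate_add_apply]
    exact ser2b_dvd (ser2b_pow hp n i f hper) r 0

variable {K : Type*} [NormedField K] [IsUltrametricDist K] {p : ℕ} {ν : ℕ → ℕ → K}

omit [IsUltrametricDist K] in
lemma compat_iter (hp : p.Prime) (hν : Compat p ν) (n j : ℕ) (hj : j < p ^ n) (i : ℕ) :
    ν n j = ∑ x ∈ Finset.range (p ^ (n + i)), if x % p ^ n = j then ν (n + i) x else 0 := by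
  induction i with
  | zero =>
    rw [add_zero, Finset.sum_eq_single j]
    · rw [if_pos (Nat.mod_eq_of_lt hj)]
    · intro x hx hne
      rw [if_neg]
      rwa [Nat.mod_eq_of_lt (Finset.mem_range.1 hx)]
    · intro h
      exact absurd (Finset.mem_range.2 hj) h
  | succ i ih =>
    rw [ih, ← add_assoc, sum_range_succ_pow]
    refine Finset.sum_congr rfl fun x hx => ?_
    have hmod : ∀ t : ℕ, (x + t * p ^ (n + i)) % p ^ n = x % p ^ n := by
      intro t
      rw [pow_add, mul_comm (p ^ n), ← mul_assoc, Nat.add_mul_mod_self_right]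
    simp only [hmod]
    split_ifs with h
    · exact hν (n + i) x (Finset.mem_range.1 hx)
    · simp

theorem ser_lt (hp : p.Prime) (hpn : ‖(p : K)‖ < 1) (hν : Compat p ν) {B : ℝ}
    (hB : ∀ n j, j < p ^ n → ‖ν n j‖ ≤ B) {c : ℕ → K}
    (hc : ∀ k, Tendsto (Rs p ν k) atTop (𝓝 (c k))) {C : ℝ} (hC : ∀ k, ‖c k‖ < C)
    (n j : ℕ) (hj : j < p ^ n) : ‖ν n j‖ < C := by
  have hC0 : 0 < C := lt_of_le_of_lt (norm_nonneg _) (hC 0)
  have hB0 : 0 ≤ B := le_trans (norm_nonneg _) (hB n j hj)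
  obtain ⟨E, hE1, hE2⟩ := mahler_ind hp n j
  obtain ⟨i, hi⟩ : ∃ i : ℕ, ‖(p : K)‖ ^ i * B < C := by
    have h1 : Tendsto (fun i : ℕ => ‖(p : K)‖ ^ i * B) atTop (𝓝 (0 * B)) :=
      (tendsto_pow_atTop_nhds_zero_of_lt_one (norm_nonneg _) hpn).mul_const B
    rw [zero_mul] at h1
    exact (h1.eventually (gt_mem_nhds hC0)).exists
  have hev : ∀ᶠ m in atTop, ∀ k ∈ Finset.range (i * p ^ n), ‖Rs p ν k m‖ < C := by
    rw [eventually_all_finset]
    intro k _
    exact (hc k).norm.eventually (gt_mem_nhds (hC k))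
  obtain ⟨m, hm, hnm⟩ := (hev.and (eventually_ge_atTop n)).exists
  obtain ⟨r, rfl⟩ := Nat.exists_eq_add_of_le hnm
  have hRs : ∀ k, ‖Rs p ν k (n + r)‖ ≤ B := by
    intro k
    refine IsUltrametricDist.norm_sum_le_of_forall_le_of_nonneg hB0 fun x hx => ?_
    rw [norm_mul]
    calc ‖ν (n + r) x‖ * ‖(x.choose k : K)‖ ≤ B * 1 :=
          mul_le_mul (hB _ _ (Finset.mem_range.1 hx)) (IsUltrametricDist.norm_natCast_le_one K _)
            (norm_nonneg _) hB0
      _ = B := mul_one B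
  have hsum : ν n j = ∑ k ∈ Finset.range (p ^ (n + r)), (E k : K) * Rs p ν k (n + r) := by
    rw [compat_iter hp hν n j hj r]
    simp only [Rs, Finset.mul_sum]
    rw [Finset.sum_comm]
    refine Finset.sum_congr rfl fun x hx => ?_
    have h1 := hE1 x _ (Finset.mem_range.1 hx)
    have h2 : (if x % p ^ n = j then (1 : K) else 0) =
        ∑ k ∈ Finset.range (p ^ (n + r)), (E k : K) * (x.choose k : K) := by
      have := congrArg (Int.cast : ℤ → K) h1
      push_cast at this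
      exact this
    have h3 : (if x % p ^ n = j then ν (n + r) x else 0) =
        ν (n + r) x * (if x % p ^ n = j then (1 : K) else 0) := by
      split_ifs <;> simp
    rw [h3, h2, Finset.mul_sum]
    exact Finset.sum_congr rfl fun k _ => by ring
  have hne : (Finset.range (p ^ (n + r))).Nonempty :=
    ⟨0, Finset.mem_range.2 (Nat.pow_pos hp.pos)⟩
  obtain ⟨k, _, hk⟩ := IsUltrametricDist.exists_norm_finsetSum_le_of_nonempty hne
    (fun k => (E k : K) * Rs p ν k (n + r))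
  rw [hsum]
  refine lt_of_le_of_lt hk ?_
  rw [norm_mul]
  rcases lt_or_ge k (i * p ^ n) with hlt | hge
  · calc ‖(E k : K)‖ * ‖Rs p ν k (n + r)‖ ≤ 1 * ‖Rs p ν k (n + r)‖ :=
          mul_le_mul_of_nonneg_right (IsUltrametricDist.norm_intCast_le_one K _) (norm_nonneg _)
      _ = ‖Rs p ν k (n + r)‖ := one_mul _
      _ < C := hm k (Finset.mem_range.2 hlt)
  · obtain ⟨w, hw⟩ := hE2 i k hge
    have h1 : ‖(E k : K)‖ ≤ ‖(p : K)‖ ^ i := by
      rw [hw]
      push_cast
      rw [norm_mul, norm_pow]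
      calc ‖(p : K)‖ ^ i * ‖(w : K)‖ ≤ ‖(p : K)‖ ^ i * 1 :=
            mul_le_mul_of_nonneg_left (IsUltrametricDist.norm_intCast_le_one K _) (by positivity)
        _ = ‖(p : K)‖ ^ i := mul_one _
    calc ‖(E k : K)‖ * ‖Rs p ν k (n + r)‖ ≤ ‖(p : K)‖ ^ i * B :=
          mul_le_mul h1 (hRs k) (norm_nonneg _) (by positivity)
      _ < C := hi

end Pool.Agent.P.MP_20768c_nt
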