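import Pool.Agent.P.MP_20768c_nt.Ser3

namespace Pool.Agent.P.MP_20768c_nt

variable {p : ℕ} [Fact p.Prime] {μ : ℕ → ℕ → ℂ_[p]}

lemma ser4_two_lt (hp : p.Prime) : 2 < p ^ wd p := by
  unfold wd
  split_ifs with h
  · subst h; norm_num
  · have := hp.two_le
    rw [pow_one]; omega

lemma ser4_neg_one (ψ : DirichletCharacter ℂ_[p] (p ^ wd p)) : ψ (-1) = 1 ∨ ψ (-1) = -1 := by
  have h : ψ (-1) * ψ (-1) = 1 := by rw [← map_mul]; simp
  exact mul_self_eq_one_iff.1 h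

lemma ser4_norm_nat {t : ℕ} (ht : ¬ p ∣ t) : ‖(t : ℂ_[p])‖ = 1 := by
  have hp : p.Prime := Fact.out
  have h1 : (t : ℂ_[p]) = algebraMap ℚ_[p] ℂ_[p] (t : ℚ_[p]) := by simp
  rw [h1, norm_algebraMap']
  exact Padic.norm_natCast_eq_one_iff.2 ((Nat.Prime.coprime_iff_not_dvd hp).2 ht)

open Classical in
lemma ser4_sum {s : ℂ_[p]} (hs : s = 1 ∨ s = -1) {t : ℕ}
    (ht : (p ^ wd p).totient = 2 * t) {a : ZMod (p ^ wd p)} (ha : IsUnit a)
    (b : ZMod (p ^ wd p)) :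
    ∑ ψ : DirichletCharacter ℂ_[p] (p ^ wd p), (if ψ (-1) = s then ψ a⁻¹ * ψ b else 0) =
      (t : ℂ_[p]) * ((if a = b then 1 else 0) + s * (if -a = b then 1 else 0)) := by
  have hp : p.Prime := Fact.out
  have : NeZero (p ^ wd p) := ⟨pow_ne_zero _ hp.ne_zero⟩
  have : NeZero ((Monoid.exponent (ZMod (p ^ wd p))ˣ : ℕ) : ℂ_[p]) :=
    ⟨Nat.cast_ne_zero.2 Monoid.exponent_ne_zero_of_finite⟩
  have h12 : (1 : ℂ_[p]) ≠ -1 := by norm_num
  have key : ∀ ψ : DirichletCharacter ℂ_[p] (p ^ wd p),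
      (if ψ (-1) = s then ψ a⁻¹ * ψ b else 0) =
        2⁻¹ * (ψ a⁻¹ * ψ b) + 2⁻¹ * s * (ψ a⁻¹ * ψ (-b)) := by
    intro ψ
    have hb : ψ (-b) = ψ (-1) * ψ b := by rw [← map_mul]; simp
    rw [hb]
    rcases ser4_neg_one ψ with h | h <;> rcases hs with rfl | rfl
    · rw [if_pos h, h]; ring
    · rw [if_neg (by rw [h]; exact h12), h]; ring
    · rw [if_neg (by rw [h]; exact h12.symm), h]; ring
    · rw [if_pos h, h]; ring
  simp only [key, Finset.sum_add_distrib, ← Finset.mul_sum,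
    DirichletCharacter.sum_char_inv_mul_char_eq ℂ_[p] ha, ht, neg_eq_iff_eq_neg]
  push_cast
  split_ifs <;> ring

lemma exists_char (p : ℕ) [Fact p.Prime] {s : ℂ_[p]} (hs : s = 1 ∨ s = -1) :
    ∃ ψ : DirichletCharacter ℂ_[p] (p ^ wd p), ψ (-1) = s := by
  classical
  have hp : p.Prime := Fact.out
  obtain ⟨t, ht, hpt⟩ := totient_half hp
  by_contra hc
  push Not at hc
  have h := ser4_sum hs ht (a := 1) isUnit_one 1
  have : Fact (2 < p ^ wd p) := ⟨ser4_two_lt hp⟩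
  rw [if_pos rfl, if_neg ZMod.neg_one_ne_one, Finset.sum_eq_zero fun ψ _ => if_neg (hc ψ)] at h
  have h0 : (t : ℂ_[p]) = 0 := by simpa using h.symm
  have h1 : t = 0 := by exact_mod_cast h0
  exact hpt (h1 ▸ dvd_zero p)

open Classical in
/-- orthogonality for the characters of a given sign -/
lemma sum_char_sign {s : ℂ_[p]} (hs : s = 1 ∨ s = -1) {t : ℕ}
    (ht : (p ^ wd p).totient = 2 * t) {a : ZMod (p ^ wd p)} (ha : IsUnit a)
    (b : ZMod (p ^ wd p)) :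
    ∑ ψ : DirichletCharacter ℂ_[p] (p ^ wd p), (if ψ (-1) = s then ψ a⁻¹ * ψ b else 0) =
      (t : ℂ_[p]) * ((if a = b then 1 else 0) + s * (if -a = b then 1 else 0)) :=
  ser4_sum hs ht ha b

open Classical in
lemma ser4_pick (hp : p.Prime) {n j c : ℕ} (hc : c < p ^ (n + wd p)) (hl : IsLog p n c j)
    (f : ℕ → ℂ_[p]) :
    ∑ x ∈ Finset.range (p ^ (n + wd p)), (if IsLog p n x j then
      (if (c : ZMod (p ^ wd p)) = (x : ZMod (p ^ wd p)) then 1 else 0) * f x else 0) = f c := by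
  rw [Finset.sum_eq_single c]
  · rw [if_pos hl, if_pos rfl, one_mul]
  · intro x hx hxc
    split_ifs with h1 h2
    · exfalso
      have h3 := isLog_inj hp hl h1 ((ZMod.natCast_eq_natCast_iff _ _ _).1 h2)
      exact hxc (Nat.ModEq.eq_of_lt_of_lt h3 hc (Finset.mem_range.1 hx)).symm
    · rw [zero_mul]
    · rfl
  · intro h
    exact absurd (Finset.mem_range.2 hc) h

lemma nu_inv {s : ℂ_[p]} (hs : s = 1 ∨ s = -1) {C : ℝ} {n : ℕ}
    (h : ∀ ψ : DirichletCharacter ℂ_[p] (p ^ wd p), ψ (-1) = s → ∀ j, j < p ^ n →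
      ‖nu μ ψ n j‖ < C) {a : ℕ} (ha : a < p ^ (n + wd p)) (hpa : ¬ p ∣ a) :
    ‖μ (n + wd p) a + s * μ (n + wd p) (p ^ (n + wd p) - a)‖ < C := by
  classical
  have hp : p.Prime := Fact.out
  obtain ⟨t, ht, hpt⟩ := totient_half hp
  obtain ⟨j, hj, hl⟩ := isLog_exists hp n hpa
  obtain ⟨ψ₀, hψ₀⟩ := exists_char p hs
  have hC : 0 < C := (norm_nonneg _).trans_lt (h ψ₀ hψ₀ j hj)
  have hu : IsUnit (a : ZMod (p ^ wd p)) :=
    (ZMod.isUnit_iff_coprime _ _).2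
      (Nat.Coprime.pow_right _ ((Nat.Prime.coprime_iff_not_dvd hp).2 hpa).symm)
  have ha0 : 0 < a := Nat.pos_of_ne_zero fun h0 => hpa (h0 ▸ dvd_zero p)
  have hneg : ((p ^ (n + wd p) - a : ℕ) : ZMod (p ^ wd p)) = -(a : ZMod (p ^ wd p)) := by
    rw [Nat.cast_sub ha.le, (ZMod.natCast_eq_zero_iff _ _).2 (pow_dvd_pow p (by omega)), zero_sub]
  have hl' := isLog_neg hp hl ha.le
  have e : ∑ ψ : DirichletCharacter ℂ_[p] (p ^ wd p),
      (if ψ (-1) = s then ψ (a : ZMod (p ^ wd p))⁻¹ * nu μ ψ n j else 0) =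
        (t : ℂ_[p]) * (μ (n + wd p) a + s * μ (n + wd p) (p ^ (n + wd p) - a)) := by
    have e1 : ∀ ψ : DirichletCharacter ℂ_[p] (p ^ wd p),
        (if ψ (-1) = s then ψ (a : ZMod (p ^ wd p))⁻¹ * nu μ ψ n j else 0) =
          ∑ x ∈ Finset.range (p ^ (n + wd p)), if IsLog p n x j then
            (if ψ (-1) = s then ψ (a : ZMod (p ^ wd p))⁻¹ * ψ (x : ZMod (p ^ wd p)) else 0) *
              μ (n + wd p) x else 0 := by
      intro ψ
      unfold nu
      by_cases hψ : ψ (-1) = s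
      · simp only [if_pos hψ, Finset.mul_sum]
        refine Finset.sum_congr rfl fun x _ => ?_
        split_ifs
        · ring
        · rw [mul_zero]
      · simp only [if_neg hψ, zero_mul, ite_self, Finset.sum_const_zero]
    simp only [e1]
    rw [Finset.sum_comm, ← ser4_pick hp ha hl (μ (n + wd p)),
      ← ser4_pick hp (show p ^ (n + wd p) - a < p ^ (n + wd p) by omega) hl' (μ (n + wd p)),
      Finset.mul_sum, ← Finset.sum_add_distrib, Finset.mul_sum]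
    refine Finset.sum_congr rfl fun x _ => ?_
    by_cases hx : IsLog p n x j
    · simp only [if_pos hx]
      rw [← Finset.sum_mul, ser4_sum hs ht hu, hneg]
      ring
    · simp only [if_neg hx, Finset.sum_const_zero, mul_zero, add_zero]
  obtain ⟨ψ, -, hψ⟩ := IsUltrametricDist.exists_norm_finsetSum_le_of_nonempty
    (t := (Finset.univ : Finset (DirichletCharacter ℂ_[p] (p ^ wd p)))) ⟨ψ₀, Finset.mem_univ _⟩
    (fun ψ => if ψ (-1) = s then ψ (a : ZMod (p ^ wd p))⁻¹ * nu μ ψ n j else 0)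
  rw [e, norm_mul, ser4_norm_nat hpt, one_mul] at hψ
  refine hψ.trans_lt ?_
  split_ifs with h1
  · rw [norm_mul]
    exact (mul_le_of_le_one_left (norm_nonneg _) (ψ.norm_le_one _)).trans_lt (h ψ h1 j hj)
  · rwa [norm_zero]

end Pool.Agent.P.MP_20768c_nt
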