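import Pool.Agent.P.MP_20768c_nt.Pos
import Pool.Agent.P.MP_20768c_nt.EngB
import Pool.Agent.P.MP_20768c_nt.Ser4
import Pool.Agent.P.MP_20768c_nt.Ser2b

open Complex UpperHalfPlane Filter Topology CongruenceSubgroup ModularForm
open scoped MatrixGroups

namespace Pool.Agent.P.MP_20768c_nt

lemma norm_p_lt (p : ℕ) [hp : Fact p.Prime] : ‖(p : ℂ_[p])‖ < 1 := by
  have h := PadicComplex.norm_extends' p (p : ℚ_[p])
  have h2 : (((p : ℚ_[p]) : PadicAlgCl p) : ℂ_[p]) = (p : ℂ_[p]) := by simp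
  rw [h2] at h
  rw [h]
  exact Padic.norm_p_lt_one

section abstract
variable {p : ℕ} [hp : Fact p.Prime] {M : ℕ} [NeZero M] {ε : DirichletCharacter ℂ_[p] M}
  {S : ℚ → ℂ_[p]} {A α : ℂ_[p]}

omit [NeZero M] in
lemma mtt_succ (e : ℂ_[p]) (hα0 : α ≠ 0) (n a : ℕ) :
    mtt S e α (n + 1) a = α⁻¹ ^ (n + 2) *
      (α * S (((a : ℤ) : ℚ) / (p : ℚ) ^ (n + 1)) - e * S (((a : ℤ) : ℚ) / (p : ℚ) ^ n)) := by
  simp only [mtt, Nat.add_sub_cancel, Int.cast_natCast]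
  have h := inv_mul_cancel₀ hα0
  linear_combination (-(α⁻¹ ^ (n + 1) * S ((a : ℚ) / (p : ℚ) ^ (n + 1)))) * h

omit [NeZero M] in
lemma mtt_dist (hT : TLaw M ε S) (hH : HLaw p M ε A S)
    (hα : α ^ 2 - A * α + ε (p : ZMod M) * p = 0) (hα0 : α ≠ 0) (n a : ℕ) (hn : 0 < n) :
    mtt S (ε (p : ZMod M)) α n a =
      ∑ t ∈ Finset.range p, mtt S (ε (p : ZMod M)) α (n + 1) (a + t * p ^ n) := by
  obtain ⟨n, rfl⟩ : ∃ m, n = m + 1 := ⟨n - 1, by omega⟩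
  have h := dist_rel hp.out hT hH hα hα0 n (a : ℤ)
  simp only [mtt_succ _ hα0]
  rw [← Finset.mul_sum]
  have h2 : ∀ t : ℕ, (((a + t * p ^ (n + 1) : ℕ) : ℤ) : ℚ) =
      (((a : ℤ) + t * (p : ℤ) ^ (n + 1) : ℤ) : ℚ) := by
    intro t; push_cast; ring
  simp only [h2]
  rw [← h]
  have h3 := inv_mul_cancel₀ hα0
  linear_combination (-(α⁻¹ ^ (n + 2) * (α * S (((a : ℤ) : ℚ) / (p : ℚ) ^ (n + 1)) -
    ε (p : ZMod M) * S (((a : ℤ) : ℚ) / (p : ℚ) ^ n)))) * h3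

lemma mtt_bdd (hT : TLaw M ε S) (hα1 : ‖α‖ = 1) :
    ∃ B : ℝ, 0 ≤ B ∧ ∀ n a, ‖mtt S (ε (p : ZMod M)) α n a‖ ≤ B := by
  obtain ⟨B, hB⟩ := sd_bdd hT
  have hB0 : 0 ≤ B := (norm_nonneg _).trans (hB 0)
  refine ⟨2 * B, by positivity, fun n a => ?_⟩
  unfold mtt
  refine (norm_sub_le _ _).trans ?_
  simp only [norm_mul, norm_pow, norm_inv, hα1, inv_one, one_pow, one_mul, mul_one]
  have h1 := hB ((a : ℚ) / (p : ℚ) ^ n)
  have h2 := hB ((a : ℚ) / (p : ℚ) ^ (n - 1))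
  have h3 := char_norm_le ε (p : ZMod M)
  have h4 : ‖ε (p : ZMod M)‖ * ‖S ((a : ℚ) / (p : ℚ) ^ (n - 1))‖ ≤ 1 * B :=
    mul_le_mul h3 h2 (norm_nonneg _) zero_le_one
  linarith

omit [NeZero M] in
/-- the symmetrised measure is the measure of the symmetrised symbol -/
lemma mtt_symm (hT : TLaw M ε S) (e s : ℂ_[p]) (n a : ℕ) (ha : a ≤ p ^ (n + 1)) :
    mtt S e α (n + 1) a + s * mtt S e α (n + 1) (p ^ (n + 1) - a) =
      mtt (fun r => S r + s * S (-r)) e α (n + 1) a := by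
  have hp0 : (p : ℚ) ≠ 0 := by exact_mod_cast hp.out.ne_zero
  have h1 : S (((p ^ (n + 1) - a : ℕ) : ℚ) / (p : ℚ) ^ (n + 1)) =
      S (-((a : ℚ) / (p : ℚ) ^ (n + 1))) := by
    rw [← hT.per (-((a : ℚ) / (p : ℚ) ^ (n + 1))) 1]
    congr 1
    rw [Nat.cast_sub ha]; push_cast; field_simp; ring
  have h2 : S (((p ^ (n + 1) - a : ℕ) : ℚ) / (p : ℚ) ^ n) = S (-((a : ℚ) / (p : ℚ) ^ n)) := by
    rw [← hT.per (-((a : ℚ) / (p : ℚ) ^ n)) p]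
    congr 1
    rw [Nat.cast_sub ha]; push_cast; field_simp; ring
  simp only [mtt, Nat.add_sub_cancel, h1, h2]
  ring

omit [NeZero M] in
/-- from the balls of level `≥ wd p` with `0 ≤ a < p ^ n` to all balls -/
lemma small_all (hT : TLaw M ε S) (hH : HLaw p M ε A S)
    (hα : α ^ 2 - A * α + ε (p : ZMod M) * p = 0) (hα1 : ‖α‖ = 1) {c : ℝ}
    (h : ∀ n a, a < p ^ (n + wd p) → ¬ p ∣ a → ‖mtt S (ε (p : ZMod M)) α (n + wd p) a‖ < c)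
    (n : ℕ) (a : ℤ) (ha : ¬ (p : ℤ) ∣ a) :
    ‖α * S (a / (p : ℚ) ^ (n + 1)) - ε (p : ZMod M) * S (a / (p : ℚ) ^ n)‖ < c := by
  have hα0 : α ≠ 0 := by rintro rfl; simp at hα1
  have hp0 : (p : ℚ) ≠ 0 := by exact_mod_cast hp.out.ne_zero
  have key : ∀ n : ℕ, wd p ≤ n + 1 → ∀ a : ℤ, ¬ (p : ℤ) ∣ a →
      ‖α * S (a / (p : ℚ) ^ (n + 1)) - ε (p : ZMod M) * S (a / (p : ℚ) ^ n)‖ < c := by
    intro n hn a ha
    have hQ : (0 : ℤ) < (p : ℤ) ^ (n + 1) := by have := hp.out.pos; positivity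
    obtain ⟨b, hb⟩ := Int.eq_ofNat_of_zero_le (Int.emod_nonneg a hQ.ne')
    have hlt : b < p ^ (n + 1) := by
      have := Int.emod_lt_of_pos a hQ
      rw [hb] at this
      exact_mod_cast this
    have hab : a = (b : ℤ) + (p : ℤ) ^ (n + 1) * (a / (p : ℤ) ^ (n + 1)) := by
      rw [← hb]; exact (Int.emod_add_mul_ediv a _).symm
    have hpb : ¬ p ∣ b := by
      intro hd
      apply ha
      rw [hab]
      exact dvd_add (by exact_mod_cast hd) ((dvd_pow_self _ (by omega)).mul_right _)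
    have h3 := h (n + 1 - wd p) b (by rwa [Nat.sub_add_cancel hn]) hpb
    rw [Nat.sub_add_cancel hn, mtt_succ _ hα0] at h3
    simp only [norm_mul, norm_pow, norm_inv, hα1, inv_one, one_pow, one_mul] at h3
    set z := a / (p : ℤ) ^ (n + 1)
    have e1 : S (a / (p : ℚ) ^ (n + 1)) = S (((b : ℤ) : ℚ) / (p : ℚ) ^ (n + 1)) := by
      rw [← hT.per (((b : ℤ) : ℚ) / (p : ℚ) ^ (n + 1)) z]
      congr 1
      rw [hab]; push_cast; field_simp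
    have e2 : S (a / (p : ℚ) ^ n) = S (((b : ℤ) : ℚ) / (p : ℚ) ^ n) := by
      rw [← hT.per (((b : ℤ) : ℚ) / (p : ℚ) ^ n) (p * z)]
      congr 1
      rw [hab]; push_cast; field_simp; ring
    rw [e1, e2]
    exact h3
  by_cases hn : wd p ≤ n + 1
  · exact key n hn a ha
  · have hw : wd p ≤ n + 1 + 1 := by unfold wd; split_ifs <;> omega
    have h1 := dist_rel hp.out hT hH hα hα0 n a
    have h2 := congrArg norm h1
    rw [norm_mul, hα1, one_mul] at h2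
    rw [h2]
    have hne : (Finset.range p).Nonempty := ⟨0, Finset.mem_range.2 hp.out.pos⟩
    obtain ⟨k, -, hk⟩ := IsUltrametricDist.exists_norm_finsetSum_le_of_nonempty hne
      (fun k : ℕ => α * S (((a + k * (p : ℤ) ^ (n + 1) : ℤ) : ℚ) / (p : ℚ) ^ (n + 2)) -
          ε (p : ZMod M) * S (((a + k * (p : ℤ) ^ (n + 1) : ℤ) : ℚ) / (p : ℚ) ^ (n + 1)))
    refine hk.trans_lt (key (n + 1) hw _ ?_)
    intro hd
    exact ha ((dvd_add_left ((dvd_pow_self _ (by omega)).mul_left _)).1 hd)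

theorem abstract_main (hT : TLaw M ε S) (hH : HLaw p M ε A S)
    (hα : α ^ 2 - A * α + ε (p : ZMod M) * p = 0) (hα1 : ‖α‖ = 1) {s : ℂ_[p]}
    (hs : s = 1 ∨ s = -1) :
    ∃ L : DirichletCharacter ℂ_[p] (p ^ wd p) → PowerSeries ℂ_[p],
      (∀ ψ k, Tendsto (riem (mtt S (ε (p : ZMod M)) α) ψ k) atTop
        (𝓝 (PowerSeries.coeff k (L ψ)))) ∧
      ∃ P : ℝ, IsGreatest {x | ∃ b d : ℤ, IsCoprime b d ∧ (M : ℤ) ∣ d - 1 ∧
          x = ‖S (b / d) - S 0 + s * (S (-(b / d)) - S 0)‖} P ∧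
        IsGreatest {x | ∃ ψ k, ψ (-1) = s ∧ x = ‖PowerSeries.coeff k (L ψ)‖} P := by
  have hα0 : α ≠ 0 := by rintro rfl; simp at hα1
  have hpn := norm_p_lt p
  set μ := mtt S (ε (p : ZMod M)) α with hμ
  obtain ⟨B, hB0, hB⟩ := mtt_bdd hT hα1
  have hcomp : ∀ ψ, Compat p (nu μ ψ) := fun ψ =>
    nu_compat (fun n a hn _ => mtt_dist hT hH hα hα0 n a hn) ψ
  have hbd : ∀ ψ n j, j < p ^ n → ‖nu μ ψ n j‖ ≤ B := fun ψ n j _ => nu_bdd hB0 hB ψ n j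
  choose c hc using fun ψ k => ser_conv hpn (hcomp ψ) (hbd ψ) k
  set S' : ℚ → ℂ_[p] := fun r => S r + s * S (-r) with hS'
  have hT' : TLaw M ε S' := hT.symm s
  have hH' : HLaw p M ε A S' := HLaw.symm hp.out.ne_zero s hT hH
  have hper : ∀ b d : ℤ, (M : ℤ) ∣ d - 1 →
      Fv S' b d - S' 0 = S (b / d) - S 0 + s * (S (-(b / d)) - S 0) := by
    intro b d hd
    rw [Fv_sub_eq hT' hd]
    simp only [hS', neg_zero]
    ring
  have hsym : ∀ n a, a < p ^ (n + wd p) →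
      μ (n + wd p) a + s * μ (n + wd p) (p ^ (n + wd p) - a) =
        mtt S' (ε (p : ZMod M)) α (n + wd p) a := by
    intro n a ha
    obtain ⟨m, hm⟩ : ∃ m, n + wd p = m + 1 := ⟨n + wd p - 1, by have := wd_pos p; omega⟩
    rw [hm] at ha ⊢
    exact mtt_symm hT _ s m a ha.le
  obtain ⟨Λ, hΛ, hmem⟩ := sd_fg hT'
  obtain ⟨x0, ⟨b0, d0, hbd0, hd0, rfl⟩, hmax⟩ := fg_max hΛ
    (T := {x | ∃ b d : ℤ, IsCoprime b d ∧ (M : ℤ) ∣ d - 1 ∧ x = Fv S' b d - S' 0})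
    (by
      rintro x ⟨b, d, -, hd, rfl⟩
      rw [Fv_sub_eq hT' hd]
      exact Λ.sub_mem (hmem _) (hmem _))
    ⟨_, 0, 1, isCoprime_one_right, by simp, rfl⟩
  set P := ‖Fv S' b0 d0 - S' 0‖ with hP
  have hP0 : 0 ≤ P := norm_nonneg _
  have hPmax : ∀ b d : ℤ, IsCoprime b d → (M : ℤ) ∣ d - 1 → ‖Fv S' b d - S' 0‖ ≤ P :=
    fun b d h1 h2 => hmax _ ⟨b, d, h1, h2, rfl⟩
  have hup : ∀ ψ k, ψ (-1) = s → ‖c ψ k‖ ≤ P := by
    intro ψ k hψ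
    refine ser_le hP0 (fun n j _ => nu_le hψ hP0 (fun a ha hpa => ?_) j) (hc ψ k)
    rw [hsym n a ha]
    obtain ⟨m, hm⟩ : ∃ m, n + wd p = m + 1 := ⟨n + wd p - 1, by have := wd_pos p; omega⟩
    rw [hm, mtt_succ _ hα0]
    simp only [norm_mul, norm_pow, norm_inv, hα1, inv_one, one_pow, one_mul]
    exact integral_le hp.out hpn hT' hH' hα hα1 hPmax m a (by exact_mod_cast hpa)
  refine ⟨fun ψ => PowerSeries.mk (c ψ), fun ψ k => ?_, P, ⟨⟨b0, d0, hbd0, hd0, ?_⟩, ?_⟩, ?_, ?_⟩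
  · rw [riem_eq, PowerSeries.coeff_mk]; exact hc ψ k
  · rw [hP, hper b0 d0 hd0]
  · rintro x ⟨b, d, h1, h2, rfl⟩
    rw [← hper b d h2]; exact hPmax b d h1 h2
  · by_contra hno
    have hlt : ∀ ψ, ψ (-1) = s → ∀ k, ‖c ψ k‖ < P := by
      intro ψ hψ k
      refine lt_of_le_of_ne (hup ψ k hψ) fun he => hno ⟨ψ, k, hψ, ?_⟩
      rw [PowerSeries.coeff_mk, he]
    obtain ⟨ψ0, hψ0⟩ := exists_char p hs
    have hPpos : 0 < P := (norm_nonneg _).trans_lt (hlt ψ0 hψ0 0)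
    have hsm := small_all hT' hH' hα hα1 (c := P) (fun n a ha hpa => by
      rw [← hsym n a ha]
      exact nu_inv hs (fun ψ hψ j hj =>
        ser_lt hp.out hpn (hcomp ψ) (hbd ψ) (hc ψ) (hlt ψ hψ) n j hj) ha hpa)
    exact lt_irrefl _ (engine hp.out hpn hT' hH' hα hα1 hPpos hsm hbd0 hd0)
  · rintro x ⟨ψ, k, hψ, rfl⟩
    rw [PowerSeries.coeff_mk]; exact hup ψ k hψ

end abstract

theorem main (p : ℕ) [hp : Fact p.Prime] (M : ℕ) [NeZero M] (ε : DirichletCharacter ℂ M)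
    (f : CuspForm (Gamma1 M) 2) (hf : f ≠ 0)
    (hε : ∀ γ ∈ Gamma0 M, ⇑f ∣[(2 : ℤ)] γ = ε ((γ 1 1 : ℤ) : ZMod M) • ⇑f) (a : ℂ)
    (hT : ∀ z : ℍ, (p : ℂ)⁻¹ * ∑ k ∈ Finset.range p, f (ofComplex (((z : ℂ) + k) / p)) +
      ε (p : ZMod M) * p * f (ofComplex (p * (z : ℂ))) = a * f z)
    (ι : ℂ →+* ℂ_[p]) (α : ℂ_[p]) (hα : α ^ 2 - ι a * α + ι (ε (p : ZMod M)) * p = 0)
    (hα1 : ‖α‖ = 1) (s : ℤ) (hs : s = 1 ∨ s = -1) :
    ∃ L : DirichletCharacter ℂ_[p] (p ^ wd p) → PowerSeries ℂ_[p],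
      (∀ ψ k, Tendsto (riem (mtt (fun r => ι (sym f r)) (ι (ε (p : ZMod M))) α) ψ k) atTop
        (𝓝 (PowerSeries.coeff k (L ψ)))) ∧
      ∃ P : ℝ, 0 < P ∧
        IsGreatest {x | ∃ b d : ℤ, IsCoprime b d ∧ (M : ℤ) ∣ d - 1 ∧
          x = ‖ι (sym f (b / d) - sym f 0 + s * (sym f (-(b / d)) - sym f 0))‖} P ∧
        IsGreatest {x | ∃ ψ k, ψ (-1) = (s : ℂ_[p]) ∧ x = ‖PowerSeries.coeff k (L ψ)‖} P := by
  have h1 := (sym_T ε f hε).map ι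
  have h2 := (sym_H hp.out.ne_zero ε f a hT).map ι
  have hs' : (s : ℂ_[p]) = 1 ∨ (s : ℂ_[p]) = -1 := by
    rcases hs with rfl | rfl <;> simp
  have hs'' : (s : ℂ) = 1 ∨ (s : ℂ) = -1 := by
    rcases hs with rfl | rfl <;> simp
  obtain ⟨L, hL, P, hP1, hP2⟩ := abstract_main h1 h2 (α := α) hα hα1 hs'
  have hP1' : IsGreatest {x | ∃ b d : ℤ, IsCoprime b d ∧ (M : ℤ) ∣ d - 1 ∧
      x = ‖ι (sym f (b / d) - sym f 0 + s * (sym f (-(b / d)) - sym f 0))‖} P := by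
    simpa only [map_add, map_sub, map_mul, map_intCast] using hP1
  refine ⟨L, hL, P, ?_, hP1', hP2⟩
  by_contra hle
  refine hf (per_pos ε f hε hs'' fun b d hbd hd => ?_)
  have h3 := (hP1'.2 ⟨b, d, hbd, hd, rfl⟩).trans (not_lt.1 hle)
  exact (map_eq_zero ι).1 (norm_le_zero_iff.1 h3)

end Pool.Agent.P.MP_20768c_nt
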