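import Pool.Agent.P.MP_20768c_nt.SS1

namespace Pool.Agent.P.MP_20768c_nt

section
variable {K : Type*} [NormedField K] [IsUltrametricDist K] {p M : ℕ}
  {ε : DirichletCharacter K M} {S : ℚ → K} {A : K} {c : ℝ}

omit [IsUltrametricDist K] in
/-- the four cusps `∞`, `a / p^n`, `b / (p^n d)`, `(a + p) / p^n` with `d = 1 - p^μ`,
`b = a d + p` -/
lemma par_cycle (hp : p.Prime) (hT : TLaw M ε S) {μ : ℕ} (hμ0 : 0 < μ)
    (hμ : (M : ℤ) ∣ 1 - (p : ℤ) ^ μ) {n : ℕ} (hn : 0 < n) {a : ℤ} (ha : ¬ (p : ℤ) ∣ a) :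
    ∃ x y δ : ℤ, ¬ (p : ℤ) ∣ x ∧ ¬ (p : ℤ) ∣ y ∧
      S (((a + p : ℤ) : ℚ) / (p : ℚ) ^ n) - S (a / (p : ℚ) ^ n) =
        ε (δ : ZMod M) * (S (y / (p : ℚ) ^ (n + 1 + μ)) - S (x / (p : ℚ) ^ (n + 1))) := by
  have hp0 : (p : ℚ) ≠ 0 := by exact_mod_cast hp.ne_zero
  have hq := Nat.prime_iff_prime_int.1 hp
  set d : ℤ := 1 - (p : ℤ) ^ μ with hd
  have hpd : IsCoprime (p : ℤ) d := by
    obtain ⟨m, rfl⟩ : ∃ m, μ = m + 1 := ⟨μ - 1, by omega⟩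
    exact ⟨(p : ℤ) ^ m, 1, by rw [hd]; ring⟩
  have hpa : IsCoprime (p : ℤ) a := hq.irreducible.coprime_iff_not_dvd.2 ha
  have h1 : IsCoprime (a * d + p) (p : ℤ) := by
    have := (hpa.mul_right hpd).symm
    simpa using this.add_mul_left_left 1
  have h2 : IsCoprime (a * d + p) d := by
    have := hpd.add_mul_right_left a
    rwa [add_comm] at this
  obtain ⟨δ, β, h3⟩ := (h1.pow_right (n := n)).mul_right h2
  have hc : (M : ℤ) ∣ (p : ℤ) ^ n * d := hμ.mul_left _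
  have hdet : (a * d + p) * δ - (-β) * ((p : ℤ) ^ n * d) = 1 := by linear_combination h3
  have hδ : ¬ (p : ℤ) ∣ δ := by
    intro h
    apply hq.not_isUnit
    refine isUnit_of_dvd_one ?_
    rw [← h3]
    exact (h.mul_right _).add (((dvd_pow_self _ hn.ne').mul_right _).mul_left _)
  have hpn : (p : ℤ) ∣ β * (p : ℤ) ^ n := (dvd_pow_self _ hn.ne').mul_left _
  have h3q : (δ : ℚ) * (a * (1 - (p : ℚ) ^ μ) + p) + β * ((p : ℚ) ^ n * (1 - (p : ℚ) ^ μ)) = 1 := by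
    rw [hd] at h3; exact_mod_cast h3
  refine ⟨δ * a + β * (p : ℤ) ^ n, δ * (a + p) + β * (p : ℤ) ^ n, δ, ?_, ?_, ?_⟩
  · intro h
    rcases hq.dvd_or_dvd ((dvd_add_left hpn).1 h) with h | h
    · exact hδ h
    · exact ha h
  · intro h
    rcases hq.dvd_or_dvd ((dvd_add_left hpn).1 h) with h | h
    · exact hδ h
    · exact ha ((dvd_add_left dvd_rfl).1 h)
  · have e1 := hT _ _ _ _ hdet hc ((δ * a + β * (p : ℤ) ^ n : ℤ) : ℚ) ((p : ℚ) ^ (n + 1))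
      (Or.inr (pow_ne_zero _ hp0))
    have e2 := hT _ _ _ _ hdet hc ((δ * (a + p) + β * (p : ℤ) ^ n : ℤ) : ℚ) ((p : ℚ) ^ (n + 1 + μ))
      (Or.inr (pow_ne_zero _ hp0))
    have a1 : ((a * d + p : ℤ) : ℚ) * ((δ * a + β * (p : ℤ) ^ n : ℤ) : ℚ) +
        ((-β : ℤ) : ℚ) * (p : ℚ) ^ (n + 1) = a := by
      rw [hd]; push_cast; linear_combination (a : ℚ) * h3q
    have a2 : (((p : ℤ) ^ n * d : ℤ) : ℚ) * ((δ * a + β * (p : ℤ) ^ n : ℤ) : ℚ) +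
        (δ : ℚ) * (p : ℚ) ^ (n + 1) = (p : ℚ) ^ n := by
      rw [hd]; push_cast; linear_combination (p : ℚ) ^ n * h3q
    have b1 : ((a * d + p : ℤ) : ℚ) * ((δ * (a + p) + β * (p : ℤ) ^ n : ℤ) : ℚ) +
        ((-β : ℤ) : ℚ) * (p : ℚ) ^ (n + 1 + μ) = ((a + p : ℤ) : ℚ) := by
      rw [hd]; push_cast; linear_combination ((a : ℚ) + p) * h3q
    have b2 : (((p : ℤ) ^ n * d : ℤ) : ℚ) * ((δ * (a + p) + β * (p : ℤ) ^ n : ℤ) : ℚ) +
        (δ : ℚ) * (p : ℚ) ^ (n + 1 + μ) = (p : ℚ) ^ n := by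
      rw [hd]; push_cast; linear_combination (p : ℚ) ^ n * h3q
    rw [a1, a2, Fv_of_ne S _ (pow_ne_zero _ hp0), Fv_of_ne S _ (pow_ne_zero (n + 1) hp0)] at e1
    rw [b1, b2, Fv_of_ne S _ (pow_ne_zero _ hp0), Fv_of_ne S _ (pow_ne_zero (n + 1 + μ) hp0)] at e2
    rw [e1, e2]; ring

/-- smallness at the levels `n + 1` and `n + 1 + μ` makes level `n` constant on classes mod `p` -/
lemma par_flat (hp : p.Prime) (hT : TLaw M ε S) {μ : ℕ} (hμ0 : 0 < μ)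
    (hμ : (M : ℤ) ∣ 1 - (p : ℤ) ^ μ) {n : ℕ} (hn : 0 < n)
    (h1 : ∀ a : ℤ, ¬ (p : ℤ) ∣ a → ‖S (a / (p : ℚ) ^ (n + 1))‖ < c)
    (h2 : ∀ a : ℤ, ¬ (p : ℤ) ∣ a → ‖S (a / (p : ℚ) ^ (n + 1 + μ))‖ < c)
    {a : ℤ} (ha : ¬ (p : ℤ) ∣ a) (t : ℕ) :
    ‖S (((a + t * p : ℤ) : ℚ) / (p : ℚ) ^ n) - S (a / (p : ℚ) ^ n)‖ < c := by
  induction t with
  | zero => simpa using (norm_nonneg _).trans_lt (h1 a ha)
  | succ t ih =>
    have ha' : ¬ (p : ℤ) ∣ a + t * p := fun h => ha ((dvd_add_left (dvd_mul_left _ _)).1 h)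
    obtain ⟨x, y, δ, hx, hy, he⟩ := par_cycle hp hT hμ0 hμ hn ha'
    have h3 : ‖S (((a + t * p + p : ℤ) : ℚ) / (p : ℚ) ^ n) -
        S (((a + t * p : ℤ) : ℚ) / (p : ℚ) ^ n)‖ < c := by
      rw [he, norm_mul]
      exact (mul_le_of_le_one_left (norm_nonneg _) (char_norm_le ε _)).trans_lt
        (ss_sub_lt (h2 y hy) (h1 x hx))
    have h4 := ss_add_lt h3 ih
    rw [sub_add_sub_cancel] at h4
    have e : (a + ((t + 1 : ℕ) : ℤ) * p : ℤ) = a + t * p + p := by push_cast; ring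
    rwa [e]

/-- smallness at all large levels of one parity gives smallness at all large levels -/
theorem par_fill [NeZero M] (hp : p.Prime) (hpn : ‖(p : K)‖ < 1) (hM : ¬ p ∣ M) (hT : TLaw M ε S)
    (hH : HLaw p M ε A S) (hA : ‖A‖ ≤ 1)
    (hint : ∀ (n : ℕ) (a : ℤ), ¬ (p : ℤ) ∣ a → ‖S (a / (p : ℚ) ^ n)‖ ≤ c) (n0 : ℕ)
    (hs : ∀ m : ℕ, ∀ a : ℤ, ¬ (p : ℤ) ∣ a → ‖S (a / (p : ℚ) ^ (n0 + 2 * m))‖ < c)
    (n : ℕ) (hn : n0 ≤ n) (a : ℤ) (ha : ¬ (p : ℤ) ∣ a) : ‖S (a / (p : ℚ) ^ n)‖ < c := by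
  obtain ⟨k, rfl⟩ := Nat.exists_eq_add_of_le hn
  obtain ⟨m, rfl | rfl⟩ := Nat.even_or_odd' k
  · exact hs m a ha
  have hc : 0 < c := (norm_nonneg _).trans_lt (hs 0 a ha)
  have hφ : 0 < M.totient := Nat.totient_pos.2 (Nat.pos_of_ne_zero (NeZero.ne M))
  have hμ : (M : ℤ) ∣ 1 - (p : ℤ) ^ (2 * M.totient) := by
    have h1 : p ^ M.totient ≡ 1 [MOD M] :=
      Nat.ModEq.pow_totient ((Nat.Prime.coprime_iff_not_dvd hp).2 hM)
    have h2 : (M : ℤ) ∣ 1 - (p : ℤ) ^ M.totient := by exact_mod_cast h1.dvd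
    have h3 : 1 - (p : ℤ) ^ (2 * M.totient) =
        (1 - (p : ℤ) ^ M.totient) * (1 + (p : ℤ) ^ M.totient) := by ring
    rw [h3]; exact h2.mul_right _
  set n := n0 + (2 * m + 1) with hnn
  have h := congrArg norm (ss_three hp hH n a)
  rw [norm_mul, ss_eps hp hM, one_mul] at h
  rw [h]
  refine ss_sub_lt ?_ ?_
  · rw [norm_mul]
    refine (mul_le_of_le_one_left (norm_nonneg _) hA).trans_lt ?_
    rw [show n + 1 = n0 + 2 * (m + 1) by omega]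
    exact hs _ a ha
  · have hsum : ∑ k ∈ Finset.range p,
        S (((a + k * (p : ℤ) ^ (n + 1) : ℤ) : ℚ) / (p : ℚ) ^ (n + 2)) =
        (p : K) * S (a / (p : ℚ) ^ (n + 2)) + ∑ k ∈ Finset.range p,
          (S (((a + k * (p : ℤ) ^ (n + 1) : ℤ) : ℚ) / (p : ℚ) ^ (n + 2)) -
            S (a / (p : ℚ) ^ (n + 2))) := by
      rw [Finset.sum_sub_distrib]; simp
    rw [hsum]
    refine ss_add_lt ?_ ?_
    · rw [norm_mul]
      exact (mul_le_mul_of_nonneg_left (hint _ a ha) (norm_nonneg _)).trans_lt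
        (mul_lt_of_lt_one_left hc hpn)
    · have hne : (Finset.range p).Nonempty := ⟨0, Finset.mem_range.2 hp.pos⟩
      obtain ⟨k, -, hk⟩ := IsUltrametricDist.exists_norm_finsetSum_le_of_nonempty hne
        (fun k : ℕ => S (((a + k * (p : ℤ) ^ (n + 1) : ℤ) : ℚ) / (p : ℚ) ^ (n + 2)) -
          S (a / (p : ℚ) ^ (n + 2)))
      refine hk.trans_lt ?_
      have h5 := par_flat (c := c) hp hT (μ := 2 * M.totient) (by omega) hμ (n := n + 2)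
        (by omega) (by rw [show n + 2 + 1 = n0 + 2 * (m + 2) by omega]; exact hs _)
        (by rw [show n + 2 + 1 + 2 * M.totient = n0 + 2 * (m + 2 + M.totient) by omega]
            exact hs _) ha (k * p ^ n)
      have e : (a + ((k * p ^ n : ℕ) : ℤ) * p : ℤ) = a + k * (p : ℤ) ^ (n + 1) := by
        push_cast; ring
      rwa [e] at h5

end

end Pool.Agent.P.MP_20768c_nt
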