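import Pool.Agent.P.MP_20768c_nt.SS
import Pool.Agent.P.MP_20768c_nt.Par1

open Complex UpperHalfPlane Filter Topology CongruenceSubgroup ModularForm
open scoped MatrixGroups

namespace Pool.Agent.P.MP_20768c_nt

section abstract
variable {p : ℕ} [hp : Fact p.Prime] {M : ℕ} {ε : DirichletCharacter ℂ_[p] M}
  {S : ℚ → ℂ_[p]} {A : ℂ_[p]}

theorem abstract_par [NeZero M] (hM : ¬ p ∣ M) (hT : TLaw M ε S) (hH : HLaw p M ε A S)
    (hA : ‖A‖ < 1) {s : ℂ_[p]} (hs : s = 1 ∨ s = -1) :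
    ∃ P : ℝ, IsGreatest {x | ∃ b d : ℤ, IsCoprime b d ∧ (M : ℤ) ∣ d - 1 ∧
        x = ‖S (b / d) - S 0 + s * (S (-(b / d)) - S 0)‖} P ∧
      (∀ ψ n j, ψ (-1) = s → ‖theta S ψ n j‖ ≤ P) ∧
      ∀ e, e < 2 → ∃ ψ n0, ψ (-1) = s ∧ ∀ n, n0 ≤ n → n % 2 = e →
        ∃ j, j < p ^ n ∧ ‖theta S ψ n j‖ = P := by
  have hpn := norm_p_lt p
  have hp0 : (p : ℚ) ≠ 0 := by exact_mod_cast hp.out.ne_zero
  set S' : ℚ → ℂ_[p] := fun r => S r + s * S (-r) with hS'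
  have hT' : TLaw M ε S' := hT.symm s
  have hH' : HLaw p M ε A S' := HLaw.symm hp.out.ne_zero s hT hH
  have hper : ∀ b d : ℤ, (M : ℤ) ∣ d - 1 →
      Fv S' b d - S' 0 = S (b / d) - S 0 + s * (S (-(b / d)) - S 0) := by
    intro b d hd
    rw [Fv_sub_eq hT' hd]
    simp only [hS', neg_zero]
    ring
  have hsym : ∀ n a : ℕ, a < p ^ n →
      S ((a : ℚ) / (p : ℚ) ^ n) + s * S (((p ^ n - a : ℕ) : ℚ) / (p : ℚ) ^ n) =
        S' (((a : ℤ) : ℚ) / (p : ℚ) ^ n) := by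
    intro n a ha
    have h1 : S (((p ^ n - a : ℕ) : ℚ) / (p : ℚ) ^ n) = S (-((a : ℚ) / (p : ℚ) ^ n)) := by
      rw [← hT.per (-((a : ℚ) / (p : ℚ) ^ n)) 1]
      congr 1
      rw [Nat.cast_sub ha.le]; push_cast; field_simp; ring
    simp only [hS', h1, Int.cast_natCast]
  obtain ⟨Λ, hΛ, hmem⟩ := sd_fg hT'
  obtain ⟨x0, ⟨b0, d0, hbd0, hd0, rfl⟩, hmax⟩ := fg_max hΛ
    (T := {x | ∃ b d : ℤ, IsCoprime b d ∧ (M : ℤ) ∣ d - 1 ∧ x = Fv S' b d - S' 0})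
    (by
      rintro x ⟨b, d, -, hd, rfl⟩
      rw [Fv_sub_eq hT' hd]
      exact Λ.sub_mem (hmem _) (hmem _))
    ⟨_, 0, 1, isCoprime_one_right, by simp, rfl⟩
  set P := ‖Fv S' b0 d0 - S' 0‖ with hP
  have hP0 : 0 ≤ P := norm_nonneg _
  have hPmax : ∀ b d : ℤ, IsCoprime b d → (M : ℤ) ∣ d - 1 → ‖Fv S' b d - S' 0‖ ≤ P :=
    fun b d h1 h2 => hmax _ ⟨b, d, h1, h2, rfl⟩
  have hup : ∀ ψ n j, ψ (-1) = s → ‖theta S ψ n j‖ ≤ P := by
    intro ψ n j hψ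
    rw [theta_eq]
    refine nu_le hψ hP0 (fun a ha hpa => ?_) j
    rw [hsym _ a ha]
    exact ss_int hp.out hpn hM hT' hH' hA hPmax _ a (by exact_mod_cast hpa)
  have hex : ∀ e : ℕ, ∃ ψ m j, ψ (-1) = s ∧ j < p ^ (e + 2 * m) ∧
      ‖theta S ψ (e + 2 * m) j‖ = P := by
    intro e
    by_contra hno
    have hlt : ∀ ψ m j, ψ (-1) = s → j < p ^ (e + 2 * m) → ‖theta S ψ (e + 2 * m) j‖ < P :=
      fun ψ m j h1 h2 => lt_of_le_of_ne (hup ψ _ j h1) fun he => hno ⟨ψ, m, j, h1, h2, he⟩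
    refine lt_irrefl _ (engSS hp.out hpn hM hT' hH' hA.le (e + wd p) (c := P) ?_ hbd0 hd0)
    refine par_fill hp.out hpn hM hT' hH' hA.le
      (ss_int hp.out hpn hM hT' hH' hA hPmax) (e + wd p) ?_
    intro m a ha
    obtain ⟨n, hnd⟩ : ∃ n, n = e + wd p + 2 * m := ⟨_, rfl⟩
    rw [← hnd]
    have hn : wd p ≤ n := by omega
    have hn2 : n - wd p = e + 2 * m := by omega
    have hQ : (0 : ℤ) < (p : ℤ) ^ n := by have := hp.out.pos; positivity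
    obtain ⟨b, hb⟩ := Int.eq_ofNat_of_zero_le (Int.emod_nonneg a hQ.ne')
    have hlt' : b < p ^ n := by
      have := Int.emod_lt_of_pos a hQ
      rw [hb] at this
      exact_mod_cast this
    have hab : a = (b : ℤ) + (p : ℤ) ^ n * (a / (p : ℤ) ^ n) := by
      rw [← hb]; exact (Int.emod_add_mul_ediv a _).symm
    have hpb : ¬ p ∣ b := by
      intro hd
      apply ha
      rw [hab]
      have := wd_pos p
      exact dvd_add (by exact_mod_cast hd) ((dvd_pow_self _ (by omega)).mul_right _)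
    have h3 := nu_inv (μ := fun n a => S ((a : ℚ) / (p : ℚ) ^ n)) hs (C := P) (n := n - wd p)
      (fun ψ hψ j hj => by rw [hn2] at hj ⊢; exact hlt ψ m j hψ hj) (a := b) (by rwa [Nat.sub_add_cancel hn]) hpb
    rw [Nat.sub_add_cancel hn, hsym n b hlt'] at h3
    set z := a / (p : ℤ) ^ n
    have e1 : S' (a / (p : ℚ) ^ n) = S' (((b : ℤ) : ℚ) / (p : ℚ) ^ n) := by
      rw [← hT'.per (((b : ℤ) : ℚ) / (p : ℚ) ^ n) z]
      congr 1
      rw [hab]; push_cast; field_simp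
    rwa [e1]
  have hstep : ∀ ψ n j, ψ (-1) = s → j < p ^ n → ‖theta S ψ n j‖ = P →
      ∃ j', j' < p ^ (n + 2) ∧ ‖theta S ψ (n + 2) j'‖ = P := by
    intro ψ n j hψ hj he
    by_contra hno
    have hjt : ∀ t, t < p → j + t * p ^ (n + 1) < p ^ (n + 2) := by
      intro t ht
      have h1 : j < p ^ (n + 1) := hj.trans (Nat.pow_lt_pow_right hp.out.one_lt (by omega))
      calc j + t * p ^ (n + 1) < p ^ (n + 1) + t * p ^ (n + 1) := by omega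
        _ = (t + 1) * p ^ (n + 1) := by ring
        _ ≤ p * p ^ (n + 1) := Nat.mul_le_mul_right _ ht
        _ = p ^ (n + 2) := by ring
    have hlt : ∀ t, t < p → ‖theta S ψ (n + 2) (j + t * p ^ (n + 1))‖ < P := fun t ht =>
      lt_of_le_of_ne (hup ψ _ _ hψ) fun h => hno ⟨_, hjt t ht, h⟩
    have hPpos : 0 < P := (norm_nonneg _).trans_lt (hlt 0 hp.out.pos)
    have h := congrArg norm (theta_three hT hH ψ hj)
    rw [norm_mul, ss_eps hp.out hM, one_mul, he] at h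
    refine lt_irrefl P (h.trans_lt (ss_sub_lt ?_ ?_))
    · rw [norm_mul]
      exact (mul_le_mul_of_nonneg_left (hup ψ _ _ hψ) (norm_nonneg _)).trans_lt
        (mul_lt_of_lt_one_left hPpos hA)
    · have hne : (Finset.range p).Nonempty := ⟨0, Finset.mem_range.2 hp.out.pos⟩
      obtain ⟨t, ht, hk⟩ := IsUltrametricDist.exists_norm_finsetSum_le_of_nonempty hne
        (fun t : ℕ => theta S ψ (n + 2) (j + t * p ^ (n + 1)))
      exact hk.trans_lt (hlt t (Finset.mem_range.1 ht))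
  refine ⟨P, ⟨⟨b0, d0, hbd0, hd0, by rw [hP, hper b0 d0 hd0]⟩, ?_⟩, hup, fun e he => ?_⟩
  · rintro x ⟨b, d, h1, h2, rfl⟩
    rw [← hper b d h2]; exact hPmax b d h1 h2
  · obtain ⟨ψ, m0, j0, hψ, hj0, he0⟩ := hex e
    have hall : ∀ m, ∃ j, j < p ^ (e + 2 * m0 + 2 * m) ∧
        ‖theta S ψ (e + 2 * m0 + 2 * m) j‖ = P := by
      intro m
      induction m with
      | zero => exact ⟨j0, hj0, he0⟩
      | succ m ih =>
        obtain ⟨j, hj, he⟩ := ih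
        exact hstep ψ _ j hψ hj he
    refine ⟨ψ, e + 2 * m0, hψ, fun n hn hne => ?_⟩
    obtain ⟨m, rfl⟩ : ∃ m, n = e + 2 * m0 + 2 * m := ⟨(n - (e + 2 * m0)) / 2, by omega⟩
    exact hall m

end abstract

theorem main_par (p : ℕ) [hp : Fact p.Prime] (M : ℕ) [NeZero M] (hM : ¬ p ∣ M)
    (ε : DirichletCharacter ℂ M) (f : CuspForm (Gamma1 M) 2) (hf : f ≠ 0)
    (hε : ∀ γ ∈ Gamma0 M, ⇑f ∣[(2 : ℤ)] γ = ε ((γ 1 1 : ℤ) : ZMod M) • ⇑f) (a : ℂ)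
    (hT : ∀ z : ℍ, (p : ℂ)⁻¹ * ∑ k ∈ Finset.range p, f (ofComplex (((z : ℂ) + k) / p)) +
      ε (p : ZMod M) * p * f (ofComplex (p * (z : ℂ))) = a * f z)
    (ι : ℂ →+* ℂ_[p]) (ha : ‖ι a‖ < 1) (s : ℤ) (hs : s = 1 ∨ s = -1) :
    ∃ P : ℝ, 0 < P ∧
      IsGreatest {x | ∃ b d : ℤ, IsCoprime b d ∧ (M : ℤ) ∣ d - 1 ∧
        x = ‖ι (sym f (b / d) - sym f 0 + s * (sym f (-(b / d)) - sym f 0))‖} P ∧
      (∀ ψ n j, ψ (-1) = (s : ℂ_[p]) → ‖theta (fun r => ι (sym f r)) ψ n j‖ ≤ P) ∧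
      ∀ e, e < 2 → ∃ ψ n0, ψ (-1) = (s : ℂ_[p]) ∧ ∀ n, n0 ≤ n → n % 2 = e →
        ∃ j, j < p ^ n ∧ ‖theta (fun r => ι (sym f r)) ψ n j‖ = P := by
  have h1 := (sym_T ε f hε).map ι
  have h2 := (sym_H hp.out.ne_zero ε f a hT).map ι
  have hs' : (s : ℂ_[p]) = 1 ∨ (s : ℂ_[p]) = -1 := by
    rcases hs with rfl | rfl <;> simp
  have hs'' : (s : ℂ) = 1 ∨ (s : ℂ) = -1 := by
    rcases hs with rfl | rfl <;> simp
  obtain ⟨P, hP1, hP2⟩ := abstract_par hM h1 h2 ha hs'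
  have hP1' : IsGreatest {x | ∃ b d : ℤ, IsCoprime b d ∧ (M : ℤ) ∣ d - 1 ∧
      x = ‖ι (sym f (b / d) - sym f 0 + s * (sym f (-(b / d)) - sym f 0))‖} P := by
    simpa only [map_add, map_sub, map_mul, map_intCast] using hP1
  refine ⟨P, ?_, hP1', hP2⟩
  by_contra hle
  refine hf (per_pos ε f hε hs'' fun b d hbd hd => ?_)
  have h3 := (hP1'.2 ⟨b, d, hbd, hd, rfl⟩).trans (not_lt.1 hle)
  exact (map_eq_zero ι).1 (norm_le_zero_iff.1 h3)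

end Pool.Agent.P.MP_20768c_nt
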