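import Pool.Agent.P.MP_20768c_nt.An4
import Pool.Agent.P.MP_20768c_nt.An5
import Pool.Agent.P.MP_20768c_nt.Intg

open Complex UpperHalfPlane Filter Topology CongruenceSubgroup ModularForm Asymptotics
open scoped MatrixGroups

namespace Pool.Agent.P.MP_20768c_nt

variable {M : ℕ} [NeZero M]

/-- maximum principle on the compactified modular curve -/
lemma pos_max {F : ℂ → ℂ} {g : ℍ → ℂ} (hd : ∀ z : ℍ, HasDerivAt F (g z) z)
    (hinv : ∀ γ ∈ Gamma1 M, ∀ z : ℍ, ‖F ((γ • z : ℍ) : ℂ)‖ = ‖F z‖)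
    (hper : ∀ (σ : SL(2, ℤ)) (z : ℍ), F ((σ • ((M : ℝ) +ᵥ z) : ℍ) : ℂ) = F ((σ • z : ℍ) : ℂ))
    (hbd : ∀ σ : SL(2, ℤ), IsBoundedAtImInfty fun z : ℍ => F ((σ • z : ℍ) : ℂ)) :
    ∃ C : ℂ, ∀ z : ℍ, F z = C := by
  have hM : (0 : ℝ) < M := by exact_mod_cast Nat.pos_of_ne_zero (NeZero.ne M)
  let H : SL(2, ℤ) → ℍ → ℂ := fun σ z => F ((σ • z : ℍ) : ℂ)
  have hp : ∀ σ, Function.Periodic (H σ ∘ ofComplex) (M : ℝ) := by
    intro σ w
    by_cases hw : 0 < w.im
    · have hw' : 0 < (w + (M : ℝ)).im := by simpa using hw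
      have : ofComplex (w + (M : ℝ)) = (M : ℝ) +ᵥ ofComplex w := by
        ext
        rw [ofComplex_apply_of_im_pos hw', ofComplex_apply_of_im_pos hw]
        simp [add_comm]
      simp only [Function.comp, H, this, hper]
    · have hw' : (w + (M : ℝ)).im ≤ 0 := by simpa using hw
      simp only [Function.comp, ofComplex_apply_eq_of_im_nonpos hw' (not_lt.1 hw)]
  have hh : ∀ σ, DifferentiableOn ℂ (cuspFunction M (H σ)) (Metric.ball 0 1) := by
    intro σ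
    refine differentiableOn_cuspFunction_ball hM (hp σ) ?_ (hbd σ)
    rw [UpperHalfPlane.mdifferentiable_iff]
    intro w hw
    exact (prim_comp hd σ ⟨w, hw⟩).differentiableAt.differentiableWithinAt
  set r : ℝ := Real.exp (-Real.pi / M) with hr
  have hr0 : 0 ≤ r := (Real.exp_pos _).le
  have hr1 : r < 1 := by
    rw [hr, Real.exp_lt_one_iff]
    exact div_neg_of_neg_of_pos (by simpa using Real.pi_pos) hM
  have hmax : ∀ σ, ∃ q ∈ Metric.closedBall (0 : ℂ) r,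
      IsMaxOn (fun q => ‖cuspFunction M (H σ) q‖) (Metric.closedBall 0 r) q := fun σ =>
    (isCompact_closedBall (0 : ℂ) r).exists_isMaxOn (Metric.nonempty_closedBall.2 hr0)
      ((hh σ).continuousOn.mono (Metric.closedBall_subset_ball hr1)).norm
  choose q hq hq' using hmax
  obtain ⟨x0, hx0⟩ := Finite.exists_max fun x : SL(2, ℤ) ⧸ Gamma1 M =>
    ‖cuspFunction M (H x.out⁻¹) (q x.out⁻¹)‖
  have key : ∀ τ : ℍ, ‖F τ‖ ≤ ‖cuspFunction M (H x0.out⁻¹) (q x0.out⁻¹)‖ := by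
    intro τ
    obtain ⟨γ, hγ⟩ := ModularGroup.exists_one_half_le_im_smul τ
    obtain ⟨δ, hδ⟩ := QuotientGroup.mk_out_eq_mul (Gamma1 M) γ
    refine le_trans ?_ (hx0 (QuotientGroup.mk γ))
    have h1 : Function.Periodic.qParam M ((γ • τ : ℍ) : ℂ) ∈ Metric.closedBall (0 : ℂ) r := by
      rw [mem_closedBall_zero_iff, Function.Periodic.norm_qParam, hr, Real.exp_le_exp]
      apply div_le_div_of_nonneg_right _ hM.le
      have : (1 : ℝ) / 2 ≤ ((γ • τ : ℍ) : ℂ).im := hγ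
      nlinarith [Real.pi_pos]
    refine le_trans (le_of_eq ?_) (hq' _ h1)
    simp only
    rw [UpperHalfPlane.eq_cuspFunction _ hM.ne' (hp _), hδ]
    simp only [H, mul_inv_rev, mul_smul, inv_smul_smul]
    exact (hinv _ (inv_mem δ.2) τ).symm
  have hc := eq_const_of_exists_le (hh x0.out⁻¹) hr0 hr1 (fun w hw => by
    rcases eq_or_ne w 0 with rfl | hw0
    · exact ⟨0, Metric.mem_closedBall_self hr0, le_rfl⟩
    · refine ⟨_, hq x0.out⁻¹, ?_⟩
      have h2 := UpperHalfPlane.eq_cuspFunction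
        ⟨_, Function.Periodic.im_invQParam_pos_of_norm_lt_one hM (mem_ball_zero_iff.mp hw) hw0⟩
        hM.ne' (hp x0.out⁻¹)
      simp only [Function.Periodic.qParam_right_inv hM.ne' hw0] at h2
      rw [h2]
      exact key _)
  refine ⟨cuspFunction M (H x0.out⁻¹) 0, fun z => ?_⟩
  have h3 := hc (mem_ball_zero_iff.2
    (Function.Periodic.norm_qParam_lt_one hM (x0.out • z).im_pos))
  rw [UpperHalfPlane.eq_cuspFunction _ hM.ne' (hp _)] at h3
  simpa [H] using h3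

/-- a holomorphic function with imaginary periods and limits at the cusps is constant -/
lemma pos_zero {G : ℂ → ℂ} {g : ℍ → ℂ} (hd : ∀ z : ℍ, HasDerivAt G (g z) z)
    (hinv : ∀ γ ∈ Gamma1 M, ∃ c : ℂ, c.re = 0 ∧ ∀ z : ℍ, G ((γ • z : ℍ) : ℂ) = c + G z)
    (hlim : ∀ σ : SL(2, ℤ), ∃ κ : ℂ,
      Tendsto (fun z : ℍ => G ((σ • z : ℍ) : ℂ)) atImInfty (𝓝 κ)) (z : ℍ) : g z = 0 := by
  have hd' : ∀ z : ℍ, HasDerivAt (fun w => cexp (G w)) (cexp (G z) * g z) z := fun z =>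
    (hd z).cexp
  obtain ⟨C, hC⟩ := pos_max (M := M) hd' (fun γ hγ z => by
      obtain ⟨c, h0, hc⟩ := hinv γ hγ
      simp only [hc, norm_exp, add_re, h0, zero_add]) (fun σ z => by
      have hm : σ * ModularGroup.T ^ (M : ℤ) * σ⁻¹ ∈ Gamma1 M := by
        have h1 : ModularGroup.T ^ (M : ℤ) ∈ CongruenceSubgroup.Gamma M := by
          simpa using ModularGroup_T_pow_mem_Gamma M M dvd_rfl
        have h2 := (Gamma_normal M).conj_mem _ h1 σ
        rw [Gamma_mem] at h2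
        exact (Gamma1_mem _ _).2 ⟨h2.1, h2.2.2.2, h2.2.2.1⟩
      obtain ⟨c, -, hc⟩ := hinv _ hm
      obtain ⟨κ, hκ⟩ := hlim σ
      have h3 : ∀ z : ℍ, G ((σ • ((M : ℝ) +ᵥ z) : ℍ) : ℂ) = c + G ((σ • z : ℍ) : ℂ) := by
        intro z
        have := hc (σ • z)
        rw [mul_smul, mul_smul, inv_smul_smul, UpperHalfPlane.modular_T_zpow_smul] at this
        simpa using this
      have h4 : Tendsto (fun z : ℍ => (M : ℝ) +ᵥ z) atImInfty atImInfty := by
        simp only [atImInfty, tendsto_comap_iff, Function.comp_def, vadd_im]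
        exact tendsto_comap
      have h5 := tendsto_nhds_unique (hκ.comp h4) ((hκ.const_add c).congr fun z => (h3 z).symm)
      have h6 : c = 0 := by linear_combination -h5
      simp only [h3, h6, zero_add]) (fun σ => by
      obtain ⟨κ, hκ⟩ := hlim σ
      exact hκ.cexp.isBigO_one ℝ)
  have h1 : (fun w => cexp (G w)) =ᶠ[𝓝 (z : ℂ)] fun _ => C := by
    filter_upwards [(isOpen_lt continuous_const Complex.continuous_im).mem_nhds z.im_pos] with w hw
    exact hC ⟨w, hw⟩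
  have h2 := ((hd' z).congr_of_eventuallyEq h1.symm).unique (hasDerivAt_const (z : ℂ) C)
  exact (mul_eq_zero.1 h2).resolve_left (exp_ne_zero _)

/-- the reflection in the imaginary axis -/
def posJ (z : ℍ) : ℍ := ⟨-(starRingEnd ℂ) z, by simpa using z.im_pos⟩

/-- conjugation by the reflection -/
def posC (σ : SL(2, ℤ)) : SL(2, ℤ) :=
  ⟨!![σ 0 0, -σ 0 1; -σ 1 0, σ 1 1], by
    have := σ.det_coe
    rw [Matrix.det_fin_two] at this
    simpa [Matrix.det_fin_two] using this⟩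

lemma pos_J_smul (σ : SL(2, ℤ)) (z : ℍ) : posJ (σ • z) = posC σ • posJ z := by
  ext
  rw [coe_specialLinearGroup_apply]
  simp only [posJ, posC, coe_specialLinearGroup_apply]
  simp [← neg_div, add_comm]

lemma pos_J_tendsto : Tendsto posJ atImInfty atImInfty := by
  simp only [atImInfty, tendsto_comap_iff]
  have : UpperHalfPlane.im ∘ posJ = UpperHalfPlane.im := by
    funext z
    change (-(starRingEnd ℂ) (z : ℂ)).im = z.im
    simp
  rw [this]
  exact tendsto_comap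

lemma pos_kappa (f : CuspForm (Gamma1 M) 2) {E : ℂ → ℂ} (hE : IsEich f E) {γ : SL(2, ℤ)}
    (hγ : γ ∈ Gamma1 M) : ∃ κ : ℂ, Fv (sym f) (γ 0 0 : ℚ) (γ 1 0 : ℚ) = 2 * Real.pi * Complex.I * κ ∧
      ∀ z : ℍ, E ((γ • z : ℍ) : ℂ) = κ + E z := by
  have h1 : ⇑f ∣[(2 : ℤ)] γ = f :=
    SlashInvariantForm.slash_action_eqn f _ ⟨γ, hγ, rfl⟩
  obtain ⟨κ, hκ⟩ := prim_const (fun z => h1 ▸ prim_comp hE.1 γ z) hE.1
  simp only [ofComplex_apply] at hκ
  refine ⟨κ, Fv_sym_eq f hE γ ?_, hκ⟩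
  simpa only [hκ, add_zero] using hE.2.const_add κ

/-- Eichler, Shimura: the periods of either sign determine the form -/
theorem per_pos (ε : DirichletCharacter ℂ M) (f : CuspForm (Gamma1 M) 2)
    (hε : ∀ γ ∈ Gamma0 M, ⇑f ∣[(2 : ℤ)] γ = ε ((γ 1 1 : ℤ) : ZMod M) • ⇑f)
    {s : ℂ} (hs : s = 1 ∨ s = -1)
    (h : ∀ b d : ℤ, IsCoprime b d → (M : ℤ) ∣ d - 1 →
      sym f (b / d) - sym f 0 + s * (sym f (-(b / d)) - sym f 0) = 0) : f = 0 := by
  obtain ⟨E, hE⟩ : ∃ E, IsEich f E := by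
    simpa [IsEich] using slash_prim f 1
  have hT := sym_T ε f hε
  have h0 : ∀ a b c d : ℤ, a * d - b * c = 1 → (M : ℤ) ∣ c → (M : ℤ) ∣ d - 1 → d ≠ 0 →
      Fv (sym f) a c + s * Fv (sym f) a (-c : ℤ) = 0 := by
    intro a b c d h1 h2 h3 h4
    have e1 := hT a b c d h1 h2 0 1 (Or.inr one_ne_zero)
    have e2 := hT a (-b) (-c) d (by linear_combination h1) h2.neg_right 0 1 (Or.inr one_ne_zero)
    have h5 : (d : ℚ) ≠ 0 := by exact_mod_cast h4
    have e3 := h b d ⟨-c, a, by linear_combination h1⟩ h3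
    simp only [mul_zero, mul_one, zero_add, char_one ε h3, one_mul, Fv_of_ne _ _ h5,
      Fv_of_ne _ _ (one_ne_zero (α := ℚ)), zero_div, Int.cast_neg, neg_div] at e1 e2
    rw [Int.cast_neg]
    linear_combination e3 - e1 - s * e2
  have h1 : ∀ γ ∈ Gamma1 M, ∃ κ κ' : ℂ, κ + s * κ' = 0 ∧
      (∀ z : ℍ, E ((γ • z : ℍ) : ℂ) = κ + E z) ∧
      ∀ z : ℍ, E (posJ (γ • z)) = κ' + E (posJ z) := by
    intro γ hγ
    have hm := (Gamma1_mem _ _).1 hγ
    have hγ' : posC γ ∈ Gamma1 M := by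
      rw [Gamma1_mem]
      simpa [posC] using hm
    obtain ⟨κ, k1, k2⟩ := pos_kappa f hE hγ
    obtain ⟨κ', k3, k4⟩ := pos_kappa f hE hγ'
    refine ⟨κ, κ', ?_, k2, fun z => by rw [pos_J_smul, k4]⟩
    have hdet := γ.det_coe
    rw [Matrix.det_fin_two] at hdet
    have hc : (M : ℤ) ∣ γ 1 0 := (ZMod.intCast_zmod_eq_zero_iff_dvd _ _).1 hm.2.2
    have hd : (M : ℤ) ∣ γ 1 1 - 1 :=
      (ZMod.intCast_zmod_eq_zero_iff_dvd _ _).1 (by push_cast; rw [hm.2.1, sub_self])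
    have k5 : Fv (sym f) (γ 0 0 : ℤ) (γ 1 0 : ℤ) +
        s * Fv (sym f) (γ 0 0 : ℤ) (-γ 1 0 : ℤ) = 0 := by
      by_cases hz : γ 1 1 = 0
      · refine h0 _ (γ 0 0 + γ 0 1) _ (γ 1 0 + γ 1 1) (by linear_combination hdet) hc
          (by rw [add_sub_assoc]; exact hc.add hd) fun h => ?_
        rw [hz, add_zero] at h
        rw [hz, h] at hdet
        simp at hdet
      · exact h0 _ _ _ _ hdet hc hd hz
    have k6 : Fv (sym f) (γ 0 0 : ℤ) (-γ 1 0 : ℤ) = 2 * Real.pi * Complex.I * κ' := by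
      simpa [posC] using k3
    rw [k1, k6] at k5
    apply mul_left_cancel₀ two_pi_I_ne_zero
    linear_combination k5
  have h2 : ∀ σ : SL(2, ℤ), ∃ κ, Tendsto (fun z : ℍ => E ((σ • z : ℍ) : ℂ)) atImInfty (𝓝 κ) := by
    intro σ
    obtain ⟨κ, E', k1, k2⟩ := exists_kappa f hE σ
    exact ⟨κ, by simpa only [k2, add_zero] using k1.2.const_add κ⟩
  let Es : ℂ → ℂ := fun w => (starRingEnd ℂ) (E (-(starRingEnd ℂ) w))
  have hEs : ∀ z : ℍ, Es z = (starRingEnd ℂ) (E (posJ z)) := fun z => rfl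
  have h3 : ∀ z : ℍ, HasDerivAt Es (-(starRingEnd ℂ) (f (posJ z))) z := by
    intro z
    have k1 : HasDerivAt (fun w => E (-w)) (f (posJ z) * -1) ((starRingEnd ℂ) z) :=
      HasDerivAt.comp_of_eq _ (hE.1 (posJ z)) (hasDerivAt_neg _) rfl
    have k2 := k1.star_conj
    simp only [conj_conj, mul_neg, mul_one, star_neg] at k2
    exact k2
  have h4 : ∀ σ : SL(2, ℤ), ∃ κ, Tendsto (fun z : ℍ => Es ((σ • z : ℍ) : ℂ)) atImInfty (𝓝 κ) := by
    intro σ
    obtain ⟨κ, k1⟩ := h2 (posC σ)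
    refine ⟨(starRingEnd ℂ) κ, ?_⟩
    simp only [hEs, pos_J_smul]
    exact (continuous_conj.tendsto κ).comp (k1.comp pos_J_tendsto)
  have h5 : ∀ u v : ℂ, (∀ κ κ' : ℂ, κ + s * κ' = 0 → (u * κ + v * (starRingEnd ℂ) κ').re = 0) →
      ∀ z : ℍ, u * f z + v * -(starRingEnd ℂ) (f (posJ z)) = 0 := by
    intro u v huv
    refine pos_zero (M := M) (G := fun w => u * E w + v * Es w)
      (fun z => ((hE.1 z).const_mul u).add ((h3 z).const_mul v)) (fun γ hγ => ?_) fun σ => ?_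
    · obtain ⟨κ, κ', k1, k2, k3⟩ := h1 γ hγ
      refine ⟨_, huv κ κ' k1, fun z => ?_⟩
      simp only [hEs, k2, k3, map_add]
      ring
    · obtain ⟨κ, k1⟩ := h2 σ
      obtain ⟨κ', k2⟩ := h4 σ
      exact ⟨_, (k1.const_mul u).add (k2.const_mul v)⟩
  ext z
  have e1 := h5 1 s (fun κ κ' k => by
    have := congrArg Complex.re k
    rcases hs with rfl | rfl <;> simpa using this) z
  have e2 := h5 Complex.I (-Complex.I * s) (fun κ κ' k => by
    have := congrArg Complex.im k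
    rcases hs with rfl | rfl <;> simp at this ⊢ <;> linarith) z
  have e3 : 2 * Complex.I * f z = 0 := by linear_combination Complex.I * e1 + e2
  simpa using e3

end Pool.Agent.P.MP_20768c_nt
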