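import Pool.Agent.P.MP_20768c_nt.Grp

namespace Pool.Agent.P.MP_20768c_nt

/-- a nonzero element of `ℤ[1/p]` is an integer prime to `p` times a power of `p` -/
lemma RM.strip {p : ℕ} (hp : p.Prime) {x : ℚ} (hx0 : x ≠ 0) (hx : RM p 1 x) :
    ∃ (C : ℤ) (i : ℤ), C ≠ 0 ∧ IsCoprime C (p : ℤ) ∧ x = C * (p : ℚ) ^ i := by
  obtain ⟨k, z, h⟩ := hx
  have hp' : (p : ℚ) ≠ 0 := by exact_mod_cast hp.ne_zero
  have hz : z ≠ 0 := by
    rintro rfl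
    simp [hx0, hp'] at h
  have hq := (Nat.prime_iff_prime_int.1 hp).irreducible
  obtain ⟨n, C, h1, rfl⟩ := WfDvdMonoid.max_power_factor hz hq
  refine ⟨C, (n : ℤ) - k, right_ne_zero_of_mul hz, (hq.coprime_iff_not_dvd.2 h1).symm, ?_⟩
  rw [zpow_sub₀ hp', zpow_natCast, zpow_natCast, ← mul_div_assoc, eq_div_iff (pow_ne_zero _ hp'), h]
  push_cast
  ring

/-- `ℤ[1/p] = ℤ + C ℤ[1/p]`, with a prescribed residue mod `p ^ r` -/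
lemma RM.cong_int {p : ℕ} (hp : p.Prime) {C : ℤ} (hC : IsCoprime C (p : ℤ)) {t : ℚ}
    (ht : RM p 1 t) (r : ℕ) (ρ : ℤ) : ∃ z : ℤ, RM p C (t - z) ∧ (p : ℤ) ^ r ∣ z - ρ := by
  obtain ⟨k, w, h⟩ := ht
  obtain ⟨u, v, h1⟩ := hC.pow_right (n := k)
  obtain ⟨u', v', h2⟩ := hC.pow_right (n := r)
  refine ⟨v * w + C * (u' * (ρ - v * w)), ⟨k, u * w - u' * (ρ - v * w) * p ^ k, ?_⟩,
    ⟨-((ρ - v * w) * v'), by linear_combination (ρ - v * w) * h2⟩⟩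
  have h3 : (u : ℚ) * C + v * (p : ℚ) ^ k = 1 := by exact_mod_cast h1
  push_cast at h ⊢
  linear_combination h - w * h3

/-- approximation modulo `t0 ℤ[1/p]` by an integer with a prescribed residue mod `p ^ r` -/
lemma RM.approx {p : ℕ} (hp : p.Prime) {t0 t : ℚ} (h0 : t0 ≠ 0) (ht0 : RM p 1 t0)
    (ht : RM p 1 t) (r : ℕ) (ρ : ℤ) :
    ∃ (z : ℤ) (s : ℚ), RM p 1 s ∧ t = z + t0 * s ∧ (p : ℤ) ^ r ∣ z - ρ := by
  obtain ⟨C, i, hC0, hC, rfl⟩ := RM.strip hp h0 ht0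
  obtain ⟨z, h1, h2⟩ := RM.cong_int hp hC ht r ρ
  have hp' : (p : ℚ) ≠ 0 := by exact_mod_cast hp.ne_zero
  have hC' : (C : ℚ) ≠ 0 := by exact_mod_cast hC0
  refine ⟨z, (t - z) / C * (p : ℚ) ^ (-i), (h1.div_self hC0).mul_r (RM.zpow hp.ne_zero _), ?_, h2⟩
  have h3 : (p : ℚ) ^ i ≠ 0 := zpow_ne_zero _ hp'
  rw [zpow_neg]
  field_simp
  ring

/-- for nonzero `x` in `ℤ[1/p]` some `p ^ (m i)`, `i > 0`, is `1` modulo `x` -/
lemma RM.pow_one_mod {p : ℕ} (hp : p.Prime) {x : ℚ} (hx0 : x ≠ 0) (hx : RM p 1 x) (m : ℕ) :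
    ∃ i : ℕ, 0 < i ∧ RM p 1 ((((p : ℚ) ^ m) ^ i - 1) / x) := by
  obtain ⟨C, i, hC0, hC, rfl⟩ := RM.strip hp hx0 hx
  have h1 : Nat.Coprime (p ^ m) C.natAbs := by
    have := Int.isCoprime_iff_gcd_eq_one.1 hC.symm
    exact Nat.Coprime.pow_left m this
  have h2 : C ∣ ((p : ℤ) ^ m) ^ C.natAbs.totient - 1 := by
    have := (Nat.ModEq.pow_totient h1).symm.dvd
    rw [Int.natAbs_dvd] at this
    exact_mod_cast this
  refine ⟨C.natAbs.totient, Nat.totient_pos.2 (Int.natAbs_pos.2 hC0), ?_⟩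
  have h3 := ((RM.of_dvd p h2).div_self hC0).mul_r (RM.zpow hp.ne_zero (-i))
  push_cast at h3
  rwa [zpow_neg, ← div_eq_mul_inv, div_div] at h3

/-- `(x, y) = p ^ j (x', y')` with coprime integers `x', y'` -/
def Prim (p : ℕ) (x y : ℚ) (j x' y' : ℤ) : Prop :=
  IsCoprime x' y' ∧ x = (p : ℚ) ^ j * x' ∧ y = (p : ℚ) ^ j * y'

lemma Prim.exists {p : ℕ} (hp : p.Prime) {x y u v : ℚ} (hx : RM p 1 x) (hy : RM p 1 y)
    (hu : RM p 1 u) (hv : RM p 1 v) (h : u * x + v * y = 1) : ∃ j x' y', Prim p x y j x' y' := by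
  obtain ⟨k, x0, h1⟩ := hx
  obtain ⟨l, y0, h2⟩ := hy
  obtain ⟨a, u0, h3⟩ := hu
  obtain ⟨b, v0, h4⟩ := hv
  have hp' : (p : ℚ) ≠ 0 := by exact_mod_cast hp.ne_zero
  push_cast at h1 h2 h3 h4
  have h5 : u0 * (p : ℤ) ^ b * (x0 * p ^ l) + v0 * (p : ℤ) ^ a * (y0 * p ^ k) =
      (p ^ (a + b + k + l) : ℕ) := by
    have : (u0 : ℚ) * (p : ℚ) ^ b * (x0 * p ^ l) + v0 * (p : ℚ) ^ a * (y0 * p ^ k) =
        p ^ (a + b + k + l) := by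
      rw [one_mul] at h1 h2 h3 h4
      rw [← h1, ← h2, ← h3, ← h4]
      linear_combination (p : ℚ) ^ (a + b + k + l) * h
    exact_mod_cast this
  have h6 : Int.gcd (x0 * p ^ l) (y0 * p ^ k) ∣ p ^ (a + b + k + l) := by
    rw [← Int.natCast_dvd_natCast, ← h5]
    exact ((Int.gcd_dvd_left _ _).mul_left _).add ((Int.gcd_dvd_right _ _).mul_left _)
  obtain ⟨i, -, h7⟩ := (Nat.dvd_prime_pow hp).1 h6
  obtain ⟨x', y', h8, h9, h10⟩ := Int.exists_gcd_one (m := x0 * p ^ l) (n := y0 * p ^ k)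
    (by rw [h7]; exact pow_pos hp.pos _)
  rw [h7] at h9 h10
  have h11 : (x0 : ℚ) * p ^ l = x' * p ^ i := by exact_mod_cast h9
  have h12 : (y0 : ℚ) * p ^ k = y' * p ^ i := by exact_mod_cast h10
  have h13 : (p : ℚ) ^ ((i : ℤ) - (k + l : ℕ)) = p ^ i / p ^ (k + l) := by
    rw [zpow_sub₀ hp', zpow_natCast, zpow_natCast]
  refine ⟨(i : ℤ) - (k + l : ℕ), x', y', Int.isCoprime_iff_gcd_eq_one.2 h8, ?_, ?_⟩
  · rw [h13, div_mul_eq_mul_div, eq_div_iff (pow_ne_zero _ hp')]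
    linear_combination (p : ℚ) ^ l * h1 + h11
  · rw [h13, div_mul_eq_mul_div, eq_div_iff (pow_ne_zero _ hp')]
    linear_combination (p : ℚ) ^ k * h2 + h12

lemma Prim.unique {p : ℕ} (hp : p.Prime) {x y : ℚ} {j x' y' j2 x2 y2 : ℤ}
    (h : Prim p x y j x' y') (h2 : Prim p x y j2 x2 y2) : j = j2 ∧ x' = x2 ∧ y' = y2 := by
  have hp' : (p : ℚ) ≠ 0 := by exact_mod_cast hp.ne_zero
  have key : ∀ {j x' y' j2 x2 y2 : ℤ}, Prim p x y j x' y' → Prim p x y j2 x2 y2 → ¬ j < j2 := by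
    rintro j x' y' j2 x2 y2 ⟨a1, a2, a3⟩ ⟨-, b2, b3⟩ hj
    obtain ⟨n, rfl⟩ : ∃ n : ℕ, j2 = j + (n + 1 : ℕ) := ⟨(j2 - j - 1).toNat, by omega⟩
    have d : ∀ {s t : ℤ}, (p : ℚ) ^ j * s = (p : ℚ) ^ (j + (n + 1 : ℕ)) * t → (p : ℤ) ∣ s := by
      intro s t e
      rw [zpow_add₀ hp', zpow_natCast, mul_assoc] at e
      have e2 : s = (p : ℤ) ^ (n + 1) * t := by
        exact_mod_cast mul_left_cancel₀ (zpow_ne_zero _ hp') e
      exact ⟨p ^ n * t, by rw [e2]; ring⟩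
    exact (Nat.prime_iff_prime_int.1 hp).not_isUnit
      (a1.isUnit_of_dvd' (d (a2.symm.trans b2)) (d (a3.symm.trans b3)))
  obtain rfl : j = j2 := le_antisymm (not_lt.1 (key h2 h)) (not_lt.1 (key h h2))
  refine ⟨rfl, ?_, ?_⟩
  · exact_mod_cast mul_left_cancel₀ (zpow_ne_zero _ hp') (h.2.1.symm.trans h2.2.1)
  · exact_mod_cast mul_left_cancel₀ (zpow_ne_zero _ hp') (h.2.2.symm.trans h2.2.2)

/-- an element of `ℤ[1/p]` in lowest terms -/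
lemma RM.lowest {p : ℕ} (hp : p.Prime) {t : ℚ} (ht : RM p 1 t) :
    ∃ (b : ℤ) (n : ℕ), t = b / (p : ℚ) ^ n ∧ (n = 0 ∨ ¬ (p : ℤ) ∣ b) := by
  rcases eq_or_ne t 0 with rfl | h0
  · exact ⟨0, 0, by simp, Or.inl rfl⟩
  obtain ⟨C, i, -, hC, rfl⟩ := RM.strip hp h0 ht
  obtain ⟨n, rfl | rfl⟩ := i.eq_nat_or_neg
  · exact ⟨C * p ^ n, 0, by simp, Or.inl rfl⟩
  · refine ⟨C, n, by rw [zpow_neg, zpow_natCast, div_eq_mul_inv], Or.inr ?_⟩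
    exact (Nat.prime_iff_prime_int.1 hp).irreducible.coprime_iff_not_dvd.1 hC.symm

end Pool.Agent.P.MP_20768c_nt
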