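import Pool.Agent.P.MP_20768c_nt.Ser4
import Pool.Agent.P.MP_20768c_nt.Defs2

namespace Pool.Agent.P.MP_20768c_nt

variable {p : ℕ}

/-- exactly one lift of `a` has the logarithm `j + t p ^ n` -/
lemma ss2_lift (hp : p.Prime) {n a j : ℕ} (h : IsLog p n a j) (hj : j < p ^ n) {t : ℕ}
    (ht : t < p) :
    ∃ u, u < p ∧ IsLog p (n + 1) (a + u * p ^ (n + wd p)) (j + t * p ^ n) ∧
      ∀ u', u' < p → IsLog p (n + 1) (a + u' * p ^ (n + wd p)) (j + t * p ^ n) → u' = u := by
  classical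
  have hQ : 0 < p ^ n := pow_pos hp.pos n
  have hinj : ∀ u u' i, u < p → u' < p → IsLog p (n + 1) (a + u * p ^ (n + wd p)) i →
      IsLog p (n + 1) (a + u' * p ^ (n + wd p)) i → u = u' := by
    intro u u' i hu hu' h1 h2
    have h3 : a + u * p ^ (n + wd p) ≡ a + u' * p ^ (n + wd p) [MOD p ^ wd p] := by
      refine Nat.ModEq.add_left _ ?_
      have : p ^ wd p ∣ p ^ (n + wd p) := pow_dvd_pow _ (by omega)
      exact ((Nat.modEq_zero_iff_dvd.2 (this.mul_left u))).trans
        (Nat.modEq_zero_iff_dvd.2 (this.mul_left u')).symm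
    have h4 := Nat.ModEq.add_left_cancel' _ (isLog_inj hp h1 h2 h3)
    rw [show n + 1 + wd p = (n + wd p) + 1 by ring, pow_succ'] at h4
    exact (Nat.ModEq.mul_right_cancel' (pow_pos hp.pos _).ne' h4).eq_of_lt_of_lt hu hu'
  have hex : ∀ u, ∃ t', t' < p ∧ IsLog p (n + 1) (a + u * p ^ (n + wd p)) (j + t' * p ^ n) := by
    intro u
    have hlog : IsLog p n (a + u * p ^ (n + wd p)) j :=
      isLog_cong hp h (by simp [Nat.ModEq])
    obtain ⟨i, hi, hl⟩ := isLog_exists hp (n + 1) (isLog_not_dvd hp hlog)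
    have h1 : i % p ^ n = j := by
      have := isLog_unique hp (isLog_succ hl) hlog
      rwa [Nat.ModEq, Nat.mod_eq_of_lt hj] at this
    refine ⟨i / p ^ n, ?_, ?_⟩
    · rw [Nat.div_lt_iff_lt_mul hQ]; rwa [pow_succ'] at hi
    · rwa [← h1, Nat.mod_add_div' i (p ^ n)]
  choose g hg1 hg2 using hex
  obtain ⟨u, hu, hut⟩ := Finset.surj_on_of_inj_on_of_card_le (s := Finset.range p)
    (t := Finset.range p) (fun u _ => g u) (fun u _ => Finset.mem_range.2 (hg1 u))
    (fun u u' hu hu' he => hinj u u' _ (Finset.mem_range.1 hu) (Finset.mem_range.1 hu') (hg2 u)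
      (by rw [he]; exact hg2 u')) le_rfl t (Finset.mem_range.2 ht)
  have hu' := Finset.mem_range.1 hu
  refine ⟨u, hu', by rw [hut]; exact hg2 u, fun u' h1 h2 => ?_⟩
  exact hinj u' u _ h1 hu' h2 (by rw [hut]; exact hg2 u)

variable [hp : Fact p.Prime]

lemma ss2_psi (ψ : DirichletCharacter ℂ_[p] (p ^ wd p)) (a u n : ℕ) :
    ψ ((a + u * p ^ (n + wd p) : ℕ) : ZMod (p ^ wd p)) = ψ (a : ZMod (p ^ wd p)) := by
  congr 1
  rw [pow_add, ← mul_assoc, Nat.cast_add, Nat.cast_mul, ZMod.natCast_self, mul_zero, add_zero]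

open Classical in
/-- a function of `a` mod `q p ^ n`, summed over a fibre of the next level -/
lemma ss2_fibre (ψ : DirichletCharacter ℂ_[p] (p ^ wd p)) (g : ℕ → ℂ_[p]) {n j t : ℕ}
    (hg : ∀ a u, g (a + u * p ^ (n + wd p)) = g a) (hj : j < p ^ n) (ht : t < p) :
    (∑ a ∈ Finset.range (p ^ (n + 1 + wd p)),
      if IsLog p (n + 1) a (j + t * p ^ n) then ψ (a : ZMod (p ^ wd p)) * g a else 0) =
    ∑ a ∈ Finset.range (p ^ (n + wd p)),
      if IsLog p n a j then ψ (a : ZMod (p ^ wd p)) * g a else 0 := by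
  rw [show n + 1 + wd p = (n + wd p) + 1 by ring, sum_range_succ_pow]
  refine Finset.sum_congr rfl fun a _ => ?_
  simp only [ss2_psi, hg]
  by_cases h : IsLog p n a j
  · obtain ⟨u, hu, h1, h2⟩ := ss2_lift hp.out h hj ht
    rw [if_pos h, Finset.sum_eq_single u, if_pos h1]
    · intro u' hu' hne
      exact if_neg fun h3 => hne (h2 u' (Finset.mem_range.1 hu') h3)
    · intro h3; exact absurd (Finset.mem_range.2 hu) h3
  · rw [if_neg h]
    refine Finset.sum_eq_zero fun u _ => if_neg fun h3 => h ?_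
    exact isLog_of_modEq hp.out (isLog_cong hp.out (isLog_succ h3) (by simp [Nat.ModEq]))
      (by simp [Nat.ModEq])

open Classical in
/-- the sum over the lifts, at one level -/
lemma ss2_up (ψ : DirichletCharacter ℂ_[p] (p ^ wd p)) (g : ℕ → ℂ_[p]) {n j : ℕ}
    (hj : j < p ^ n) :
    (∑ a ∈ Finset.range (p ^ (n + wd p)), if IsLog p n a j then ψ (a : ZMod (p ^ wd p)) *
      ∑ u ∈ Finset.range p, g (a + u * p ^ (n + wd p)) else 0) =
    ∑ t ∈ Finset.range p, ∑ a ∈ Finset.range (p ^ (n + 1 + wd p)),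
      if IsLog p (n + 1) a (j + t * p ^ n) then ψ (a : ZMod (p ^ wd p)) * g a else 0 := by
  rw [Finset.sum_comm, show n + 1 + wd p = (n + wd p) + 1 by ring, sum_range_succ_pow]
  refine Finset.sum_congr rfl fun a _ => ?_
  simp only [ss2_psi]
  by_cases h : IsLog p n a j
  · rw [if_pos h, Finset.mul_sum]
    refine Finset.sum_congr rfl fun u _ => ?_
    have hQ : 0 < p ^ n := pow_pos hp.out.pos n
    have hlog : IsLog p n (a + u * p ^ (n + wd p)) j :=
      isLog_cong hp.out h (by simp [Nat.ModEq])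
    obtain ⟨i, hi, hl⟩ := isLog_exists hp.out (n + 1) (isLog_not_dvd hp.out hlog)
    have h1 : i % p ^ n = j := by
      have := isLog_unique hp.out (isLog_succ hl) hlog
      rwa [Nat.ModEq, Nat.mod_eq_of_lt hj] at this
    have h2 : j + i / p ^ n * p ^ n = i := by rw [← h1, Nat.mod_add_div' i (p ^ n)]
    have h3 : i / p ^ n < p := by rw [Nat.div_lt_iff_lt_mul hQ]; rwa [pow_succ'] at hi
    rw [Finset.sum_eq_single (i / p ^ n), h2, if_pos hl]
    · intro t ht hne
      refine if_neg fun h4 => hne ?_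
      have h5 := isLog_unique hp.out h4 hl
      rw [← h2, pow_succ'] at h5
      have h6 := Nat.ModEq.mul_right_cancel' hQ.ne' (Nat.ModEq.add_left_cancel' _ h5)
      exact h6.eq_of_lt_of_lt (Finset.mem_range.1 ht) h3
    · intro h4; exact absurd (Finset.mem_range.2 h3) h4
  · rw [if_neg h]
    refine (Finset.sum_eq_zero fun u _ => Finset.sum_eq_zero fun t _ => if_neg fun h3 => h ?_).symm
    exact isLog_of_modEq hp.out (isLog_cong hp.out (isLog_succ h3) (by simp [Nat.ModEq]))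
      (by simp [Nat.ModEq])

end Pool.Agent.P.MP_20768c_nt
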