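import Pool.Agent.P.MP_20768c_nt.SS1
import Pool.Agent.P.MP_20768c_nt.SS2
import Pool.Agent.P.MP_20768c_nt.Main

open Complex UpperHalfPlane Filter Topology CongruenceSubgroup ModularForm
open scoped MatrixGroups

namespace Pool.Agent.P.MP_20768c_nt

section abstract
variable {p : ℕ} [hp : Fact p.Prime] {M : ℕ} {ε : DirichletCharacter ℂ_[p] M}
  {S : ℚ → ℂ_[p]} {A : ℂ_[p]}

lemma theta_eq (ψ : DirichletCharacter ℂ_[p] (p ^ wd p)) (n j : ℕ) :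
    theta S ψ n j = nu (fun n a => S ((a : ℚ) / (p : ℚ) ^ n)) ψ n j := rfl

/-- the three term relation between Mazur, Tate elements -/
lemma theta_three (hT : TLaw M ε S) (hH : HLaw p M ε A S)
    (ψ : DirichletCharacter ℂ_[p] (p ^ wd p)) {n j : ℕ} (hj : j < p ^ n) :
    ε (p : ZMod M) * theta S ψ n j = A * theta S ψ (n + 1) j -
      ∑ t ∈ Finset.range p, theta S ψ (n + 2) (j + t * p ^ (n + 1)) := by
  classical
  have hp0 : (p : ℚ) ≠ 0 := by exact_mod_cast hp.out.ne_zero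
  have hj1 : j < p ^ (n + 1) := hj.trans (Nat.pow_lt_pow_right hp.out.one_lt (by omega))
  have h1 := ss2_fibre ψ (fun a => S ((a : ℚ) / (p : ℚ) ^ (n + wd p))) (n := n) (j := j) (t := 0)
    (fun a u => by
      rw [← hT.per ((a : ℚ) / (p : ℚ) ^ (n + wd p)) u]
      congr 1; push_cast; field_simp) hj hp.out.pos
  have h2 := ss2_up ψ (fun a => S ((a : ℚ) / (p : ℚ) ^ (n + 2 + wd p))) (n := n + 1) hj1
  simp only [zero_mul, add_zero] at h1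
  unfold theta
  rw [← h1, ← h2, Finset.mul_sum, Finset.mul_sum, ← Finset.sum_sub_distrib]
  refine Finset.sum_congr rfl fun a _ => ?_
  split_ifs with h
  · have h3 := ss_three hp.out hH (n + wd p) (a : ℤ)
    have e1 : n + wd p + 1 = n + 1 + wd p := by ring
    have e2 : n + wd p + 2 = n + 2 + wd p := by ring
    rw [e1, e2] at h3
    push_cast at h3 ⊢
    linear_combination ψ (a : ZMod (p ^ wd p)) * h3
  · simp

theorem abstract_ss [NeZero M] (hM : ¬ p ∣ M) (hT : TLaw M ε S) (hH : HLaw p M ε A S)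
    (hA : ‖A‖ < 1) {s : ℂ_[p]} (hs : s = 1 ∨ s = -1) :
    ∃ P : ℝ, IsGreatest {x | ∃ b d : ℤ, IsCoprime b d ∧ (M : ℤ) ∣ d - 1 ∧
        x = ‖S (b / d) - S 0 + s * (S (-(b / d)) - S 0)‖} P ∧
      (∀ ψ n j, ψ (-1) = s → ‖theta S ψ n j‖ ≤ P) ∧
      ∃ ψ n0, ψ (-1) = s ∧ ∀ m, ∃ j, j < p ^ (n0 + 2 * m) ∧ ‖theta S ψ (n0 + 2 * m) j‖ = P := by
  have hpn := norm_p_lt p
  have hp0 : (p : ℚ) ≠ 0 := by exact_mod_cast hp.out.ne_zero
  set S' : ℚ → ℂ_[p] := fun r => S r + s * S (-r) with hS'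
  have hT' : TLaw M ε S' := hT.symm s
  have hH' : HLaw p M ε A S' := HLaw.symm hp.out.ne_zero s hT hH
  have hper : ∀ b d : ℤ, (M : ℤ) ∣ d - 1 →
      Fv S' b d - S' 0 = S (b / d) - S 0 + s * (S (-(b / d)) - S 0) := by
    intro b d hd
    rw [Fv_sub_eq hT' hd]
    simp only [hS', neg_zero]
    ring
  have hsym : ∀ n a : ℕ, a < p ^ n →
      S ((a : ℚ) / (p : ℚ) ^ n) + s * S (((p ^ n - a : ℕ) : ℚ) / (p : ℚ) ^ n) =
        S' (((a : ℤ) : ℚ) / (p : ℚ) ^ n) := by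
    intro n a ha
    have h1 : S (((p ^ n - a : ℕ) : ℚ) / (p : ℚ) ^ n) = S (-((a : ℚ) / (p : ℚ) ^ n)) := by
      rw [← hT.per (-((a : ℚ) / (p : ℚ) ^ n)) 1]
      congr 1
      rw [Nat.cast_sub ha.le]; push_cast; field_simp; ring
    simp only [hS', h1, Int.cast_natCast]
  obtain ⟨Λ, hΛ, hmem⟩ := sd_fg hT'
  obtain ⟨x0, ⟨b0, d0, hbd0, hd0, rfl⟩, hmax⟩ := fg_max hΛ
    (T := {x | ∃ b d : ℤ, IsCoprime b d ∧ (M : ℤ) ∣ d - 1 ∧ x = Fv S' b d - S' 0})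
    (by
      rintro x ⟨b, d, -, hd, rfl⟩
      rw [Fv_sub_eq hT' hd]
      exact Λ.sub_mem (hmem _) (hmem _))
    ⟨_, 0, 1, isCoprime_one_right, by simp, rfl⟩
  set P := ‖Fv S' b0 d0 - S' 0‖ with hP
  have hP0 : 0 ≤ P := norm_nonneg _
  have hPmax : ∀ b d : ℤ, IsCoprime b d → (M : ℤ) ∣ d - 1 → ‖Fv S' b d - S' 0‖ ≤ P :=
    fun b d h1 h2 => hmax _ ⟨b, d, h1, h2, rfl⟩
  have hup : ∀ ψ n j, ψ (-1) = s → ‖theta S ψ n j‖ ≤ P := by
    intro ψ n j hψ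
    rw [theta_eq]
    refine nu_le hψ hP0 (fun a ha hpa => ?_) j
    rw [hsym _ a ha]
    exact ss_int hp.out hpn hM hT' hH' hA hPmax _ a (by exact_mod_cast hpa)
  have hex : ∃ ψ n j, ψ (-1) = s ∧ j < p ^ n ∧ ‖theta S ψ n j‖ = P := by
    by_contra hno
    have hlt : ∀ ψ n j, ψ (-1) = s → j < p ^ n → ‖theta S ψ n j‖ < P := fun ψ n j h1 h2 =>
      lt_of_le_of_ne (hup ψ n j h1) fun he => hno ⟨ψ, n, j, h1, h2, he⟩
    refine lt_irrefl _ (engSS hp.out hpn hM hT' hH' hA.le (wd p) (c := P) ?_ hbd0 hd0)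
    intro n hn a ha
    have hQ : (0 : ℤ) < (p : ℤ) ^ n := by have := hp.out.pos; positivity
    obtain ⟨b, hb⟩ := Int.eq_ofNat_of_zero_le (Int.emod_nonneg a hQ.ne')
    have hlt' : b < p ^ n := by
      have := Int.emod_lt_of_pos a hQ
      rw [hb] at this
      exact_mod_cast this
    have hab : a = (b : ℤ) + (p : ℤ) ^ n * (a / (p : ℤ) ^ n) := by
      rw [← hb]; exact (Int.emod_add_mul_ediv a _).symm
    have hpb : ¬ p ∣ b := by
      intro hd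
      apply ha
      rw [hab]
      have := wd_pos p
      exact dvd_add (by exact_mod_cast hd) ((dvd_pow_self _ (by omega)).mul_right _)
    have h3 := nu_inv (μ := fun n a => S ((a : ℚ) / (p : ℚ) ^ n)) hs (C := P) (n := n - wd p)
      (fun ψ hψ j hj => hlt ψ _ j hψ hj) (a := b) (by rwa [Nat.sub_add_cancel hn]) hpb
    rw [Nat.sub_add_cancel hn, hsym n b hlt'] at h3
    set z := a / (p : ℤ) ^ n
    have e1 : S' (a / (p : ℚ) ^ n) = S' (((b : ℤ) : ℚ) / (p : ℚ) ^ n) := by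
      rw [← hT'.per (((b : ℤ) : ℚ) / (p : ℚ) ^ n) z]
      congr 1
      rw [hab]; push_cast; field_simp
    rwa [e1]
  have hstep : ∀ ψ n j, ψ (-1) = s → j < p ^ n → ‖theta S ψ n j‖ = P →
      ∃ j', j' < p ^ (n + 2) ∧ ‖theta S ψ (n + 2) j'‖ = P := by
    intro ψ n j hψ hj he
    by_contra hno
    have hjt : ∀ t, t < p → j + t * p ^ (n + 1) < p ^ (n + 2) := by
      intro t ht
      have h1 : j < p ^ (n + 1) := hj.trans (Nat.pow_lt_pow_right hp.out.one_lt (by omega))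
      calc j + t * p ^ (n + 1) < p ^ (n + 1) + t * p ^ (n + 1) := by omega
        _ = (t + 1) * p ^ (n + 1) := by ring
        _ ≤ p * p ^ (n + 1) := Nat.mul_le_mul_right _ ht
        _ = p ^ (n + 2) := by ring
    have hlt : ∀ t, t < p → ‖theta S ψ (n + 2) (j + t * p ^ (n + 1))‖ < P := fun t ht =>
      lt_of_le_of_ne (hup ψ _ _ hψ) fun h => hno ⟨_, hjt t ht, h⟩
    have hPpos : 0 < P := (norm_nonneg _).trans_lt (hlt 0 hp.out.pos)
    have h := congrArg norm (theta_three hT hH ψ hj)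
    rw [norm_mul, ss_eps hp.out hM, one_mul, he] at h
    refine lt_irrefl P (h.trans_lt (ss_sub_lt ?_ ?_))
    · rw [norm_mul]
      exact (mul_le_mul_of_nonneg_left (hup ψ _ _ hψ) (norm_nonneg _)).trans_lt
        (mul_lt_of_lt_one_left hPpos hA)
    · have hne : (Finset.range p).Nonempty := ⟨0, Finset.mem_range.2 hp.out.pos⟩
      obtain ⟨t, ht, hk⟩ := IsUltrametricDist.exists_norm_finsetSum_le_of_nonempty hne
        (fun t : ℕ => theta S ψ (n + 2) (j + t * p ^ (n + 1)))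
      exact hk.trans_lt (hlt t (Finset.mem_range.1 ht))
  obtain ⟨ψ, n0, j0, hψ, hj0, he0⟩ := hex
  refine ⟨P, ⟨⟨b0, d0, hbd0, hd0, by rw [hP, hper b0 d0 hd0]⟩, ?_⟩, hup, ψ, n0, hψ, fun m => ?_⟩
  · rintro x ⟨b, d, h1, h2, rfl⟩
    rw [← hper b d h2]; exact hPmax b d h1 h2
  · induction m with
    | zero => exact ⟨j0, hj0, he0⟩
    | succ m ih =>
      obtain ⟨j, hj, he⟩ := ih
      exact hstep ψ _ j hψ hj he

end abstract

theorem main_ss (p : ℕ) [hp : Fact p.Prime] (M : ℕ) [NeZero M] (hM : ¬ p ∣ M)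
    (ε : DirichletCharacter ℂ M) (f : CuspForm (Gamma1 M) 2) (hf : f ≠ 0)
    (hε : ∀ γ ∈ Gamma0 M, ⇑f ∣[(2 : ℤ)] γ = ε ((γ 1 1 : ℤ) : ZMod M) • ⇑f) (a : ℂ)
    (hT : ∀ z : ℍ, (p : ℂ)⁻¹ * ∑ k ∈ Finset.range p, f (ofComplex (((z : ℂ) + k) / p)) +
      ε (p : ZMod M) * p * f (ofComplex (p * (z : ℂ))) = a * f z)
    (ι : ℂ →+* ℂ_[p]) (ha : ‖ι a‖ < 1) (s : ℤ) (hs : s = 1 ∨ s = -1) :
    ∃ P : ℝ, 0 < P ∧
      IsGreatest {x | ∃ b d : ℤ, IsCoprime b d ∧ (M : ℤ) ∣ d - 1 ∧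
        x = ‖ι (sym f (b / d) - sym f 0 + s * (sym f (-(b / d)) - sym f 0))‖} P ∧
      (∀ ψ n j, ψ (-1) = (s : ℂ_[p]) → ‖theta (fun r => ι (sym f r)) ψ n j‖ ≤ P) ∧
      ∃ ψ n0, ψ (-1) = (s : ℂ_[p]) ∧ ∀ m, ∃ j, j < p ^ (n0 + 2 * m) ∧
        ‖theta (fun r => ι (sym f r)) ψ (n0 + 2 * m) j‖ = P := by
  have h1 := (sym_T ε f hε).map ι
  have h2 := (sym_H hp.out.ne_zero ε f a hT).map ι
  have hs' : (s : ℂ_[p]) = 1 ∨ (s : ℂ_[p]) = -1 := by
    rcases hs with rfl | rfl <;> simp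
  have hs'' : (s : ℂ) = 1 ∨ (s : ℂ) = -1 := by
    rcases hs with rfl | rfl <;> simp
  obtain ⟨P, hP1, hP2⟩ := abstract_ss hM h1 h2 ha hs'
  have hP1' : IsGreatest {x | ∃ b d : ℤ, IsCoprime b d ∧ (M : ℤ) ∣ d - 1 ∧
      x = ‖ι (sym f (b / d) - sym f 0 + s * (sym f (-(b / d)) - sym f 0))‖} P := by
    simpa only [map_add, map_sub, map_mul, map_intCast] using hP1
  refine ⟨P, ?_, hP1', hP2⟩
  by_contra hle
  refine hf (per_pos ε f hε hs'' fun b d hbd hd => ?_)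
  have h3 := (hP1'.2 ⟨b, d, hbd, hd, rfl⟩).trans (not_lt.1 hle)
  exact (map_eq_zero ι).1 (norm_le_zero_iff.1 h3)

end Pool.Agent.P.MP_20768c_nt
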