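import Pool.Agent.P.MP_20768c_nt.EngA
import Pool.Agent.P.MP_20768c_nt.Intg

namespace Pool.Agent.P.MP_20768c_nt
open M2

section
variable {K : Type*} [NormedField K] [IsUltrametricDist K] {p M : ℕ}
  {ε : DirichletCharacter K M} {S : ℚ → K} {A : K} {c : ℝ}

lemma ss_add_lt {x y : K} (hx : ‖x‖ < c) (hy : ‖y‖ < c) : ‖x + y‖ < c :=
  (IsUltrametricDist.norm_add_le_max x y).trans_lt (max_lt hx hy)

lemma ss_sub_lt {x y : K} (hx : ‖x‖ < c) (hy : ‖y‖ < c) : ‖x - y‖ < c := by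
  rw [sub_eq_add_neg]; exact ss_add_lt hx (by rwa [norm_neg])

lemma ss_cop (hp : p.Prime) (hM : ¬ p ∣ M) : IsCoprime (M : ℤ) (p : ℤ) := by
  rw [Nat.isCoprime_iff_coprime]
  exact ((Nat.Prime.coprime_iff_not_dvd hp).2 hM).symm

omit [IsUltrametricDist K] in
lemma ss_eps (hp : p.Prime) (hM : ¬ p ∣ M) : ‖ε (p : ZMod M)‖ = 1 :=
  char_norm_unit ε ((ZMod.isUnit_iff_coprime p M).2 ((Nat.Prime.coprime_iff_not_dvd hp).2 hM))

omit [IsUltrametricDist K] in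
/-- the three term relation -/
lemma ss_three (hp : p.Prime) (hH : HLaw p M ε A S) (n : ℕ) (a : ℤ) :
    ε (p : ZMod M) * S (a / (p : ℚ) ^ n) = A * S (a / (p : ℚ) ^ (n + 1)) -
      ∑ k ∈ Finset.range p, S (((a + k * (p : ℤ) ^ (n + 1) : ℤ) : ℚ) / (p : ℚ) ^ (n + 2)) := by
  have hp0 : (p : ℚ) ≠ 0 := by exact_mod_cast hp.ne_zero
  have h := hH (a / (p : ℚ) ^ (n + 1))
  have h1 : (p : ℚ) * (a / (p : ℚ) ^ (n + 1)) = a / (p : ℚ) ^ n := by field_simp; ring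
  have h2 : ∀ k : ℕ, ((a : ℚ) / (p : ℚ) ^ (n + 1) + k) / p =
      ((a + k * (p : ℤ) ^ (n + 1) : ℤ) : ℚ) / (p : ℚ) ^ (n + 2) := by
    intro k; push_cast; field_simp; ring
  simp only [h1, h2] at h
  rw [h]; ring

lemma ss_ndvd {a : ℤ} (ha : ¬ (p : ℤ) ∣ a) (k n : ℕ) :
    ¬ (p : ℤ) ∣ a + k * (p : ℤ) ^ (n + 1) := fun hd =>
  ha ((dvd_add_left ((dvd_pow_self _ (by omega)).mul_left _)).1 hd)

/-- smallness at two consecutive levels descends -/
lemma ss_down (hp : p.Prime) (hM : ¬ p ∣ M) (hH : HLaw p M ε A S) (hA : ‖A‖ ≤ 1) (n : ℕ)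
    (h1 : ∀ a : ℤ, ¬ (p : ℤ) ∣ a → ‖S (a / (p : ℚ) ^ (n + 1))‖ < c)
    (h2 : ∀ a : ℤ, ¬ (p : ℤ) ∣ a → ‖S (a / (p : ℚ) ^ (n + 2))‖ < c)
    (a : ℤ) (ha : ¬ (p : ℤ) ∣ a) : ‖S (a / (p : ℚ) ^ n)‖ < c := by
  have h := congrArg norm (ss_three hp hH n a)
  rw [norm_mul, ss_eps hp hM, one_mul] at h
  rw [h]
  refine ss_sub_lt ?_ ?_
  · rw [norm_mul]
    exact (mul_le_of_le_one_left (norm_nonneg _) hA).trans_lt (h1 a ha)
  · have hne : (Finset.range p).Nonempty := ⟨0, Finset.mem_range.2 hp.pos⟩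
    obtain ⟨k, -, hk⟩ := IsUltrametricDist.exists_norm_finsetSum_le_of_nonempty hne
      (fun k : ℕ => S (((a + k * (p : ℤ) ^ (n + 1) : ℤ) : ℚ) / (p : ℚ) ^ (n + 2)))
    exact hk.trans_lt (h2 _ (ss_ndvd ha k n))

/-- if all symbols of level `≥ n0` are small then the periods are small -/
theorem engSS [NeZero M] (hp : p.Prime) (hpn : ‖(p : K)‖ < 1) (hM : ¬ p ∣ M) (hT : TLaw M ε S)
    (hH : HLaw p M ε A S) (hA : ‖A‖ ≤ 1) (n0 : ℕ)
    (hμ : ∀ n, n0 ≤ n → ∀ a : ℤ, ¬ (p : ℤ) ∣ a → ‖S (a / (p : ℚ) ^ n)‖ < c)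
    {b d : ℤ} (hbd : IsCoprime b d) (hd : (M : ℤ) ∣ d - 1) : ‖Fv S b d - S 0‖ < c := by
  have hall : ∀ n, ∀ a : ℤ, ¬ (p : ℤ) ∣ a → ‖S (a / (p : ℚ) ^ n)‖ < c := by
    induction n0 with
    | zero => exact fun n => hμ n (Nat.zero_le n)
    | succ m ih =>
      refine ih fun n hn => ?_
      rcases hn.eq_or_lt with rfl | hlt
      · exact ss_down hp hM hH hA _ (hμ _ le_rfl) (hμ _ (by omega))
      · exact hμ n hlt
  have hp1 : ¬ (p : ℤ) ∣ 1 := by
    intro h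
    exact hp.one_lt.ne' (by exact_mod_cast Int.eq_one_of_dvd_one (by positivity) h)
  have h0 : ‖S 0‖ < c := by
    have := hall 0 1 hp1
    have h2 := hT.per 0 1
    simp only [zero_add] at h2
    simpa [← h2] using this
  have hc : 0 < c := (norm_nonneg _).trans_lt h0
  have he := ss_eps (ε := ε) hp hM
  have hu : ∀ j : ℤ, ‖((1 : K) / ε (p : ZMod M)) ^ j * S 0‖ < c := by
    intro j
    rw [norm_mul, norm_zpow, norm_div, he, norm_one]
    simpa using h0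
  have hcop := ss_cop hp hM
  have hval : ∀ (n : ℕ) (a : ℤ), (n = 0 ∨ ¬ (p : ℤ) ∣ a) →
      ‖S (a / (p : ℚ) ^ n) - ((1 : K) / ε (p : ZMod M)) ^ (-(n : ℤ)) * S 0‖ < c := by
    intro n a ha
    refine ss_sub_lt ?_ (hu _)
    rcases ha with rfl | ha
    · have h2 := hT.per 0 a
      simp only [zero_add] at h2
      simpa [h2] using h0
    · exact hall n a ha
  have hcol : ∀ h ∈ Gam p M 1, ∀ j a' c', Prim p h.a h.c j a' c' →
      ‖Fv S h.b h.d - Fv S a' c'‖ < c := by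
    intro h hh j a' c' h1
    obtain ⟨j', b', d', h2⟩ := prim_col2 hp hh
    have h3 := engA_col hp hcop hT (α := 1) norm_one hval (by simpa using hc) hh h1 h2
    have h4 := ss_add_lt h3 (hu j')
    rw [one_zpow, sub_self, zero_mul, add_zero, sub_right_comm, sub_add_cancel] at h4
    exact h4
  refine eng0 hp hpn (N := M) (r := 0) hcop (by simp) hT hc (fun _ _ => S 0) rfl
    ⟨‖S 0‖, fun _ _ => le_rfl⟩ (fun _ _ _ _ => rfl) ?_ ?_ hbd hd
  · intro h hh h' hh' ha hc'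
    obtain ⟨j, a', c', h1, -⟩ := prim_col1 hp hcop hh
    have h2 := ss_sub_lt (hcol h hh j a' c' h1) (hcol h' hh' j a' c' (by rwa [← ha, ← hc']))
    simpa using h2
  · refine ⟨M.totient, Nat.totient_pos.2 (Nat.pos_of_ne_zero (NeZero.ne M)), ?_,
      fun _ _ => by simpa using hc⟩
    have h1 : p ^ M.totient ≡ 1 [MOD M] :=
      Nat.ModEq.pow_totient ((Nat.Prime.coprime_iff_not_dvd hp).2 hM)
    have h2 : (M : ℤ) ∣ (p : ℤ) ^ M.totient - 1 := by exact_mod_cast h1.symm.dvd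
    exact_mod_cast RM.of_dvd p h2

/-- integrality in the non-ordinary case -/
theorem ss_int [NeZero M] (hp : p.Prime) (hpn : ‖(p : K)‖ < 1) (hM : ¬ p ∣ M) (hT : TLaw M ε S)
    (hH : HLaw p M ε A S) (hA : ‖A‖ < 1)
    (hP : ∀ b d : ℤ, IsCoprime b d → (M : ℤ) ∣ d - 1 → ‖Fv S b d - S 0‖ ≤ c)
    (n : ℕ) (a : ℤ) (ha : ¬ (p : ℤ) ∣ a) : ‖S (a / (p : ℚ) ^ n)‖ ≤ c := by
  obtain ⟨B, hB⟩ := sd_bdd hT
  have hB0 : 0 ≤ B := (norm_nonneg _).trans (hB 0)
  have hc0 : 0 ≤ c := (norm_nonneg _).trans (hP 0 1 isCoprime_one_right (by simp))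
  set ρ := max ‖A‖ ‖(p : K)‖ with hρ
  have hρ0 : 0 ≤ ρ := (norm_nonneg _).trans (le_max_left _ _)
  have hρ1 : ρ < 1 := max_lt hA hpn
  have key : ∀ i : ℕ, ∀ n, ∀ a : ℤ, ¬ (p : ℤ) ∣ a →
      ‖S (a / (p : ℚ) ^ n)‖ ≤ max (ρ ^ i * B) c := by
    intro i
    induction i with
    | zero => intro n a _; simpa using Or.inl (hB _)
    | succ i ih =>
      intro n a ha
      have hmul : ∀ {x y : K}, ‖x‖ ≤ ρ → ‖y‖ ≤ max (ρ ^ i * B) c →
          ‖x * y‖ ≤ max (ρ ^ (i + 1) * B) c := by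
        intro x y hx hy
        rw [norm_mul]
        refine (mul_le_mul hx hy (norm_nonneg _) hρ0).trans ?_
        rw [mul_max_of_nonneg _ _ hρ0]
        refine max_le_max (le_of_eq (by ring)) (mul_le_of_le_one_left hc0 hρ1.le)
      have h := congrArg norm (ss_three hp hH n a)
      rw [norm_mul, ss_eps hp hM, one_mul] at h
      rw [h]
      have hsum : ∑ k ∈ Finset.range p,
          S (((a + k * (p : ℤ) ^ (n + 1) : ℤ) : ℚ) / (p : ℚ) ^ (n + 2)) =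
          (p : K) * S (a / (p : ℚ) ^ (n + 2)) + ∑ k ∈ Finset.range p,
            (S (((a + k * (p : ℤ) ^ (n + 1) : ℤ) : ℚ) / (p : ℚ) ^ (n + 2)) -
              S (a / (p : ℚ) ^ (n + 2))) := by
        rw [Finset.sum_sub_distrib]; simp
      rw [hsum, sub_eq_add_neg]
      refine (IsUltrametricDist.norm_add_le_max _ _).trans (max_le ?_ ?_)
      · exact hmul (le_max_left _ _) (ih _ a ha)
      · rw [norm_neg]
        refine (IsUltrametricDist.norm_add_le_max _ _).trans (max_le ?_ ?_)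
        · exact hmul (le_max_right _ _) (ih _ a ha)
        · refine le_max_of_le_right ?_
          refine IsUltrametricDist.norm_sum_le_of_forall_le_of_nonneg hc0 fun k _ => ?_
          exact orbit_le hp (N := M) (r := 0) (ss_cop hp hM) (by simp) hT hP (Nat.zero_le _) ha
            (ss_ndvd ha k n) (by simp)
  have hlim : Filter.Tendsto (fun i : ℕ => max (ρ ^ i * B) c) Filter.atTop (nhds (max (0 * B) c)) :=
    ((tendsto_pow_atTop_nhds_zero_of_lt_one hρ0 hρ1).mul_const B).max tendsto_const_nhds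
  have := ge_of_tendsto' hlim (fun i => key i n a ha)
  simpa [hc0] using this

end

end Pool.Agent.P.MP_20768c_nt
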