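import Pool.Agent.P.MP_20768c_nt.Ser1a

namespace Pool.Agent.P.MP_20768c_nt

variable {p n a a' j j' : ℕ}

lemma ser1_wd_two : wd 2 = 2 := by simp [wd]

lemma ser1_wd_odd (h : p ≠ 2) : wd p = 1 := by simp [wd, h]

lemma ser1_tot_two : (2 ^ wd 2).totient = 2 := by
  rw [ser1_wd_two]; decide

lemma ser1_tot_odd (hp : p.Prime) (h : p ≠ 2) : (p ^ wd p).totient = p - 1 := by
  rw [ser1_wd_odd h, pow_one, Nat.totient_prime hp]

/-- half of `φ(q)` is prime to `p` -/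
lemma ser1_totient_half (hp : p.Prime) :
    ∃ t : ℕ, (p ^ wd p).totient = 2 * t ∧ ¬ p ∣ t := by
  by_cases h : p = 2
  · subst h
    exact ⟨1, by rw [ser1_tot_two], by norm_num⟩
  · obtain ⟨k, hk⟩ := hp.odd_of_ne_two h
    refine ⟨k, by rw [ser1_tot_odd hp h]; omega, fun hd => ?_⟩
    have h2 := hp.two_le
    have hk0 : 0 < k := by omega
    have := Nat.le_of_dvd hk0 hd
    omega

lemma ser1_pow_cong (hp : p.Prime) {x y : ℤ} (h : x ≡ y [ZMOD ((p : ℤ) ^ (n + wd p))]) :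
    x ^ (p ^ wd p).totient ≡ y ^ (p ^ wd p).totient [ZMOD ((p : ℤ) ^ (n + 2 * wd p - 1))] := by
  by_cases h2 : p = 2
  · subst h2
    rw [ser1_tot_two]
    rw [ser1_wd_two] at h ⊢
    obtain ⟨k, hk⟩ := h.dvd
    have hy : y = x + (2 : ℤ) ^ (n + 2) * k := by push_cast at hk; linarith
    apply (Int.modEq_iff_dvd).2
    refine ⟨x * k + 2 ^ (n + 1) * k ^ 2, ?_⟩
    have e : n + 2 * 2 - 1 = n + 3 := by omega
    rw [e, hy]
    push_cast
    ring
  · rw [ser1_wd_odd h2] at h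
    have e : n + 2 * wd p - 1 = n + 1 := by rw [ser1_wd_odd h2]; omega
    rw [e]
    exact h.pow _

lemma ser1_isLog_iff : IsLog p n a j ↔
    (a : ℤ) ^ (p ^ wd p).totient ≡ (((1 + p ^ wd p) ^ (j * (p ^ wd p).totient) : ℕ) : ℤ)
      [ZMOD ((p : ℤ) ^ (n + 2 * wd p - 1))] := by
  unfold IsLog
  rw [← Int.natCast_modEq_iff]
  push_cast
  rfl

lemma isLog_not_dvd (hp : p.Prime) (h : IsLog p n a j) : ¬ p ∣ a := by
  intro hd
  have hw := wd_pos p
  have hm : p ∣ p ^ (n + 2 * wd p - 1) := dvd_pow_self p (by omega)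
  have h1 : a ^ (p ^ wd p).totient ≡ (1 + p ^ wd p) ^ (j * (p ^ wd p).totient) [MOD p] :=
    Nat.ModEq.of_dvd hm h
  have hφ : (p ^ wd p).totient ≠ 0 := (Nat.totient_pos.2 (pow_pos hp.pos _)).ne'
  have h2 : p ∣ a ^ (p ^ wd p).totient := hd.trans (dvd_pow_self a hφ)
  have h3 : p ∣ (1 + p ^ wd p) ^ (j * (p ^ wd p).totient) :=
    (Nat.ModEq.dvd_iff h1 dvd_rfl).1 h2
  have h4 : p ∣ 1 + p ^ wd p := hp.dvd_of_dvd_pow h3
  have h5 : p ∣ p ^ wd p := dvd_pow_self p hw.ne'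
  have h6 : p ∣ 1 := (Nat.dvd_add_left h5).1 h4
  exact hp.one_lt.ne' (Nat.dvd_one.1 h6)

lemma isLog_cong (hp : p.Prime) (h : IsLog p n a j) (ha : a ≡ a' [MOD p ^ (n + wd p)]) :
    IsLog p n a' j := by
  rw [ser1_isLog_iff] at h ⊢
  have ha' : (a : ℤ) ≡ a' [ZMOD ((p : ℤ) ^ (n + wd p))] := by
    have := Int.natCast_modEq_iff.2 ha
    push_cast at this
    exact this
  exact (ser1_pow_cong hp ha').symm.trans h

lemma isLog_neg (hp : p.Prime) (h : IsLog p n a j) (ha : a ≤ p ^ (n + wd p)) :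
    IsLog p n (p ^ (n + wd p) - a) j := by
  rw [ser1_isLog_iff] at h ⊢
  have h1 : ((p ^ (n + wd p) - a : ℕ) : ℤ) ≡ -(a : ℤ) [ZMOD ((p : ℤ) ^ (n + wd p))] := by
    rw [Nat.cast_sub ha]
    push_cast
    apply (Int.modEq_iff_dvd).2
    exact ⟨-1, by ring⟩
  have h2 := ser1_pow_cong hp h1
  obtain ⟨t, ht, -⟩ := ser1_totient_half hp
  have h3 : (-(a : ℤ)) ^ (p ^ wd p).totient = (a : ℤ) ^ (p ^ wd p).totient := by
    rw [ht, pow_mul, pow_mul, neg_sq]
  rw [h3] at h2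
  exact h2.trans h

lemma isLog_inj (hp : p.Prime) (h : IsLog p n a j) (h' : IsLog p n a' j)
    (ha : a ≡ a' [MOD p ^ wd p]) : a ≡ a' [MOD p ^ (n + wd p)] := by
  have hna := isLog_not_dvd hp h
  rw [ser1_isLog_iff] at h h'
  have h1 := (h'.trans h.symm).dvd
  have ha' : ((p : ℤ) ^ wd p) ∣ (a : ℤ) - a' := by
    have := (Int.natCast_modEq_iff.2 ha.symm).dvd
    push_cast at this
    exact this
  have hpz : Prime (p : ℤ) := Nat.prime_iff_prime_int.1 hp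
  have hnaz : ¬ (p : ℤ) ∣ (a : ℤ) := fun hd => hna (Int.natCast_dvd_natCast.1 hd)
  have key : ((p : ℤ) ^ (n + wd p)) ∣ (a : ℤ) - a' := by
    by_cases h2 : p = 2
    · subst h2
      rw [ser1_tot_two] at h1
      rw [ser1_wd_two] at h1 ha' ⊢
      have e : n + 2 * 2 - 1 = (n + 2) + 1 := by omega
      rw [e] at h1
      obtain ⟨k, hk⟩ := ha'
      have e2 : (a : ℤ) ^ 2 - (a' : ℤ) ^ 2 = (((a : ℤ) - a') * (a - 2 * k)) * ((2 : ℕ) : ℤ) := by
        have : (a' : ℤ) = a - 4 * k := by push_cast at hk; linarith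
        rw [this]; push_cast; ring
      rw [e2, pow_succ] at h1
      have h3 := (mul_dvd_mul_iff_right (by norm_num : ((2 : ℕ) : ℤ) ≠ 0)).1 h1
      have h4 : ¬ ((2 : ℕ) : ℤ) ∣ (a : ℤ) - 2 * k := by
        intro hd
        apply hnaz
        have : (a : ℤ) = (a - 2 * k) + ((2 : ℕ) : ℤ) * k := by push_cast; ring
        rw [this]
        exact dvd_add hd (dvd_mul_right _ _)
      exact hpz.pow_dvd_of_dvd_mul_right _ h4 h3
    · rw [ser1_tot_odd hp h2] at h1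
      rw [ser1_wd_odd h2] at h1 ha' ⊢
      rw [pow_one] at ha'
      have e : n + 2 * 1 - 1 = n + 1 := by omega
      rw [e] at h1
      have hn : ¬ (p : ℤ) ∣ ((p - 1 : ℕ) : ℤ) := by
        intro hd
        have h5 := Int.natCast_dvd_natCast.1 hd
        have h6 := hp.two_le
        have := Nat.le_of_dvd (by omega) h5
        omega
      have h3 := not_dvd_geom_sum₂ hpz ha' hnaz hn
      rw [← Commute.geom_sum₂_mul (Commute.all _ _)] at h1
      exact hpz.pow_dvd_of_dvd_mul_left _ h3 h1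
  have : (a' : ℤ) ≡ a [ZMOD ((p ^ (n + wd p) : ℕ) : ℤ)] := by
    apply (Int.modEq_iff_dvd).2
    push_cast
    exact key
  exact (Int.natCast_modEq_iff.1 this).symm

/-- half of `φ(q)` is prime to `p` -/
lemma totient_half (hp : p.Prime) : ∃ t : ℕ, (p ^ wd p).totient = 2 * t ∧ ¬ p ∣ t :=
  ser1_totient_half hp

end Pool.Agent.P.MP_20768c_nt
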