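import Pool.Agent.P.MP_20768c_nt.Defs

namespace Pool.Agent.P.MP_20768c_nt

variable {p n a a' j j' : ℕ}

lemma wd_pos (p : ℕ) : 0 < wd p := by unfold wd; split_ifs <;> norm_num

lemma ser1a_exp (n p : ℕ) : n + 2 * wd p - 1 = n + (2 * wd p - 1) := by
  have := wd_pos p
  omega

lemma ser1a_pow (p m : ℕ) : ∃ y : ℕ, (1 + p) ^ m = 1 + p * (m + p * y) := by
  induction m with
  | zero => exact ⟨0, by simp⟩
  | succ m ih =>
    obtain ⟨y, hy⟩ := ih
    exact ⟨y + m + p * y, by rw [pow_succ, hy]; ring⟩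

lemma ser1a_v (hp : p.Prime) : ∃ c : ℕ, ¬ p ∣ c ∧
    (1 + p ^ wd p) ^ (p ^ wd p).totient = 1 + p ^ (2 * wd p - 1) * c ∧
    2 * wd p - 1 + 2 ≤ p * (2 * wd p - 1) := by
  by_cases h2 : p = 2
  · subst h2
    refine ⟨3, by norm_num, ?_, by simp [wd]⟩
    have h4 : Nat.totient 4 = 2 := by decide
    simp [wd, h4]
  · have h3 : 3 ≤ p := by have := hp.two_le; omega
    obtain ⟨y, hy⟩ := ser1a_pow p (p - 1)
    refine ⟨p - 1 + p * y, fun h => ?_, ?_, ?_⟩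
    · have h1 : p ∣ p - 1 := (Nat.dvd_add_left (Dvd.intro y rfl)).1 h
      have := Nat.le_of_dvd (by omega) h1
      omega
    · simp only [wd, if_neg h2, pow_one, Nat.totient_prime hp]
      simpa using hy
    · simp only [wd, if_neg h2]
      omega

lemma ser1a_a (hp : p.Prime) (ha : ¬ p ∣ a) :
    a ^ (p ^ wd p).totient ≡ 1 [MOD p ^ (2 * wd p - 1)] := by
  by_cases h2 : p = 2
  · subst h2
    have h4 : Nat.totient 4 = 2 := by decide
    have h8 : a % 8 = 1 ∨ a % 8 = 3 ∨ a % 8 = 5 ∨ a % 8 = 7 := by omega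
    have e : a ^ 2 % 8 = 1 := by
      rw [Nat.pow_mod]
      rcases h8 with h | h | h | h <;> rw [h]
    simpa [wd, h4, Nat.ModEq] using e
  · have hc : a.Coprime p := ((Nat.Prime.coprime_iff_not_dvd hp).2 ha).symm
    simpa [wd, if_neg h2] using Nat.ModEq.pow_totient hc

lemma ser1a_ord (hp : p.Prime) (n i i' : ℕ) :
    ((1 + p ^ wd p) ^ (p ^ wd p).totient) ^ i ≡ ((1 + p ^ wd p) ^ (p ^ wd p).totient) ^ i'
      [MOD p ^ (n + (2 * wd p - 1))] ↔ i ≡ i' [MOD p ^ n] := by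
  obtain ⟨c, hc, hv, ht⟩ := ser1a_v hp
  have hw := wd_pos p
  have ho := ZMod.orderOf_one_add_mul_prime_pow hp (2 * wd p - 1) (by omega) ht (c : ℤ)
    (by exact_mod_cast hc) n
  rw [hv, ← ZMod.natCast_eq_natCast_iff]
  push_cast at ho ⊢
  have hf : IsOfFinOrder (1 + (p : ZMod (p ^ (n + (2 * wd p - 1)))) ^ (2 * wd p - 1) * c) := by
    rw [← orderOf_pos_iff, ho]
    exact pow_pos hp.pos n
  rw [hf.pow_eq_pow_iff_modEq, ho]

lemma ser1a_iff (p n a j : ℕ) : IsLog p n a j ↔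
    a ^ (p ^ wd p).totient ≡ ((1 + p ^ wd p) ^ (p ^ wd p).totient) ^ j
      [MOD p ^ (n + (2 * wd p - 1))] := by
  rw [IsLog, ser1a_exp, ← pow_mul, mul_comm j]

lemma isLog_exists (hp : p.Prime) (n : ℕ) (ha : ¬ p ∣ a) : ∃ j, j < p ^ n ∧ IsLog p n a j := by
  have hb := ser1a_a hp ha
  have hord := ser1a_ord hp n
  obtain ⟨c, -, hv, -⟩ := ser1a_v hp
  simp only [ser1a_iff]
  set V := (1 + p ^ wd p) ^ (p ^ wd p).totient with hV
  set b := a ^ (p ^ wd p).totient with hbd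
  set t := 2 * wd p - 1 with ht
  have hQ : 0 < p ^ t := pow_pos hp.pos t
  have hP : 0 < p ^ (n + t) := pow_pos hp.pos _
  have hdv : p ^ t ∣ p ^ (n + t) := pow_dvd_pow p (by omega)
  have hV1 : ∀ i, V ^ i ≡ 1 [MOD p ^ t] := fun i => by
    have h1 : V ≡ 1 [MOD p ^ t] := by
      rw [hv]
      simp [Nat.ModEq]
    simpa using h1.pow i
  have key : ∀ x y : ℕ, x ≡ 1 [MOD p ^ t] → y ≡ 1 [MOD p ^ t] →
      x % p ^ (n + t) / p ^ t = y % p ^ (n + t) / p ^ t → x ≡ y [MOD p ^ (n + t)] := by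
    intro x y hx hy h
    have h1 : x % p ^ (n + t) % p ^ t = y % p ^ (n + t) % p ^ t := by
      rw [Nat.mod_mod_of_dvd _ hdv, Nat.mod_mod_of_dvd _ hdv]
      exact hx.trans hy.symm
    unfold Nat.ModEq
    rw [← Nat.div_add_mod (x % p ^ (n + t)) (p ^ t), ← Nat.div_add_mod (y % p ^ (n + t)) (p ^ t),
      h, h1]
  have hlt : ∀ x : ℕ, x % p ^ (n + t) / p ^ t < p ^ n := fun x => by
    rw [Nat.div_lt_iff_lt_mul hQ, ← pow_add]
    exact Nat.mod_lt _ hP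
  obtain ⟨j, hj, e⟩ := Finset.surj_on_of_inj_on_of_card_le (s := Finset.range (p ^ n))
    (t := Finset.range (p ^ n)) (fun i _ => V ^ i % p ^ (n + t) / p ^ t)
    (fun i _ => Finset.mem_range.2 (hlt _))
    (fun i i' hi hi' h => by
      have h1 := (hord i i').1 (key _ _ (hV1 i) (hV1 i') h)
      exact Nat.ModEq.eq_of_lt_of_lt h1 (Finset.mem_range.1 hi) (Finset.mem_range.1 hi'))
    le_rfl (b % p ^ (n + t) / p ^ t) (Finset.mem_range.2 (hlt _))
  exact ⟨j, Finset.mem_range.1 hj, key _ _ hb (hV1 j) e⟩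

lemma isLog_unique (hp : p.Prime) (h : IsLog p n a j) (h' : IsLog p n a j') :
    j ≡ j' [MOD p ^ n] := by
  rw [ser1a_iff] at h h'
  exact (ser1a_ord hp n j j').1 (h.symm.trans h')

lemma isLog_of_modEq (hp : p.Prime) (h : IsLog p n a j) (hj : j ≡ j' [MOD p ^ n]) :
    IsLog p n a j' := by
  rw [ser1a_iff] at h ⊢
  exact h.trans ((ser1a_ord hp n j j').2 hj)

lemma isLog_succ (h : IsLog p (n + 1) a j) : IsLog p n a j := by
  rw [ser1a_iff] at h ⊢
  exact h.of_dvd (pow_dvd_pow p (by omega))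

end Pool.Agent.P.MP_20768c_nt
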