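import Mathlib

open Filter Topology

namespace Pool.Agent.P.MP_20768c_nt

/-- Riemann sum of `C(x, k)` against the distribution `ν` at level `p ^ n` -/
def Rs {K : Type*} [Field K] (p : ℕ) (ν : ℕ → ℕ → K) (k n : ℕ) : K :=
  ∑ j ∈ Finset.range (p ^ n), ν n j * (j.choose k : K)

/-- `ν n j` is the mass of `j + p ^ n ℤ_p` -/
def Compat {K : Type*} [Field K] (p : ℕ) (ν : ℕ → ℕ → K) : Prop :=
  ∀ n j, j < p ^ n → ν n j = ∑ t ∈ Finset.range p, ν (n + 1) (j + t * p ^ n)

variable {K : Type*} [NormedField K] [IsUltrametricDist K] {p : ℕ} {ν : ℕ → ℕ → K}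

lemma ser2_sum_mul {A : Type*} [AddCommMonoid A] (m q : ℕ) (g : ℕ → A) :
    ∑ x ∈ Finset.range (m * q), g x =
      ∑ j ∈ Finset.range q, ∑ t ∈ Finset.range m, g (j + t * q) := by
  induction m with
  | zero => simp
  | succ m ih =>
    rw [Nat.succ_mul, Finset.sum_range_add, ih, ← Finset.sum_add_distrib]
    refine Finset.sum_congr rfl fun j _ => ?_
    rw [Finset.sum_range_succ, add_comm (m * q) j]

/-- sums over `range (p ^ (n + 1))` by residue mod `p ^ n` -/
lemma sum_range_succ_pow {A : Type*} [AddCommMonoid A] (p n : ℕ) (g : ℕ → A) :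
    ∑ x ∈ Finset.range (p ^ (n + 1)), g x =
      ∑ j ∈ Finset.range (p ^ n), ∑ t ∈ Finset.range p, g (j + t * p ^ n) := by
  rw [pow_succ', ser2_sum_mul]

lemma ser2_choose [CharZero K] (j y k : ℕ) :
    ‖(((j + y).choose k : ℕ) : K) - (j.choose k : K)‖ ≤ ‖(y : K)‖ / ‖(k.factorial : K)‖ := by
  have hk : (0 : ℝ) < ‖(k.factorial : K)‖ :=
    norm_pos_iff.2 (Nat.cast_ne_zero.2 k.factorial_ne_zero)
  obtain ⟨z, hz⟩ := Polynomial.sub_dvd_eval_sub ((j + y : ℕ) : ℤ) (j : ℤ) (descPochhammer ℤ k)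
  rw [descPochhammer_eval_eq_descFactorial, descPochhammer_eval_eq_descFactorial,
    Nat.descFactorial_eq_factorial_mul_choose, Nat.descFactorial_eq_factorial_mul_choose] at hz
  have h2 : ((((j + y).choose k : ℕ) : K) - (j.choose k : K)) * (k.factorial : K) = (y : K) * (z : K) := by
    have := congrArg (fun x : ℤ => (x : K)) hz
    push_cast at this
    linear_combination this
  rw [le_div_iff₀ hk, ← norm_mul, h2, norm_mul]
  exact mul_le_of_le_one_right (norm_nonneg _) (IsUltrametricDist.norm_intCast_le_one K z)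

lemma ser2_step [CharZero K] (hν : Compat p ν) {B : ℝ}
    (hB : ∀ n j, j < p ^ n → ‖ν n j‖ ≤ B) (k n : ℕ) :
    ‖Rs p ν k (n + 1) - Rs p ν k n‖ ≤ B / ‖(k.factorial : K)‖ * ‖(p : K)‖ ^ n := by
  have hB0 : 0 ≤ B := (norm_nonneg _).trans (hB 0 0 (by simp))
  have e : Rs p ν k (n + 1) - Rs p ν k n = ∑ j ∈ Finset.range (p ^ n), ∑ t ∈ Finset.range p,
      ν (n + 1) (j + t * p ^ n) * ((((j + t * p ^ n).choose k : ℕ) : K) - (j.choose k : K)) := by
    unfold Rs
    rw [sum_range_succ_pow, ← Finset.sum_sub_distrib]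
    refine Finset.sum_congr rfl fun j hj => ?_
    rw [hν n j (Finset.mem_range.1 hj), Finset.sum_mul, ← Finset.sum_sub_distrib]
    exact Finset.sum_congr rfl fun t _ => by ring
  rw [e]
  have h0 : 0 ≤ B / ‖(k.factorial : K)‖ * ‖(p : K)‖ ^ n := by positivity
  refine IsUltrametricDist.norm_sum_le_of_forall_le_of_nonneg h0 fun j hj => ?_
  refine IsUltrametricDist.norm_sum_le_of_forall_le_of_nonneg h0 fun t ht => ?_
  have hj' := Finset.mem_range.1 hj
  have ht' := Finset.mem_range.1 ht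
  have hlt : j + t * p ^ n < p ^ (n + 1) := by
    have : (t + 1) * p ^ n ≤ p * p ^ n := Nat.mul_le_mul_right _ ht'
    rw [pow_succ']
    nlinarith
  have h1 := ser2_choose (K := K) j (t * p ^ n) k
  have h2 : ‖((t * p ^ n : ℕ) : K)‖ ≤ ‖(p : K)‖ ^ n := by
    push_cast
    rw [norm_mul, norm_pow]
    exact mul_le_of_le_one_left (by positivity) (IsUltrametricDist.norm_natCast_le_one K t)
  rw [norm_mul]
  calc _ ≤ B * (‖(p : K)‖ ^ n / ‖(k.factorial : K)‖) :=
        mul_le_mul (hB _ _ hlt) (h1.trans (by gcongr)) (norm_nonneg _) hB0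
    _ = _ := by ring

theorem ser_conv [CompleteSpace K] [CharZero K] (hpn : ‖(p : K)‖ < 1) (hν : Compat p ν) {B : ℝ}
    (hB : ∀ n j, j < p ^ n → ‖ν n j‖ ≤ B) (k : ℕ) : ∃ c, Tendsto (Rs p ν k) atTop (𝓝 c) := by
  refine cauchySeq_tendsto_of_complete
    (cauchySeq_of_le_geometric ‖(p : K)‖ (B / ‖(k.factorial : K)‖) hpn fun n => ?_)
  rw [dist_comm, dist_eq_norm]
  exact ser2_step hν hB k n

theorem ser_le {C : ℝ} (hC : 0 ≤ C) (hB : ∀ n j, j < p ^ n → ‖ν n j‖ ≤ C) {k : ℕ} {c : K}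
    (hc : Tendsto (Rs p ν k) atTop (𝓝 c)) : ‖c‖ ≤ C := by
  refine le_of_tendsto' hc.norm fun n => ?_
  refine IsUltrametricDist.norm_sum_le_of_forall_le_of_nonneg hC fun j hj => ?_
  rw [norm_mul]
  exact (mul_le_of_le_one_right (norm_nonneg _)
    (IsUltrametricDist.norm_natCast_le_one K _)).trans (hB n j (Finset.mem_range.1 hj))

end Pool.Agent.P.MP_20768c_nt
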