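import Pool.Agent.P.MP_20768c_nt.Ser1
import Pool.Agent.P.MP_20768c_nt.Ser2

namespace Pool.Agent.P.MP_20768c_nt

open Classical in
/-- the branch `ψ` of `μ`, pushed to `ℤ_p` by the logarithm -/
noncomputable def nu {p : ℕ} [Fact p.Prime] (μ : ℕ → ℕ → ℂ_[p])
    (ψ : DirichletCharacter ℂ_[p] (p ^ wd p)) (n j : ℕ) : ℂ_[p] :=
  ∑ a ∈ Finset.range (p ^ (n + wd p)),
    if IsLog p n a j then ψ (a : ZMod (p ^ wd p)) * μ (n + wd p) a else 0

variable {p : ℕ} [Fact p.Prime] {μ : ℕ → ℕ → ℂ_[p]}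

lemma riem_eq (ψ : DirichletCharacter ℂ_[p] (p ^ wd p)) (k : ℕ) :
    riem μ ψ k = Rs p (nu μ ψ) k := by
  funext n
  unfold riem Rs nu
  refine Finset.sum_congr rfl fun j _ => ?_
  rw [Finset.sum_mul]
  refine Finset.sum_congr rfl fun a _ => ?_
  rw [ite_mul, zero_mul]

open Classical in
lemma ser3_fib {n a j : ℕ} (hj : j < p ^ n) (x : ℂ_[p]) :
    ∑ t ∈ Finset.range p, (if IsLog p (n + 1) a (j + t * p ^ n) then x else 0) =
      if IsLog p n a j then x else 0 := by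
  have hp : p.Prime := Fact.out
  have hpn : 0 < p ^ n := pow_pos hp.pos n
  split_ifs with h
  · obtain ⟨j', hj', h'⟩ := isLog_exists hp (n + 1) (isLog_not_dvd hp h)
    have e1 : j' % p ^ n = j := by
      have := isLog_unique hp (isLog_succ h') h
      rwa [Nat.ModEq, Nat.mod_eq_of_lt hj] at this
    have e2 : j + j' / p ^ n * p ^ n = j' := by rw [← e1, Nat.mod_add_div']
    have e3 : j' / p ^ n < p := (Nat.div_lt_iff_lt_mul hpn).2 (by rwa [← pow_succ'])
    rw [Finset.sum_eq_single (j' / p ^ n), e2, if_pos h']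
    · intro t ht hne
      refine if_neg fun h2 => hne ?_
      have h3 : j + t * p ^ n < p ^ (n + 1) := by
        have := Nat.mul_le_mul_right (p ^ n) (Nat.succ_le_of_lt (Finset.mem_range.1 ht))
        rw [pow_succ']
        rw [Nat.succ_mul] at this
        omega
      have h4 := (isLog_unique hp h2 h').eq_of_lt_of_lt h3 hj'
      exact Nat.eq_of_mul_eq_mul_right hpn (by omega)
    · exact fun h2 => absurd (Finset.mem_range.2 e3) h2
  · refine Finset.sum_eq_zero fun t _ => if_neg fun h2 => h ?_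
    exact isLog_of_modEq hp (isLog_succ h2) (by simp [Nat.ModEq])

lemma nu_compat
    (hμ : ∀ n a, 0 < n → ¬ p ∣ a → μ n a = ∑ t ∈ Finset.range p, μ (n + 1) (a + t * p ^ n))
    (ψ : DirichletCharacter ℂ_[p] (p ^ wd p)) : Compat p (nu μ ψ) := by
  have hp : p.Prime := Fact.out
  intro n j hj
  unfold nu
  rw [Finset.sum_comm, Finset.sum_congr rfl fun a _ => ser3_fib hj _, Nat.add_right_comm n 1,
    sum_range_succ_pow]
  refine Finset.sum_congr rfl fun a _ => ?_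
  have hc : ∀ t, a ≡ a + t * p ^ (n + wd p) [MOD p ^ (n + wd p)] := fun t => by simp [Nat.ModEq]
  split_ifs with h
  · rw [hμ _ a (Nat.add_pos_right _ (wd_pos p)) (isLog_not_dvd hp h), Finset.mul_sum]
    refine Finset.sum_congr rfl fun t _ => ?_
    rw [if_pos (isLog_cong hp h (hc t)), (ZMod.natCast_eq_natCast_iff _ _ _).2
      ((hc t).of_dvd (pow_dvd_pow p (Nat.le_add_left _ _)))]
  · exact (Finset.sum_eq_zero fun t _ => if_neg fun h2 => h (isLog_cong hp h2 (hc t).symm)).symm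

lemma nu_bdd {B : ℝ} (hB0 : 0 ≤ B) (hB : ∀ n a, ‖μ n a‖ ≤ B)
    (ψ : DirichletCharacter ℂ_[p] (p ^ wd p)) (n j : ℕ) : ‖nu μ ψ n j‖ ≤ B := by
  refine IsUltrametricDist.norm_sum_le_of_forall_le_of_nonneg hB0 fun a _ => ?_
  split_ifs
  · rw [norm_mul]
    exact (mul_le_of_le_one_left (norm_nonneg _) (ψ.norm_le_one _)).trans (hB _ _)
  · rwa [norm_zero]

lemma nu_le {s : ℂ_[p]} {ψ : DirichletCharacter ℂ_[p] (p ^ wd p)} (hψ : ψ (-1) = s) {C : ℝ}
    (hC : 0 ≤ C) {n : ℕ}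
    (h : ∀ a, a < p ^ (n + wd p) → ¬ p ∣ a →
      ‖μ (n + wd p) a + s * μ (n + wd p) (p ^ (n + wd p) - a)‖ ≤ C) (j : ℕ) :
    ‖nu μ ψ n j‖ ≤ C := by
  classical
  have hp : p.Prime := Fact.out
  obtain ⟨g, hg⟩ : ∃ g : ℕ → ℂ_[p], ∀ a, g a =
    if IsLog p n a j then ψ (a : ZMod (p ^ wd p)) * μ (n + wd p) a else 0 := ⟨_, fun _ => rfl⟩
  have hQ : p ∣ p ^ (n + wd p) := dvd_pow_self p (Nat.add_pos_right _ (wd_pos p)).ne'
  have h2 : ∀ a, ¬ p ∣ a → 2 * a ≠ p ^ (n + wd p) := by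
    intro a ha e
    obtain rfl : p = 2 := (Nat.prime_dvd_prime_iff_eq hp Nat.prime_two).1
      ((hp.dvd_mul.1 (e ▸ hQ)).resolve_right ha)
    have : wd 2 = 2 := rfl
    rw [this, pow_add] at e
    omega
  have h3 : ∀ a, a < p ^ (n + wd p) → ¬ p ∣ a → 0 < a ∧ ¬ p ∣ p ^ (n + wd p) - a := by
    intro a ha ha'
    refine ⟨Nat.pos_of_ne_zero (by rintro rfl; exact ha' (dvd_zero p)), fun e => ha' ?_⟩
    have := Nat.dvd_sub hQ e
    rwa [Nat.sub_sub_self ha.le] at this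
  have e1 : nu μ ψ n j = ∑ a ∈ (Finset.range (p ^ (n + wd p))).filter (¬ p ∣ ·), g a := by
    rw [Finset.sum_filter_of_ne]
    · exact Finset.sum_congr rfl fun a _ => by rw [hg]
    · intro a _ ha
      rw [hg] at ha
      exact isLog_not_dvd hp (ite_ne_right_iff.1 ha).1
  have e2 : ∑ a ∈ ((Finset.range (p ^ (n + wd p))).filter (¬ p ∣ ·)).filter
      (fun a => ¬ 2 * a < p ^ (n + wd p)), g a =
      ∑ a ∈ ((Finset.range (p ^ (n + wd p))).filter (¬ p ∣ ·)).filter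
        (fun a => 2 * a < p ^ (n + wd p)), g (p ^ (n + wd p) - a) := by
    refine Finset.sum_nbij' (fun a => p ^ (n + wd p) - a) (fun a => p ^ (n + wd p) - a)
      ?_ ?_ ?_ ?_ ?_
    all_goals
      intro a ha
      simp only [Finset.mem_filter, Finset.mem_range] at ha ⊢
      obtain ⟨⟨a1, a2⟩, a3⟩ := ha
      obtain ⟨a4, a5⟩ := h3 a a1 a2
      have a6 := h2 a a2
    · exact ⟨⟨by omega, a5⟩, by omega⟩
    · exact ⟨⟨by omega, a5⟩, by omega⟩
    · omega
    · omega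
    · rw [Nat.sub_sub_self a1.le]
  rw [e1, ← Finset.sum_filter_add_sum_filter_not _ (fun a => 2 * a < p ^ (n + wd p)), e2,
    ← Finset.sum_add_distrib]
  refine IsUltrametricDist.norm_sum_le_of_forall_le_of_nonneg hC fun a ha => ?_
  simp only [Finset.mem_filter, Finset.mem_range] at ha
  obtain ⟨⟨a1, a2⟩, -⟩ := ha
  rw [hg, hg]
  by_cases hl : IsLog p n a j
  · have e3 : ψ ((p ^ (n + wd p) - a : ℕ) : ZMod (p ^ wd p)) = ψ (a : ZMod (p ^ wd p)) * s := by
      rw [Nat.cast_sub a1.le, (ZMod.natCast_eq_zero_iff _ _).2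
        (pow_dvd_pow p (Nat.le_add_left _ _)), zero_sub, ← hψ, ← map_mul, mul_neg_one]
    rw [if_pos hl, if_pos (isLog_neg hp hl a1.le), e3, mul_assoc, ← mul_add, norm_mul]
    exact (mul_le_of_le_one_left (norm_nonneg _) (ψ.norm_le_one _)).trans (h a a1 a2)
  · rw [if_neg hl, if_neg fun h4 => hl (by
      have := isLog_neg hp h4 (Nat.sub_le _ _)
      rwa [Nat.sub_sub_self a1.le] at this), add_zero, norm_zero]
    exact hC

end Pool.Agent.P.MP_20768c_nt
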